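import Mathlib

set_option linter.unusedSectionVars false

/-!
Hereditarily Lindelöf sets.
-/

namespace Run7.h584

open Set TopologicalSpace

section
variable {X : Type*} [TopologicalSpace X]

/-- A set whose traces of unions of open sets reduce to countable unions. -/
def HLs (T : Set X) : Prop := ∀ 𝒰 : Set (Set X), (∀ U ∈ 𝒰, IsOpen U) →
  ∃ 𝒱 : Set (Set X), 𝒱 ⊆ 𝒰 ∧ 𝒱.Countable ∧ T ∩ ⋃₀ 𝒰 ⊆ ⋃₀ 𝒱

theorem HLs.mono {T T' : Set X} (h : HLs T') (hT : T ⊆ T') : HLs T := by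
  intro 𝒰 h𝒰
  obtain ⟨𝒱, h1, h2, h3⟩ := h 𝒰 h𝒰
  exact ⟨𝒱, h1, h2, fun x hx => h3 ⟨hT hx.1, hx.2⟩⟩

theorem HLs.iUnion {ι : Type*} [Countable ι] {T : ι → Set X} (h : ∀ i, HLs (T i)) :
    HLs (⋃ i, T i) := by
  intro 𝒰 h𝒰
  choose 𝒱 h1 h2 h3 using fun i => h i 𝒰 h𝒰
  refine ⟨⋃ i, 𝒱 i, iUnion_subset h1, countable_iUnion h2, ?_⟩
  rintro x ⟨hx, hx𝒰⟩
  obtain ⟨i, hi⟩ := mem_iUnion.1 hx
  obtain ⟨V, hV, hxV⟩ := h3 i ⟨hi, hx𝒰⟩
  exact ⟨V, mem_iUnion.2 ⟨i, hV⟩, hxV⟩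

theorem HLs.biUnion {ι : Type*} {I : Set ι} (hI : I.Countable) {T : ι → Set X}
    (h : ∀ i ∈ I, HLs (T i)) : HLs (⋃ i ∈ I, T i) := by
  have : Countable I := hI.to_subtype
  rw [biUnion_eq_iUnion]
  exact HLs.iUnion (fun i => h i.1 i.2)

theorem HLs.union {T T' : Set X} (h : HLs T) (h' : HLs T') : HLs (T ∪ T') := by
  have : T ∪ T' = ⋃ b : Bool, (if b then T else T') := by
    ext x; simp [or_comm]
  rw [this]
  apply HLs.iUnion
  intro b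
  cases b
  · simpa using h'
  · simpa using h

theorem HLs.image {Z : Type*} [TopologicalSpace Z] {φ : Z → X} (hφ : Continuous φ)
    {T : Set Z} (h : HLs T) : HLs (φ '' T) := by
  intro 𝒰 h𝒰
  obtain ⟨𝒱, h1, h2, h3⟩ := h ((fun U => φ ⁻¹' U) '' 𝒰) (by
    rintro _ ⟨U, hU, rfl⟩
    exact (h𝒰 U hU).preimage hφ)
  have h4 : ∀ V ∈ 𝒱, ∃ U ∈ 𝒰, φ ⁻¹' U = V := fun V hV => h1 hV
  choose! g hg1 hg2 using h4
  refine ⟨g '' 𝒱, ?_, h2.image g, ?_⟩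
  · rintro _ ⟨V, hV, rfl⟩
    exact hg1 V hV
  · rintro _ ⟨⟨z, hz, rfl⟩, U, hU, hzU⟩
    obtain ⟨V, hV, hzV⟩ := h3 ⟨hz, φ ⁻¹' U, ⟨U, hU, rfl⟩, hzU⟩
    refine ⟨g V, ⟨V, hV, rfl⟩, ?_⟩
    have : z ∈ φ ⁻¹' (g V) := by rw [hg2 V hV]; exact hzV
    exact this

theorem HLs.range {Z : Type*} [TopologicalSpace Z] {φ : Z → X} (hφ : Continuous φ)
    (h : HLs (univ : Set Z)) : HLs (range φ) := by
  rw [← image_univ]
  exact h.image hφ

theorem HLs.of_subsingleton [Subsingleton X] (T : Set X) : HLs T := by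
  intro 𝒰 _
  by_cases h : ∃ x, x ∈ ⋃₀ 𝒰
  · obtain ⟨x, U, hU, hx⟩ := h
    refine ⟨{U}, by simpa using hU, countable_singleton U, ?_⟩
    rintro y ⟨_, _⟩
    exact ⟨U, rfl, by rw [Subsingleton.elim y x]; exact hx⟩
  · refine ⟨∅, empty_subset _, countable_empty, ?_⟩
    rintro y ⟨_, hy⟩
    exact absurd ⟨y, hy⟩ h

theorem hereditarilyLindelof_of_HLs (h : HLs (univ : Set X)) : HereditarilyLindelofSpace X := by
  apply HereditarilyLindelofSpace.of_forall_isOpen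
  intro s _
  apply isLindelof_of_countable_subcover
  intro ι U hU hsU
  obtain ⟨𝒱, h1, h2, h3⟩ := h (range U) (by rintro _ ⟨i, rfl⟩; exact hU i)
  rcases isEmpty_or_nonempty ι with hι | hι
  · exact ⟨∅, countable_empty, by simpa using hsU⟩
  have h4 : ∀ V ∈ 𝒱, ∃ i, U i = V := fun V hV => h1 hV
  choose! g hg using h4
  refine ⟨g '' 𝒱, h2.image g, ?_⟩
  intro x hx
  obtain ⟨V, hV, hxV⟩ := h3 ⟨mem_univ x, by
    obtain ⟨i, hi⟩ := mem_iUnion.1 (hsU hx)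
    exact ⟨U i, ⟨i, rfl⟩, hi⟩⟩
  refine mem_biUnion (x := g V) ⟨V, hV, rfl⟩ ?_
  rw [hg V hV]
  exact hxV

theorem lindelof_of_cover (h : ∀ 𝒰 : Set (Set X), (∀ U ∈ 𝒰, IsOpen U) → ⋃₀ 𝒰 = univ →
    ∃ 𝒱 : Set (Set X), 𝒱 ⊆ 𝒰 ∧ 𝒱.Countable ∧ ⋃₀ 𝒱 = univ) : LindelofSpace X := by
  constructor
  apply isLindelof_of_countable_subcover
  intro ι U hU hsU
  obtain ⟨𝒱, h1, h2, h3⟩ := h (range U) (by rintro _ ⟨i, rfl⟩; exact hU i) (by
    rw [sUnion_range]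
    exact univ_subset_iff.1 hsU)
  rcases isEmpty_or_nonempty ι with hι | hι
  · exact ⟨∅, countable_empty, by simpa using hsU⟩
  have h4 : ∀ V ∈ 𝒱, ∃ i, U i = V := fun V hV => h1 hV
  choose! g hg using h4
  refine ⟨g '' 𝒱, h2.image g, ?_⟩
  intro x _
  have hx : x ∈ ⋃₀ 𝒱 := by rw [h3]; trivial
  obtain ⟨V, hV, hxV⟩ := hx
  refine mem_biUnion (x := g V) ⟨V, hV, rfl⟩ ?_
  rw [hg V hV]
  exact hxV

/-- Regular hereditarily Lindelöf spaces are perfectly normal. -/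
theorem perfectlyNormal_of_HL [T3Space X] [HereditarilyLindelofSpace X] :
    PerfectlyNormalSpace X := by
  have : NormalSpace X := inferInstance
  refine ⟨?_⟩
  intro C hC
  -- for each point outside C a closed neighbourhood disjoint from C
  have h1 : ∀ x : (Cᶜ : Set X), ∃ V : Set X, IsOpen V ∧ x.1 ∈ V ∧ closure V ⊆ Cᶜ := by
    rintro ⟨x, hx⟩
    obtain ⟨F, hF, hFc, hFC⟩ := exists_mem_nhds_isClosed_subset (hC.isOpen_compl.mem_nhds hx)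
    refine ⟨interior F, isOpen_interior, mem_interior_iff_mem_nhds.2 hF, ?_⟩
    exact (closure_mono interior_subset).trans (by rw [hFc.closure_eq]; exact hFC)
  choose V hV1 hV2 hV3 using h1
  obtain ⟨t, htc, ht⟩ := eq_open_union_countable V hV1
  have hC2 : C = ⋂ x ∈ t, (closure (V x))ᶜ := by
    ext y
    constructor
    · intro hy
      refine mem_iInter₂.2 (fun x _ hcl => ?_)
      exact hV3 x hcl hy
    · intro hy
      by_contra hyC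
      have h2 : y ∈ ⋃ x, V x := mem_iUnion.2 ⟨⟨y, hyC⟩, hV2 ⟨y, hyC⟩⟩
      rw [← ht] at h2
      obtain ⟨x, hx, hyx⟩ := mem_iUnion₂.1 h2
      exact mem_iInter₂.1 hy x hx (subset_closure hyx)
  rw [hC2]
  apply IsGδ.biInter htc
  intro x _
  exact isClosed_closure.isOpen_compl.isGδ

end

end Run7.h584
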