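import Pool.Agent.Run7.h584.Dich
import Pool.Agent.Run7.h584.HLd

set_option linter.unusedSectionVars false

/-!
Spaces whose neighbourhood assignment is given by countably many Borel rectangles.
-/

namespace Run7.h584

open Set Filter Topology TopologicalSpace

/-- A separable perfectly normal `T₁` space has no discrete family indexed by the Cantor set. -/
theorem no_big_discrete {Z : Type} [TopologicalSpace Z] [T1Space Z] [SeparableSpace Z]
    [PerfectlyNormalSpace Z] (g : (ℕ → Bool) → Z) (O : (ℕ → Bool) → Set Z)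
    (hO : ∀ x, O x ∈ 𝓝 (g x)) (hg : ∀ x y, x ≠ y → g y ∉ O x) : False := by
  classical
  have hinj : Function.Injective g := by
    intro x y hxy
    by_contra hne
    exact hg x y hne (hxy ▸ mem_of_mem_nhds (hO x))
  let U : Set Z := ⋃ x, interior (O x)
  have hU : IsOpen U := isOpen_iUnion fun x => isOpen_interior
  obtain ⟨G, hG1, hG2⟩ := isGδ_iff_eq_iInter_nat.1
    (PerfectlyNormalSpace.closed_gdelta hU.isClosed_compl)
  have hUn : U = ⋃ k, (G k)ᶜ := by
    rw [← compl_iInter, ← hG2, compl_compl]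
  -- the pieces
  let S : ℕ → Set Z := fun k => range g ∩ (G k)ᶜ
  have hiso : ∀ k, ∀ z ∈ closure (S k), ∃ x, z = g x ∧ O x ∩ range g ⊆ {g x} ∧ z ∈ S k := by
    intro k z hz
    have h1 : z ∈ (G k)ᶜ := by
      have h2 : IsClosed ((G k)ᶜ) := (hG1 k).isClosed_compl
      exact closure_minimal inter_subset_right h2 hz
    have h3 : z ∈ U := by
      rw [hUn]
      exact mem_iUnion.2 ⟨k, h1⟩
    obtain ⟨x, hx⟩ := mem_iUnion.1 h3
    have h4 : O x ∩ range g ⊆ {g x} := by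
      rintro w ⟨hw, ⟨y, rfl⟩⟩
      by_cases hxy : x = y
      · rw [hxy]; rfl
      · exact absurd hw (hg x y hxy)
    have h5 : z = g x := by
      by_contra hne
      obtain ⟨w, ⟨hw1, hw2⟩, hw3⟩ := mem_closure_iff.1 hz (interior (O x) ∩ {g x}ᶜ)
        (isOpen_interior.inter isOpen_compl_singleton) ⟨hx, hne⟩
      exact hw2 (h4 ⟨interior_subset hw1, hw3.1⟩)
    exact ⟨x, h5, h4, ⟨⟨x, h5.symm⟩, h1⟩⟩
  have hcl : ∀ k, IsClosed (S k) := by
    intro k
    rw [← closure_subset_iff_isClosed]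
    intro z hz
    obtain ⟨_, _, _, h⟩ := hiso k z hz
    exact h
  have hdisc : ∀ k, DiscreteTopology (S k) := by
    intro k
    rw [discreteTopology_iff_forall_isOpen]
    intro s
    rw [isOpen_iff_mem_nhds]
    rintro ⟨z, hz⟩ hzs
    obtain ⟨x, h5, h4, _⟩ := hiso k z (subset_closure hz)
    rw [mem_nhds_iff]
    refine ⟨(↑) ⁻¹' (interior (O x)), ?_, isOpen_interior.preimage continuous_subtype_val, ?_⟩
    · rintro ⟨w, hw⟩ hw2
      have h6 : w = g x := h4 ⟨interior_subset hw2, hw.1⟩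
      have h7 : (⟨w, hw⟩ : S k) = ⟨z, hz⟩ := Subtype.ext (h6.trans h5.symm)
      rw [h7]
      exact hzs
    · show z ∈ interior (O x)
      rw [h5]
      exact mem_interior_iff_mem_nhds.2 (hO x)
  have hlt : ∀ k, Cardinal.mk (S k) < Cardinal.continuum := by
    intro k
    have := hdisc k
    exact (hcl k).mk_lt_continuum
  -- the range is covered
  have hcov : range g ⊆ ⋃ k, S k := by
    rintro _ ⟨x, rfl⟩
    have h1 : g x ∈ U := mem_iUnion.2 ⟨x, mem_interior_iff_mem_nhds.2 (hO x)⟩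
    rw [hUn] at h1
    obtain ⟨k, hk⟩ := mem_iUnion.1 h1
    exact mem_iUnion.2 ⟨k, ⟨x, rfl⟩, hk⟩
  have h1 : Cardinal.sum (fun k => Cardinal.mk (S k)) <
      Cardinal.prod (fun _ : ℕ => Cardinal.continuum) := Cardinal.sum_lt_prod _ _ hlt
  have h2 : Cardinal.prod (fun _ : ℕ => Cardinal.continuum) = Cardinal.continuum := by
    rw [Cardinal.prod_const]
    simp
  rw [h2] at h1
  have h3 : Cardinal.mk (range g) ≤ Cardinal.sum (fun k => Cardinal.mk (S k)) :=
    (Cardinal.mk_le_mk_of_subset hcov).trans Cardinal.mk_iUnion_le_sum_mk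
  have h4 : Cardinal.mk (range g) = Cardinal.mk (ℕ → Bool) := Cardinal.mk_range_eq g hinj
  have h5 : Cardinal.mk (ℕ → Bool) = Cardinal.continuum := by simp
  rw [h4, h5] at h3
  exact absurd (h3.trans_lt h1) (lt_irrefl _)

/-- Two different points in a nonempty open subset of the Cantor set. -/
theorem exists_ne_of_open {I : Set (ℕ → Bool)} (hI : IsOpen I) {x : ℕ → Bool} (hx : x ∈ I) :
    ∃ y ∈ I, x ≠ y := by
  have h1 : Tendsto (fun k => Function.update x k (!x k)) atTop (𝓝 x) := by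
    rw [tendsto_pi_nhds]
    intro t
    refine tendsto_const_nhds.congr' ?_
    filter_upwards [eventually_gt_atTop t] with k hk
    rw [Function.update_of_ne hk.ne]
  obtain ⟨k, hk⟩ := (h1.eventually (hI.mem_nhds hx)).exists
  refine ⟨_, hk, fun h => ?_⟩
  have h2 := congrFun h k
  rw [Function.update_self] at h2
  cases hxk : x k <;> rw [hxk] at h2 <;> exact absurd h2 (by decide)

/-- An open total relation on the Cantor set is reversed along some Cantor set of pairs. -/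
theorem exists_reversal {E : Set ((ℕ → Bool) × (ℕ → Bool))} (hE : IsOpen E)
    (h1 : ∀ x y, x ≠ y → (x, y) ∈ E ∨ (y, x) ∈ E) :
    ∃ h : (ℕ → Bool) → (ℕ → Bool) × (ℕ → Bool), ∀ a b, a ≠ b →
      ((h a).1, (h b).1) ∈ E ∨ ((h a).2, (h b).2) ∈ E := by
  let G : Set (((ℕ → Bool) × (ℕ → Bool)) × ((ℕ → Bool) × (ℕ → Bool))) :=
    {p | ((p.1.1, p.2.1) ∈ E ∨ (p.1.2, p.2.2) ∈ E) ∧ ((p.2.1, p.1.1) ∈ E ∨ (p.2.2, p.1.2) ∈ E)}
  have hG : IsOpen G := by
    refine IsOpen.inter (IsOpen.union ?_ ?_) (IsOpen.union ?_ ?_)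
    · exact hE.preimage (by fun_prop)
    · exact hE.preimage (by fun_prop)
    · exact hE.preimage (by fun_prop)
    · exact hE.preimage (by fun_prop)
  have : PolishSpace ((ℕ → Bool) × (ℕ → Bool)) := PolishSpace.mk
  rcases open_dichotomy hG (fun p q h => ⟨h.2, h.1⟩) with ⟨f, _, hf⟩ | ⟨C, hC1, hC2, hC3⟩
  · exact ⟨f, fun a b hab => (hf a b hab).1⟩
  · exfalso
    obtain ⟨i, hi⟩ := nonempty_interior_of_iUnion_of_closed hC1 (univ_subset_iff.1 hC3)
    obtain ⟨⟨x, x'⟩, hx⟩ := hi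
    obtain ⟨I, J, hI, hJ, hxI, hxJ, hIJ⟩ := isOpen_prod_iff.1 isOpen_interior x x' hx
    obtain ⟨y, hy, hxy⟩ := exists_ne_of_open hI hxI
    obtain ⟨y', hy', hxy'⟩ := exists_ne_of_open hJ hxJ
    have hmem : ∀ a ∈ I, ∀ b ∈ J, (a, b) ∈ C i := fun a ha b hb => interior_subset (hIJ ⟨ha, hb⟩)
    have key : ∀ x ∈ I, ∀ y ∈ I, ∀ x' ∈ J, ∀ y' ∈ J, (x, y) ∈ E → (x', y') ∈ E → False := by
      intro x hx y hy x' hx' y' hy' e1 e2
      exact hC2 i (x, y') (hmem x hx y' hy') (y, x') (hmem y hy x' hx') ⟨Or.inl e1, Or.inr e2⟩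
    rcases h1 x y hxy with e1 | e1
    · rcases h1 x' y' hxy' with e2 | e2
      · exact key x hxI y hy x' hxJ y' hy' e1 e2
      · exact key x hxI y hy y' hy' x' hxJ e1 e2
    · rcases h1 x' y' hxy' with e2 | e2
      · exact key y hy x hxI x' hxJ y' hy' e1 e2
      · exact key y hy x hxI y' hy' x' hxJ e1 e2

theorem exists_cover_aux {X : Type} [TopologicalSpace X] [T2Space X] [SeparableSpace X]
    (hX : PerfectlyNormalSpace (Fin 2 → X)) {P : Type} [TopologicalSpace P] [PolishSpace P]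
    (π : P → X) (U : P → Set X) (hU : ∀ p, U p ∈ 𝓝 (π p))
    (hE : IsOpen {p : P × P | π p.2 ∉ U p.1}) :
    ∃ C : ℕ → Set P, (∀ i, ∀ p ∈ C i, ∀ q ∈ C i, π q ∈ U p) ∧ ⋃ i, C i = univ := by
  classical
  set E : Set (P × P) := {p : P × P | π p.2 ∉ U p.1} with hEdef
  -- no tournament reversal
  have hno : ∀ h : (ℕ → Bool) → P × P, (∀ a b, a ≠ b →
      ((h a).1, (h b).1) ∈ E ∨ ((h a).2, (h b).2) ∈ E) → False := by
    intro h hh
    refine no_big_discrete (Z := Fin 2 → X) (fun a => ![π (h a).1, π (h a).2])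
      (fun a => {z | z 0 ∈ U (h a).1 ∧ z 1 ∈ U (h a).2}) ?_ ?_
    · intro a
      refine Filter.inter_mem ?_ ?_
      · exact (continuous_apply (0 : Fin 2)).continuousAt (hU (h a).1)
      · exact (continuous_apply (1 : Fin 2)).continuousAt (hU (h a).2)
    · rintro a b hab ⟨e1, e2⟩
      rcases hh a b hab with e | e
      · exact e e1
      · exact e e2
  have hK2 : IsOpen {p : P × P | p ∈ E ∨ (p.2, p.1) ∈ E} :=
    hE.union (hE.preimage continuous_swap)
  rcases open_dichotomy hK2 (fun p q h => h.symm) with ⟨f, hfc, hf⟩ | ⟨C, _, hC2, hC3⟩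
  · exfalso
    have hE' : IsOpen {p : (ℕ → Bool) × (ℕ → Bool) | (f p.1, f p.2) ∈ E} :=
      hE.preimage ((hfc.comp continuous_fst).prodMk (hfc.comp continuous_snd))
    obtain ⟨h, hh⟩ := exists_reversal hE' (fun x y hxy => hf x y hxy)
    exact hno (fun a => (f (h a).1, f (h a).2)) hh
  · refine ⟨C, fun i p hp q hq => ?_, univ_subset_iff.1 hC3⟩
    by_contra hcon
    exact hC2 i p hp q hq (Or.inl hcon)

/-- Countable network. -/
def HasNetwork (X : Type) [TopologicalSpace X] : Prop :=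
  ∃ N : ℕ → Set X, ∀ O : Set X, IsOpen O → ∀ x ∈ O, ∃ i, x ∈ N i ∧ N i ⊆ O

/-- The main theorem of this file. -/
theorem exists_network {X : Type} [TopologicalSpace X] [T2Space X] [SeparableSpace X]
    (hX : PerfectlyNormalSpace (Fin 2 → X)) {P : Type} [MeasurableSpace P]
    [StandardBorelSpace P] (π : P → X) (U : P → Set X) (hU : ∀ p, U p ∈ 𝓝 (π p))
    (hbase : ∀ x, ∀ O ∈ 𝓝 x, ∃ p, π p = x ∧ U p ⊆ O)
    (hB : ∃ A V : ℕ → Set P, (∀ j, MeasurableSet (A j)) ∧ (∀ j, MeasurableSet (V j)) ∧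
      ∀ p q, π q ∉ U p ↔ ∃ j, p ∈ A j ∧ q ∈ V j) : HasNetwork X := by
  classical
  obtain ⟨t₀, hb, hpol⟩ := StandardBorelSpace.polish (α := P)
  obtain ⟨A, V, hA, hV, hAV⟩ := hB
  -- a finer Polish topology
  have hcl : ∀ s : Set P, MeasurableSet s → PolishSpace.IsClopenable s := fun s hs => hs.isClopenable
  let fam : ℕ × Bool → Set P := fun i => if i.2 then A i.1 else V i.1
  have hfam : ∀ i, MeasurableSet (fam i) := by
    rintro ⟨j, b⟩
    cases b
    · exact hV j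
    · exact hA j
  choose mt h1 h2 _ h4 using fun i => hcl (fam i) (hfam i)
  obtain ⟨t', ht', _, hpol'⟩ := PolishSpace.exists_polishSpace_forall_le mt h1 h2
  have hopA : ∀ j, IsOpen[t'] (A j) := fun j => ht' (j, true) _ (h4 (j, true))
  have hopV : ∀ j, IsOpen[t'] (V j) := fun j => ht' (j, false) _ (h4 (j, false))
  have key : ∃ C : ℕ → Set P, (∀ i, ∀ p ∈ C i, ∀ q ∈ C i, π q ∈ U p) ∧
      ⋃ i, C i = univ := by
    refine @exists_cover_aux X _ _ _ hX P t' hpol' π U hU ?_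
    have : {p : P × P | π p.2 ∉ U p.1} = ⋃ j, (A j) ×ˢ (V j) := by
      ext ⟨p, q⟩
      simp only [mem_ofPred_eq, mem_iUnion, mem_prod]
      exact hAV p q
    rw [this]
    exact @isOpen_iUnion (P × P) ℕ (@instTopologicalSpaceProd P P t' t') _
      (fun j => @IsOpen.prod P P t' t' _ _ (hopA j) (hopV j))
  obtain ⟨C, hC1, hC2⟩ := key
  refine ⟨fun i => π '' C i, fun O hO x hx => ?_⟩
  obtain ⟨p, rfl, hp⟩ := hbase x O (hO.mem_nhds hx)
  have h5 : p ∈ ⋃ i, C i := by rw [hC2]; trivial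
  obtain ⟨i, hi⟩ := mem_iUnion.1 h5
  refine ⟨i, ⟨p, hi, rfl⟩, ?_⟩
  rintro _ ⟨q, hq, rfl⟩
  exact hp (hC1 i p hi q hq)

/-- Powers of spaces with a countable network are hereditarily Lindelöf. -/
theorem HasNetwork.pow {X : Type} [TopologicalSpace X] (h : HasNetwork X) (k : ℕ) :
    HereditarilyLindelofSpace (Fin k → X) := by
  classical
  obtain ⟨N, hN⟩ := h
  apply hereditarilyLindelof_of_HLs
  intro 𝒰 h𝒰
  have h1 : ∀ i : Fin k → ℕ, ∃ V : Set (Fin k → X),
      (∃ U ∈ 𝒰, {x : Fin k → X | ∀ j, x j ∈ N (i j)} ⊆ U) →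
        V ∈ 𝒰 ∧ {x : Fin k → X | ∀ j, x j ∈ N (i j)} ⊆ V := by
    intro i
    by_cases h : ∃ U ∈ 𝒰, {x : Fin k → X | ∀ j, x j ∈ N (i j)} ⊆ U
    · obtain ⟨U, hU1, hU2⟩ := h
      exact ⟨U, fun _ => ⟨hU1, hU2⟩⟩
    · exact ⟨∅, fun h' => absurd h' h⟩
  choose V hV using h1
  refine ⟨{W | ∃ i : Fin k → ℕ, (∃ U ∈ 𝒰, {x : Fin k → X | ∀ j, x j ∈ N (i j)} ⊆ U) ∧ W = V i},
    ?_, ?_, ?_⟩
  · rintro W ⟨i, hi, rfl⟩
    exact (hV i hi).1
  · refine (countable_range V).mono ?_
    rintro W ⟨i, _, rfl⟩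
    exact ⟨i, rfl⟩
  · rintro x ⟨_, U, hU, hxU⟩
    obtain ⟨u, hu1, hu2⟩ := isOpen_pi_iff'.1 (h𝒰 U hU) x hxU
    choose i hi1 hi2 using fun j => hN (u j) (hu1 j).1 (x j) (hu1 j).2
    have hsub : {x : Fin k → X | ∀ j, x j ∈ N (i j)} ⊆ U :=
      fun y hy => hu2 fun j _ => hi2 j (hy j)
    exact ⟨V i, ⟨i, ⟨U, hU, hsub⟩, rfl⟩, (hV i ⟨U, hU, hsub⟩).2 hi1⟩

/-- Perfect normality passes to smaller nonzero powers. -/
theorem perfectlyNormal_of_le {X : Type} [TopologicalSpace X] [T2Space X] {k n : ℕ} (hk : 0 < k)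
    (hkn : k ≤ n) (h : PerfectlyNormalSpace (Fin n → X)) : PerfectlyNormalSpace (Fin k → X) := by
  let σ : Fin n → Fin k := fun i => ⟨min i.1 (k - 1), by omega⟩
  let e : (Fin k → X) → (Fin n → X) := fun f i => f (σ i)
  have hec : Continuous e := continuous_pi fun i => continuous_apply _
  let ρ : (Fin n → X) → (Fin k → X) := fun f i => f ⟨i.1, lt_of_lt_of_le i.2 hkn⟩
  have hρc : Continuous ρ := continuous_pi fun i => continuous_apply _
  have hρe : ∀ f, ρ (e f) = f := by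
    intro f
    funext i
    show f ⟨min i.1 (k - 1), _⟩ = f i
    congr 1
    apply Fin.ext
    show min i.1 (k - 1) = i.1
    omega
  have hcl : IsClosedEmbedding e := by
    apply Topology.IsClosedEmbedding.of_continuous_injective_isClosedMap hec
    · intro f g hfg
      rw [← hρe f, ← hρe g, hfg]
    · intro C hC
      have : e '' C = {f | e (ρ f) = f} ∩ ρ ⁻¹' C := by
        ext f
        constructor
        · rintro ⟨g, hg, rfl⟩
          refine ⟨?_, ?_⟩
          · show e (ρ (e g)) = e g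
            rw [hρe]
          · show ρ (e g) ∈ C
            rw [hρe]
            exact hg
        · rintro ⟨h1, h2⟩
          exact ⟨ρ f, h2, h1⟩
      rw [this]
      exact (isClosed_eq (hec.comp hρc) continuous_id).inter (hC.preimage hρc)
  have hnorm : NormalSpace (Fin k → X) := hcl.normalSpace
  refine ⟨?_⟩
  intro C hC
  have h1 : IsGδ (e '' C) := h.closed_gdelta (hcl.isClosedMap C hC)
  have h2 : C = e ⁻¹' (e '' C) := (preimage_image_eq C hcl.injective).symm
  rw [h2]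
  exact h1.preimage hec

theorem all_powers {X : Type} [TopologicalSpace X] [T2Space X]
    (h : HasNetwork X) {n : ℕ} (hn : 0 < n) (hX : PerfectlyNormalSpace (Fin n → X)) (k : ℕ) :
    HereditarilyLindelofSpace (Fin k → X) ∧ PerfectlyNormalSpace (Fin k → X) := by
  have h1 : PerfectlyNormalSpace (Fin 1 → X) := perfectlyNormal_of_le one_pos hn hX
  have h2 : NormalSpace X :=
    (Homeomorph.funUnique (Fin 1) X).symm.isClosedEmbedding.normalSpace
  have h3 : T3Space X := inferInstance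
  have h4 := h.pow k
  exact ⟨h4, perfectlyNormal_of_HL⟩

end Run7.h584
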