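import Pool.Agent.Run7.h584.Moore

set_option linter.unusedSectionVars false

/-!
Pseudo-intersections of `ℵ₁` many sets, from pseudo-intersections of decreasing sequences.
-/

namespace Run7.h584

open Set Filter

/-- Pseudo-intersections of countable families which meet prescribed sets. -/
theorem exists_pseudo {ι κ : Type*} {C : Set ι} (hC : C.Countable) (s : ι → Set ℕ)
    (a : κ → Set ℕ)
    (hdom : ∀ f : κ → ℕ → ℕ, ∃ h : ℕ → ℕ, ∀ i, ∃ N, ∀ n ≥ N, f i n ≤ h n)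
    (hs : ∀ F : Finset ι, (∀ ξ ∈ F, ξ ∈ C) → ∀ i, {x | x ∈ a i ∧ ∀ ξ ∈ F, x ∈ s ξ}.Infinite) :
    ∃ P : Set ℕ, (∀ ξ ∈ C, (P \ s ξ).Finite) ∧ ∀ i, {x | x ∈ P ∧ x ∈ a i}.Infinite := by
  classical
  rcases C.eq_empty_or_nonempty with h0 | hne
  · refine ⟨univ, fun ξ hξ => ?_, fun i => ?_⟩
    · rw [h0] at hξ
      exact absurd hξ (notMem_empty ξ)
    · refine (hs ∅ (fun ξ hξ => absurd hξ (Finset.notMem_empty ξ)) i).mono ?_
      intro x hx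
      exact ⟨trivial, hx.1⟩
  obtain ⟨e, he⟩ := hC.exists_eq_range hne
  have heC : ∀ n, e n ∈ C := fun n => by rw [he]; exact ⟨n, rfl⟩
  have hf : ∀ i n, ∃ x, x ∈ a i ∧ (∀ j ≤ n, x ∈ s (e j)) ∧ n ≤ x := by
    intro i n
    have h1 := hs ((Finset.range (n + 1)).image e) (by
      intro ξ hξ
      obtain ⟨j, _, rfl⟩ := Finset.mem_image.1 hξ
      exact heC j) i
    obtain ⟨x, hx, hnx⟩ := h1.exists_gt n
    refine ⟨x, hx.1, fun j hj => hx.2 _ ?_, hnx.le⟩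
    exact Finset.mem_image.2 ⟨j, Finset.mem_range.2 (Nat.lt_succ_of_le hj), rfl⟩
  choose f hf1 hf2 hf3 using hf
  obtain ⟨h, hh⟩ := hdom f
  refine ⟨{x | ∃ n, n ≤ x ∧ x ≤ h n ∧ ∀ j ≤ n, x ∈ s (e j)}, ?_, ?_⟩
  · intro ξ hξ
    rw [he] at hξ
    obtain ⟨i, rfl⟩ := hξ
    refine (finite_Iic ((Finset.range i).sup h)).subset ?_
    rintro x ⟨⟨n, _, h2, h3⟩, h4⟩
    have h5 : n < i := by
      by_contra hcon
      exact h4 (h3 i (not_lt.1 hcon))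
    exact h2.trans (Finset.le_sup (f := h) (Finset.mem_range.2 h5))
  · intro i
    apply infinite_of_forall_exists_gt
    intro b
    obtain ⟨N, hN⟩ := hh i
    have h1 : b < max N (b + 1) := lt_of_lt_of_le (Nat.lt_succ_self b) (le_max_right _ _)
    exact ⟨f i (max N (b + 1)), ⟨⟨max N (b + 1), hf3 _ _, hN _ (le_max_left _ _), hf2 _ _⟩, hf1 _ _⟩,
      h1.trans_le (hf3 _ _)⟩

/-- Sparse subsets. -/
theorem exists_sparse {P : Set ℕ} (hP : P.Infinite) (f : ℕ → ℕ) :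
    ∃ s ⊆ P, s.Infinite ∧ ∀ a ∈ s, ∀ b ∈ s, a < b → f a ≤ b := by
  classical
  choose nx hx1 hx2 using fun N => hP.exists_gt N
  let u : ℕ → ℕ := fun i => Nat.rec (nx 0) (fun _ v => nx (max v (f v))) i
  have hu : ∀ i, u (i + 1) = nx (max (u i) (f (u i))) := fun _ => rfl
  have humem : ∀ i, u i ∈ P := by
    intro i
    cases i with
    | zero => exact hx1 0
    | succ i => rw [hu]; exact hx1 _
  have hlt : ∀ i, u i < u (i + 1) := by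
    intro i
    rw [hu]
    exact (le_max_left _ _).trans_lt (hx2 _)
  have hmono : StrictMono u := strictMono_nat_of_lt_succ hlt
  have hge : ∀ i, f (u i) ≤ u (i + 1) := by
    intro i
    rw [hu]
    exact (le_max_right _ _).trans (hx2 _).le
  refine ⟨range u, by rintro _ ⟨i, rfl⟩; exact humem i, infinite_range_of_injective hmono.injective, ?_⟩
  rintro _ ⟨i, rfl⟩ _ ⟨j, rfl⟩ hij
  have h1 : i < j := hmono.lt_iff_lt.1 hij
  exact (hge i).trans (hmono.monotone h1)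

section
variable {W : Type} [LinearOrder W] [WellFoundedLT W]

/-- Transfinite choice. -/
theorem exists_recursion (Good : W → (W → Set ℕ) → Set ℕ → Prop)
    (hcongr : ∀ ζ t t' s, (∀ ξ < ζ, t ξ = t' ξ) → Good ζ t s → Good ζ t' s)
    (hstep : ∀ ζ t, (∀ ξ < ζ, Good ξ t (t ξ)) → ∃ s, Good ζ t s) :
    ∃ t : W → Set ℕ, ∀ ζ, Good ζ t (t ζ) := by
  classical
  let ext : ∀ ζ : W, (∀ ξ, ξ < ζ → Set ℕ) → W → Set ℕ := fun ζ g ξ =>
    if h : ξ < ζ then g ξ h else ∅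
  let st : ∀ ζ : W, (∀ ξ, ξ < ζ → Set ℕ) → Set ℕ := fun ζ g =>
    if h : ∃ s, Good ζ (ext ζ g) s then h.choose else ∅
  let t : W → Set ℕ := wellFounded_lt.fix st
  have ht : ∀ ζ, t ζ = st ζ (fun ξ _ => t ξ) := fun ζ => WellFounded.fix_eq _ _ _
  have hext : ∀ ζ, ∀ ξ < ζ, ext ζ (fun ξ _ => t ξ) ξ = t ξ := fun ζ ξ h => dif_pos h
  refine ⟨t, fun ζ => ?_⟩
  induction ζ using WellFoundedLT.induction with
  | _ ζ ih =>
    obtain ⟨s, hs⟩ := hstep ζ t ih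
    have hex : ∃ s, Good ζ (ext ζ (fun ξ _ => t ξ)) s :=
      ⟨s, hcongr ζ t _ s (fun ξ h => (hext ζ ξ h).symm) hs⟩
    have h1 : t ζ = hex.choose := by
      rw [ht ζ]
      exact dif_pos hex
    rw [h1]
    exact hcongr ζ _ t _ (fun ξ h => hext ζ ξ h) hex.choose_spec

/-- Finite intersections of members of a decreasing sequence. -/
theorem inter_infinite {t : W → Set ℕ} {ζ : W} {a : Set ℕ}
    (h0 : a.Infinite) (h1 : ∀ ξ < ζ, {x | x ∈ a ∧ x ∈ t ξ}.Infinite)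
    (h2 : ∀ η < ζ, ∀ ξ < η, (t η \ t ξ).Finite) (F : Finset W) (hF : ∀ ξ ∈ F, ξ ∈ Iio ζ) :
    {x | x ∈ a ∧ ∀ ξ ∈ F, x ∈ t ξ}.Infinite := by
  classical
  rcases F.eq_empty_or_nonempty with h | h
  · refine h0.mono ?_
    intro x hx
    exact ⟨hx, fun ξ hξ => by rw [h] at hξ; exact absurd hξ (Finset.notMem_empty ξ)⟩
  · obtain ⟨μ, hμ, hmax⟩ := F.exists_max_image id h
    intro hfin
    apply h1 μ (hF μ hμ)
    have h3 : (⋃ ξ ∈ {ξ | ξ ∈ F ∧ ξ < μ}, (t μ \ t ξ)).Finite := by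
      refine Set.Finite.biUnion (F.finite_toSet.subset fun ξ hξ => hξ.1) fun ξ hξ => ?_
      exact h2 μ (hF μ hμ) ξ hξ.2
    refine (hfin.union h3).subset ?_
    rintro x ⟨hxa, hxμ⟩
    by_cases hx : ∀ ξ ∈ F, x ∈ t ξ
    · exact Or.inl ⟨hxa, hx⟩
    · push Not at hx
      obtain ⟨ξ, hξ, hxξ⟩ := hx
      right
      have h4 : ξ < μ := lt_of_le_of_ne (hmax ξ hξ) (fun h => hxξ (h ▸ hxμ))
      exact mem_biUnion (x := ξ) ⟨hξ, h4⟩ ⟨hxμ, hxξ⟩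

/-- Every decreasing sequence indexed by `W` has a pseudo-intersection. -/
def TowerHyp (W : Type) [LinearOrder W] : Prop :=
  ∀ τ : W → Set ℕ, (∀ ζ, (τ ζ).Infinite) → (∀ ζ ξ, ζ < ξ → (τ ξ \ τ ζ).Finite) →
    ∃ I : Set ℕ, I.Infinite ∧ ∀ ζ, (I \ τ ζ).Finite

theorem exists_dominate [Uncountable W] (hW : ∀ b : W, (Iio b).Countable) (H : TowerHyp W)
    (f : W → ℕ → ℕ) : ∃ h : ℕ → ℕ, ∀ ζ, ∃ N, ∀ n ≥ N, f ζ n ≤ h n := by
  classical
  let f' : W → ℕ → ℕ := fun ζ n => (Finset.range (n + 1)).sup (f ζ)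
  have hf' : ∀ ζ n, f ζ n ≤ f' ζ n := fun ζ n =>
    Finset.le_sup (f := f ζ) (Finset.mem_range.2 (Nat.lt_succ_self n))
  have hmono : ∀ ζ n m, n ≤ m → f' ζ n ≤ f' ζ m := by
    intro ζ n m h
    apply Finset.sup_mono
    intro i hi
    rw [Finset.mem_range] at hi ⊢
    omega
  obtain ⟨t, ht⟩ := exists_recursion (W := W)
    (fun ζ t s => s.Infinite ∧ (∀ ξ < ζ, (s \ t ξ).Finite) ∧ ∀ a ∈ s, ∀ b ∈ s, a < b → f' ζ a ≤ b)
    (by
      rintro ζ t t' s h ⟨h1, h2, h3⟩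
      exact ⟨h1, fun ξ hξ => by rw [← h ξ hξ]; exact h2 ξ hξ, h3⟩)
    (by
      intro ζ t ih
      obtain ⟨P, hP1, hP2⟩ := exists_pseudo (κ := Unit) (hW ζ) t (fun _ => univ)
        (fun f => ⟨f (), fun i => ⟨0, fun n _ => le_rfl⟩⟩)
        (fun F hF _ => inter_infinite (ζ := ζ) infinite_univ
          (fun ξ hξ => (ih ξ hξ).1.mono fun x hx => ⟨trivial, hx⟩)
          (fun η hη ξ hξ => (ih η hη).2.1 ξ hξ) F hF)
      have hPinf : P.Infinite := (hP2 ()).mono fun x hx => hx.1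
      obtain ⟨s, hsP, hs1, hs2⟩ := exists_sparse hPinf (f' ζ)
      exact ⟨s, hs1, fun ξ hξ => (hP1 ξ hξ).subset fun x hx => ⟨hsP hx.1, hx.2⟩, hs2⟩)
  obtain ⟨I, hI, hI2⟩ := H t (fun ζ => (ht ζ).1) (fun ζ ξ h => (ht ξ).2.1 ζ h)
  choose nx hx1 hx2 using fun N => hI.exists_gt N
  refine ⟨fun n => nx (nx n), fun ζ => ?_⟩
  obtain ⟨b, hb⟩ := (hI2 ζ).bddAbove
  refine ⟨b, fun n hn => ?_⟩
  have h1 : n < nx n := hx2 n
  have h2 : nx n < nx (nx n) := hx2 _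
  have h3 : nx n ∈ t ζ := by
    by_contra hcon
    have : nx n ≤ b := hb ⟨hx1 n, hcon⟩
    omega
  have h4 : nx (nx n) ∈ t ζ := by
    by_contra hcon
    have : nx (nx n) ≤ b := hb ⟨hx1 _, hcon⟩
    omega
  exact (hf' ζ n).trans ((hmono ζ n _ h1.le).trans ((ht ζ).2.2 _ h3 _ h4 h2))

/-- Every centred family indexed by `W` has a pseudo-intersection. -/
theorem exists_pseudo_all [Uncountable W] (hW : ∀ b : W, (Iio b).Countable) (H : TowerHyp W)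
    (a : W → Set ℕ) (ha : ∀ F : Finset W, {x | ∀ ξ ∈ F, x ∈ a ξ}.Infinite) :
    ∃ I : Set ℕ, I.Infinite ∧ ∀ ζ, (I \ a ζ).Finite := by
  classical
  have hdom : ∀ f : Finset W → ℕ → ℕ, ∃ h : ℕ → ℕ, ∀ i, ∃ N, ∀ n ≥ N, f i n ≤ h n := by
    intro f
    have h1 : Nonempty (W ≃ Finset W) := by
      rw [← Cardinal.eq]
      exact (Cardinal.mk_finset_of_infinite W).symm
    obtain ⟨σ⟩ := h1
    obtain ⟨h, hh⟩ := exists_dominate hW H (fun ζ => f (σ ζ))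
    refine ⟨h, fun i => ?_⟩
    have := hh (σ.symm i)
    simp only [Equiv.apply_symm_apply] at this
    exact this
  obtain ⟨t, ht⟩ := exists_recursion (W := W)
    (fun ζ t s => (∀ ξ < ζ, (s \ (t ξ ∩ a ξ)).Finite) ∧
      ∀ E : Finset W, {x | x ∈ s ∧ ∀ ξ ∈ E, x ∈ a ξ}.Infinite)
    (by
      rintro ζ t t' s h ⟨h1, h2⟩
      exact ⟨fun ξ hξ => by rw [← h ξ hξ]; exact h1 ξ hξ, h2⟩)
    (by
      intro ζ t ih
      obtain ⟨P, hP1, hP2⟩ := exists_pseudo (κ := Finset W) (hW ζ) (fun ξ => t ξ ∩ a ξ)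
        (fun E => {x | ∀ ξ ∈ E, x ∈ a ξ}) hdom (by
          intro F hF E
          have h1 := inter_infinite (t := t) (ζ := ζ) (a := {x | ∀ ξ ∈ E ∪ F, x ∈ a ξ})
            (ha (E ∪ F)) (fun ξ hξ => ((ih ξ hξ).2 (E ∪ F)).mono fun x hx => ⟨hx.2, hx.1⟩)
            (fun η hη ξ hξ => ((ih η hη).1 ξ hξ).subset fun x hx => ⟨hx.1, fun h => hx.2 h.1⟩)
            F hF
          refine h1.mono ?_
          rintro x ⟨h2, h3⟩
          exact ⟨fun ξ hξ => h2 ξ (Finset.mem_union_left _ hξ),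
            fun ξ hξ => ⟨h3 ξ hξ, h2 ξ (Finset.mem_union_right _ hξ)⟩⟩)
      exact ⟨P, hP1, hP2⟩)
  obtain ⟨I, hI, hI2⟩ := H t
    (fun ζ => ((ht ζ).2 ∅).mono fun x hx => hx.1)
    (fun ζ ξ h => ((ht ξ).1 ζ h).subset fun x hx => ⟨hx.1, fun h => hx.2 h.1⟩)
  refine ⟨I, hI, fun ζ => ?_⟩
  obtain ⟨ξ, hξ⟩ := exists_gt_countable hW (countable_singleton ζ)
  refine ((hI2 ξ).union ((ht ξ).1 ζ (hξ ζ rfl))).subset ?_
  rintro x ⟨h1, h2⟩
  by_cases h : x ∈ t ξ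
  · exact Or.inr ⟨h, fun h3 => h2 h3.2⟩
  · exact Or.inl ⟨h1, h⟩

end

end Run7.h584
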