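import Pool.Agent.Run7.h584.LTp6
import Pool.Agent.Run7.h584.Pint

set_option linter.unusedSectionVars false

/-!
All finite powers are Fréchet-Urysohn for a suitable choice of the isolated points.
-/

namespace Run7.h584

open Set TopologicalSpace Filter Topology

namespace Sys

variable {W : Type} [LinearOrder W] [WellFoundedLT W] {n : ℕ}
variable (Y : Sys W n)

theorem frechet_of_towerHyp [Uncountable W] (hW : ∀ b : W, (Iio b).Countable) {g : W → ℕ → ℕ}
    {τ : W → Set ℕ} (H : TowerHyp W) (k : ℕ) :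
    FrechetUrysohnSpace (Fin k → Y.Sp3 (DD g τ)) := by
  classical
  constructor
  intro A x hx
  obtain ⟨B, hBA, hBc, hxB⟩ := Y.tight_pow hW A x hx
  by_cases hmem : x ∈ B
  · exact ⟨fun _ => x, fun _ => hBA hmem, tendsto_const_nhds⟩
  have hBne : B.Nonempty := closure_nonempty_iff.1 ⟨x, hxB⟩
  obtain ⟨e, he⟩ := hBc.exists_eq_range hBne
  have heB : ∀ i, e i ∈ B := fun i => by rw [he]; exact ⟨i, rfl⟩
  let ν : W → ℕ := Function.invFun (Infinite.natEmbedding W)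
  have hν : Function.Surjective ν := Function.invFun_surjective (Infinite.natEmbedding W).injective
  have hinf : ∀ N ∈ 𝓝 x, {i | e i ∈ N}.Infinite := by
    intro N hN hfin
    have h1 : B ∩ N ⊆ e '' {i | e i ∈ N} := by
      rintro y ⟨hyB, hyN⟩
      rw [he] at hyB
      obtain ⟨i, rfl⟩ := hyB
      exact ⟨i, hyN, rfl⟩
    have h2 : (B ∩ N).Finite := (hfin.image e).subset h1
    have h3 := mem_closure_inter_nhds hxB hN
    rw [h2.isClosed.closure_eq] at h3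
    exact hmem h3.1
  obtain ⟨I, hI, hI2⟩ := exists_pseudo_all hW H (fun ξ => {i | e i ∈ Y.Nk x (ν ξ) {ξ}}) (by
    intro F
    have hN : (⋂ ξ ∈ F, Y.Nk x (ν ξ) {ξ}) ∈ 𝓝 x := by
      rw [Filter.biInter_finset_mem]
      intro ξ _
      exact Y.Nk_mem_nhds x _ _
    refine (hinf _ hN).mono ?_
    intro i hi ξ hξ
    exact mem_iInter₂.1 hi ξ hξ)
  let φ : ℕ → ℕ := fun i => (hI.natEmbedding I i : ℕ)
  have hφi : Function.Injective φ := Subtype.val_injective.comp (hI.natEmbedding I).injective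
  have hφm : ∀ i, φ i ∈ I := fun i => (hI.natEmbedding I i).2
  have hφc : Tendsto φ atTop cofinite := by
    rw [Nat.cofinite_eq_atTop]
    exact hφi.nat_tendsto_atTop
  have hev : ∀ ξ, ∀ᶠ i in atTop, e (φ i) ∈ Y.Nk x (ν ξ) {ξ} := by
    intro ξ
    filter_upwards [hφc.eventually (hI2 ξ).eventually_cofinite_notMem] with i hi
    by_contra hcon
    exact hi ⟨hφm i, hcon⟩
  refine ⟨fun i => e (φ i), fun i => hBA (heB _), ?_⟩
  rw [tendsto_def]
  intro U hU
  obtain ⟨m, E, hE⟩ := Y.exists_Nk_subset hU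
  obtain ⟨ξ₀, hξ₀⟩ := hν m
  have h1 : ∀ᶠ i in atTop, ∀ α ∈ E, e (φ i) ∈ Y.Nk x (ν α) {α} := by
    rw [Filter.eventually_all_finset]
    intro α _
    exact hev α
  have h2 : ∀ᶠ i in atTop, e (φ i) ∈ U := by
    filter_upwards [h1, hev ξ₀] with i hi1 hi2
    apply hE
    intro j
    have h3 := hi2 j
    rw [hξ₀] at h3
    exact ⟨h3.1, h3.2.1, fun α hα => ((hi1 α hα) j).2.2 α (Finset.mem_singleton_self α)⟩
  exact h2

/-- A suitable choice of the isolated points. -/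
theorem exists_good_tower [Uncountable W] (hW : ∀ b : W, (Iio b).Countable) (g : W → ℕ → ℕ) :
    ∃ τ : W → Set ℕ, (∀ ζ, (τ ζ).Infinite) ∧ (∀ ζ ξ, ζ < ξ → (τ ξ \ τ ζ).Finite) ∧
      ∀ k, FrechetUrysohnSpace (Fin k → Y.Sp3 (DD g τ)) := by
  by_cases H : TowerHyp W
  · refine ⟨fun _ => univ, fun _ => infinite_univ, fun _ _ _ => by simp, fun k => ?_⟩
    exact Y.frechet_of_towerHyp hW H k
  · unfold TowerHyp at H
    push Not at H
    obtain ⟨τ, h1, h2, h3⟩ := H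
    refine ⟨τ, h1, h2, fun k => Y.frechet_of_maximal hW h2 (fun I hI => ?_) k⟩
    obtain ⟨ζ, hζ⟩ := h3 I hI
    exact ⟨ζ, hζ⟩

/-- The isolated points are dense. -/
theorem dense_isolated [Uncountable W] (hW : ∀ b : W, (Iio b).Countable) {g : W → ℕ → ℕ}
    {τ : W → Set ℕ} (hg : ∀ ζ ξ : W, ζ < ξ → ∃ N, ∀ n ≥ N, g ζ n < g ξ n)
    (hτ1 : ∀ ζ, (τ ζ).Infinite) (hτ2 : ∀ ζ ξ, ζ < ξ → (τ ξ \ τ ζ).Finite) :
    Dense {x : Y.Sp3 (DD g τ) | x.1 ∈ DD g τ} := by
  intro x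
  obtain ⟨u, hu1, hu2⟩ := Y.exists_seq hW hg hτ1 hτ2 x
  exact mem_closure_of_tendsto hu2 (Eventually.of_forall hu1)

end Sys

end Run7.h584
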