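import Pool.Agent.Run7.h584.Omega

set_option linter.unusedSectionVars false

/-!
An increasing sequence of functions modulo finite indexed by a well-order of type `ω₁`, and
separation of the subfamilies bounded by a given index.
-/

namespace Run7.h584

open Set

section
variable {W : Type*} [LinearOrder W] [WellFoundedLT W]

/-- Countably many functions are eventually strictly dominated. -/
theorem exists_eventually_dominating (g : ℕ → ℕ → ℕ) :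
    ∃ f : ℕ → ℕ, ∀ i, ∃ N, ∀ n ≥ N, g i n < f n := by
  refine ⟨fun n => (Finset.range (n + 1)).sup (fun i => g i n) + 1, fun i => ⟨i, fun n hn => ?_⟩⟩
  have : g i n ≤ (Finset.range (n + 1)).sup (fun i => g i n) :=
    Finset.le_sup (f := fun i => g i n) (Finset.mem_range.2 (Nat.lt_succ_of_le hn))
  exact Nat.lt_succ_of_le this

theorem exists_tower (hW : ∀ b : W, (Iio b).Countable) :
    ∃ f : W → ℕ → ℕ, ∀ ζ ξ : W, ζ < ξ → ∃ N, ∀ n ≥ N, f ζ n < f ξ n := by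
  classical
  have hstep : ∀ (ξ : W) (g : ∀ ζ, ζ < ξ → ℕ → ℕ), ∃ f : ℕ → ℕ,
      ∀ (ζ : W) (h : ζ < ξ), ∃ N, ∀ n ≥ N, g ζ h n < f n := by
    intro ξ g
    rcases (Iio ξ).eq_empty_or_nonempty with he | hne
    · refine ⟨fun _ => 0, fun ζ h => ?_⟩
      have : ζ ∈ Iio ξ := h
      rw [he] at this
      exact absurd this (notMem_empty _)
    · have : Countable (Iio ξ) := (hW ξ).to_subtype
      have : Nonempty (Iio ξ) := hne.to_subtype
      obtain ⟨e, he⟩ := exists_surjective_nat (Iio ξ)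
      obtain ⟨f, hf⟩ := exists_eventually_dominating (fun i => g (e i).1 (e i).2)
      refine ⟨f, fun ζ h => ?_⟩
      obtain ⟨i, hi⟩ := he ⟨ζ, h⟩
      obtain ⟨N, hN⟩ := hf i
      refine ⟨N, fun n hn => ?_⟩
      have := hN n hn
      simp only [hi] at this
      exact this
  choose st hst using hstep
  let f : W → ℕ → ℕ := wellFounded_lt.fix (fun ξ g => st ξ g)
  refine ⟨f, fun ζ ξ h => ?_⟩
  have h1 : f ξ = st ξ (fun ζ _ => f ζ) := WellFounded.fix_eq _ _ _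
  rw [h1]
  exact hst ξ (fun ζ _ => f ζ) ζ h

/-- Separation. -/
theorem exists_separator (hW : ∀ b : W, (Iio b).Countable) (f : W → ℕ → ℕ)
    (hf : ∀ ζ ξ : W, ζ < ξ → ∃ N, ∀ n ≥ N, f ζ n < f ξ n) (ξ : W) (P : Set W) (hP : P ⊆ Iio ξ) :
    ∃ S : Set (ℕ × ℕ), (∀ ζ ∈ P, ∃ N, ∀ n ≥ N, (n, f ζ n) ∈ S) ∧
      ∀ ζ, ζ ∉ P → ∃ N, ∀ n ≥ N, (n, f ζ n) ∉ S := by
  classical
  obtain ⟨e, he⟩ := (countable_iff_exists_injOn).1 (hW ξ)
  have hne : ∀ ζ ζ' : W, ζ ≠ ζ' → ∃ N, ∀ n ≥ N, f ζ n ≠ f ζ' n := by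
    intro ζ ζ' h
    rcases lt_or_gt_of_ne h with h | h
    · obtain ⟨N, hN⟩ := hf _ _ h
      exact ⟨N, fun n hn => (hN n hn).ne⟩
    · obtain ⟨N, hN⟩ := hf _ _ h
      exact ⟨N, fun n hn => (hN n hn).ne'⟩
  -- finitely many indices below a given one, uniformly
  have hfin : ∀ (ζ : W) (m : ℕ), ∃ N, ∀ n ≥ N, ∀ ζ', ζ' < ξ → e ζ' < m → ζ' ≠ ζ →
      f ζ' n ≠ f ζ n := by
    intro ζ m
    have h1 : {ζ' | ζ' < ξ ∧ e ζ' < m}.Finite := by
      apply Set.Finite.of_finite_image (f := e)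
      · exact (finite_Iio m).subset (by rintro _ ⟨ζ', ⟨_, h⟩, rfl⟩; exact h)
      · intro x hx y hy hxy
        exact he hx.1 hy.1 hxy
    have h2 : ∀ ζ' : W, ∃ N, ζ' ≠ ζ → ∀ n ≥ N, f ζ' n ≠ f ζ n := by
      intro ζ'
      by_cases h : ζ' = ζ
      · exact ⟨0, fun h' => absurd h h'⟩
      · obtain ⟨N, hN⟩ := hne ζ' ζ h
        exact ⟨N, fun _ => hN⟩
    choose N hN using h2
    refine ⟨h1.toFinset.sup N, fun n hn ζ' h3 h4 h5 => hN ζ' h5 n ?_⟩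
    exact le_trans (Finset.le_sup (h1.mem_toFinset.2 ⟨h3, h4⟩)) hn
  refine ⟨{a | a.2 < f ξ a.1 ∧ ∃ ζ ∈ P, a.2 = f ζ a.1 ∧
    ∀ ζ', ζ' < ξ → e ζ' < e ζ → f ζ' a.1 ≠ a.2}, ?_, ?_⟩
  · intro ζ hζ
    obtain ⟨N₁, hN₁⟩ := hf ζ ξ (hP hζ)
    obtain ⟨N₂, hN₂⟩ := hfin ζ (e ζ)
    refine ⟨max N₁ N₂, fun n hn => ⟨hN₁ n (le_trans (le_max_left _ _) hn), ζ, hζ, rfl, ?_⟩⟩
    intro ζ' h1 h2
    refine hN₂ n (le_trans (le_max_right _ _) hn) ζ' h1 h2 ?_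
    rintro rfl
    exact lt_irrefl _ h2
  · intro ζ hζ
    by_cases hζξ : ζ < ξ
    · obtain ⟨N, hN⟩ := hfin ζ (e ζ)
      refine ⟨N, fun n hn hmem => ?_⟩
      obtain ⟨_, ζ', hζ', h1, h2⟩ := hmem
      have hne' : ζ' ≠ ζ := fun h => hζ (h ▸ hζ')
      have h3 : ¬ e ζ' < e ζ := fun h => hN n hn ζ' (hP hζ') h hne' h1.symm
      have h4 : ¬ e ζ < e ζ' := fun h => h2 ζ hζξ h rfl
      exact hne' (he (hP hζ') hζξ (le_antisymm (not_lt.1 h4) (not_lt.1 h3)))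
    · rcases lt_or_eq_of_le (not_lt.1 hζξ) with h | h
      · obtain ⟨N, hN⟩ := hf ξ ζ h
        exact ⟨N, fun n hn hmem => absurd hmem.1 (not_lt.2 (hN n hn).le)⟩
      · subst h
        exact ⟨0, fun n _ hmem => lt_irrefl _ hmem.1⟩

end

end Run7.h584
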