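import Pool.Agent.Run7.h584.Perfect
import Pool.Agent.Run7.h584.Tower

set_option linter.unusedSectionVars false

/-!
A separable first countable zero-dimensional extension of the space by countably many isolated
points.
-/

namespace Run7.h584

open Set Topology

section
variable {W K : Type} {E : Set (ℕ → W)} {F : W → W → K} {f : W → ℕ → ℕ}
  {S : W → K → Set (ℕ × ℕ)}

/-- The extension: the space together with countably many points. -/
inductive Ext (E : Set (ℕ → W)) (F : W → W → K) (f : W → ℕ → ℕ) (S : W → K → Set (ℕ × ℕ)) : Type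
  | pt (y : Sp E F) : Ext E F f S
  | iso (a : K × List (ℕ × ℕ)) : Ext E F f S

theorem pt_ne_iso {y : Sp E F} {a : K × List (ℕ × ℕ)} :
    (Ext.pt y : Ext E F f S) ≠ Ext.iso a := fun h => by cases h

theorem iso_ne_pt {y : Sp E F} {a : K × List (ℕ × ℕ)} :
    (Ext.iso a : Ext E F f S) ≠ Ext.pt y := fun h => by cases h

/-- The trace of a cylinder on the countable set. -/
def TT (f : W → ℕ → ℕ) (k : ℕ) (x : ℕ → W) : Set (List (ℕ × ℕ)) :=
  {u | k ≤ u.length ∧ ∀ j < k, k ≤ (u.getD j (0, 0)).1 ∧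
    (u.getD j (0, 0)).2 = f (x j) (u.getD j (0, 0)).1}

/-- The trace of a basic neighbourhood on the countable set. -/
def tr (f : W → ℕ → ℕ) (S : W → K → Set (ℕ × ℕ)) (k : ℕ) (y : Sp E F) :
    Set (K × List (ℕ × ℕ)) :=
  {a | y.1 = a.1 ∧ a.2 ∈ TT f k y.2 ∧ (y.2 ∈ E →
    (∃ d, k ≤ d ∧ d < a.2.length ∧
      (∀ j < d, (a.2.getD j (0, 0)).2 = f (y.2 j) (a.2.getD j (0, 0)).1) ∧
      (a.2.getD d (0, 0)).2 ≠ f (y.2 d) (a.2.getD d (0, 0)).1 ∧
      a.2.getD d (0, 0) ∈ S (y.2 d) y.1) ∨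
    (∀ j < a.2.length, (a.2.getD j (0, 0)).2 = f (y.2 j) (a.2.getD j (0, 0)).1))}

theorem TT_anti {k k' : ℕ} (h : k ≤ k') (x : ℕ → W) : TT f k' x ⊆ TT f k x := by
  rintro u ⟨h1, h2⟩
  exact ⟨h.trans h1, fun j hj => ⟨h.trans (h2 j (hj.trans_le h)).1, (h2 j (hj.trans_le h)).2⟩⟩

theorem tr_anti {k k' : ℕ} (h : k ≤ k') (y : Sp E F) : tr f S k' y ⊆ tr f S k y := by
  rintro a ⟨h1, h2, h3⟩
  refine ⟨h1, TT_anti h _ h2, fun hE => ?_⟩
  rcases h3 hE with ⟨d, hd, h4⟩ | h4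
  · exact Or.inl ⟨d, h.trans hd, h4⟩
  · exact Or.inr h4

/-- The hypotheses on the almost disjoint family and the separators. -/
structure Sep (F : W → W → K) (f : W → ℕ → ℕ) (S : W → K → Set (ℕ × ℕ)) : Prop where
  ad : ∀ ζ ξ : W, ζ ≠ ξ → ∃ N, ∀ n ≥ N, f ζ n ≠ f ξ n
  pos : ∀ (ζ ξ : W) (i : K), ζ ≠ ξ → F ζ ξ ≠ i → ∃ N, ∀ n ≥ N, (n, f ζ n) ∈ S ξ i
  neg : ∀ (ζ ξ : W) (i : K), ζ ≠ ξ → F ζ ξ = i → ∃ N, ∀ n ≥ N, (n, f ζ n) ∉ S ξ i

theorem tr_subset_tr (hS : Sep F f S) {k : ℕ} {y z : Sp E F} (hz : z ∈ nb k y) :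
    ∃ k', tr f S k' z ⊆ tr f S k y := by
  by_cases hzy : z = y
  · subst hzy; exact ⟨k, Subset.rfl⟩
  have h1 : y.2 ≠ z.2 := fun h => hzy (Prod.ext hz.1.symm h.symm)
  obtain ⟨d, hd1, hd2⟩ := exists_first_diff h1
  by_cases hE : y.2 ∈ E
  · obtain ⟨N₁, hN₁⟩ := hS.pos (z.2 d) (y.2 d) y.1 (fun h => hd2 h.symm) (hz.2.2 hE d hd1 hd2)
    obtain ⟨N₂, hN₂⟩ := hS.ad (z.2 d) (y.2 d) (fun h => hd2 h.symm)
    have hdk : k ≤ d := by
      by_contra hcon
      push Not at hcon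
      exact hd2 (hz.2.1 d hcon)
    refine ⟨max (d + 1) (max N₁ N₂), ?_⟩
    rintro a ⟨ha1, ⟨ha2, ha3⟩, _⟩
    have hd' : d < max (d + 1) (max N₁ N₂) :=
      lt_of_lt_of_le (Nat.lt_succ_self d) (le_max_left _ _)
    have hkm : k ≤ max (d + 1) (max N₁ N₂) := hdk.trans hd'.le
    refine ⟨hz.1.trans ha1, ⟨hkm.trans ha2, fun j hj => ⟨hkm.trans (ha3 j (hj.trans_le hkm)).1, ?_⟩⟩,
      fun _ => Or.inl ⟨d, hdk, hd'.trans_le ha2, ?_, ?_, ?_⟩⟩
    · rw [(ha3 j (hj.trans_le hkm)).2, hz.2.1 j hj]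
    · intro j hj
      rw [(ha3 j (hj.trans hd')).2, hd1 j hj]
    · rw [(ha3 d hd').2]
      exact hN₂ _ (le_trans (le_trans (le_max_right _ _) (le_max_right _ _)) (ha3 d hd').1)
    · have h5 := hN₁ _ (le_trans (le_trans (le_max_left _ _) (le_max_right _ _)) (ha3 d hd').1)
      rw [← (ha3 d hd').2] at h5
      exact h5
  · refine ⟨k, ?_⟩
    rintro a ⟨ha1, ⟨ha2, ha3⟩, _⟩
    refine ⟨hz.1.trans ha1, ⟨ha2, fun j hj => ⟨(ha3 j hj).1, ?_⟩⟩, fun h => absurd h hE⟩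
    rw [(ha3 j hj).2, hz.2.1 j hj]

theorem tr_disjoint_tr (hS : Sep F f S) {k : ℕ} {y z : Sp E F} (hz : z ∉ nb k y) :
    ∃ k', ∀ a ∈ tr f S k' z, a ∉ tr f S k y := by
  by_cases hi : y.1 = z.1
  swap
  · exact ⟨0, fun a ha ha' => hi (ha'.1.trans ha.1.symm)⟩
  have h1 : y.2 ≠ z.2 := by
    intro h
    apply hz
    have : z = y := Prod.ext hi.symm h.symm
    rw [this]
    exact nb_self k y
  obtain ⟨d, hd1, hd2⟩ := exists_first_diff h1
  obtain ⟨N₂, hN₂⟩ := hS.ad (z.2 d) (y.2 d) (fun h => hd2 h.symm)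
  by_cases hdk : d < k
  · refine ⟨max (d + 1) N₂, ?_⟩
    rintro a ⟨ha1, ⟨ha2, ha3⟩, _⟩ ⟨_, ⟨_, hb3⟩, _⟩
    have hd' : d < max (d + 1) N₂ := lt_of_lt_of_le (Nat.lt_succ_self d) (le_max_left _ _)
    apply hN₂ _ (le_trans (le_max_right _ _) (ha3 d hd').1)
    rw [← (ha3 d hd').2, (hb3 d hdk).2]
  · push Not at hdk
    have hag : agree k y.2 z.2 := agree_mono hdk hd1
    have hEF : y.2 ∈ E ∧ F (z.2 d) (y.2 d) = y.1 := by
      by_contra hcon
      apply hz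
      refine ⟨hi, hag, fun hE d' h1' h2' hF => hcon ⟨hE, ?_⟩⟩
      have := first_diff_unique hd1 hd2 h1' h2'
      subst this
      exact hF
    obtain ⟨N₁, hN₁⟩ := hS.neg (z.2 d) (y.2 d) y.1 (fun h => hd2 h.symm) hEF.2
    refine ⟨max (d + 1) (max N₁ N₂), ?_⟩
    rintro a ⟨ha1, ⟨ha2, ha3⟩, _⟩ ⟨_, _, hb⟩
    have hd' : d < max (d + 1) (max N₁ N₂) :=
      lt_of_lt_of_le (Nat.lt_succ_self d) (le_max_left _ _)
    have hneq : (a.2.getD d (0, 0)).2 ≠ f (y.2 d) (a.2.getD d (0, 0)).1 := by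
      rw [(ha3 d hd').2]
      exact hN₂ _ (le_trans (le_trans (le_max_right _ _) (le_max_right _ _)) (ha3 d hd').1)
    rcases hb hEF.1 with ⟨d₁, hd₁k, hd₁l, hb1, hb2, hb3⟩ | hb
    · rcases lt_trichotomy d₁ d with h | h | h
      · apply hb2
        rw [(ha3 d₁ (h.trans hd')).2, hd1 d₁ h]
      · subst h
        have h5 := hN₁ _ (le_trans (le_trans (le_max_left _ _) (le_max_right _ _)) (ha3 d₁ hd').1)
        rw [← (ha3 d₁ hd').2] at h5
        exact h5 hb3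
      · exact hneq (hb1 d h)
    · exact hneq (hb d (hd'.trans_le ha2))

/-- Basic neighbourhoods in the extension. -/
def nbx (k : ℕ) (y : Sp E F) : Set (Ext E F f S) := Ext.pt '' nb k y ∪ Ext.iso '' tr f S k y

theorem nbx_anti {k k' : ℕ} (h : k ≤ k') (y : Sp E F) :
    (nbx k' y : Set (Ext E F f S)) ⊆ nbx k y :=
  union_subset_union (image_mono (nb_anti h y)) (image_mono (tr_anti h y))

instance : TopologicalSpace (Ext E F f S) where
  IsOpen U := ∀ y : Sp E F, (Ext.pt y : Ext E F f S) ∈ U → ∃ k, nbx k y ⊆ U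
  isOpen_univ := fun _ _ => ⟨0, subset_univ _⟩
  isOpen_inter := by
    intro U V hU hV y hy
    obtain ⟨p, hp⟩ := hU y hy.1
    obtain ⟨p', hp'⟩ := hV y hy.2
    exact ⟨max p p', fun z hz => ⟨hp (nbx_anti (le_max_left _ _) y hz),
      hp' (nbx_anti (le_max_right _ _) y hz)⟩⟩
  isOpen_sUnion := by
    intro 𝒰 h𝒰 y hy
    obtain ⟨U, hU, hyU⟩ := hy
    obtain ⟨p, hp⟩ := h𝒰 U hU y hyU
    exact ⟨p, hp.trans (subset_sUnion_of_mem hU)⟩

theorem isOpen_ext_iff {U : Set (Ext E F f S)} :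
    IsOpen U ↔ ∀ y : Sp E F, (Ext.pt y : Ext E F f S) ∈ U → ∃ k, nbx k y ⊆ U := Iff.rfl

theorem inl_mem_nbx {k : ℕ} {y z : Sp E F} :
    (Ext.pt z : Ext E F f S) ∈ (nbx k y : Set (Ext E F f S)) ↔ z ∈ nb k y := by
  constructor
  · rintro (⟨w, hw, h⟩ | ⟨w, _, h⟩)
    · rw [← Ext.pt.inj h]; exact hw
    · exact absurd h iso_ne_pt
  · intro h
    exact Or.inl ⟨z, h, rfl⟩

theorem inr_mem_nbx {k : ℕ} {y : Sp E F} {a : K × List (ℕ × ℕ)} :
    (Ext.iso a : Ext E F f S) ∈ (nbx k y : Set (Ext E F f S)) ↔ a ∈ tr f S k y := by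
  constructor
  · rintro (⟨w, _, h⟩ | ⟨w, hw, h⟩)
    · exact absurd h pt_ne_iso
    · rw [← Ext.iso.inj h]; exact hw
  · intro h
    exact Or.inr ⟨a, h, rfl⟩

theorem isOpen_nbx (hS : Sep F f S) (k : ℕ) (y : Sp E F) :
    IsOpen (nbx k y : Set (Ext E F f S)) := by
  intro z hz
  rw [inl_mem_nbx] at hz
  obtain ⟨k₁, h1⟩ := nb_subset_nb hz
  obtain ⟨k₂, h2⟩ := tr_subset_tr hS hz
  refine ⟨max k₁ k₂, union_subset_union (image_mono ?_) (image_mono ?_)⟩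
  · exact (nb_anti (le_max_left _ _) z).trans h1
  · exact (tr_anti (le_max_right _ _) z).trans h2

theorem isClosed_nbx (hS : Sep F f S) (k : ℕ) (y : Sp E F) :
    IsClosed (nbx k y : Set (Ext E F f S)) := by
  rw [← isOpen_compl_iff]
  intro z hz
  have hz' : z ∉ nb k y := fun h => hz (inl_mem_nbx.2 h)
  obtain ⟨k₁, h1⟩ := cy_disjoint_nb hz'
  obtain ⟨k₂, h2⟩ := tr_disjoint_tr hS hz'
  refine ⟨max k₁ k₂, ?_⟩
  rintro _ (⟨w, hw, rfl⟩ | ⟨a, ha, rfl⟩) hmem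
  · rw [inl_mem_nbx] at hmem
    exact h1 w (nb_subset_cy _ _ (nb_anti (le_max_left _ _) z hw)) hmem
  · rw [inr_mem_nbx] at hmem
    exact h2 a (tr_anti (le_max_right _ _) z ha) hmem

theorem isOpen_singleton_inr (a : K × List (ℕ × ℕ)) : IsOpen ({Ext.iso a} : Set (Ext E F f S)) := by
  intro y hy
  exact absurd hy pt_ne_iso

theorem isClosed_singleton_inr (a : K × List (ℕ × ℕ)) :
    IsClosed ({Ext.iso a} : Set (Ext E F f S)) := by
  rw [← isOpen_compl_iff]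
  intro y _
  refine ⟨a.2.length + 1, ?_⟩
  rintro _ (⟨w, hw, rfl⟩ | ⟨b, hb, rfl⟩) hmem
  · exact absurd hmem pt_ne_iso
  · have h1 : b = a := Ext.iso.inj hmem
    subst h1
    exact absurd hb.2.1.1 (by omega)

theorem inl_mem_nbx_self (k : ℕ) (y : Sp E F) :
    (Ext.pt y : Ext E F f S) ∈ (nbx k y : Set (Ext E F f S)) := inl_mem_nbx.2 (nb_self k y)

theorem ext_nhds_hasBasis (hS : Sep F f S) (y : Sp E F) :
    (𝓝 (Ext.pt y : Ext E F f S)).HasBasis (fun _ : ℕ => True) (fun k => nbx k y) := by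
  constructor
  intro t
  rw [mem_nhds_iff]
  constructor
  · rintro ⟨U, hUt, hU, hq⟩
    obtain ⟨p, hp⟩ := hU y hq
    exact ⟨p, trivial, hp.trans hUt⟩
  · rintro ⟨p, _, hp⟩
    exact ⟨nbx p y, hp, isOpen_nbx hS p y, inl_mem_nbx_self p y⟩

theorem ext_firstCountable (hS : Sep F f S) : FirstCountableTopology (Ext E F f S) := by
  constructor
  rintro (y | a)
  · exact (ext_nhds_hasBasis hS y).isCountablyGenerated
  · have : 𝓝 (Ext.iso a : Ext E F f S) = pure (Ext.iso a) :=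
      isOpen_singleton_iff_nhds_eq_pure _ |>.1
        (isOpen_singleton_inr (E := E) (F := F) (f := f) (S := S) a)
    rw [this]
    infer_instance

theorem ext_t2 (hS : Sep F f S) : T2Space (Ext E F f S) := by
  constructor
  rintro (y | a) (z | b) hne
  · have hyz : y ≠ z := fun h => hne (by rw [h])
    have : ∃ k, z ∉ nb k y := by
      by_cases h1 : y.1 = z.1
      · have h2 : y.2 ≠ z.2 := fun h => hyz (Prod.ext h1 h)
        obtain ⟨d, _, hd2⟩ := exists_first_diff h2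
        exact ⟨d + 1, fun h => hd2 (h.2.1 d (Nat.lt_succ_self d))⟩
      · exact ⟨0, fun h => h1 h.1⟩
    obtain ⟨k, hk⟩ := this
    refine ⟨nbx k y, (nbx k y)ᶜ, isOpen_nbx hS k y, (isClosed_nbx hS k y).isOpen_compl,
      inl_mem_nbx_self k y, fun h => hk (inl_mem_nbx.1 h), disjoint_compl_right⟩
  · exact ⟨{Ext.iso b}ᶜ, {Ext.iso b}, (isClosed_singleton_inr b).isOpen_compl,
      isOpen_singleton_inr b, hne, rfl, disjoint_compl_left⟩
  · exact ⟨{Ext.iso a}, {Ext.iso a}ᶜ, isOpen_singleton_inr a,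
      (isClosed_singleton_inr a).isOpen_compl, rfl, fun h => hne h.symm, disjoint_compl_right⟩
  · exact ⟨{Ext.iso a}, {Ext.iso a}ᶜ, isOpen_singleton_inr a,
      (isClosed_singleton_inr a).isOpen_compl, rfl, fun h => hne h.symm, disjoint_compl_right⟩

theorem ext_clopen_basis (hS : Sep F f S) :
    TopologicalSpace.IsTopologicalBasis {s : Set (Ext E F f S) | IsClopen s} := by
  apply TopologicalSpace.isTopologicalBasis_of_isOpen_of_nhds
  · exact fun u hu => hu.2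
  · rintro (y | a) U hU hUo
    · obtain ⟨k, hk⟩ := hUo y hU
      exact ⟨nbx k y, ⟨isClosed_nbx hS k y, isOpen_nbx hS k y⟩, inl_mem_nbx_self k y, hk⟩
    · exact ⟨{Ext.iso a}, ⟨isClosed_singleton_inr a, isOpen_singleton_inr a⟩, rfl,
        singleton_subset_iff.2 hU⟩

/-- The canonical point of the trace. -/
theorem tr_nonempty (k : ℕ) (y : Sp E F) : (tr f S k y).Nonempty := by
  let u : List (ℕ × ℕ) := (List.range k).map (fun j => (k, f (y.2 j) k))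
  have hlen : u.length = k := by simp [u]
  have hget : ∀ j < k, u.getD j (0, 0) = (k, f (y.2 j) k) := by
    intro j hj
    simp [u, hj]
  refine ⟨(y.1, u), rfl, ⟨hlen.ge, fun j hj => ?_⟩, fun _ => Or.inr (fun j hj => ?_)⟩
  · rw [hget j hj]
    exact ⟨le_rfl, rfl⟩
  · rw [hlen] at hj
    show (u.getD j (0, 0)).2 = f (y.2 j) (u.getD j (0, 0)).1
    rw [hget j hj]

theorem ext_separable [Countable K] : TopologicalSpace.SeparableSpace (Ext E F f S) := by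
  refine ⟨⟨range (Ext.iso : K × List (ℕ × ℕ) → Ext E F f S), countable_range _, ?_⟩⟩
  rw [dense_iff_inter_open]
  rintro U hU ⟨y | a, hy⟩
  · obtain ⟨k, hk⟩ := hU y hy
    obtain ⟨a, ha⟩ := tr_nonempty (f := f) (S := S) k y
    exact ⟨Ext.iso a, hk (inr_mem_nbx.2 ha), a, rfl⟩
  · exact ⟨Ext.iso a, hy, a, rfl⟩

theorem isClosedEmbedding_inl : IsClosedEmbedding (Ext.pt : Sp E F → Ext E F f S) := by
  apply IsClosedEmbedding.of_continuous_injective_isClosedMap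
  · constructor
    intro U hU y hy
    obtain ⟨k, hk⟩ := hU y hy
    exact ⟨k, fun z hz => hk (Or.inl ⟨z, hz, rfl⟩)⟩
  · exact (fun _ _ h => Ext.pt.inj h)
  · intro C hC
    rw [← isOpen_compl_iff] at hC ⊢
    intro y hy
    have hy' : y ∈ Cᶜ := fun h => hy ⟨y, h, rfl⟩
    obtain ⟨k, hk⟩ := hC y hy'
    refine ⟨k, ?_⟩
    rintro _ (⟨w, hw, rfl⟩ | ⟨a, ha, rfl⟩)
    · rintro ⟨w', hw', h⟩
      rw [Ext.pt.inj h] at hw'
      exact hk hw hw'
    · rintro ⟨w', _, h⟩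
      exact absurd h pt_ne_iso

end

end Run7.h584
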