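import Mathlib

set_option linter.unusedSectionVars false

/-!
`F_σ` sets, and perfectness of the finite powers of an extension by countably many points.
-/

namespace Run7.h584

open Set Topology

/-- Countable unions of closed sets. -/
def IsFs {X : Type*} [TopologicalSpace X] (U : Set X) : Prop :=
  ∃ H : ℕ → Set X, (∀ n, IsClosed (H n)) ∧ ⋃ n, H n = U

theorem IsClosed.isFs {X : Type*} [TopologicalSpace X] {C : Set X} (h : IsClosed C) : IsFs C :=
  ⟨fun _ => C, fun _ => h, iUnion_const C⟩

theorem IsFs.iUnion {X : Type*} [TopologicalSpace X] {ι : Type*} [Countable ι] {U : ι → Set X}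
    (h : ∀ i, IsFs (U i)) : IsFs (⋃ i, U i) := by
  rcases isEmpty_or_nonempty ι with he | hne
  · rw [iUnion_of_empty]
    exact IsClosed.isFs isClosed_empty
  · obtain ⟨e, he⟩ := exists_surjective_nat ι
    choose H h1 h2 using h
    refine ⟨fun j => H (e (Nat.unpair j).1) (Nat.unpair j).2, fun j => h1 _ _, ?_⟩
    ext x
    constructor
    · intro hx
      obtain ⟨j, hj⟩ := mem_iUnion.1 hx
      refine mem_iUnion.2 ⟨e (Nat.unpair j).1, ?_⟩
      rw [← h2]
      exact mem_iUnion.2 ⟨_, hj⟩
    · intro hx
      obtain ⟨i, hi⟩ := mem_iUnion.1 hx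
      obtain ⟨m, rfl⟩ := he i
      rw [← h2] at hi
      obtain ⟨j, hj⟩ := mem_iUnion.1 hi
      refine mem_iUnion.2 ⟨Nat.pair m j, ?_⟩
      simpa using hj

theorem IsFs.union {X : Type*} [TopologicalSpace X] {U V : Set X} (hU : IsFs U) (hV : IsFs V) :
    IsFs (U ∪ V) := by
  have : U ∪ V = ⋃ b : Bool, cond b U V := by
    ext x; simp [or_comm]
  rw [this]
  apply IsFs.iUnion
  intro b
  cases b
  · exact hV
  · exact hU

theorem isGδ_compl_of_isFs {X : Type*} [TopologicalSpace X] {U : Set X} (h : IsFs U) :
    IsGδ Uᶜ := by
  obtain ⟨H, h1, rfl⟩ := h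
  rw [compl_iUnion]
  exact IsGδ.iInter_of_isOpen (fun m => (h1 m).isOpen_compl)

theorem isFs_pow_ext {Z X : Type*} [TopologicalSpace Z] [TopologicalSpace X] [T2Space X]
    (i : Z → X) (hi : IsClosedEmbedding i) (hc : (range i)ᶜ.Countable) (n : ℕ)
    (hZ : ∀ k ≤ n, ∀ U : Set (Fin k → Z), IsOpen U → IsFs U) :
    ∀ k ≤ n, ∀ U : Set (Fin k → X), IsOpen U → IsFs U := by
  intro k
  have hcount : Countable ((range i)ᶜ : Set X) := hc.to_subtype
  -- the part inside the closed subspace
  have part1 : ∀ k ≤ n, ∀ U : Set (Fin k → X), IsOpen U → IsFs (U ∩ {f | ∀ l, f l ∈ range i}) := by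
    intro k hk U hU
    let j : (Fin k → Z) → (Fin k → X) := Pi.map (fun _ => i)
    have hj : IsClosedEmbedding j := IsClosedEmbedding.piMap (fun _ => hi)
    obtain ⟨H, h1, h2⟩ := hZ k hk (j ⁻¹' U) (hU.preimage hj.continuous)
    refine ⟨fun m => j '' (H m), fun m => hj.isClosedMap _ (h1 m), ?_⟩
    rw [← image_iUnion, h2, image_preimage_eq_inter_range]
    congr 1
    ext f
    constructor
    · rintro ⟨h, rfl⟩ l
      exact ⟨h l, rfl⟩
    · intro hf
      choose h hh using hf
      exact ⟨h, funext hh⟩
  induction k with
  | zero =>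
      intro hk U hU
      have := part1 0 hk U hU
      have h2 : U ∩ {f | ∀ l, f l ∈ range i} = U := by
        apply inter_eq_left.2
        intro f _ l
        exact l.elim0
      rwa [h2] at this
  | succ k ih =>
      intro hk U hU
      have hk' : k ≤ n := Nat.le_of_succ_le hk
      have slice : ∀ (l : Fin (k + 1)) (c : X), IsFs (U ∩ {f | f l = c}) := by
        intro l c
        have hins : Continuous (fun g : Fin k → X => (l.insertNth c g : Fin (k + 1) → X)) := by
          apply continuous_pi
          rw [Fin.forall_iff_succAbove l]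
          constructor
          · simp only [Fin.insertNth_apply_same]
            exact continuous_const
          · intro i
            simp only [Fin.insertNth_apply_succAbove]
            exact continuous_apply i
        have hrem : Continuous (fun f : Fin (k + 1) → X => (l.removeNth f : Fin k → X)) := by
          apply continuous_pi
          intro i
          exact continuous_apply _
        obtain ⟨H, h1, h2⟩ := ih hk'
          ((fun g : Fin k → X => (l.insertNth c g : Fin (k + 1) → X)) ⁻¹' U) (hU.preimage hins)
        refine ⟨fun n => {f | f l = c} ∩ (fun f : Fin (k + 1) → X => l.removeNth f) ⁻¹' (H n),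
          ?_, ?_⟩
        · intro n
          refine IsClosed.inter ?_ ((h1 n).preimage hrem)
          exact isClosed_eq (continuous_apply l) continuous_const
        · ext f
          constructor
          · intro hf
            obtain ⟨m, hf1, hf2⟩ := mem_iUnion.1 hf
            have hf1' : f l = c := hf1
            have h3 : l.removeNth f ∈ ⋃ n, H n := mem_iUnion.2 ⟨m, hf2⟩
            rw [h2] at h3
            have h4 : (l.insertNth c (l.removeNth f) : Fin (k + 1) → X) ∈ U := h3
            rw [← hf1', Fin.insertNth_self_removeNth] at h4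
            exact ⟨h4, hf1⟩
          · rintro ⟨hf2, hf1⟩
            have hf1' : f l = c := hf1
            have h3 : l.removeNth f ∈ ⋃ n, H n := by
              rw [h2]
              show (l.insertNth c (l.removeNth f) : Fin (k + 1) → X) ∈ U
              rw [← hf1', Fin.insertNth_self_removeNth]
              exact hf2
            obtain ⟨n, hn⟩ := mem_iUnion.1 h3
            exact mem_iUnion.2 ⟨n, hf1, hn⟩
      have hall : IsFs (⋃ a : Fin (k + 1) × ((range i)ᶜ : Set X), U ∩ {f | f a.1 = a.2.1}) :=
        IsFs.iUnion (fun a => slice a.1 a.2.1)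
      have := (part1 (k + 1) hk U hU).union hall
      convert this using 1
      ext f
      constructor
      · intro hf
        by_cases h : ∀ l, f l ∈ range i
        · exact Or.inl ⟨hf, h⟩
        · push Not at h
          obtain ⟨l, hl⟩ := h
          exact Or.inr (mem_iUnion.2 ⟨(l, ⟨f l, hl⟩), hf, rfl⟩)
      · rintro (⟨hf, _⟩ | hf)
        · exact hf
        · obtain ⟨a, ha, _⟩ := mem_iUnion.1 hf
          exact ha

end Run7.h584
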