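import Pool.Agent.Run7.h584.Space

set_option linter.unusedSectionVars false

/-!
The space has a base of cardinality at most `ℵ₁`.
-/

namespace Run7.h584

open Set Topology TopologicalSpace

theorem exists_base {W K : Type} {E : Set (ℕ → W)} {F : W → W → K} [Finite K]
    (hWcard : Cardinal.mk W = Cardinal.aleph 1) (x : W → ℕ → W) (hEx : E ⊆ range x) :
    ∃ b : Set (Set (Sp E F)), IsTopologicalBasis b ∧ Cardinal.mk b ≤ Cardinal.aleph 1 := by
  classical
  let b₁ : Set (Set (Sp E F)) := range (fun a : ℕ × K × W => nb a.1 (a.2.1, x a.2.2))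
  let b₂ : Set (Set (Sp E F)) :=
    range (fun a : K × List W => {z | a.1 = z.1 ∧ (List.range a.2.length).map z.2 = a.2})
  have hcy : ∀ (p : ℕ) (q : Sp E F), cy p q ∈ b₂ := by
    intro p q
    refine ⟨(q.1, (List.range p).map q.2), ?_⟩
    ext z
    simp only [List.length_map, List.length_range]
    constructor
    · rintro ⟨h1, h2⟩
      refine ⟨h1, fun i hi => ?_⟩
      exact (List.map_inj_left.1 h2 i (List.mem_range.2 hi)).symm
    · rintro ⟨h1, h2⟩
      refine ⟨h1, ?_⟩
      apply List.map_inj_left.2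
      intro i hi
      exact (h2 i (List.mem_range.1 hi)).symm
  refine ⟨b₁ ∪ b₂, ?_, ?_⟩
  · apply isTopologicalBasis_of_isOpen_of_nhds
    · rintro u (⟨a, rfl⟩ | ⟨a, rfl⟩)
      · exact isOpen_nb _ _
      · rintro q ⟨h1, h2⟩
        refine ⟨a.2.length, ?_⟩
        rintro z ⟨h3, h4, _⟩
        refine ⟨h1.trans h3, ?_⟩
        rw [← h2]
        simp only [List.length_map, List.length_range]
        apply List.map_inj_left.2
        intro i hi
        exact (h4 i (List.mem_range.1 hi)).symm
    · intro q U hq hU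
      obtain ⟨p, hp⟩ := hU q hq
      by_cases hE : q.2 ∈ E
      · obtain ⟨β, hβ⟩ := hEx hE
        refine ⟨nb p q, Or.inl ⟨(p, q.1, β), ?_⟩, nb_self p q, hp⟩
        show nb p ((q.1, x β) : Sp E F) = nb p q
        rw [hβ]
        rfl
      · exact ⟨cy p q, Or.inr (hcy p q), ⟨rfl, fun _ _ => rfl⟩, by rw [← nb_eq_cy hE]; exact hp⟩
  · have hinf : Cardinal.aleph0 ≤ Cardinal.aleph 1 := Cardinal.aleph0_le_aleph 1
    have : Infinite W := by
      rw [Cardinal.infinite_iff, hWcard]
      exact hinf
    have hK : Cardinal.mk K ≤ Cardinal.aleph 1 := (Cardinal.lt_aleph0_of_finite K).le.trans hinf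
    have h1 : Cardinal.mk b₁ ≤ Cardinal.aleph 1 := by
      refine Cardinal.mk_range_le.trans ?_
      rw [Cardinal.mk_prod, Cardinal.mk_prod]
      simp only [Cardinal.lift_id, Cardinal.mk_nat, hWcard]
      refine Cardinal.mul_le_of_le hinf (hinf) (Cardinal.mul_le_of_le hinf hK le_rfl)
    have h2 : Cardinal.mk b₂ ≤ Cardinal.aleph 1 := by
      refine Cardinal.mk_range_le.trans ?_
      rw [Cardinal.mk_prod]
      simp only [Cardinal.lift_id, Cardinal.mk_list_eq_mk, hWcard]
      exact Cardinal.mul_le_of_le hinf hK le_rfl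
    exact (Cardinal.mk_union_le _ _).trans (Cardinal.add_le_of_le hinf h1 h2)

end Run7.h584
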