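import Pool.Agent.Run7.h584.Para

set_option linter.unusedSectionVars false

/-!
Small powers are perfect; the critical power is not.
-/

namespace Run7.h584

open Set Topology

section
variable {W K : Type} {E : Set (ℕ → W)} {F : W → W → K} {k : ℕ}

/-- The induction predicate for perfectness. -/
def GoodF (U R : Set (Fin k → Sp E F)) : Prop :=
  ∃ H : ℕ → Set (Fin k → Sp E F), (∀ n, IsClosed (H n)) ∧ (∀ n, H n ⊆ U) ∧ R ∩ U ⊆ ⋃ n, H n

theorem GoodF.of_thin {U : Set (Fin k → Sp E F)}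
    (hsl : ∀ s ∈ slices E F k, GoodF U s) {R : Set (Fin k → Sp E F)}
    (hR : Thin rel (slices E F k) R) : GoodF U R := by
  induction hR with
  | empty =>
      exact ⟨fun _ => ∅, fun _ => isClosed_empty, fun _ => empty_subset _,
        fun f hf => absurd hf.1 (notMem_empty f)⟩
  | basic s hs => exact hsl s hs
  | mono s t _ hst ih =>
      obtain ⟨H, h1, h2, h3⟩ := ih
      exact ⟨H, h1, h2, (inter_subset_inter_left _ hst).trans h3⟩
  | iUnion s _ ih =>
      choose H h1 h2 h3 using ih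
      refine ⟨fun j => H (Nat.unpair j).1 (Nat.unpair j).2, fun j => h1 _ _, fun j => h2 _ _, ?_⟩
      rintro f ⟨hf, hfU⟩
      obtain ⟨n, hn⟩ := mem_iUnion.1 hf
      obtain ⟨j, hj⟩ := mem_iUnion.1 (h3 n ⟨hn, hfU⟩)
      refine mem_iUnion.2 ⟨Nat.pair n j, ?_⟩
      simpa using hj
  | glue p s _ ih =>
      choose H h1 h2 h3 using ih
      refine ⟨fun j => {f | f ∈ H (rep p f) j}, ?_, fun j f hf => h2 _ _ hf, ?_⟩
      · intro j
        apply isClosed_of_cyl p
        intro f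
        have hkey : {f | f ∈ H (rep p f) j} ∩ cyl p f = H (rep p f) j ∩ cyl p f := by
          ext g
          simp only [mem_inter_iff, mem_ofPred_eq]
          constructor
          · rintro ⟨hg1, hg2⟩
            rw [← rep_eq hg2] at hg1
            exact ⟨hg1, hg2⟩
          · rintro ⟨hg1, hg2⟩
            rw [rep_eq hg2] at hg1
            exact ⟨hg1, hg2⟩
        rw [hkey]
        exact (h1 _ j).inter (isClopen_cyl p f).1
      · rintro f ⟨hf, hfU⟩
        obtain ⟨j, hj⟩ := mem_iUnion.1 (h3 (rep p f) ⟨⟨hf, rep_rel p f⟩, hfU⟩)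
        exact mem_iUnion.2 ⟨j, hj⟩

/-- Pairs of different elements of `E` are thin. -/
theorem thin_pairs (x : W → ℕ → W)
    (hEp : ∀ y ∈ E, ∀ y' ∈ E, y ≠ y' → (∃ p, y = x (y' p)) ∨ (∃ p, y' = x (y p)))
    [Countable K] (l l' : Fin k) :
    Thin rel (slices E F k) {f | (f l).2 ∈ E ∧ (f l').2 ∈ E ∧ (f l).2 ≠ (f l').2} := by
  have key : ∀ l l' : Fin k, Thin rel (slices E F k) {f | ∃ p, (f l).2 = x ((f l').2 p)} := by
    intro l l'
    have h1 : {f : Fin k → Sp E F | ∃ p, (f l).2 = x ((f l').2 p)} =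
        ⋃ p, {f | (f l).2 = x ((f l').2 p)} := by
      ext f; simp
    rw [h1]
    apply Thin.iUnion
    intro p
    apply Thin.glue (p + 1)
    intro y
    have h2 : Thin rel (slices E F k) (⋃ i : K, {f : Fin k → Sp E F | f l = (i, x ((y l').2 p))}) :=
      Thin.iUnion_countable (fun i => Thin.basic _ ⟨l, _, rfl⟩)
    refine Thin.mono _ _ h2 ?_
    rintro f ⟨hf, hyf⟩
    refine mem_iUnion.2 ⟨(f l).1, ?_⟩
    have h3 : (y l').2 p = (f l').2 p := (hyf l').2 p (Nat.lt_succ_self p)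
    show f l = ((f l).1, x ((y l').2 p))
    rw [h3]
    exact Prod.ext rfl hf
  refine Thin.mono _ _ ((key l l').union (key l' l)) ?_
  rintro f ⟨h1, h2, h3⟩
  exact hEp _ h1 _ h2 h3

/-- The main combinatorial lemma: for fewer coordinates than colours, the non-interior part
of an open set is thin. -/
theorem thin_boundary
    (hEc : ∀ A : Set W, A.Countable → {y | y ∈ E ∧ ∀ i, y i ∈ A}.Countable)
    (x : W → ℕ → W)
    (hEp : ∀ y ∈ E, ∀ y' ∈ E, y ≠ y' → (∃ p, y = x (y' p)) ∨ (∃ p, y' = x (y p)))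
    (hF : ∀ Z : Set W, ¬ Z.Countable → ∀ j, ∃ α ∈ Z, ∃ β ∈ Z, α ≠ β ∧ F α β = j)
    [Fintype K] [LinearOrder W] [WellFoundedLT W] [Uncountable W]
    (hk : k < Fintype.card K) {U : Set (Fin k → Sp E F)} (hU : IsOpen U) :
    Thin rel (slices E F k) (U \ {f | ∃ p, cyl p f ⊆ U}) := by
  classical
  -- the levels
  have hR : ∀ p, Thin rel (slices E F k) {f | f ∈ U \ {f | ∃ p, cyl p f ⊆ U} ∧ Nb p f ⊆ U} := by
    intro p
    by_contra hR
    -- restrict to a cylinder
    have h1 : ∃ f₀, ¬ Thin rel (slices E F k)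
        ({f | f ∈ U \ {f | ∃ p, cyl p f ⊆ U} ∧ Nb p f ⊆ U} ∩ {z | rel p f₀ z}) := by
      by_contra hcon
      push Not at hcon
      exact hR (Thin.glue p _ hcon)
    obtain ⟨f₀, h1⟩ := h1
    set R₁ := {f | f ∈ U \ {f | ∃ p, cyl p f ⊆ U} ∧ Nb p f ⊆ U} ∩ {z | rel p f₀ z} with hR₁
    -- restrict to a fixed set of coordinates in `E`
    have h2 : ∃ I : Finset (Fin k), ¬ Thin rel (slices E F k)
        {f | f ∈ R₁ ∧ ∀ l, (f l).2 ∈ E ↔ l ∈ I} := by
      by_contra hcon
      push Not at hcon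
      apply h1
      refine Thin.mono _ _ (Thin.iUnion_countable hcon) ?_
      intro f hf
      refine mem_iUnion.2 ⟨Finset.univ.filter (fun l => (f l).2 ∈ E), hf, fun l => ?_⟩
      simp
    obtain ⟨I, h2⟩ := h2
    -- remove the thin set where the coordinates in `E` differ
    have h3 : ¬ Thin rel (slices E F k)
        {f | (f ∈ R₁ ∧ ∀ l, (f l).2 ∈ E ↔ l ∈ I) ∧ ∀ l ∈ I, ∀ l' ∈ I, (f l).2 = (f l').2} := by
      intro hcon
      apply h2
      have h4 : Thin rel (slices E F k) (⋃ a : Fin k × Fin k,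
          {f | (f a.1).2 ∈ E ∧ (f a.2).2 ∈ E ∧ (f a.1).2 ≠ (f a.2).2}) :=
        Thin.iUnion_countable (fun a => thin_pairs x hEp a.1 a.2)
      refine Thin.mono _ _ (hcon.union h4) ?_
      intro f hf
      by_cases h5 : ∀ l ∈ I, ∀ l' ∈ I, (f l).2 = (f l').2
      · exact Or.inl ⟨hf, h5⟩
      · right
        push Not at h5
        obtain ⟨l, hl, l', hl', hne⟩ := h5
        exact mem_iUnion.2 ⟨(l, l'), (hf.2 l).2 hl, (hf.2 l').2 hl', hne⟩
    set R₂ := {f | (f ∈ R₁ ∧ ∀ l, (f l).2 ∈ E ↔ l ∈ I) ∧ ∀ l ∈ I, ∀ l' ∈ I, (f l).2 = (f l').2}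
      with hR₂
    -- `I` is nonempty
    obtain ⟨g₀, hg₀⟩ := nonempty_of_not_thin h3
    have hI : I.Nonempty := by
      by_contra hcon
      rw [Finset.not_nonempty_iff_eq_empty] at hcon
      obtain ⟨⟨⟨⟨⟨hgU, hgV⟩, hgN⟩, _⟩, hgE⟩, _⟩ := hg₀
      apply hgV
      refine ⟨p, ?_⟩
      rw [← Nb_eq_cyl]
      · exact hgN
      · intro l hl
        have := (hgE l).1 hl
        rw [hcon] at this
        exact absurd this (Finset.notMem_empty l)
    obtain ⟨l₀, hl₀⟩ := hI
    -- the projection is not thin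
    have h5 : ¬ Thin agree (sing (ℕ → W)) ((fun f : Fin k → Sp E F => (f l₀).2) '' R₂) := by
      intro hcon
      apply h3
      have h6 : Thin rel (slices E F k) ((fun f : Fin k → Sp E F => (f l₀).2) ⁻¹'
          ((fun f : Fin k → Sp E F => (f l₀).2) '' R₂)) := by
        refine Thin.preimage (fun f : Fin k → Sp E F => (f l₀).2)
          (fun p y z hyz => (hyz l₀).2) ?_ hcon
        rintro s ⟨c, rfl⟩
        have h7 : Thin rel (slices E F k) (⋃ i : K, {f : Fin k → Sp E F | f l₀ = (i, c)}) :=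
          Thin.iUnion_countable (fun i => Thin.basic _ ⟨l₀, _, rfl⟩)
        refine Thin.mono _ _ h7 ?_
        intro f hf
        exact mem_iUnion.2 ⟨(f l₀).1, Prod.ext rfl hf⟩
      exact Thin.mono _ _ h6 (subset_preimage_image _ _)
    -- a colour which is not forbidden at any coordinate
    have h6 : ∃ j : K, ∀ l, (f₀ l).1 ≠ j := by
      by_contra hcon
      push Not at hcon
      have : Fintype.card K ≤ Fintype.card (Fin k) :=
        Fintype.card_le_of_surjective (fun l => (f₀ l).1) hcon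
      rw [Fintype.card_fin] at this
      exact absurd this (not_le.2 hk)
    obtain ⟨j, hj⟩ := h6
    obtain ⟨a, ⟨f, hf, rfl⟩, a', ⟨f', hf', rfl⟩, d, hd1, hd2, hd3⟩ :=
      exists_split E hEc F hF (T := (fun f : Fin k → Sp E F => (f l₀).2) '' R₂)
        (by rintro _ ⟨f, hf, rfl⟩; exact (hf.1.2 l₀).2 hl₀) h5 j
    obtain ⟨⟨⟨⟨⟨hfU, hfV⟩, hfN⟩, hfr⟩, hfE⟩, hfI⟩ := hf
    obtain ⟨⟨⟨⟨⟨hfU', hfV'⟩, hfN'⟩, hfr'⟩, hfE'⟩, hfI'⟩ := hf'
    -- `d ≥ p`
    have hff' : rel p f f' := (rel_equiv p).trans ((rel_equiv p).symm hfr) hfr'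
    have hdp : p ≤ d := by
      by_contra hcon
      push Not at hcon
      exact hd2 ((hff' l₀).2 d hcon)
    apply hfV
    refine ⟨d + 1, fun g hg => hfN' ?_⟩
    intro l
    have hgf : rel p f g := rel_mono (hdp.trans (Nat.le_succ d)) hg
    refine ⟨?_, ?_, ?_⟩
    · exact ((hff' l).1.symm).trans (hgf l).1
    · exact (agree_equiv p).trans ((agree_equiv p).symm (hff' l).2) (hgf l).2
    · intro hlE d' hd1' hd2'
      have hlI : l ∈ I := (hfE' l).1 hlE
      have e1 : (f' l).2 = (f' l₀).2 := hfI' l hlI l₀ hl₀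
      have e2 : (f l).2 = (f l₀).2 := hfI l hlI l₀ hl₀
      have e3 : agree (d + 1) (f l₀).2 (g l).2 := by rw [← e2]; exact (hg l).2
      have e4 : (f l₀).2 d = (g l).2 d := e3 d (Nat.lt_succ_self d)
      have e5 : agree d (f' l).2 (g l).2 := by
        rw [e1]
        exact (agree_equiv d).trans ((agree_equiv d).symm hd1) (agree_mono (Nat.le_succ d) e3)
      have e6 : (f' l).2 d ≠ (g l).2 d := by
        rw [e1, ← e4]
        exact fun h => hd2 h.symm
      have e7 := first_diff_unique e5 e6 hd1' hd2'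
      subst e7
      rw [e1, ← e4]
      have e8 : F ((f l₀).2 d) ((f' l₀).2 d) = j := hd3
      rw [e8, ← (hfr' l).1]
      exact (hj l).symm
  refine Thin.mono _ _ (Thin.iUnion _ hR) ?_
  intro f hf
  obtain ⟨p, hp⟩ := isOpen_pow_iff.1 hU f hf.1
  exact mem_iUnion.2 ⟨p, hf, hp⟩

/-- Open subsets of powers with fewer coordinates than colours are `F_σ`. -/
theorem exists_Fsigma
    (hEc : ∀ A : Set W, A.Countable → {y | y ∈ E ∧ ∀ i, y i ∈ A}.Countable)
    (x : W → ℕ → W)
    (hEp : ∀ y ∈ E, ∀ y' ∈ E, y ≠ y' → (∃ p, y = x (y' p)) ∨ (∃ p, y' = x (y p)))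
    (hF : ∀ Z : Set W, ¬ Z.Countable → ∀ j, ∃ α ∈ Z, ∃ β ∈ Z, α ≠ β ∧ F α β = j)
    [Fintype K] [LinearOrder W] [WellFoundedLT W] [Uncountable W] :
    ∀ k : ℕ, k < Fintype.card K → ∀ U : Set (Fin k → Sp E F), IsOpen U →
      ∃ H : ℕ → Set (Fin k → Sp E F), (∀ n, IsClosed (H n)) ∧ ⋃ n, H n = U := by
  intro k
  -- the general reduction to slices
  have main : ∀ (k : ℕ), k < Fintype.card K → ∀ U : Set (Fin k → Sp E F), IsOpen U →
      (∀ s ∈ slices E F k, GoodF U s) →
      ∃ H : ℕ → Set (Fin k → Sp E F), (∀ n, IsClosed (H n)) ∧ ⋃ n, H n = U := by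
    intro k hk U hU hsl
    obtain ⟨H, h1, h2, h3⟩ := GoodF.of_thin hsl (thin_boundary hEc x hEp hF hk hU)
    refine ⟨fun n => if Even n then {f | cyl (n / 2) f ⊆ U} else H (n / 2), ?_, ?_⟩
    · intro n
      by_cases hn : Even n
      · simp only [hn, if_true]
        refine (isClopen_of_rel (p := n / 2) (fun f g h hf => ?_)).1
        show cyl (n / 2) g ⊆ U
        rw [← cyl_eq_of_rel h]
        exact hf
      · simp only [hn, if_false]
        exact h1 _
    · ext f
      constructor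
      · intro hf
        obtain ⟨n, hn⟩ := mem_iUnion.1 hf
        by_cases hev : Even n
        · simp only [hev, if_true] at hn
          exact hn ((rel_equiv _).refl f)
        · simp only [hev, if_false] at hn
          exact h2 _ hn
      · intro hf
        by_cases hfV : ∃ p, cyl p f ⊆ U
        · obtain ⟨p, hp⟩ := hfV
          refine mem_iUnion.2 ⟨2 * p, ?_⟩
          simp only [even_two_mul, if_true, Nat.mul_div_cancel_left p (Nat.succ_pos 1)]
          exact hp
        · obtain ⟨n, hn⟩ := mem_iUnion.1 (h3 ⟨⟨hf, hfV⟩, hf⟩)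
          refine mem_iUnion.2 ⟨2 * n + 1, ?_⟩
          have h4 : ¬ Even (2 * n + 1) := by
            rw [Nat.not_even_iff_odd]
            exact odd_two_mul_add_one n
          have h5 : (2 * n + 1) / 2 = n := by omega
          simp only [h4, if_false, h5]
          exact hn
  induction k with
  | zero =>
      intro hk U hU
      apply main 0 hk U hU
      rintro s ⟨l, _⟩
      exact l.elim0
  | succ k ih =>
      intro hk U hU
      apply main (k + 1) hk U hU
      rintro s ⟨l, c, rfl⟩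
      have hins : Continuous (fun g : Fin k → Sp E F => (l.insertNth c g : Fin (k + 1) → Sp E F)) := by
        apply continuous_pi
        rw [Fin.forall_iff_succAbove l]
        constructor
        · simp only [Fin.insertNth_apply_same]
          exact continuous_const
        · intro i
          simp only [Fin.insertNth_apply_succAbove]
          exact continuous_apply i
      have hrem : Continuous (fun f : Fin (k + 1) → Sp E F => (l.removeNth f : Fin k → Sp E F)) := by
        apply continuous_pi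
        intro i
        exact continuous_apply _
      obtain ⟨H, h1, h2⟩ := ih (Nat.lt_of_succ_lt hk)
        ((fun g : Fin k → Sp E F => (l.insertNth c g : Fin (k + 1) → Sp E F)) ⁻¹' U)
        (hU.preimage hins)
      refine ⟨fun n => {f | f l = c} ∩ (fun f : Fin (k + 1) → Sp E F => l.removeNth f) ⁻¹' (H n),
        ?_, ?_, ?_⟩
      · intro n
        refine IsClosed.inter ?_ ((h1 n).preimage hrem)
        exact isClosed_eq (continuous_apply l) continuous_const
      · rintro n f ⟨hf1, hf2⟩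
        have h3 : l.removeNth f ∈ ⋃ n, H n := mem_iUnion.2 ⟨n, hf2⟩
        rw [h2] at h3
        have h4 : (l.insertNth c (l.removeNth f) : Fin (k + 1) → Sp E F) ∈ U := h3
        have hf1' : f l = c := hf1
        rw [← hf1', Fin.insertNth_self_removeNth] at h4
        exact h4
      · rintro f ⟨hf1, hf2⟩
        have hf1' : f l = c := hf1
        have h3 : l.removeNth f ∈ ⋃ n, H n := by
          rw [h2]
          show (l.insertNth c (l.removeNth f) : Fin (k + 1) → Sp E F) ∈ U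
          rw [← hf1', Fin.insertNth_self_removeNth]
          exact hf2
        obtain ⟨n, hn⟩ := mem_iUnion.1 h3
        exact mem_iUnion.2 ⟨n, hf1, hn⟩

end

section
variable {W : Type} {n : ℕ} {E : Set (ℕ → W)} {F : W → W → Fin (n + 1)}

/-- The critical diagonal set. -/
def diagSet (E : Set (ℕ → W)) (F : W → W → Fin (n + 1)) : Set (Fin (n + 1) → Sp E F) :=
  {f | ∃ y, y ∉ E ∧ ∀ l, f l = (l, y)}

theorem not_diag {f : Fin (n + 1) → Sp E F} (hf : ¬ ∃ y, ∀ l, f l = (l, y)) :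
    ∃ p, ∀ g, rel p f g → ¬ ∃ y, ∀ l, g l = (l, y) := by
  by_cases h1 : ∀ l, (f l).1 = l
  · have h2 : ∃ l l', (f l).2 ≠ (f l').2 := by
      by_contra hcon
      push Not at hcon
      exact hf ⟨(f 0).2, fun l => Prod.ext (h1 l) (hcon l 0)⟩
    obtain ⟨l, l', h2⟩ := h2
    obtain ⟨d, hd1, hd2⟩ := exists_first_diff h2
    refine ⟨d + 1, ?_⟩
    rintro g hg ⟨y, hy⟩
    apply hd2
    rw [(hg l).2 d (Nat.lt_succ_self d), (hg l').2 d (Nat.lt_succ_self d), hy l, hy l']
  · push Not at h1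
    obtain ⟨l, hl⟩ := h1
    refine ⟨0, ?_⟩
    rintro g hg ⟨y, hy⟩
    apply hl
    rw [(hg l).1, hy l]

theorem isClosed_diagSet : IsClosed (diagSet E F) := by
  rw [← isOpen_compl_iff, isOpen_pow_iff]
  intro f hf
  by_cases hD : ∃ y, ∀ l, f l = (l, y)
  · obtain ⟨y, hy⟩ := hD
    have hyE : y ∈ E := by
      by_contra hcon
      exact hf ⟨y, hcon, hy⟩
    refine ⟨0, ?_⟩
    rintro g hg ⟨z, hz, hgz⟩
    have hyz : y ≠ z := fun h => hz (h ▸ hyE)
    obtain ⟨d, hd1, hd2⟩ := exists_first_diff hyz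
    have h1 := (hg (F (z d) (y d))).2.2
    rw [hy, hgz] at h1
    exact h1 hyE d hd1 hd2 rfl
  · obtain ⟨p, hp⟩ := not_diag hD
    refine ⟨p, ?_⟩
    rintro g hg ⟨z, _, hgz⟩
    exact hp g (fun l => nb_subset_cy _ _ (hg l)) ⟨z, hgz⟩

theorem not_isGδ_diagSet
    (hEc : ∀ A : Set W, A.Countable → {y | y ∈ E ∧ ∀ i, y i ∈ A}.Countable)
    (hEt : ¬ Thin agree (sing (ℕ → W)) E) : ¬ IsGδ (diagSet E F) := by
  intro hG
  obtain ⟨G, hGo, hGe⟩ := isGδ_iff_eq_iInter_nat.1 hG
  let D : Set (Fin (n + 1) → Sp E F) := {f | ∃ y, ∀ l, f l = (l, y)}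
  let Q : ℕ → Set (Fin (n + 1) → Sp E F) := fun m => {f | f ∈ D ∧ ∀ p, ¬ (cyl p f ∩ D ⊆ G m)}
  have hQ : ∀ m, Thin rel (slices E F (n + 1)) (Q m) := by
    intro m
    apply thin_of_closed hEc
    · intro f hf
      by_cases hfD : f ∈ D
      · have : ∃ p, cyl p f ∩ D ⊆ G m := by
          by_contra hcon
          push Not at hcon
          exact hf ⟨hfD, hcon⟩
        obtain ⟨p, hp⟩ := this
        refine ⟨p, fun g hg hgQ => hgQ.2 p ?_⟩
        rw [← cyl_eq_of_rel hg]
        exact hp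
      · obtain ⟨p, hp⟩ := not_diag hfD
        exact ⟨p, fun g hg hgQ => hp g hg hgQ.1⟩
    · rintro f ⟨⟨y, hy⟩, hf2⟩
      refine ⟨0, ?_⟩
      rw [hy]
      by_contra hcon
      have h1 : f ∈ diagSet E F := ⟨y, hcon, hy⟩
      rw [hGe] at h1
      obtain ⟨p, hp⟩ := isOpen_pow_iff.1 (hGo m) f (mem_iInter.1 h1 m)
      apply hf2 p
      rw [Nb_eq_cyl (fun l => by rw [hy]; exact hcon)] at hp
      exact inter_subset_left.trans hp
  apply hEt
  let φ : (ℕ → W) → (Fin (n + 1) → Sp E F) := fun y l => (l, y)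
  have h1 : Thin agree (sing (ℕ → W)) (φ ⁻¹' (⋃ m, Q m)) := by
    refine Thin.preimage φ (fun p y z hyz l => ⟨rfl, hyz⟩) ?_ (Thin.iUnion _ hQ)
    rintro s ⟨l, c, rfl⟩
    refine Thin.mono _ _ (Thin.basic {c.2} ⟨c.2, rfl⟩) ?_
    intro y hy
    have hy' : ((l, y) : Sp E F) = c := hy
    show y = c.2
    rw [← hy']
  refine Thin.mono _ _ h1 ?_
  intro y hy
  by_contra hcon
  have h2 : ∀ m, φ y ∈ G m := by
    intro m
    have h3 : φ y ∉ Q m := fun h => hcon (mem_iUnion.2 ⟨m, h⟩)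
    have h4 : ∃ p, cyl p (φ y) ∩ D ⊆ G m := by
      by_contra hc
      push Not at hc
      exact h3 ⟨⟨y, fun _ => rfl⟩, hc⟩
    obtain ⟨p, hp⟩ := h4
    exact hp ⟨(rel_equiv p).refl _, ⟨y, fun _ => rfl⟩⟩
  have h3 : φ y ∈ diagSet E F := by
    rw [hGe]
    exact mem_iInter.2 h2
  obtain ⟨z, hz, hyz⟩ := h3
  have h4 : ((0, y) : Sp E F) = (0, z) := hyz 0
  have h5 : y = z := (Prod.ext_iff.1 h4).2
  exact hz (h5 ▸ hy)

end

end Run7.h584
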