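import Mathlib

set_option linter.unusedSectionVars false

/-!
Facts about an uncountable well-order all of whose initial segments are countable:
closure points, a partition into countably many stationary pieces (Ulam), and a
colouring of pairs all of whose colours appear on every uncountable set (Todorcevic).
-/

namespace Run7.h584

open Set

section
variable {W : Type*} [LinearOrder W] [WellFoundedLT W] [Uncountable W]

theorem exists_gt_countable (hW : ∀ b : W, (Iio b).Countable) {s : Set W} (hs : s.Countable) :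
    ∃ b, ∀ a ∈ s, a < b := by
  have h1 : (⋃ a ∈ s, Iic a).Countable := by
    apply hs.biUnion
    intro a _
    have : Iic a ⊆ Iio a ∪ {a} := by
      intro x hx
      rcases lt_or_eq_of_le (mem_Iic.1 hx) with h | h
      · exact Or.inl h
      · exact Or.inr h
    exact ((hW a).union (countable_singleton a)).mono this
  have h2 : (⋃ a ∈ s, Iic a) ≠ univ := by
    intro h
    rw [h] at h1
    exact not_countable (α := W) (countable_univ_iff.1 h1)
  obtain ⟨b, hb⟩ := (ne_univ_iff_exists_notMem _).1 h2
  refine ⟨b, fun a ha => ?_⟩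
  by_contra hcon
  exact hb (mem_biUnion ha (not_lt.1 hcon))

theorem countable_Iic (hW : ∀ b : W, (Iio b).Countable) (a : W) : (Iic a).Countable := by
  have : Iic a ⊆ Iio a ∪ {a} := by
    intro x hx
    rcases lt_or_eq_of_le (mem_Iic.1 hx) with h | h
    · exact Or.inl h
    · exact Or.inr h
  exact ((hW a).union (countable_singleton a)).mono this

/-- Closure points exist above any bound. -/
theorem exists_closed (hW : ∀ b : W, (Iio b).Countable) (h : W → W) (b : W) :
    ∃ δ, b < δ ∧ ∀ η < δ, h η < δ := by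
  have hstep : ∀ a : W, ∃ c, a < c ∧ ∀ η ≤ a, h η < c := by
    intro a
    obtain ⟨c, hc⟩ := exists_gt_countable hW
      (((countable_Iic hW a).image h).union (countable_singleton a))
    exact ⟨c, hc a (Or.inr rfl), fun η hη => hc _ (Or.inl ⟨η, hη, rfl⟩)⟩
  choose g hg1 hg2 using hstep
  let u : ℕ → W := fun n => g^[n] b
  have hu : ∀ n, u (n + 1) = g (u n) := fun n => Function.iterate_succ_apply' g n b
  have hne : {x : W | ∀ n, u n < x}.Nonempty := by
    obtain ⟨c, hc⟩ := exists_gt_countable hW (countable_range u)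
    exact ⟨c, fun n => hc _ ⟨n, rfl⟩⟩
  refine ⟨wellFounded_lt.min _ hne, ?_, ?_⟩
  · exact (wellFounded_lt.min_mem _ hne : _) 0
  · intro η hη
    have h1 : ¬ ∀ n, u n < η := fun hcon =>
      wellFounded_lt.not_lt_min {x : W | ∀ n, u n < x} (x := η) hcon hη
    push Not at h1
    obtain ⟨n, hn⟩ := h1
    have h2 : h η < u (n + 1) := by rw [hu]; exact hg2 _ _ hn
    exact h2.trans ((wellFounded_lt.min_mem _ hne : _) (n + 1))

/-- Countably many functions are dominated by one, monotonically. -/
theorem exists_dominating (hW : ∀ b : W, (Iio b).Countable) (h : ℕ → W → W) :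
    ∃ H : W → W, ∀ n η' η, η' ≤ η → h n η' ≤ H η := by
  have : ∀ η : W, ∃ c, ∀ n η', η' ≤ η → h n η' ≤ c := by
    intro η
    obtain ⟨c, hc⟩ := exists_gt_countable hW
      (s := ⋃ n, (h n) '' (Iic η)) (countable_iUnion (fun n => (countable_Iic hW η).image _))
    exact ⟨c, fun n η' hη' => (hc _ (mem_iUnion.2 ⟨n, η', hη', rfl⟩)).le⟩
  choose H hH using this
  exact ⟨H, fun n η' η hη => hH η n η' hη⟩

/-- Stationary sets, in terms of closure points of functions. -/
def Big (S : Set W) : Prop := ∀ (h : W → W) (b : W), ∃ δ ∈ S, b < δ ∧ ∀ η < δ, h η < δ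

theorem Big.mono {S T : Set W} (hS : Big S) (hST : S ⊆ T) : Big T := by
  intro h b
  obtain ⟨δ, h1, h2⟩ := hS h b
  exact ⟨δ, hST h1, h2⟩

/-- Ulam: a function to `ℕ` all of whose fibres are stationary. -/
theorem exists_ulam (hW : ∀ b : W, (Iio b).Countable) :
    ∃ c : W → ℕ, ∀ j, Big {δ | c δ = j} := by
  classical
  have he : ∀ δ : W, ∃ f : W → ℕ, InjOn f (Iio δ) := by
    intro δ
    exact (countable_iff_exists_injOn).1 (hW δ)
  choose e he using he
  have h1 : ∀ ζ : W, ∃ n, Big {δ | ζ < δ ∧ e δ ζ = n} := by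
    intro ζ
    by_contra hcon
    push Not at hcon
    have h2 : ∀ n, ∃ (h : W → W) (b : W), ∀ δ, ζ < δ → e δ ζ = n → b < δ → ∃ η < δ, δ ≤ h η := by
      intro n
      have := hcon n
      unfold Big at this
      push Not at this
      obtain ⟨h, b, hb⟩ := this
      exact ⟨h, b, fun δ h1 h2 h3 => hb δ ⟨h1, h2⟩ h3⟩
    choose h b hb using h2
    obtain ⟨H, hH⟩ := exists_dominating hW h
    obtain ⟨B, hB⟩ := exists_gt_countable hW ((countable_range b).union (countable_singleton ζ))
    obtain ⟨δ, hδ1, hδ2⟩ := exists_closed hW H B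
    obtain ⟨η, hη1, hη2⟩ := hb (e δ ζ) δ ((hB ζ (Or.inr rfl)).trans hδ1) rfl
      ((hB _ (Or.inl ⟨_, rfl⟩)).trans hδ1)
    have h3 := hδ2 η hη1
    have h4 := hH (e δ ζ) η η le_rfl
    exact absurd (hη2.trans h4) (not_le.2 h3)
  choose N hN using h1
  have h2 : ∃ n, {ζ | N ζ = n}.Infinite := by
    by_contra hcon
    push Not at hcon
    have h3 : (univ : Set W) = ⋃ n, {ζ | N ζ = n} := by
      ext ζ; simp
    have h4 : (univ : Set W).Countable := by
      rw [h3]
      refine countable_iUnion (fun n => ?_)
      exact (hcon n).countable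
    exact not_countable (α := W) (countable_univ_iff.1 h4)
  obtain ⟨n, hn⟩ := h2
  let ι : ℕ ↪ {ζ | N ζ = n} := hn.natEmbedding
  let c : W → ℕ := fun δ => if h : ∃ i, (ι i : W) < δ ∧ e δ (ι i) = n then h.choose else 0
  refine ⟨c, fun j => ?_⟩
  have h5 : Big {δ | (ι j : W) < δ ∧ e δ (ι j) = n} := by
    have := hN (ι j)
    rwa [show N (ι j) = n from (ι j).2] at this
  refine h5.mono ?_
  rintro δ ⟨h6, h7⟩
  have h8 : ∃ i, (ι i : W) < δ ∧ e δ (ι i) = n := ⟨j, h6, h7⟩
  have h9 : c δ = h8.choose := dif_pos h8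
  have h10 := h8.choose_spec
  have h11 : (ι h8.choose : W) = ι j := he δ h10.1 h6 (h10.2.trans h7.symm)
  have h12 : h8.choose = j := ι.injective (Subtype.ext h11)
  show c δ = j
  rw [h9, h12]

/-- Todorcevic: a colouring of pairs all of whose colours appear on every uncountable set. -/
theorem exists_colouring (hW : ∀ b : W, (Iio b).Countable) (r : W → ℕ → Bool)
    (hr : Function.Injective r) :
    ∃ F : W → W → ℕ, ∀ Z : Set W, ¬ Z.Countable → ∀ j, ∃ α ∈ Z, ∃ β ∈ Z, α < β ∧ F α β = j := by
  classical
  obtain ⟨c, hc⟩ := exists_ulam hW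
  have he : ∀ δ : W, ∃ f : W → ℕ, InjOn f (Iio δ) := by
    intro δ
    exact (countable_iff_exists_injOn).1 (hW δ)
  choose e he using he
  -- the set among which the minimum is taken
  let P : W → W → Set W := fun α β =>
    {ξ | α ≤ ξ ∧ ξ < β ∧ e β ξ ≤ PiNat.firstDiff (E := fun _ => Bool) (r α) (r β)}
  let m : W → W → W := fun α β =>
    if h : (P α β).Nonempty then wellFounded_lt.min (P α β) h else α
  refine ⟨fun α β => c (m α β), ?_⟩
  intro Z hZ j
  -- the subsets of Z below a node
  let Zs : List Bool → Set W := fun s => {α | α ∈ Z ∧ (List.range s.length).map (r α) = s}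
  -- choose bounds for countable ones, functions for uncountable ones
  have hb : ∀ s : List Bool, ∃ b : W, (Zs s).Countable → ∀ α ∈ Zs s, α < b := by
    intro s
    by_cases h : (Zs s).Countable
    · obtain ⟨b, hb⟩ := exists_gt_countable hW h
      exact ⟨b, fun _ => hb⟩
    · exact ⟨Classical.arbitrary W, fun h' => absurd h' h⟩
  choose b hb using hb
  have hg : ∀ (s : List Bool) (η : W), ∃ α : W, ¬ (Zs s).Countable → α ∈ Zs s ∧ η < α := by
    intro s η
    by_cases h : (Zs s).Countable
    · exact ⟨η, fun h' => absurd h h'⟩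
    · have : ∃ α ∈ Zs s, η < α := by
        by_contra hcon
        push Not at hcon
        exact h ((countable_Iic hW η).mono (fun α hα => hcon α hα))
      obtain ⟨α, h1, h2⟩ := this
      exact ⟨α, fun _ => ⟨h1, h2⟩⟩
  choose g hg using hg
  obtain ⟨en, hen⟩ := exists_surjective_nat (List Bool)
  obtain ⟨H, hH⟩ := exists_dominating hW (fun n => g (en n))
  obtain ⟨B, hB⟩ := exists_gt_countable hW (countable_range b)
  obtain ⟨δ, hδj, hBδ, hδ⟩ := hc j H B
  have hgδ : ∀ s η, η < δ → ¬ (Zs s).Countable → g s η ∈ Zs s ∧ η < g s η ∧ g s η < δ := by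
    intro s η hη hs
    refine ⟨(hg s η hs).1, (hg s η hs).2, ?_⟩
    obtain ⟨n, rfl⟩ := hen s
    exact (hH n η η le_rfl).trans_lt (hδ η hη)
  have hbδ : ∀ s, (Zs s).Countable → ∀ α ∈ Zs s, α < δ := by
    intro s hs α hα
    exact ((hb s hs α hα).trans (hB _ ⟨s, rfl⟩)).trans hBδ
  -- choose β ∈ Z above δ
  have hβ : ∃ β ∈ Z, δ < β := by
    by_contra hcon
    push Not at hcon
    exact hZ ((countable_Iic hW δ).mono (fun α hα => hcon α hα))
  obtain ⟨β, hβZ, hδβ⟩ := hβ
  -- the nodes along r β
  let nd : ℕ → List Bool := fun q => (List.range q).map (r β)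
  have hnd : ∀ q, β ∈ Zs (nd q) := by
    intro q
    refine ⟨hβZ, ?_⟩
    simp [nd]
  have hndu : ∀ q, ¬ (Zs (nd q)).Countable := by
    intro q hq
    exact absurd (hbδ _ hq β (hnd q)) (not_lt.2 hδβ.le)
  let sb : ℕ → List Bool := fun q => nd q ++ [! r β q]
  have hsb : ∀ n, ∃ q, n ≤ q ∧ ¬ (Zs (sb q)).Countable := by
    intro n
    by_contra hcon
    push Not at hcon
    apply hndu n
    have h1 : Zs (nd n) ⊆ {β} ∪ ⋃ q ∈ {q | n ≤ q}, Zs (sb q) := by
      rintro α ⟨hαZ, hα⟩
      by_cases hαβ : α = β
      · exact Or.inl hαβ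
      · right
        have hne : r α ≠ r β := fun h => hαβ (hr h)
        have h2 : ∃ q, r α q ≠ r β q := by
          by_contra h; push Not at h; exact hne (funext h)
        have hlt : ∀ i < Nat.find h2, r α i = r β i := by
          intro i hi
          have := Nat.find_min h2 hi
          push Not at this
          exact this
        have hfind := Nat.find_spec h2
        refine mem_biUnion (x := Nat.find h2) ?_ ?_
        · show n ≤ Nat.find h2
          by_contra hcon2
          push Not at hcon2
          apply hfind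
          have h3 : (List.range n).map (r α) = (List.range n).map (r β) := by
            have h4 : (nd n).length = n := by simp [nd]
            rw [h4] at hα
            exact hα
          have h5 := List.map_inj_left.1 h3
          exact h5 _ (List.mem_range.2 hcon2)
        · refine ⟨hαZ, ?_⟩
          have h4 : (sb (Nat.find h2)).length = Nat.find h2 + 1 := by simp [sb, nd]
          rw [h4, List.range_succ, List.map_append]
          have h5 : (List.range (Nat.find h2)).map (r α) = nd (Nat.find h2) := by
            apply List.map_inj_left.2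
            intro i hi
            exact hlt i (List.mem_range.1 hi)
          rw [h5]
          have h6 : r α (Nat.find h2) = ! r β (Nat.find h2) := by
            revert hfind
            cases r α (Nat.find h2) <;> cases r β (Nat.find h2) <;> simp
          simp [sb, h6]
    refine Countable.mono h1 ((countable_singleton β).union ?_)
    exact (to_countable _).biUnion (fun q hq => hcon q hq)
  obtain ⟨q, hq1, hq2⟩ := hsb (e β δ)
  -- bound η below δ for the finite set
  have hfin : {ξ | ξ < δ ∧ e β ξ ≤ q}.Finite := by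
    apply Set.Finite.of_finite_image (f := e β)
    · exact (finite_Iic q).subset (by rintro _ ⟨ξ, ⟨_, h⟩, rfl⟩; exact h)
    · intro x hx y hy hxy
      exact he β (hx.1.trans hδβ) (hy.1.trans hδβ) hxy
  have hη : ∃ η < δ, ∀ ξ, ξ < δ → e β ξ ≤ q → ξ ≤ η := by
    rcases eq_empty_or_nonempty {ξ | ξ < δ ∧ e β ξ ≤ q} with h | h
    · refine ⟨B, hBδ, fun ξ h1 h2 => ?_⟩
      have : ξ ∈ {ξ | ξ < δ ∧ e β ξ ≤ q} := ⟨h1, h2⟩
      rw [h] at this
      exact absurd this (notMem_empty _)
    · obtain ⟨η, hη1, hη2⟩ := hfin.exists_maximalFor id _ h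
      refine ⟨η, hη1.1, fun ξ h1 h2 => ?_⟩
      rcases le_total ξ η with h3 | h3
      · exact h3
      · exact hη2 ⟨h1, h2⟩ h3
  obtain ⟨η, hηδ, hη⟩ := hη
  obtain ⟨hα1, hα2, hα3⟩ := hgδ (sb q) η hηδ hq2
  set α := g (sb q) η with hαdef
  refine ⟨α, hα1.1, β, hβZ, hα3.trans hδβ, ?_⟩
  -- the first difference of r α and r β is q
  have h4 : (sb q).length = q + 1 := by simp [sb, nd]
  have h5 : (List.range (q + 1)).map (r α) = sb q := by
    have := hα1.2
    rwa [h4] at this
  rw [List.range_succ, List.map_append] at h5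
  have h6 : (List.range q).map (r α) = nd q ∧ [r α q] = [! r β q] := by
    have := List.append_inj h5 (by simp [nd])
    simpa using this
  have h7 : ∀ i < q, r α i = r β i := by
    intro i hi
    exact List.map_inj_left.1 h6.1 i (List.mem_range.2 hi)
  have h8 : r α q ≠ r β q := by
    have := h6.2
    simp only [List.cons.injEq, and_true] at this
    rw [this]
    cases r β q <;> simp
  have hfd : PiNat.firstDiff (E := fun _ => Bool) (r α) (r β) = q := by
    have hne : r α ≠ r β := fun h => h8 (congrFun h q)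
    apply le_antisymm
    · by_contra hcon
      push Not at hcon
      exact h8 (PiNat.apply_eq_of_lt_firstDiff hcon)
    · by_contra hcon
      push Not at hcon
      exact PiNat.apply_firstDiff_ne hne (h7 _ hcon)
  have hmem : δ ∈ P α β := ⟨hα3.le, hδβ, by rw [hfd]; exact hq1⟩
  have hm : m α β = δ := by
    have hne : (P α β).Nonempty := ⟨δ, hmem⟩
    have h9 : m α β = wellFounded_lt.min (P α β) hne := dif_pos hne
    rw [h9]
    apply le_antisymm
    · exact not_lt.1 (wellFounded_lt.not_lt_min (P α β) hmem)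
    · by_contra hcon
      push Not at hcon
      have h10 := wellFounded_lt.min_mem (P α β) hne
      obtain ⟨h11, h12, h13⟩ := h10
      rw [hfd] at h13
      have h14 := hη _ hcon h13
      exact absurd (hα2.trans_le h11) (not_lt.2 h14)
  show c (m α β) = j
  rw [hm]
  exact hδj

end

end Run7.h584
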