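import Pool.Agent.Run7.h584.Thin
import Pool.Agent.Run7.h584.Omega

set_option linter.unusedSectionVars false

/-!
A subset of `ℕ → W` which is not sigma-discrete although each of its separable subsets is
countable.
-/

namespace Run7.h584

open Set

/-- Agreement of two sequences up to `p`. -/
def agree {W : Type*} (p : ℕ) (x y : ℕ → W) : Prop := ∀ i < p, x i = y i

theorem agree_equiv {W : Type*} (p : ℕ) : Equivalence (agree (W := W) p) :=
  ⟨fun _ _ _ => rfl, fun h i hi => (h i hi).symm, fun h h' i hi => (h i hi).trans (h' i hi)⟩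

/-- Singletons. -/
def sing (Y : Type*) : Set (Set Y) := {s | ∃ c, s = {c}}

section
variable {W : Type*} [LinearOrder W] [WellFoundedLT W] [Uncountable W]

theorem thin_of_countable {R : Set (ℕ → W)} (hR : R.Countable) : Thin agree (sing (ℕ → W)) R := by
  have h : Thin agree (sing (ℕ → W)) (⋃ c ∈ R, {c}) := by
    apply Thin.biUnion_countable hR
    intro c _
    exact Thin.basic _ ⟨c, rfl⟩
  refine Thin.mono _ _ h ?_
  intro c hc
  exact mem_biUnion hc rfl

/-- A thin set misses the chosen sequences at all closure points of some function. -/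
theorem thin_nonstationary (hW : ∀ b : W, (Iio b).Countable) (x : W → ℕ → W)
    (hx : ∀ β : W, (Iio β).Nonempty → range (x β) = Iio β) {R : Set (ℕ → W)}
    (hR : Thin agree (sing (ℕ → W)) R) :
    ∃ (h : W → W) (b : W), ∀ β, b < β → (∀ η < β, h η < β) → x β ∉ R := by
  classical
  induction hR with
  | empty => exact ⟨id, Classical.arbitrary W, fun _ _ _ h => h⟩
  | basic s hs =>
      obtain ⟨c, rfl⟩ := hs
      by_cases h : ∃ β, (Iio β).Nonempty ∧ x β = c
      · obtain ⟨γ, hγ, rfl⟩ := h
        refine ⟨id, γ, fun β hβ _ hmem => ?_⟩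
        have h1 : x β = x γ := hmem
        have h2 : range (x β) = Iio β := hx β ⟨γ, hβ⟩
        have h3 : range (x γ) = Iio γ := hx γ hγ
        rw [h1, h3] at h2
        have h4 : γ ∈ Iio γ := by rw [h2]; exact hβ
        exact lt_irrefl _ h4
      · exact ⟨id, Classical.arbitrary W, fun β hβ _ hmem => h ⟨β, ⟨_, hβ⟩, hmem⟩⟩
  | mono s t _ hst ih =>
      obtain ⟨h, b, hb⟩ := ih
      exact ⟨h, b, fun β h1 h2 h3 => hb β h1 h2 (hst h3)⟩
  | iUnion s _ ih =>
      choose h b hb using ih
      obtain ⟨H, hH⟩ := exists_dominating hW h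
      obtain ⟨B, hB⟩ := exists_gt_countable hW (countable_range b)
      refine ⟨H, B, fun β h1 h2 h3 => ?_⟩
      obtain ⟨n, hn⟩ := mem_iUnion.1 h3
      exact hb n β ((hB _ ⟨n, rfl⟩).trans h1)
        (fun η hη => (hH n η η le_rfl).trans_lt (h2 η hη)) hn
  | glue p s _ ih =>
      -- depends on the prefix only
      have ih' : ∀ l : List W, ∃ (h : W → W) (b : W), ∀ β, b < β → (∀ η < β, h η < β) →
          (List.range p).map (x β) = l → x β ∉ s := by
        intro l
        by_cases hl : ∃ γ, (List.range p).map (x γ) = l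
        · obtain ⟨γ, hγ⟩ := hl
          obtain ⟨h, b, hb⟩ := ih (x γ)
          refine ⟨h, b, fun β h1 h2 h3 h4 => hb β h1 h2 ⟨h4, ?_⟩⟩
          intro i hi
          rw [← h3] at hγ
          exact List.map_inj_left.1 hγ i (List.mem_range.2 hi)
        · exact ⟨id, Classical.arbitrary W, fun β _ _ h3 _ => hl ⟨β, h3⟩⟩
      choose h b hb using ih'
      -- functions bounded over all lists with entries below
      have hcl : ∀ η : W, {l : List W | ∀ a ∈ l, a ≤ η}.Countable := by
        intro η
        have h1 := countable_Iic hW η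
        have : Countable (Iic η) := h1.to_subtype
        have h2 : {l : List W | ∀ a ∈ l, a ≤ η} ⊆ range (fun l : List (Iic η) => l.map Subtype.val) := by
          intro l hl
          refine ⟨l.attach.map (fun a => ⟨a.1, hl a.1 a.2⟩), ?_⟩
          simp
        exact (countable_range _).mono h2
      have hH : ∀ η : W, ∃ c, ∀ l : List W, (∀ a ∈ l, a ≤ η) → ∀ η' ≤ η, h l η' < c ∧ b l < c := by
        intro η
        have h1 : (⋃ l ∈ {l : List W | ∀ a ∈ l, a ≤ η}, ((h l) '' (Iic η) ∪ {b l})).Countable :=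
          (hcl η).biUnion (fun l _ => ((countable_Iic hW η).image _).union (countable_singleton _))
        obtain ⟨c, hc⟩ := exists_gt_countable hW h1
        refine ⟨c, fun l hl η' hη' => ⟨hc _ ?_, hc _ ?_⟩⟩
        · exact mem_biUnion hl (Or.inl ⟨η', hη', rfl⟩)
        · exact mem_biUnion hl (Or.inr rfl)
      choose H hH using hH
      refine ⟨H, Classical.arbitrary W, fun β h1 h2 h3 => ?_⟩
      have hβ : range (x β) = Iio β := hx β ⟨_, h1⟩
      -- the maximum of the first `p` values
      have hmax : ∃ η < β, ∀ a ∈ (List.range p).map (x β), a ≤ η := by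
        have : ∀ l : List W, (∀ a ∈ l, a < β) → ∃ η < β, ∀ a ∈ l, a ≤ η := by
          intro l
          induction l with
          | nil => intro _; exact ⟨_, h1, by simp⟩
          | cons a l ihl =>
              intro hl
              obtain ⟨η, hη, hη'⟩ := ihl (fun a ha => hl a (List.mem_cons_of_mem _ ha))
              refine ⟨max a η, max_lt (hl a (List.mem_cons_self ..)) hη, ?_⟩
              intro c hc
              rcases List.mem_cons.1 hc with rfl | hc
              · exact le_max_left _ _
              · exact (hη' c hc).trans (le_max_right _ _)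
        apply this
        intro a ha
        obtain ⟨i, _, rfl⟩ := List.mem_map.1 ha
        have : x β i ∈ range (x β) := ⟨i, rfl⟩
        rw [hβ] at this
        exact this
      obtain ⟨η, hη, hη'⟩ := hmax
      refine hb ((List.range p).map (x β)) β ?_ ?_ rfl h3
      · exact ((hH η _ hη' η le_rfl).2).trans (h2 η hη)
      · intro ζ hζ
        have h4 : max η ζ < β := max_lt hη hζ
        exact ((hH (max η ζ) _ (fun a ha => (hη' a ha).trans (le_max_left _ _)) ζ
          (le_max_right _ _)).1).trans (h2 _ h4)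

/-- The Bernstein-type set. -/
theorem exists_bern (hW : ∀ b : W, (Iio b).Countable) :
    ∃ (x : W → ℕ → W) (E : Set (ℕ → W)), E ⊆ range x ∧
      (∀ A : Set W, A.Countable → {y | y ∈ E ∧ ∀ i, y i ∈ A}.Countable) ∧
      (∀ y ∈ E, ∀ y' ∈ E, y ≠ y' → (∃ p, y = x (y' p)) ∨ (∃ p, y' = x (y p))) ∧
      ¬ Thin agree (sing (ℕ → W)) E := by
  classical
  have hx : ∀ β : W, ∃ f : ℕ → W, (Iio β).Nonempty → range f = Iio β := by
    intro β
    by_cases h : (Iio β).Nonempty
    · obtain ⟨f, hf⟩ := (hW β).exists_eq_range h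
      exact ⟨f, fun _ => hf.symm⟩
    · exact ⟨fun _ => Classical.arbitrary W, fun h' => absurd h' h⟩
  choose x hx using hx
  refine ⟨x, {y | ∃ β, (Iio β).Nonempty ∧ y = x β}, ?_, ?_, ?_, ?_⟩
  · rintro y ⟨β, _, rfl⟩
    exact ⟨β, rfl⟩
  · intro A hA
    obtain ⟨b, hb⟩ := exists_gt_countable hW hA
    refine ((countable_Iic hW b).image x).mono ?_
    rintro y ⟨⟨β, hβ, rfl⟩, hy⟩
    refine ⟨β, ?_, rfl⟩
    show β ≤ b
    by_contra hcon
    push Not at hcon
    have h1 : b ∈ range (x β) := by rw [hx β hβ]; exact hcon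
    obtain ⟨i, hi⟩ := h1
    have := hb _ (hy i)
    rw [hi] at this
    exact lt_irrefl _ this
  · rintro y ⟨β, hβ, rfl⟩ y' ⟨γ, hγ, rfl⟩ hne
    rcases lt_trichotomy β γ with h | h | h
    · left
      have : β ∈ range (x γ) := by rw [hx γ hγ]; exact h
      obtain ⟨p, hp⟩ := this
      exact ⟨p, by rw [hp]⟩
    · exact absurd (by rw [h]) hne
    · right
      have : γ ∈ range (x β) := by rw [hx β hβ]; exact h
      obtain ⟨p, hp⟩ := this
      exact ⟨p, by rw [hp]⟩
  · intro hT
    obtain ⟨h, b, hb⟩ := thin_nonstationary hW x hx hT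
    obtain ⟨δ, h1, h2⟩ := exists_closed hW h b
    exact hb δ h1 h2 ⟨δ, ⟨b, h1⟩, rfl⟩

/-- Splitting: in a non-thin subset of `E` all colours are realised at first differences. -/
theorem exists_split (E : Set (ℕ → W))
    (hEc : ∀ A : Set W, A.Countable → {y | y ∈ E ∧ ∀ i, y i ∈ A}.Countable)
    {K : Type*} (F : W → W → K)
    (hF : ∀ Z : Set W, ¬ Z.Countable → ∀ j, ∃ α ∈ Z, ∃ β ∈ Z, α ≠ β ∧ F α β = j)
    {T : Set (ℕ → W)} (hTE : T ⊆ E) (hT : ¬ Thin agree (sing (ℕ → W)) T) (j : K) :
    ∃ x ∈ T, ∃ x' ∈ T, ∃ d, agree d x x' ∧ x d ≠ x' d ∧ F (x d) (x' d) = j := by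
  classical
  set T' := ker agree (sing (ℕ → W)) T with hT'
  have hT'n : ¬ Thin agree (sing (ℕ → W)) T' := not_thin_ker (fun p => agree_equiv p) hT
  have key : ∃ x₀ ∈ T', ∃ p, ¬ ((fun x : ℕ → W => x p) '' (T' ∩ {x | agree p x₀ x})).Countable := by
    by_contra hcon
    push Not at hcon
    apply hT'n
    -- the set of prefixes is countable
    have hpre : ∀ p, ((fun x : ℕ → W => (List.range p).map x) '' T').Countable := by
      intro p
      induction p with
      | zero =>
          refine (countable_singleton ([] : List W)).mono ?_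
          rintro _ ⟨x, _, rfl⟩
          simp
      | succ p ih =>
          have h1 : ((fun x : ℕ → W => (List.range (p + 1)).map x) '' T') ⊆
              ⋃ s ∈ ((fun x : ℕ → W => (List.range p).map x) '' T'),
                (fun ξ => s ++ [ξ]) '' ((fun x : ℕ → W => x p) ''
                  {x | x ∈ T' ∧ (List.range p).map x = s}) := by
            rintro _ ⟨x, hx, rfl⟩
            refine mem_biUnion (x := (List.range p).map x) ⟨x, hx, rfl⟩ ?_
            refine ⟨x p, ⟨x, ⟨hx, rfl⟩, rfl⟩, ?_⟩
            simp [List.range_succ]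
          refine Countable.mono h1 (ih.biUnion ?_)
          rintro _ ⟨x₀, hx₀, rfl⟩
          apply Countable.image
          refine (hcon x₀ hx₀ p).mono ?_
          rintro _ ⟨x, ⟨hx, hxx⟩, rfl⟩
          refine ⟨x, ⟨hx, ?_⟩, rfl⟩
          intro i hi
          exact (List.map_inj_left.1 hxx i (List.mem_range.2 hi)).symm
    -- hence the set of values is countable
    have hA : (⋃ p, (fun x : ℕ → W => x p) '' T').Countable := by
      refine countable_iUnion (fun p => ?_)
      have h1 : ((fun x : ℕ → W => x p) '' T') ⊆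
          (fun l : List W => l.getD p (Classical.arbitrary W)) ''
            ((fun x : ℕ → W => (List.range (p + 1)).map x) '' T') := by
        rintro _ ⟨x, hx, rfl⟩
        refine ⟨_, ⟨x, hx, rfl⟩, ?_⟩
        simp [List.getD]
      exact ((hpre (p + 1)).image _).mono h1
    refine thin_of_countable ((hEc _ hA).mono ?_)
    intro x hx
    exact ⟨hTE (ker_subset _ hx), fun i => mem_iUnion.2 ⟨i, x, hx, rfl⟩⟩
  obtain ⟨x₀, hx₀, p, hp⟩ := key
  obtain ⟨α, hα, β, hβ, hne, hFj⟩ := hF _ hp j
  obtain ⟨x, ⟨hx, hxx⟩, rfl⟩ := hα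
  obtain ⟨x', ⟨hx', hxx'⟩, rfl⟩ := hβ
  refine ⟨x, ker_subset _ hx, x', ker_subset _ hx', p, ?_, hne, hFj⟩
  exact (agree_equiv p).trans ((agree_equiv p).symm hxx) hxx'

end

end Run7.h584
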