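import Mathlib

set_option linter.unusedSectionVars false

/-!
A labelling of the Cantor space such that every product of labels meets every closed set of
tuples which is not thin.
-/

namespace Run7.h584

open Set Cardinal

section
variable {N : ℕ}

/-- Thin sets of tuples of reals. -/
def ThinB (F : Set (Fin N → ℕ → Bool)) : Prop :=
  ∃ Q : Set (ℕ → Bool), Q.Countable ∧ ∀ x ∈ F, Function.Injective x → ∃ j, x j ∈ Q

/-- Cylinders. -/
def cylB (x : Fin N → ℕ → Bool) (m : ℕ) : Set (Fin N → ℕ → Bool) :=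
  {y | ∀ j, ∀ t < m, y j t = x j t}

/-- The kernel. -/
def kerB (F : Set (Fin N → ℕ → Bool)) : Set (Fin N → ℕ → Bool) :=
  {x | x ∈ F ∧ Function.Injective x ∧ ∀ m, ¬ ThinB (F ∩ cylB x m)}

theorem thin_diff_kerB (F : Set (Fin N → ℕ → Bool)) : ThinB (F \ kerB F) := by
  classical
  -- codes of cylinders
  let E : (Σ m : ℕ, Fin N → Fin m → Bool) → Set (Fin N → ℕ → Bool) := fun p =>
    F ∩ {y | ∀ j, ∀ t : Fin p.1, y j t = p.2 j t}
  have hQ : ∀ p, ∃ Q : Set (ℕ → Bool), Q.Countable ∧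
      (ThinB (E p) → ∀ x ∈ E p, Function.Injective x → ∃ j, x j ∈ Q) := by
    intro p
    by_cases h : ThinB (E p)
    · obtain ⟨Q, h1, h2⟩ := h
      exact ⟨Q, h1, fun _ => h2⟩
    · exact ⟨∅, countable_empty, fun h' => absurd h' h⟩
  choose Q hQc hQ using hQ
  refine ⟨⋃ p, Q p, countable_iUnion hQc, ?_⟩
  rintro x ⟨hxF, hxk⟩ hinj
  have h1 : ∃ m, ThinB (F ∩ cylB x m) := by
    by_contra hcon
    push Not at hcon
    exact hxk ⟨hxF, hinj, hcon⟩
  obtain ⟨m, hm⟩ := h1
  let p : Σ m : ℕ, Fin N → Fin m → Bool := ⟨m, fun j t => x j t⟩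
  have hE : E p = F ∩ cylB x m := by
    ext y
    constructor
    · rintro ⟨h2, h3⟩
      exact ⟨h2, fun j t ht => h3 j ⟨t, ht⟩⟩
    · rintro ⟨h2, h3⟩
      exact ⟨h2, fun j t => h3 j t t.2⟩
  obtain ⟨j, hj⟩ := hQ p (by rw [hE]; exact hm) x (by
    rw [hE]; exact ⟨hxF, fun _ _ _ => rfl⟩) hinj
  exact ⟨j, mem_iUnion.2 ⟨p, hj⟩⟩

theorem ThinB.union {F G : Set (Fin N → ℕ → Bool)} (hF : ThinB F) (hG : ThinB G) :
    ThinB (F ∪ G) := by
  obtain ⟨Q, h1, h2⟩ := hF
  obtain ⟨R, h3, h4⟩ := hG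
  refine ⟨Q ∪ R, h1.union h3, ?_⟩
  rintro x (hx | hx) hinj
  · obtain ⟨j, hj⟩ := h2 x hx hinj
    exact ⟨j, Or.inl hj⟩
  · obtain ⟨j, hj⟩ := h4 x hx hinj
    exact ⟨j, Or.inr hj⟩

theorem ThinB.mono {F G : Set (Fin N → ℕ → Bool)} (hG : ThinB G) (h : F ⊆ G) : ThinB F := by
  obtain ⟨Q, h1, h2⟩ := hG
  exact ⟨Q, h1, fun x hx => h2 x (h hx)⟩

theorem not_thin_kerB {F : Set (Fin N → ℕ → Bool)} (hF : ¬ ThinB F) : ¬ ThinB (kerB F) := by
  intro h
  apply hF
  refine (h.union (thin_diff_kerB F)).mono ?_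
  intro x hx
  by_cases h' : x ∈ kerB F
  · exact Or.inl h'
  · exact Or.inr ⟨hx, h'⟩

theorem not_thin_kerB_cyl {F : Set (Fin N → ℕ → Bool)} {x : Fin N → ℕ → Bool}
    (hx : x ∈ kerB F) (m : ℕ) : ¬ ThinB (kerB F ∩ cylB x m) := by
  intro h
  apply hx.2.2 m
  refine (h.union (thin_diff_kerB F)).mono ?_
  rintro y ⟨hyF, hy⟩
  by_cases h' : y ∈ kerB F
  · exact Or.inl ⟨h', hy⟩
  · exact Or.inr ⟨hyF, h'⟩

/-- A finite level separating finitely many sequences. -/
theorem exists_level {ι : Type*} [Finite ι] (u v : ι → ℕ → Bool) (h : ∀ i, u i ≠ v i) (m : ℕ) :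
    ∃ m', m < m' ∧ ∀ i, ∃ t < m', u i t ≠ v i t := by
  classical
  have := Fintype.ofFinite ι
  have h1 : ∀ i, ∃ t, u i t ≠ v i t := by
    intro i
    by_contra hcon
    push Not at hcon
    exact h i (funext hcon)
  choose t ht using h1
  refine ⟨max m (Finset.univ.sup t) + 1, by omega, fun i => ⟨t i, ?_, ht i⟩⟩
  have : t i ≤ Finset.univ.sup t := Finset.le_sup (Finset.mem_univ i)
  omega

/-- The step of the scheme. -/
theorem exists_stepB {F : Set (Fin N → ℕ → Bool)} {x : Fin N → ℕ → Bool} (hx : x ∈ kerB F)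
    (m : ℕ) : ∃ (c : Bool → Fin N → ℕ → Bool) (m' : ℕ), m < m' ∧
      (∀ b, c b ∈ kerB F ∧ c b ∈ cylB x m) ∧
      (∀ j, ∃ t < m', c false j t ≠ c true j t) ∧
      ∀ b, ∀ j j', j ≠ j' → ∃ t < m', c b j t ≠ c b j' t := by
  classical
  have h1 : ∃ y ∈ kerB F ∩ cylB x m, Function.Injective y ∧ ∀ j, y j ∉ range x := by
    by_contra hcon
    push Not at hcon
    exact not_thin_kerB_cyl hx m ⟨range x, (finite_range x).countable, hcon⟩
  obtain ⟨y, ⟨hy1, hy2⟩, hyinj, hyx⟩ := h1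
  let c : Bool → Fin N → ℕ → Bool := fun b => if b then y else x
  obtain ⟨m₁, hm₁, h2⟩ := exists_level (ι := Fin N) (c false) (c true) (by
    intro j hj
    exact hyx j ⟨j, hj⟩) m
  have hcinj : ∀ b, Function.Injective (c b) := by
    intro b
    cases b
    · exact hx.2.1
    · exact hyinj
  obtain ⟨m₂, hm₂, h3⟩ := exists_level
    (ι := {p : Bool × Fin N × Fin N // p.2.1 ≠ p.2.2})
    (fun p => c p.1.1 p.1.2.1) (fun p => c p.1.1 p.1.2.2) (by
      rintro ⟨⟨b, j, j'⟩, hne⟩ h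
      exact hne (hcinj b h)) m₁
  refine ⟨c, m₂, hm₁.trans hm₂, ?_, ?_, ?_⟩
  · intro b
    cases b
    · exact ⟨hx, fun _ _ _ => rfl⟩
    · exact ⟨hy1, hy2⟩
  · intro j
    obtain ⟨t, ht, hne⟩ := h2 j
    exact ⟨t, ht.trans hm₂, hne⟩
  · intro b j j' hne
    exact h3 ⟨(b, j, j'), hne⟩

/-- A closed set which is not thin contains a perfect set of disjoint tuples. -/
theorem exists_perfect {F : Set (Fin N → ℕ → Bool)} (hF : IsClosed F) (hthin : ¬ ThinB F) :
    ∃ g : (ℕ → Bool) → Fin N → ℕ → Bool, (∀ y, g y ∈ F ∧ Function.Injective (g y)) ∧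
      ∀ y z, y ≠ z → ∀ j, g y j ≠ g z j := by
  classical
  have hne : ∃ x, x ∈ kerB F := by
    by_contra hcon
    push Not at hcon
    exact not_thin_kerB hthin ⟨∅, countable_empty, fun x hx => absurd hx (hcon x)⟩
  obtain ⟨x₀, hx₀⟩ := hne
  let State := {p : (Fin N → ℕ → Bool) × ℕ // p.1 ∈ kerB F}
  choose c m' hm' hc1 hc2 hc3 using fun p : State => exists_stepB p.2 p.1.2
  let step : State → Bool → State := fun p b => ⟨(c p b, m' p), (hc1 p b).1⟩
  let st : (ℕ → Bool) → ℕ → State := fun y k => Nat.rec ⟨(x₀, 0), hx₀⟩ (fun k p => step p (y k)) k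
  have hst0 : ∀ y, st y 0 = ⟨(x₀, 0), hx₀⟩ := fun _ => rfl
  have hsts : ∀ y k, st y (k + 1) = step (st y k) (y k) := fun _ _ => rfl
  have hlev : ∀ y k, (st y k).1.2 < (st y (k + 1)).1.2 := fun y k => hm' (st y k)
  have hlevk : ∀ y k, k ≤ (st y k).1.2 := by
    intro y k
    induction k with
    | zero => exact Nat.zero_le _
    | succ k ih =>
        have := hlev y k
        omega
  have hlevm : ∀ y k k', k ≤ k' → (st y k).1.2 ≤ (st y k').1.2 := by
    intro y k k' h
    exact (strictMono_nat_of_lt_succ (hlev y)).monotone h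
  have hagree1 : ∀ y k, (st y (k + 1)).1.1 ∈ cylB (st y k).1.1 (st y k).1.2 :=
    fun y k => (hc1 (st y k) (y k)).2
  have hagree : ∀ y k k', k ≤ k' → (st y k').1.1 ∈ cylB (st y k).1.1 (st y k).1.2 := by
    intro y k k' h
    induction k', h using Nat.le_induction with
    | base => exact fun _ _ _ => rfl
    | succ k' hk ih =>
        intro j t ht
        exact (hagree1 y k' j t (ht.trans_le (hlevm y k k' hk))).trans (ih j t ht)
  let g : (ℕ → Bool) → Fin N → ℕ → Bool := fun y j t => (st y (t + 1)).1.1 j t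
  have hg : ∀ y k j t, t < (st y k).1.2 → g y j t = (st y k).1.1 j t := by
    intro y k j t ht
    rcases Nat.le_total k (t + 1) with h | h
    · exact hagree y k (t + 1) h j t ht
    · exact (hagree y (t + 1) k h j t (Nat.lt_of_lt_of_le (Nat.lt_succ_self t)
        (hlevk y (t + 1)))).symm
  refine ⟨g, fun y => ⟨?_, ?_⟩, ?_⟩
  · have htend : Filter.Tendsto (fun k => (st y k).1.1) Filter.atTop (nhds (g y)) := by
      rw [tendsto_pi_nhds]
      intro j
      rw [tendsto_pi_nhds]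
      intro t
      refine tendsto_const_nhds.congr' ?_
      filter_upwards [Filter.eventually_gt_atTop t] with k hk
      exact hg y k j t (hk.trans_le (hlevk y k))
    exact hF.mem_of_tendsto htend (Filter.Eventually.of_forall fun k => (st y k).2.1)
  · intro j j' h
    by_contra hne'
    obtain ⟨t, ht, hne''⟩ := hc3 (st y 0) (y 0) j j' hne'
    have h1 : t < (st y 1).1.2 := ht
    have h2 := hg y 1 j t h1
    have h3 := hg y 1 j' t h1
    apply hne''
    have h4 : (st y 1).1.1 = c (st y 0) (y 0) := rfl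
    rw [← h4, ← h2, ← h3, h]
  · intro y z hyz j hj
    have hex : ∃ k, y k ≠ z k := by
      by_contra hcon
      push Not at hcon
      exact hyz (funext hcon)
    have hk1 := Nat.find_spec hex
    have hk2 : ∀ i < Nat.find hex, y i = z i := by
      intro i hi
      have := Nat.find_min hex hi
      push Not at this
      exact this
    set k := Nat.find hex with hk
    have hsame : ∀ i ≤ k, st y i = st z i := by
      intro i hi
      induction i with
      | zero => rfl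
      | succ i ih =>
          rw [hsts, hsts, ih (by omega), hk2 i (by omega)]
    have hsk := hsame k le_rfl
    obtain ⟨t, ht, hne'⟩ := hc2 (st y k) j
    have h1 : t < (st y (k + 1)).1.2 := ht
    have h1z : t < (st z (k + 1)).1.2 := by
      have : (st z (k + 1)).1.2 = m' (st z k) := rfl
      rw [this, ← hsk]
      exact ht
    have h2 := hg y (k + 1) j t h1
    have h3 := hg z (k + 1) j t h1z
    have h4 : (st y (k + 1)).1.1 = c (st y k) (y k) := rfl
    have h5 : (st z (k + 1)).1.1 = c (st y k) (z k) := by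
      have : (st z (k + 1)).1.1 = c (st z k) (z k) := rfl
      rw [this, ← hsk]
    rw [h4] at h2
    rw [h5] at h3
    have h6 : c (st y k) (y k) j t = c (st y k) (z k) j t := by
      rw [← h2, ← h3, hj]
    cases hyk : y k <;> cases hzk : z k
    · exact hk1 (hyk.trans hzk.symm)
    · rw [hyk, hzk] at h6; exact hne' h6
    · rw [hyk, hzk] at h6; exact hne' h6.symm
    · exact hk1 (hyk.trans hzk.symm)

theorem exists_avoid {F : Set (Fin N → ℕ → Bool)} (hF : IsClosed F) (hthin : ¬ ThinB F)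
    {Z : Set (ℕ → Bool)} (hZ : #Z < 𝔠) :
    ∃ x ∈ F, Function.Injective x ∧ ∀ j, x j ∉ Z := by
  classical
  obtain ⟨g, hg1, hg2⟩ := exists_perfect hF hthin
  by_contra hcon
  push Not at hcon
  choose j hj using fun y => hcon (g y) (hg1 y).1 (hg1 y).2
  let φ : (ℕ → Bool) → Fin N × Z := fun y => (j y, ⟨g y (j y), hj y⟩)
  have hφ : Function.Injective φ := by
    intro y z h
    by_contra hne
    have h1 : j y = j z := congrArg Prod.fst h
    have h2 : g y (j y) = g z (j z) := congrArg (fun p => (p.2 : ℕ → Bool)) h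
    rw [← h1] at h2
    exact hg2 y z hne (j y) h2
  have h1 : #(ℕ → Bool) ≤ #(Fin N × Z) := Cardinal.mk_le_of_injective hφ
  have h2 : #(ℕ → Bool) = 𝔠 := by simp
  have h3 : #(Fin N × Z) < 𝔠 := by
    rw [Cardinal.mk_prod, Cardinal.lift_id, Cardinal.lift_id, Cardinal.mk_fin]
    exact Cardinal.mul_lt_of_lt aleph0_le_continuum (natCast_lt_aleph0.trans_le
      aleph0_le_continuum) hZ
  rw [h2] at h1
  exact absurd h1 (not_le.2 h3)

theorem mk_closed_le (N : ℕ) :
    #{F : Set (Fin N → ℕ → Bool) // IsClosed F ∧ ¬ ThinB F} ≤ 𝔠 := by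
  classical
  let φ : {F : Set (Fin N → ℕ → Bool) // IsClosed F ∧ ¬ ThinB F} →
      Set (Σ m : ℕ, Fin N → Fin m → Bool) := fun F =>
    {p | ∃ y ∈ F.1, ∀ j, ∀ t : Fin p.1, y j t = p.2 j t}
  have hφ : Function.Injective φ := by
    have key : ∀ F G : {F : Set (Fin N → ℕ → Bool) // IsClosed F ∧ ¬ ThinB F},
        φ F = φ G → F.1 ⊆ G.1 := by
      intro F G h x hx
      have h1 : ∀ m : ℕ, ∃ y ∈ G.1, ∀ j, ∀ t : Fin m, y j t = x j t := by
        intro m
        have : (⟨m, fun j t => x j t⟩ : Σ m : ℕ, Fin N → Fin m → Bool) ∈ φ F :=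
          ⟨x, hx, fun _ _ => rfl⟩
        rw [h] at this
        exact this
      choose y hy hyx using h1
      have htend : Filter.Tendsto y Filter.atTop (nhds x) := by
        rw [tendsto_pi_nhds]
        intro j
        rw [tendsto_pi_nhds]
        intro t
        refine tendsto_const_nhds.congr' ?_
        filter_upwards [Filter.eventually_gt_atTop t] with k hk
        exact (hyx k j ⟨t, hk⟩).symm
      exact G.2.1.mem_of_tendsto htend (Filter.Eventually.of_forall hy)
    intro F G h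
    exact Subtype.ext (subset_antisymm (key F G h) (key G F h.symm))
  refine (Cardinal.mk_le_of_injective hφ).trans ?_
  rw [Cardinal.mk_set]
  have : #(Σ m : ℕ, Fin N → Fin m → Bool) ≤ ℵ₀ := Cardinal.mk_le_aleph0
  exact (Cardinal.power_le_power_left two_ne_zero this).trans_eq (by simp)

/-- The labelling. -/
theorem exists_labels {Λ : Type} [Nonempty Λ] (hΛ : #Λ ≤ 𝔠) (N : ℕ) :
    ∃ lab : (ℕ → Bool) → Λ, ∀ F : Set (Fin N → ℕ → Bool), IsClosed F → ¬ ThinB F →
      ∀ μ : Fin N → Λ, ∃ x ∈ F, Function.Injective x ∧ ∀ j, lab (x j) = μ j := by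
  classical
  let τ : Type := {F : Set (Fin N → ℕ → Bool) // IsClosed F ∧ ¬ ThinB F} × (Fin N → Λ)
  have hτ : #τ ≤ 𝔠 := by
    rw [Cardinal.mk_prod, Cardinal.lift_id, Cardinal.lift_id]
    have h1 : #(Fin N → Λ) ≤ 𝔠 := by
      rw [← Cardinal.power_def, Cardinal.mk_fin]
      exact (Cardinal.power_le_power_right hΛ).trans (by
        have := Cardinal.power_nat_le (c := 𝔠) (n := N) aleph0_le_continuum
        exact_mod_cast this)
    exact (mul_le_mul' (mk_closed_le N) h1).trans_eq (by simp)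
  obtain ⟨lo, wo, hord⟩ := Cardinal.exists_ord_eq_type_lt τ
  have hIio : ∀ a : τ, #(Iio a) < 𝔠 := fun a => (Cardinal.mk_Iio_lt a hord).trans_le hτ
  have hstep : ∀ (a : τ) (u : ∀ b : τ, b < a → Fin N → ℕ → Bool),
      ∃ x, x ∈ a.1.1 ∧ Function.Injective x ∧ ∀ (b : τ) (h : b < a) (j j' : Fin N),
        x j ≠ u b h j' := by
    intro a u
    let Z : Set (ℕ → Bool) := range (fun p : (Iio a) × Fin N => u p.1.1 p.1.2 p.2)
    have hZ : #Z < 𝔠 := by
      refine (Cardinal.mk_range_le).trans_lt ?_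
      rw [Cardinal.mk_prod, Cardinal.lift_id, Cardinal.lift_id, Cardinal.mk_fin]
      exact Cardinal.mul_lt_of_lt aleph0_le_continuum (hIio a) (natCast_lt_aleph0.trans_le
        aleph0_le_continuum)
    obtain ⟨x, h1, h2, h3⟩ := exists_avoid a.1.2.1 a.1.2.2 hZ
    exact ⟨x, h1, h2, fun b h j j' heq => h3 j ⟨(⟨b, h⟩, j'), heq.symm⟩⟩
  choose s hs1 hs2 hs3 using hstep
  let x : τ → Fin N → ℕ → Bool := wellFounded_lt.fix (fun a u => s a u)
  have hx : ∀ a, x a = s a (fun b _ => x b) := fun a => WellFounded.fix_eq _ _ _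
  have hx1 : ∀ a, x a ∈ a.1.1 := fun a => by rw [hx a]; exact hs1 a _
  have hx2 : ∀ a, Function.Injective (x a) := fun a => by rw [hx a]; exact hs2 a _
  have hx3 : ∀ a b j j', b < a → x a j ≠ x b j' := fun a b j j' h => by
    rw [hx a]; exact hs3 a _ b h j j'
  have hx4 : ∀ a b j j', x a j = x b j' → a = b ∧ j = j' := by
    intro a b j j' h
    rcases lt_trichotomy a b with h1 | h1 | h1
    · exact absurd h.symm (hx3 b a j' j h1)
    · subst h1
      exact ⟨rfl, hx2 a h⟩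
    · exact absurd h (hx3 a b j j' h1)
  let lab : (ℕ → Bool) → Λ := fun r =>
    if h : ∃ p : τ × Fin N, x p.1 p.2 = r then h.choose.1.2 h.choose.2 else Classical.arbitrary Λ
  refine ⟨lab, fun F hF hthin μ => ?_⟩
  let a : τ := (⟨F, hF, hthin⟩, μ)
  refine ⟨x a, hx1 a, hx2 a, fun j => ?_⟩
  have h : ∃ p : τ × Fin N, x p.1 p.2 = x a j := ⟨(a, j), rfl⟩
  have h1 : lab (x a j) = h.choose.1.2 h.choose.2 := dif_pos h
  obtain ⟨h2, h3⟩ := hx4 _ _ _ _ h.choose_spec
  rw [h1, h2, h3]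

end

end Run7.h584
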