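import Mathlib
import Pool.Agent.W654.Kron

set_option linter.unusedSectionVars false

/-!
Independent phases and the steering lemma.
-/

namespace Run7.h584

open Set Cardinal

/-- Kronecker's theorem with a uniform bound. -/
theorem kron_uniform {d : Type*} [Fintype d] (z : UnitAddTorus d)
    (hz : ∀ k : d → ℤ, ∑ i, k i • z i = 0 → ∀ i, k i = 0) (ε : ℝ) (hε : 0 < ε) :
    ∃ N : ℕ, ∀ x : UnitAddTorus d, ∃ n < N, dist (n • z) x < ε := by
  classical
  obtain ⟨s, hs⟩ := isCompact_univ.elim_finite_subcover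
    (fun s : UnitAddTorus d => Metric.ball s (ε / 2)) (fun s => Metric.isOpen_ball) (by
      intro y _
      rw [Set.mem_iUnion]
      exact ⟨y, Metric.mem_ball_self (by linarith)⟩)
  have h1 : ∀ y : UnitAddTorus d, ∃ n : ℕ, dist (n • z) y < ε / 2 := by
    intro y
    refine Pool.Agent.W654.Kron.kronecker z y (fun k hk => ?_) (ε / 2) (by linarith)
    have := hz k hk
    simp [this]
  choose n hn using h1
  refine ⟨s.sup n + 1, fun x => ?_⟩
  obtain ⟨y, hy⟩ := Set.mem_iUnion.mp (hs (Set.mem_univ x))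
  obtain ⟨hys, hxy⟩ := Set.mem_iUnion.mp hy
  refine ⟨n y, Nat.lt_succ_of_le (Finset.le_sup hys), ?_⟩
  have h2 := hn y
  have h3 : dist x y < ε / 2 := hxy
  have h4 := dist_triangle_right (n y • z) x y
  linarith

/-- A rationally independent family containing `1`. -/
theorem exists_indep (ι : Type) (hι : #ι ≤ 𝔠) :
    ∃ θ : ι → ℝ, LinearIndependent ℚ (fun o : Option ι => o.elim 1 θ) := by
  classical
  have hs : LinearIndepOn ℚ id ({1} : Set ℝ) := by
    apply LinearIndepOn.singleton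
    simp
  let B := hs.extend (subset_univ _)
  let b : Module.Basis B ℚ ℝ := Module.Basis.extend hs
  have hB : #B = 𝔠 := by
    rw [b.mk_eq_rank'', Real.rank_rat_real]
  have h1B : (1 : ℝ) ∈ B := hs.subset_extend _ (mem_singleton 1)
  have hcard : #(Option ι) ≤ #B := by
    rw [hB, Cardinal.mk_option]
    have h1 : (1 : Cardinal) ≤ 𝔠 := one_le_aleph0.trans aleph0_le_continuum
    exact (add_le_add hι h1).trans_eq (by simp)
  obtain ⟨e⟩ := hcard
  let e' : Option ι → B := fun o => Equiv.swap (e none) ⟨1, h1B⟩ (e o)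
  have he' : Function.Injective e' := (Equiv.injective _).comp e.injective
  have he'0 : e' none = ⟨1, h1B⟩ := Equiv.swap_apply_left _ _
  refine ⟨fun i => (e' (some i) : ℝ), ?_⟩
  have hli := b.linearIndependent.comp e' he'
  convert hli using 1
  funext o
  have hb : ∀ x : B, b x = (x : ℝ) := fun x => Module.Basis.extend_apply_self hs x
  cases o with
  | none =>
      show (1 : ℝ) = b (e' none)
      rw [hb, he'0]
  | some i =>
      show (e' (some i) : ℝ) = b (e' (some i))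
      rw [hb]

theorem indep_circle {ι : Type} {θ : ι → ℝ}
    (hθ : LinearIndependent ℚ (fun o : Option ι => o.elim 1 θ)) {d : Type} [Fintype d]
    (j : d → ι) (hj : Function.Injective j) (k : d → ℤ)
    (hk : ∑ i, k i • ((θ (j i) : ℝ) : UnitAddCircle) = 0) : ∀ i, k i = 0 := by
  classical
  have h1 : ∑ i, k i • ((θ (j i) : ℝ) : UnitAddCircle) =
      ((∑ i, (k i : ℝ) * θ (j i) : ℝ) : UnitAddCircle) := by
    have : ((∑ i, (k i : ℝ) * θ (j i) : ℝ) : UnitAddCircle) =
        ∑ i, (((k i : ℝ) * θ (j i) : ℝ) : UnitAddCircle) := by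
      exact map_sum (QuotientAddGroup.mk' (AddSubgroup.zmultiples (1 : ℝ))) _ _
    rw [this]
    refine Finset.sum_congr rfl fun i _ => ?_
    rw [← AddCircle.coe_zsmul, zsmul_eq_mul]
  rw [h1, AddCircle.coe_eq_zero_iff] at hk
  obtain ⟨n, hn⟩ := hk
  rw [zsmul_eq_mul, mul_one] at hn
  let e : Option d → Option ι := Option.map j
  have he : Function.Injective e := Option.map_injective hj
  have hli := hθ.comp e he
  rw [Fintype.linearIndependent_iff] at hli
  have h2 := hli (fun o => o.elim (-(n : ℚ)) (fun i => (k i : ℚ))) (by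
    rw [Fintype.sum_option]
    simp only [Function.comp, e, Option.map, Option.elim]
    have : ∀ i, ((k i : ℚ)) • θ (j i) = (k i : ℝ) * θ (j i) := by
      intro i
      rw [Rat.smul_def]
      push_cast
      rfl
    simp only [this]
    rw [← hn, Rat.smul_def]
    push_cast
    ring)
  intro i
  have h3 := h2 (some i)
  simpa using h3

/-- A system of phases with widths. -/
structure Phases (W : Type) (L : ℕ) where
  /-- the phases -/
  θ : W → ℕ → UnitAddCircle
  indep : ∀ (d : Type) [Fintype d] (j : d → W × ℕ), Function.Injective j → ∀ k : d → ℤ,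
    ∑ i, k i • θ (j i).1 (j i).2 = 0 → ∀ i, k i = 0
  /-- the widths -/
  σ : W → ℕ → ℝ
  pos : ∀ α c, 0 < σ α c
  small : ∀ α c, 4 * σ α c * (L + 1) ≤ 1
  sep : ∀ α c (d : ℕ), 0 < d → d ≤ c → 2 * σ α c ≤ ‖d • θ α c‖

theorem exists_phases (W : Type) (hW : #W ≤ 𝔠) (L : ℕ) : Nonempty (Phases W L) := by
  classical
  have hι : #(W × ℕ) ≤ 𝔠 := by
    rw [Cardinal.mk_prod]
    simp only [Cardinal.lift_id, Cardinal.mk_nat]
    exact (mul_le_mul' hW aleph0_le_continuum).trans_eq (by simp)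
  obtain ⟨θ, hθ⟩ := exists_indep (W × ℕ) hι
  have hind : ∀ (d : Type) [Fintype d] (j : d → W × ℕ), Function.Injective j → ∀ k : d → ℤ,
      ∑ i, k i • ((θ ((j i).1, (j i).2) : ℝ) : UnitAddCircle) = 0 → ∀ i, k i = 0 :=
    fun d _ j hj k hk => indep_circle hθ j hj k hk
  have hσ : ∀ α c, ∃ s : ℝ, 0 < s ∧ 4 * s * (L + 1) ≤ 1 ∧
      ∀ d : ℕ, 0 < d → d ≤ c → 2 * s ≤ ‖d • ((θ (α, c) : ℝ) : UnitAddCircle)‖ := by
    intro α c
    have hpos : ∀ d : ℕ, 0 < d → 0 < ‖d • ((θ (α, c) : ℝ) : UnitAddCircle)‖ := by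
      intro d hd
      rw [norm_pos_iff]
      intro h0
      have := hind Unit (fun _ => (α, c)) (fun _ _ _ => rfl) (fun _ => (d : ℤ)) (by
        simpa using h0) ()
      omega
    have hfin : ∃ s : ℝ, 0 < s ∧
        ∀ d ∈ Finset.Icc 1 c, s ≤ ‖d • ((θ (α, c) : ℝ) : UnitAddCircle)‖ := by
      rcases (Finset.Icc 1 c).eq_empty_or_nonempty with h | h
      · exact ⟨1, one_pos, by simp [h]⟩
      · obtain ⟨m, hm, hmin⟩ := (Finset.Icc 1 c).exists_min_image
          (fun d => ‖d • ((θ (α, c) : ℝ) : UnitAddCircle)‖) h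
        exact ⟨_, hpos m (Finset.mem_Icc.1 hm).1, hmin⟩
    obtain ⟨s, hs, hs2⟩ := hfin
    have hL : (0 : ℝ) < 4 * (L + 1) := by positivity
    refine ⟨min (s / 2) (1 / (4 * (L + 1))), by positivity, ?_, ?_⟩
    · have := min_le_right (s / 2) (1 / (4 * ((L : ℝ) + 1)))
      calc 4 * min (s / 2) (1 / (4 * ((L : ℝ) + 1))) * (L + 1)
          = (4 * (L + 1)) * min (s / 2) (1 / (4 * ((L : ℝ) + 1))) := by ring
        _ ≤ (4 * (L + 1)) * (1 / (4 * ((L : ℝ) + 1))) := mul_le_mul_of_nonneg_left this hL.le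
        _ = 1 := by field_simp
    · intro d hd hdc
      have h1 := min_le_left (s / 2) (1 / (4 * ((L : ℝ) + 1)))
      have h2 := hs2 d (Finset.mem_Icc.2 ⟨hd, hdc⟩)
      linarith
  choose σ h1 h2 h3 using hσ
  exact ⟨⟨fun α c => ((θ (α, c) : ℝ) : UnitAddCircle), hind, σ, h1, h2, h3⟩⟩

/-- Few balls do not cover the circle. -/
theorem exists_far {l L : ℕ} (hl : l ≤ L) (p : Fin l → UnitAddCircle) {s : ℝ}
    (hs : 4 * s * (L + 1) ≤ 1) : ∃ u : UnitAddCircle, ∀ j, 2 * s ≤ ‖u - p j‖ := by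
  classical
  by_contra hcon
  push Not at hcon
  let u : Fin (L + 1) → UnitAddCircle := fun t => (((t : ℕ) / ((L : ℝ) + 1) : ℝ) : UnitAddCircle)
  choose f hf using fun t => hcon (u t)
  obtain ⟨t, t', hne, heq⟩ := Fintype.exists_ne_map_eq_of_card_lt f (by simp; omega)
  have hL : (0 : ℝ) < (L : ℝ) + 1 := by positivity
  have hlt : ‖u t - u t'‖ < 1 / ((L : ℝ) + 1) := by
    have h1 := hf t
    have h2 := hf t'
    rw [← heq] at h2
    have h3 : ‖u t - u t'‖ ≤ ‖u t - p (f t)‖ + ‖u t' - p (f t)‖ := by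
      have := norm_sub_le (u t - p (f t)) (u t' - p (f t))
      simpa using this
    rw [lt_div_iff₀ hL]
    nlinarith
  have hge : 1 / ((L : ℝ) + 1) ≤ ‖u t - u t'‖ := by
    have h1 : u t - u t' = ((((t : ℕ) : ℝ) - ((t' : ℕ) : ℝ)) / ((L : ℝ) + 1) : ℝ) := by
      rw [sub_div]
      rfl
    rw [h1, UnitAddCircle.norm_eq]
    set r := round ((((t : ℕ) : ℝ) - ((t' : ℕ) : ℝ)) / ((L : ℝ) + 1)) with hr
    have h2 : (((t : ℕ) : ℝ) - ((t' : ℕ) : ℝ)) / ((L : ℝ) + 1) - r =
        (((t : ℕ) : ℤ) - ((t' : ℕ) : ℤ) - (L + 1) * r : ℤ) / ((L : ℝ) + 1) := by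
      push_cast
      field_simp
    rw [h2, abs_div, abs_of_pos hL]
    apply div_le_div_of_nonneg_right _ hL.le
    have h3 : (((t : ℕ) : ℤ) - ((t' : ℕ) : ℤ) - (L + 1) * r : ℤ) ≠ 0 := by
      intro h0
      have h4 : (((t : ℕ) : ℤ) - ((t' : ℕ) : ℤ)) = (L + 1) * r := by linarith
      have h5 : |(((t : ℕ) : ℤ) - ((t' : ℕ) : ℤ))| < (L : ℤ) + 1 := by
        rw [abs_lt]
        have := t.2
        have := t'.2
        constructor <;> omega
      have h6 : r = 0 := by
        rw [h4, abs_mul, abs_of_pos (by positivity : (0 : ℤ) < (L : ℤ) + 1)] at h5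
        by_contra hr0
        have : 1 ≤ |r| := Int.one_le_abs hr0
        nlinarith
      rw [h6, mul_zero] at h4
      apply hne
      apply Fin.ext
      omega
    exact_mod_cast Int.one_le_abs h3
  linarith

namespace Phases

variable {W : Type} {L : ℕ} (Φ : Phases W L)

/-- The stopping condition. -/
def Stop (Φ : Phases W L) (α : W) (o c : ℕ) : Prop := ‖o • Φ.θ α c‖ < Φ.σ α c

theorem steer {q l : ℕ} (hl : l ≤ L) (a : Fin q → W) (ha : Function.Injective a)
    (D : Fin q → Fin l → ℕ) (c : Fin q → ℕ → ℕ) (hc : ∀ i, Function.Injective (c i))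
    (hcD : ∀ i j d, D i j ≤ c i d) :
    ∃ N : ℕ, ∀ κ : Fin q → ℕ, ∃ t < N, ∀ i j,
      Φ.Stop (a i) (κ i + D i j + t) (c i (D i j)) ∧
      ∀ c' < c i (D i j), ¬ Φ.Stop (a i) (κ i + D i j + t) c' := by
  classical
  -- a bound for the code indices
  let Q : ℕ := (Finset.univ.sup (fun i => Finset.univ.sup (fun j => c i (D i j)))) + 1
  have hQ : ∀ i j, c i (D i j) < Q := by
    intro i j
    refine Nat.lt_succ_of_le ?_
    refine le_trans ?_ (Finset.le_sup (f := fun i => Finset.univ.sup (fun j => c i (D i j)))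
      (Finset.mem_univ i))
    exact Finset.le_sup (f := fun j => c i (D i j)) (Finset.mem_univ j)
  -- targets
  have htar : ∀ p : Fin q × Fin Q, ∃ u : UnitAddCircle,
      (∀ j, c p.1 (D p.1 j) = p.2 → u = -(D p.1 j • Φ.θ (a p.1) p.2)) ∧
      ((∀ j, c p.1 (D p.1 j) ≠ p.2) →
        ∀ j, 2 * Φ.σ (a p.1) p.2 ≤ ‖u + D p.1 j • Φ.θ (a p.1) p.2‖) := by
    intro p
    by_cases h : ∃ j, c p.1 (D p.1 j) = p.2
    · obtain ⟨j₀, hj₀⟩ := h
      refine ⟨-(D p.1 j₀ • Φ.θ (a p.1) p.2), ?_, ?_⟩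
      · intro j hj
        rw [hc p.1 (hj₀.trans hj.symm)]
      · intro h
        exact absurd hj₀ (h j₀)
    · push Not at h
      obtain ⟨u, hu⟩ := exists_far hl (fun j => -(D p.1 j • Φ.θ (a p.1) p.2))
        (Φ.small (a p.1) p.2)
      refine ⟨u, fun j hj => absurd hj (h j), fun _ j => ?_⟩
      have := hu j
      rwa [sub_neg_eq_add] at this
  choose u hu1 hu2 using htar
  -- the radius
  have hε : ∃ ε : ℝ, 0 < ε ∧ ∀ p : Fin q × Fin Q, ε ≤ Φ.σ (a p.1) p.2 := by
    rcases isEmpty_or_nonempty (Fin q × Fin Q) with h | h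
    · exact ⟨1, one_pos, fun p => isEmptyElim p⟩
    · obtain ⟨m, _, hmin⟩ := (Finset.univ : Finset (Fin q × Fin Q)).exists_min_image
        (fun p => Φ.σ (a p.1) p.2) Finset.univ_nonempty
      exact ⟨_, Φ.pos _ _, fun p => hmin p (Finset.mem_univ p)⟩
  obtain ⟨ε, hε, hε2⟩ := hε
  obtain ⟨N, hN⟩ := kron_uniform (d := Fin q × Fin Q) (fun p => Φ.θ (a p.1) p.2) (by
    intro k hk
    refine Φ.indep (Fin q × Fin Q) (fun p => (a p.1, (p.2 : ℕ))) ?_ k hk
    intro p p' h
    have h1 := ha (congrArg Prod.fst h)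
    have h2 : (p.2 : ℕ) = p'.2 := congrArg Prod.snd h
    exact Prod.ext h1 (Fin.ext h2)) ε hε
  refine ⟨N, fun κ => ?_⟩
  obtain ⟨t, ht, hd⟩ := hN (fun p => u p - κ p.1 • Φ.θ (a p.1) p.2)
  have hd' : ∀ p : Fin q × Fin Q, ‖(κ p.1 + t) • Φ.θ (a p.1) p.2 - u p‖ < Φ.σ (a p.1) p.2 := by
    intro p
    have h1 := (dist_le_pi_dist _ _ p).trans_lt hd
    have h2 : ‖t • Φ.θ (a p.1) p.2 - (u p - κ p.1 • Φ.θ (a p.1) p.2)‖ < ε := by
      rw [← dist_eq_norm]
      exact h1
    have h3 : (κ p.1 + t) • Φ.θ (a p.1) p.2 - u p =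
        t • Φ.θ (a p.1) p.2 - (u p - κ p.1 • Φ.θ (a p.1) p.2) := by
      rw [add_smul]; abel
    rw [h3]
    exact h2.trans_le (hε2 p)
  refine ⟨t, ht, fun i j => ?_⟩
  have hsplit : ∀ c', (κ i + D i j + t) • Φ.θ (a i) c' =
      (κ i + t) • Φ.θ (a i) c' + D i j • Φ.θ (a i) c' := by
    intro c'
    rw [← add_smul]
    congr 1
    omega
  constructor
  · have h1 := hd' (i, ⟨c i (D i j), hQ i j⟩)
    have h2 := hu1 (i, ⟨c i (D i j), hQ i j⟩) j rfl
    rw [h2, sub_neg_eq_add] at h1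
    unfold Stop
    rw [hsplit]
    exact h1
  · intro c' hc' hstop
    unfold Stop at hstop
    rw [hsplit] at hstop
    have hc'Q : c' < Q := hc'.trans (hQ i j)
    have h1 := hd' (i, ⟨c', hc'Q⟩)
    by_cases hex : ∃ j', c i (D i j') = c'
    · obtain ⟨j', hj'⟩ := hex
      have h2 := hu1 (i, ⟨c', hc'Q⟩) j' hj'
      rw [h2, sub_neg_eq_add] at h1
      have hne : D i j' ≠ D i j := by
        intro h
        rw [h] at hj'
        omega
      have h3 : ‖((κ i + t) • Φ.θ (a i) c' + D i j • Φ.θ (a i) c') -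
          ((κ i + t) • Φ.θ (a i) c' + D i j' • Φ.θ (a i) c')‖ < 2 * Φ.σ (a i) c' := by
        refine (norm_sub_le _ _).trans_lt ?_
        have h1' : ‖(κ i + t) • Φ.θ (a i) c' + D i j' • Φ.θ (a i) c'‖ < Φ.σ (a i) c' := h1
        linarith
      rw [add_sub_add_left_eq_sub] at h3
      rcases lt_or_gt_of_ne hne with h | h
      · have h4 : D i j • Φ.θ (a i) c' - D i j' • Φ.θ (a i) c' =
            (D i j - D i j') • Φ.θ (a i) c' := by
          rw [sub_eq_iff_eq_add, ← add_smul]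
          congr 1
          omega
        rw [h4] at h3
        have h5 := Φ.sep (a i) c' (D i j - D i j') (by omega) (by
          have := hcD i j (D i j')
          omega)
        linarith
      · have h4 : D i j • Φ.θ (a i) c' - D i j' • Φ.θ (a i) c' =
            -((D i j' - D i j) • Φ.θ (a i) c') := by
          rw [eq_neg_iff_add_eq_zero, sub_add_eq_add_sub, ← add_smul]
          have : D i j + (D i j' - D i j) = D i j' := by omega
          rw [this, sub_self]
        rw [h4, norm_neg] at h3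
        have h5 := Φ.sep (a i) c' (D i j' - D i j) (by omega) (by
          have := hcD i j' (D i j')
          omega)
        linarith
    · push Not at hex
      have h2 := hu2 (i, ⟨c', hc'Q⟩) hex j
      have h3 : ‖u (i, ⟨c', hc'Q⟩) + D i j • Φ.θ (a i) c'‖ ≤
          ‖(κ i + t) • Φ.θ (a i) c' + D i j • Φ.θ (a i) c'‖ +
          ‖(κ i + t) • Φ.θ (a i) c' - u (i, ⟨c', hc'Q⟩)‖ := by
        have := norm_sub_le ((κ i + t) • Φ.θ (a i) c' + D i j • Φ.θ (a i) c')
          ((κ i + t) • Φ.θ (a i) c' - u (i, ⟨c', hc'Q⟩))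
        have h4 : (κ i + t) • Φ.θ (a i) c' + D i j • Φ.θ (a i) c' -
          ((κ i + t) • Φ.θ (a i) c' - u (i, ⟨c', hc'Q⟩)) =
          u (i, ⟨c', hc'Q⟩) + D i j • Φ.θ (a i) c' := by abel
        rwa [h4] at this
      have h1' : ‖(κ i + t) • Φ.θ (a i) c' - u (i, ⟨c', hc'Q⟩)‖ < Φ.σ (a i) c' := h1
      have h2' : 2 * Φ.σ (a i) c' ≤ ‖u (i, ⟨c', hc'Q⟩) + D i j • Φ.θ (a i) c'‖ := h2
      linarith

end Phases

end Run7.h584
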