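import Pool.Agent.Run7.h584.Moore2
import Pool.Agent.Run7.h584.Phase

set_option linter.unusedSectionVars false

/-!
Codes, the functions defining the space, and the pattern theorem.
-/

namespace Run7.h584

open Set

/-- Admissible codes: finitely determined, and constantly false at some index. -/
def IsCode {n : ℕ} (g : (ℕ → Bool) → Fin (n + 1) → Bool) : Prop :=
  (∃ m : ℕ, ∀ x y : ℕ → Bool, (∀ t < m, x t = y t) → g x = g y) ∧ ∃ i₀, ∀ x, g x i₀ = false

theorem isCode_countable (n : ℕ) :
    {g : (ℕ → Bool) → Fin (n + 1) → Bool | IsCode g}.Countable := by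
  classical
  have h1 : {g : (ℕ → Bool) → Fin (n + 1) → Bool | IsCode g} ⊆
      ⋃ m : ℕ, range (fun h : (Fin m → Bool) → Fin (n + 1) → Bool =>
        fun (x : ℕ → Bool) => h (fun t => x t)) := by
    rintro g ⟨⟨m, hm⟩, _⟩
    refine mem_iUnion.2 ⟨m, fun y => g (fun t => if h : t < m then y ⟨t, h⟩ else false), ?_⟩
    funext x
    apply hm
    intro t ht
    simp [ht]
  refine Countable.mono h1 (countable_iUnion fun m => countable_range _)

theorem exists_repeating {α : Type*} {T : Set α} (hT : T.Countable) (hne : T.Nonempty) :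
    ∃ f : ℕ → α, (∀ c, f c ∈ T) ∧ ∀ t ∈ T, ∀ C, ∃ c, C ≤ c ∧ f c = t := by
  classical
  have : Countable T := hT.to_subtype
  have : Nonempty T := hne.to_subtype
  obtain ⟨e, he⟩ := exists_surjective_nat (T × ℕ)
  refine ⟨fun c => (e c).1, fun c => (e c).1.2, ?_⟩
  intro t ht C
  by_contra hcon
  push Not at hcon
  choose g hg using fun k : ℕ => he (⟨t, ht⟩, k)
  have hinj : Function.Injective g := by
    intro k k' h
    have h1 := hg k
    rw [h, hg k'] at h1
    exact (congrArg Prod.snd h1).symm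
  have hlt : ∀ k, g k < C := by
    intro k
    by_contra hge
    exact hcon (g k) (not_lt.1 hge) (by rw [hg k])
  exact Set.infinite_of_injective_forall_mem (s := Iio C) hinj hlt (finite_Iio C)

theorem exists_codes (n : ℕ) : ∃ code : ℕ → (ℕ → Bool) → Fin (n + 1) → Bool,
    (∀ c, IsCode (code c)) ∧ ∀ g, IsCode g → ∀ C, ∃ c, C ≤ c ∧ code c = g :=
  exists_repeating (isCode_countable n) ⟨fun _ _ => false, ⟨0, fun _ _ _ => rfl⟩, 0, fun _ => rfl⟩

/-- The data defining the space. -/
structure Sys (W : Type) [LinearOrder W] [WellFoundedLT W] (n : ℕ) where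
  /-- the walks -/
  S : CSeq W
  /-- the phases -/
  Φ : Phases W (n + 1)
  /-- the codes -/
  code : ℕ → (ℕ → Bool) → Fin (n + 1) → Bool
  isCode : ∀ c, IsCode (code c)
  rich : ∀ g, IsCode g → ∀ C, ∃ c, C ≤ c ∧ code c = g
  /-- the height of a real -/
  ht : (ℕ → Bool) → W
  /-- the ordinal from which the walks start -/
  be : (ℕ → Bool) → W
  ht_le : ∀ x, ht x ≤ be x
  /-- the kind of a real -/
  kd : (ℕ → Bool) → Bool
  /-- the index of a real -/
  ix : (ℕ → Bool) → Fin (n + 1)

namespace Sys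

variable {W : Type} [LinearOrder W] [WellFoundedLT W] {n : ℕ} (Y : Sys W n)

open Classical in
/-- The value determined by the phases. -/
noncomputable def val (Y : Sys W n) (α : W) (o : ℕ) (x : ℕ → Bool) (i : Fin (n + 1)) : Bool :=
  if h : ∃ c, Y.Φ.Stop α o c then Y.code (Nat.find h) x i else false

open Classical in
/-- The functions defining the topology. -/
noncomputable def f (Y : Sys W n) (α : W) (x : ℕ → Bool) : Bool :=
  if α < Y.ht x then Y.val α (Y.S.osc α (Y.be x)) x (Y.ix x)
  else if α = Y.ht x then Y.kd x else false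

theorem val_eq {α : W} {o c : ℕ} (h : Y.Φ.Stop α o c) (hc : ∀ c' < c, ¬ Y.Φ.Stop α o c')
    (x : ℕ → Bool) (i : Fin (n + 1)) : Y.val α o x i = Y.code c x i := by
  classical
  have hex : ∃ c, Y.Φ.Stop α o c := ⟨c, h⟩
  unfold val
  rw [dif_pos hex]
  have : Nat.find hex = c := by
    rw [Nat.find_eq_iff]
    exact ⟨h, hc⟩
  rw [this]

theorem f_lt {α : W} {x : ℕ → Bool} (h : α < Y.ht x) :
    Y.f α x = Y.val α (Y.S.osc α (Y.be x)) x (Y.ix x) := if_pos h

theorem f_gt {α : W} {x : ℕ → Bool} (h : Y.ht x < α) : Y.f α x = false := by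
  unfold f
  rw [if_neg (not_lt.2 h.le), if_neg h.ne']

theorem f_eq {x : ℕ → Bool} : Y.f (Y.ht x) x = Y.kd x := by
  unfold f
  rw [if_neg (lt_irrefl _), if_pos rfl]

/-- The value depends on finitely many coordinates, and is false at some index. -/
theorem val_isCode (α : W) (o : ℕ) : IsCode (Y.val α o) := by
  classical
  by_cases h : ∃ c, Y.Φ.Stop α o c
  · have : Y.val α o = Y.code (Nat.find h) := by
      funext x i
      unfold val
      rw [dif_pos h]
    rw [this]
    exact Y.isCode _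
  · have : Y.val α o = fun _ _ => false := by
      funext x i
      unfold val
      rw [dif_neg h]
    rw [this]
    exact ⟨⟨0, fun _ _ _ => rfl⟩, 0, fun _ => rfl⟩

theorem exists_code_seq (G : ℕ → (ℕ → Bool) → Fin (n + 1) → Bool) (hG : ∀ d, IsCode (G d))
    (M : ℕ) : ∃ c : ℕ → ℕ, Function.Injective c ∧ (∀ d, M ≤ c d) ∧ ∀ d, Y.code (c d) = G d := by
  choose F hF1 hF2 using fun d C => Y.rich (G d) (hG d) C
  let c : ℕ → ℕ := fun d => Nat.rec (F 0 M) (fun d x => F (d + 1) (x + 1)) d
  have h0 : c 0 = F 0 M := rfl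
  have hs : ∀ d, c (d + 1) = F (d + 1) (c d + 1) := fun d => rfl
  have hmono : StrictMono c := by
    apply strictMono_nat_of_lt_succ
    intro d
    rw [hs]
    have := hF1 (d + 1) (c d + 1)
    omega
  refine ⟨c, hmono.injective, fun d => ?_, fun d => ?_⟩
  · have h1 : M ≤ c 0 := hF1 0 M
    exact h1.trans (hmono.monotone (Nat.zero_le d))
  · cases d with
    | zero => exact hF2 0 M
    | succ d => rw [hs]; exact hF2 (d + 1) (c d + 1)

/-- The pattern theorem. -/
theorem pattern [Uncountable W] (hW : ∀ b : W, (Iio b).Countable) {q l : ℕ} (hl : l ≤ n + 1)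
    (a : W → Fin q → W) (ha : ∀ ξ i, ξ ≤ a ξ i) (hinj : ∀ ξ, Function.Injective (a ξ))
    (x : W → Fin l → ℕ → Bool) (hx : ∀ η j, η ≤ Y.ht (x η j))
    (m : ℕ) (s : Fin l → ℕ → Bool) (hs : ∀ j j', (∀ t < m, s j t = s j' t) → j = j')
    (hxs : ∀ η j, ∀ t < m, x η j t = s j t)
    (ι : Fin l → Fin (n + 1)) (hι : ∀ η j, Y.ix (x η j) = ι j)
    (P : Fin q → Fin l → Bool) (hP : l ≤ n ∨ ∀ i j, P i j = false) (η₀ : W) :
    ∃ ξ η, η₀ < ξ ∧ ξ < η ∧ ∀ i j, Y.f (a ξ i) (x η j) = P i j := by
  classical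
  -- the codes
  let G : (Fin q → Fin l → ℕ) → Fin q → ℕ → (ℕ → Bool) → Fin (n + 1) → Bool :=
    fun D i d y i' => decide (∃ j, D i j = d ∧ (∀ t < m, y t = s j t) ∧ ι j = i' ∧ P i j = true)
  have hG : ∀ D i d, IsCode (G D i d) := by
    intro D i d
    refine ⟨⟨m, fun y y' h => ?_⟩, ?_⟩
    · funext i'
      show decide _ = decide _
      apply decide_eq_decide.2
      constructor
      · rintro ⟨j, h1, h2, h3⟩
        exact ⟨j, h1, fun t ht => (h t ht).symm.trans (h2 t ht), h3⟩
      · rintro ⟨j, h1, h2, h3⟩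
        exact ⟨j, h1, fun t ht => (h t ht).trans (h2 t ht), h3⟩
    · rcases hP with hP | hP
      · have : ∃ i₀, i₀ ∉ range ι := by
          by_contra hcon
          push Not at hcon
          have h1 : Function.Surjective ι := hcon
          have h2 := Fintype.card_le_of_surjective ι h1
          simp at h2
          omega
        obtain ⟨i₀, hi₀⟩ := this
        refine ⟨i₀, fun y => ?_⟩
        show decide _ = false
        apply decide_eq_false
        rintro ⟨j, _, _, h, _⟩
        exact hi₀ ⟨j, h⟩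
      · refine ⟨0, fun y => ?_⟩
        show decide _ = false
        apply decide_eq_false
        rintro ⟨j, _, _, _, h⟩
        rw [hP] at h
        exact Bool.false_ne_true h
  let M : (Fin q → Fin l → ℕ) → ℕ := fun D =>
    Finset.univ.sup (fun i => Finset.univ.sup (fun j => D i j))
  have hM : ∀ D i j, D i j ≤ M D := by
    intro D i j
    refine le_trans ?_ (Finset.le_sup (f := fun i => Finset.univ.sup (fun j => D i j))
      (Finset.mem_univ i))
    exact Finset.le_sup (f := fun j => D i j) (Finset.mem_univ j)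
  choose c hc1 hc2 hc3 using fun D i => Y.exists_code_seq (G D i) (hG D i) (M D)
  choose N hN using fun D ξ => Y.Φ.steer (q := q) (l := l) hl (a ξ) (hinj ξ) D (c D) (hc1 D)
    (fun i j d => (hM D i j).trans (hc2 D i d))
  obtain ⟨D, ξ, κ, δ, e, h1, h2, h3, h4⟩ := Y.S.moore hW a ha (fun η j => Y.be (x η j))
    (fun η j => (hx η j).trans (Y.ht_le _)) N η₀
  obtain ⟨t, ht, hst⟩ := hN D ξ κ
  obtain ⟨h5, h6⟩ := h4 t ht
  refine ⟨ξ, e t, h1, h2.trans_le h5, fun i j => ?_⟩
  have h7 : a ξ i < Y.ht (x (e t) j) := (h3 i).trans_le (h5.trans (hx _ _))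
  obtain ⟨h8, h9⟩ := hst i j
  rw [Y.f_lt h7, h6 i j, Y.val_eq h8 h9, hc3, hι]
  show decide _ = _
  by_cases hPij : P i j = true
  · rw [hPij]
    apply decide_eq_true
    exact ⟨j, rfl, hxs _ _, rfl, hPij⟩
  · rw [Bool.not_eq_true] at hPij
    rw [hPij]
    apply decide_eq_false
    rintro ⟨j', _, h10, _, h11⟩
    have : j = j' := hs j j' (fun t ht => (hxs _ _ t ht).symm.trans (h10 t ht))
    rw [← this, hPij] at h11
    exact Bool.false_ne_true h11

end Sys

end Run7.h584
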