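import Mathlib

set_option linter.unusedSectionVars false

/-!
The dichotomy for open graphs on Polish spaces.
-/

namespace Run7.h584

open Set Filter Topology Metric PiNat
open scoped ENNReal

/-- Independent sets. -/
def KFree {P : Type*} (K : Set (P × P)) (C : Set P) : Prop := ∀ p ∈ C, ∀ q ∈ C, (p, q) ∉ K

theorem KFree.closure {P : Type*} [TopologicalSpace P] {K : Set (P × P)} (hK : IsOpen K)
    {C : Set P} (h : KFree K C) : KFree K (closure C) := by
  intro p hp q hq hpq
  have h1 : (p, q) ∈ _root_.closure (C ×ˢ C) := by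
    rw [closure_prod_eq]
    exact ⟨hp, hq⟩
  obtain ⟨⟨p', q'⟩, h2, h3⟩ := mem_closure_iff.1 h1 K hK hpq
  exact h p' h3.1 q' h3.2 h2

/-- Countable unions of closed independent sets. -/
def SFree {P : Type*} [TopologicalSpace P] (K : Set (P × P)) (V : Set P) : Prop :=
  ∃ C : ℕ → Set P, (∀ i, IsClosed (C i)) ∧ (∀ i, KFree K (C i)) ∧ V ⊆ ⋃ i, C i

theorem SFree.iUnion {P : Type*} [TopologicalSpace P] {K : Set (P × P)} {V : ℕ → Set P}
    (h : ∀ i, SFree K (V i)) : SFree K (⋃ i, V i) := by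
  choose C h1 h2 h3 using h
  refine ⟨fun i => C (Nat.unpair i).1 (Nat.unpair i).2, fun i => h1 _ _, fun i => h2 _ _, ?_⟩
  intro x hx
  obtain ⟨i, hi⟩ := mem_iUnion.1 hx
  obtain ⟨j, hj⟩ := mem_iUnion.1 (h3 i hi)
  refine mem_iUnion.2 ⟨Nat.pair i j, ?_⟩
  simpa using hj

/-- A perfect clique from a set in which every nonempty relatively open subset is not
independent. -/
theorem exists_clique {P : Type*} [MetricSpace P] [CompleteSpace P] {K : Set (P × P)}
    (hK : IsOpen K) (hsymm : ∀ p q, (p, q) ∈ K → (q, p) ∈ K) {F : Set P}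
    (hF : F.Nonempty)
    (h : ∀ V : Set P, IsOpen V → (V ∩ F).Nonempty → ∃ p ∈ V ∩ F, ∃ q ∈ V ∩ F, (p, q) ∈ K) :
    ∃ f : (ℕ → Bool) → P, Continuous f ∧ ∀ x y, x ≠ y → (f x, f y) ∈ K := by
  classical
  obtain ⟨u, -, upos', hu⟩ := exists_seq_strictAnti_tendsto' (zero_lt_one' ℝ≥0∞)
  have upos := fun n => (upos' n).1
  let S := {V : Set P // IsOpen V ∧ (V ∩ F).Nonempty}
  have hstep : ∀ (V : S) (n : ℕ), ∃ V' : Bool → S, (∀ b, closure (V' b).1 ⊆ V.1) ∧
      (∀ b, Metric.ediam (V' b).1 ≤ u n) ∧ ∀ p ∈ (V' false).1, ∀ q ∈ (V' true).1, (p, q) ∈ K := by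
    rintro ⟨V, hV, hVF⟩ n
    obtain ⟨p, hp, q, hq, hpq⟩ := h V hV hVF
    obtain ⟨O₀, O₁, hO₀, hO₁, hp₀, hq₁, hO⟩ := isOpen_prod_iff.1 hK p q hpq
    have key : ∀ (z : P) (O : Set P), z ∈ V → IsOpen O → z ∈ O → ∃ B : Set P, IsOpen B ∧ z ∈ B ∧
        closure B ⊆ V ∧ B ⊆ O ∧ Metric.ediam B ≤ u n := by
      intro z O hzV hO hzO
      obtain ⟨B₁, hB₁, hB₁c, hB₁V⟩ := exists_mem_nhds_isClosed_subset (hV.mem_nhds hzV)
      refine ⟨interior B₁ ∩ (O ∩ Metric.eball z (u n / 2)), ?_, ?_, ?_, ?_, ?_⟩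
      · exact isOpen_interior.inter (hO.inter Metric.isOpen_eball)
      · refine ⟨mem_interior_iff_mem_nhds.2 hB₁, hzO, ?_⟩
        apply Metric.mem_eball_self
        rw [ENNReal.div_pos_iff]
        exact ⟨ne_of_gt (upos n), by simp⟩
      · refine (closure_mono (inter_subset_left.trans interior_subset)).trans ?_
        rw [hB₁c.closure_eq]
        exact hB₁V
      · exact inter_subset_right.trans inter_subset_left
      · refine le_trans (Metric.ediam_mono (inter_subset_right.trans inter_subset_right)) ?_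
        refine (Metric.ediam_eball_le (x := z)).trans ?_
        rw [mul_comm, ENNReal.div_mul_cancel] <;> norm_num
    obtain ⟨B₀, h1, h2, h3, h4, h5⟩ := key p O₀ hp.1 hO₀ hp₀
    obtain ⟨B₁, g1, g2, g3, g4, g5⟩ := key q O₁ hq.1 hO₁ hq₁
    refine ⟨fun b => if b then ⟨B₁, g1, q, g2, hq.2⟩ else ⟨B₀, h1, p, h2, hp.2⟩, ?_, ?_, ?_⟩
    · intro b
      cases b
      · simpa using h3
      · simpa using g3
    · intro b
      cases b
      · simpa using h5
      · simpa using g5
    · intro p' hp' q' hq'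
      apply hO
      refine ⟨h4 ?_, g4 ?_⟩
      · simpa using hp'
      · simpa using hq'
  choose nx h1 h2 h3 using hstep
  let DP : List Bool → S := fun l => List.rec ⟨univ, isOpen_univ, by simpa using hF⟩
    (fun a l ih => nx ih (l.length + 1) a) l
  let D : List Bool → Set P := fun l => (DP l).val
  have hDP : ∀ a l, DP (a :: l) = nx (DP l) (l.length + 1) a := fun _ _ => rfl
  have hanti : CantorScheme.ClosureAntitone D := by
    intro l a
    show closure (DP (a :: l)).1 ⊆ (DP l).1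
    rw [hDP]
    exact h1 _ _ _
  have hdiam : CantorScheme.VanishingDiam D := by
    intro x
    apply tendsto_of_tendsto_of_tendsto_of_le_of_le' tendsto_const_nhds hu
    · simp
    rw [eventually_atTop]
    refine ⟨1, fun m (hm : 1 ≤ m) => ?_⟩
    rw [Nat.one_le_iff_ne_zero] at hm
    rcases Nat.exists_eq_succ_of_ne_zero hm with ⟨n, rfl⟩
    show Metric.ediam (DP (res x (n + 1))).1 ≤ u (n + 1)
    rw [res_succ, hDP, PiNat.res_length]
    exact h2 _ _ _
  have hne : ∀ l, (D l).Nonempty := fun l => (DP l).2.2.mono inter_subset_left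
  have hdom : ∀ x : ℕ → Bool, x ∈ (CantorScheme.inducedMap D).1 := fun x => by
    rw [hanti.map_of_vanishingDiam hdiam hne]
    exact mem_univ x
  refine ⟨fun x => (CantorScheme.inducedMap D).2 ⟨x, hdom x⟩, ?_, ?_⟩
  · apply hdiam.map_continuous.comp
    fun_prop
  · have key : ∀ x y : ℕ → Bool, ∀ n, (∀ i < n, x i = y i) → x n = false → y n = true →
        ((CantorScheme.inducedMap D).2 ⟨x, hdom x⟩, (CantorScheme.inducedMap D).2 ⟨y, hdom y⟩) ∈ K := by
      intro x y n hxy hx hy
      have e1 := CantorScheme.map_mem (A := D) ⟨x, hdom x⟩ (n + 1)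
      have e2 := CantorScheme.map_mem (A := D) ⟨y, hdom y⟩ (n + 1)
      have e3 : res y n = res x n := res_eq_res.2 (fun i hi => (hxy i hi).symm)
      have e4 : D (res x (n + 1)) = (nx (DP (res x n)) ((res x n).length + 1) false).1 := by
        show (DP (res x (n + 1))).1 = _
        rw [res_succ, hDP, hx]
      have e5 : D (res y (n + 1)) = (nx (DP (res x n)) ((res x n).length + 1) true).1 := by
        show (DP (res y (n + 1))).1 = _
        rw [res_succ, hDP, hy, e3]
      rw [e4] at e1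
      rw [e5] at e2
      exact h3 _ _ _ e1 _ e2
    intro x y hxy
    have hex : ∃ n, x n ≠ y n := by
      by_contra hcon
      push Not at hcon
      exact hxy (funext hcon)
    have hmin : ∀ i < Nat.find hex, x i = y i := by
      intro i hi
      have := Nat.find_min hex hi
      push Not at this
      exact this
    have hne' := Nat.find_spec hex
    rcases hxn : x (Nat.find hex) with _ | _
    · rcases hyn : y (Nat.find hex) with _ | _
      · rw [hxn, hyn] at hne'
        exact absurd rfl hne'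
      · exact key x y _ hmin hxn hyn
    · rcases hyn : y (Nat.find hex) with _ | _
      · exact hsymm _ _ (key y x _ (fun i hi => (hmin i hi).symm) hyn hxn)
      · rw [hxn, hyn] at hne'
        exact absurd rfl hne'

/-- The dichotomy for open graphs on Polish spaces. -/
theorem open_dichotomy {P : Type*} [TopologicalSpace P] [PolishSpace P] {K : Set (P × P)}
    (hK : IsOpen K) (hsymm : ∀ p q, (p, q) ∈ K → (q, p) ∈ K) :
    (∃ f : (ℕ → Bool) → P, Continuous f ∧ ∀ x y, x ≠ y → (f x, f y) ∈ K) ∨ SFree K univ := by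
  classical
  let _ := TopologicalSpace.upgradeIsCompletelyMetrizable P
  let 𝒢 : Set (Set P) := {V | V ∈ TopologicalSpace.countableBasis P ∧ SFree K V}
  have h𝒢 : 𝒢.Countable := (TopologicalSpace.countable_countableBasis P).mono fun V hV => hV.1
  have hO : SFree K (⋃₀ 𝒢) := by
    rcases 𝒢.eq_empty_or_nonempty with h | h
    · refine ⟨fun _ => ∅, fun _ => isClosed_empty, fun _ p hp => absurd hp (notMem_empty p), ?_⟩
      rw [h]; simp
    · obtain ⟨e, he⟩ := h𝒢.exists_eq_range h
      rw [he, sUnion_range]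
      apply SFree.iUnion
      intro i
      have : e i ∈ 𝒢 := by rw [he]; exact ⟨i, rfl⟩
      exact this.2
  by_cases hcase : ⋃₀ 𝒢 = univ
  · right
    rw [← hcase]
    exact hO
  left
  refine exists_clique hK hsymm (F := (⋃₀ 𝒢)ᶜ) ?_ ?_
  · rw [nonempty_compl]
    exact hcase
  · intro V hV hVF
    by_contra hcon
    push Not at hcon
    have h1 : KFree K (V ∩ (⋃₀ 𝒢)ᶜ) := hcon
    have h2 := h1.closure hK
    obtain ⟨x, hxV, hx⟩ := hVF
    obtain ⟨B, hB, hxB, hBV⟩ :=
      (TopologicalSpace.isBasis_countableBasis P).exists_subset_of_mem_open hxV hV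
    apply hx
    refine ⟨B, ⟨hB, ?_⟩, hxB⟩
    obtain ⟨C, c1, c2, c3⟩ := hO
    refine ⟨fun i => Nat.casesOn i (closure (V ∩ (⋃₀ 𝒢)ᶜ)) C, ?_, ?_, ?_⟩
    · intro i
      cases i
      · exact isClosed_closure
      · exact c1 _
    · intro i
      cases i
      · exact h2
      · exact c2 _
    · intro y hy
      by_cases hyO : y ∈ ⋃₀ 𝒢
      · obtain ⟨i, hi⟩ := mem_iUnion.1 (c3 hyO)
        exact mem_iUnion.2 ⟨i + 1, hi⟩
      · exact mem_iUnion.2 ⟨0, subset_closure ⟨hBV hy, hyO⟩⟩

end Run7.h584
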