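import Pool.Agent.Run7.h584.LSp

set_option linter.unusedSectionVars false

/-!
Covering properties of the powers of the space.
-/

namespace Run7.h584

open Set TopologicalSpace

theorem HLs_hyper {Z : Type*} [TopologicalSpace Z] {k : ℕ} (h : HLs (univ : Set (Fin k → Z)))
    (j : Fin (k + 1)) (q : Z) : HLs {x : Fin (k + 1) → Z | x j = q} := by
  have h1 : Continuous (fun y : Fin k → Z => (j.insertNth q y : Fin (k + 1) → Z)) :=
    Continuous.finInsertNth j continuous_const continuous_id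
  refine (HLs.range h1 h).mono ?_
  intro x hx
  refine ⟨j.removeNth x, ?_⟩
  have h2 : x j = q := hx
  show j.insertNth q (j.removeNth x) = x
  rw [← h2]
  exact Fin.insertNth_self_removeNth j x

theorem HLs_diag {Z : Type*} [TopologicalSpace Z] {k : ℕ} (h : HLs (univ : Set (Fin k → Z)))
    (j j' : Fin (k + 1)) (hj : j ≠ j') : HLs {x : Fin (k + 1) → Z | x j = x j'} := by
  obtain ⟨j'', hj''⟩ := Fin.exists_succAbove_eq hj.symm
  have h1 : Continuous (fun y : Fin k → Z => (j.insertNth (y j'') y : Fin (k + 1) → Z)) :=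
    Continuous.finInsertNth j (continuous_apply j'') continuous_id
  refine (HLs.range h1 h).mono ?_
  intro x hx
  refine ⟨j.removeNth x, ?_⟩
  have h2 : x j = x j' := hx
  have h3 : j.removeNth x j'' = x j := by
    show x (j.succAbove j'') = x j
    rw [hj'', h2]
  show j.insertNth (j.removeNth x j'') (j.removeNth x) = x
  rw [h3]
  exact Fin.insertNth_self_removeNth j x

theorem continuous_of_dep {g : (ℕ → Bool) → Bool}
    (h : ∃ m : ℕ, ∀ x y : ℕ → Bool, (∀ t < m, x t = y t) → g x = g y) : Continuous g := by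
  classical
  obtain ⟨m, hm⟩ := h
  have h1 : g = (fun z : Fin m → Bool => g (fun t => if h : t < m then z ⟨t, h⟩ else false)) ∘
      (fun (x : ℕ → Bool) (t : Fin m) => x t) := by
    funext x
    apply hm
    intro t ht
    simp [ht]
  rw [h1]
  exact continuous_of_discreteTopology.comp (continuous_pi fun t => continuous_apply _)

namespace Sys

variable {W : Type} [LinearOrder W] [WellFoundedLT W] {n : ℕ}
variable (Y : Sys W n) (D : Set ((ℕ → Bool) × (W → Bool)))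

/-- Degenerate tuples. -/
def Deg (k : ℕ) : Set (Fin k → Y.Pt D) :=
  {x | (∃ j, (x j).1 ∈ D) ∨ ¬ Function.Injective x}

theorem HLs_deg (hD : D.Countable) {k : ℕ} (h : HLs (univ : Set (Fin k → Y.Pt D))) :
    HLs (Y.Deg D (k + 1)) := by
  have h1 : Y.Deg D (k + 1) ⊆
      (⋃ j : Fin (k + 1), ⋃ q ∈ {q : Y.Pt D | q.1 ∈ D}, {x : Fin (k + 1) → Y.Pt D | x j = q}) ∪
      ⋃ p : {p : Fin (k + 1) × Fin (k + 1) // p.1 ≠ p.2},
        {x : Fin (k + 1) → Y.Pt D | x p.1.1 = x p.1.2} := by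
    rintro x (⟨j, hj⟩ | hx)
    · exact Or.inl (mem_iUnion.2 ⟨j, mem_biUnion (x := x j) hj rfl⟩)
    · right
      unfold Function.Injective at hx
      push Not at hx
      obtain ⟨j, j', h2, h3⟩ := hx
      exact mem_iUnion.2 ⟨⟨(j, j'), h3⟩, h2⟩
  refine HLs.mono ?_ h1
  refine HLs.union (HLs.iUnion fun j => HLs.biUnion ?_ fun q _ => HLs_hyper h j q)
    (HLs.iUnion fun p => HLs_diag h p.1.1 p.1.2 p.2)
  exact hD.preimage Subtype.val_injective

theorem exists_real {k : ℕ} {x : Fin k → Y.Pt D} (hx : x ∉ Y.Deg D k) :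
    ∃ r : Fin k → ℕ → Bool, Function.Injective r ∧ x = fun j => Y.pt D (r j) := by
  have h1 : ∀ j, ∃ r : ℕ → Bool, x j = Y.pt D r := by
    intro j
    rcases (x j).2 with ⟨r, hr⟩ | h
    · exact ⟨r, Subtype.ext hr.symm⟩
    · exact absurd (Or.inl ⟨j, h⟩) hx
  choose r hr using h1
  refine ⟨r, ?_, funext hr⟩
  intro j j' h
  have h2 : Function.Injective x := by
    by_contra hc
    exact hx (Or.inr hc)
  apply h2
  rw [hr, hr, h]

/-- The powers up to `n` are hereditarily Lindelöf. -/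
theorem HLs_pow [Uncountable W] (hW : ∀ b : W, (Iio b).Countable) (hD : D.Countable) :
    ∀ k, k ≤ n → HLs (univ : Set (Fin k → Y.Pt D)) := by
  intro k
  induction k with
  | zero => intro _; exact HLs.of_subsingleton _
  | succ k ih =>
      intro hk
      have hdeg := Y.HLs_deg D hD (ih (by omega))
      intro 𝒰 h𝒰
      obtain ⟨𝒱₁, h1, h2, h3⟩ := hdeg 𝒰 h𝒰
      obtain ⟨δ, 𝒱₂, h4, h5, h6⟩ := Y.reflect D hW (k := k + 1) (by omega) 𝒰 h𝒰
      refine ⟨𝒱₁ ∪ 𝒱₂, union_subset h1 h4, h2.union h5, ?_⟩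
      rintro x ⟨_, hx⟩
      by_cases hxd : x ∈ Y.Deg D (k + 1)
      · obtain ⟨V, hV, hxV⟩ := h3 ⟨hxd, hx⟩
        exact ⟨V, Or.inl hV, hxV⟩
      · obtain ⟨r, hr, rfl⟩ := Y.exists_real D hxd
        obtain ⟨σ, Q, _, h7, V, hV, h8⟩ := h6 r hr (Or.inl hk) hx
        exact ⟨V, Or.inr hV, h8 h7⟩

/-- The Bernstein property of the labels. -/
def Bernstein (Y : Sys W n) : Prop :=
  ∀ F : Set (Fin (n + 1) → ℕ → Bool), IsClosed F → ¬ ThinB F →
    ∀ (h β : Fin (n + 1) → W) (κ : Fin (n + 1) → Bool) (i : Fin (n + 1) → Fin (n + 1)),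
      (∀ j, h j ≤ β j) → ∃ y ∈ F, Function.Injective y ∧
        ∀ j, Y.ht (y j) = h j ∧ Y.be (y j) = β j ∧ Y.kd (y j) = κ j ∧ Y.ix (y j) = i j

open Classical in
/-- The functions determined by a trace. -/
noncomputable def ftr (Y : Sys W n) (τ : W × (W → ℕ) × Bool × Fin (n + 1)) (α : W)
    (y : ℕ → Bool) : Bool :=
  if α < τ.1 then Y.val α (τ.2.1 α) y τ.2.2.2 else if α = τ.1 then τ.2.2.1 else false

theorem continuous_ftr (τ : W × (W → ℕ) × Bool × Fin (n + 1)) (α : W) :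
    Continuous (Y.ftr τ α) := by
  classical
  unfold ftr
  by_cases h1 : α < τ.1
  · simp only [h1, if_true]
    apply continuous_of_dep
    obtain ⟨m, hm⟩ := (Y.val_isCode α (τ.2.1 α)).1
    exact ⟨m, fun x y hxy => congrFun (hm x y hxy) _⟩
  · simp only [h1, if_false]
    exact continuous_const

open Classical in
/-- The trace of a real at `δ`. -/
noncomputable def tr (Y : Sys W n) (δ : W) (r : ℕ → Bool) : W × (W → ℕ) × Bool × Fin (n + 1) :=
  (min (Y.ht r) δ, Y.S.otr (min (Y.ht r) δ) (Y.be r), (if Y.ht r < δ then Y.kd r else false),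
    Y.ix r)

theorem ftr_tr {δ α : W} (r : ℕ → Bool) (hα : α < δ) : Y.ftr (Y.tr δ r) α r = Y.f α r := by
  classical
  unfold ftr tr
  simp only
  rcases lt_trichotomy α (Y.ht r) with h | h | h
  · have h1 : α < min (Y.ht r) δ := lt_min h hα
    rw [if_pos h1, Y.S.otr_apply h1, Y.f_lt h]
  · have h1 : min (Y.ht r) δ = Y.ht r := min_eq_left (h ▸ hα.le)
    have h2 : Y.ht r < δ := h ▸ hα
    rw [h1, if_neg (by rw [h]; exact lt_irrefl _), if_pos h, if_pos h2, h, Y.f_eq]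
  · have h1 : min (Y.ht r) δ < α := (min_le_left _ _).trans_lt h
    rw [if_neg (not_lt.2 h1.le), if_neg h1.ne', Y.f_gt h]

theorem ftr_tr' {δ α : W} (r y : ℕ → Bool) (h1 : Y.ht y = min (Y.ht r) δ)
    (h2 : Y.be y = Y.be r) (h3 : Y.kd y = (Y.tr δ r).2.2.1) (h4 : Y.ix y = Y.ix r) :
    Y.ftr (Y.tr δ r) α y = Y.f α y := by
  classical
  have h5 : (Y.tr δ r).1 = Y.ht y := h1.symm
  unfold ftr
  rw [h5, ← h3]
  rcases lt_trichotomy α (Y.ht y) with h | h | h
  · rw [if_pos h, Y.f_lt h]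
    have h6 : (Y.tr δ r).2.1 α = Y.S.osc α (Y.be r) := by
      show Y.S.otr (min (Y.ht r) δ) (Y.be r) α = _
      rw [Y.S.otr_apply (by rw [← h1]; exact h)]
    have h7 : (Y.tr δ r).2.2.2 = Y.ix r := rfl
    rw [h6, h7, h2, h4]
  · rw [if_neg (by rw [h]; exact lt_irrefl _), if_pos h, h, Y.f_eq]
  · rw [if_neg (not_lt.2 h.le), if_neg h.ne', Y.f_gt h]

/-- The `(n + 1)`-st power is Lindelöf. -/
theorem lindelof_pow [Uncountable W] (hW : ∀ b : W, (Iio b).Countable) (hD : D.Countable)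
    (hB : Y.Bernstein) : LindelofSpace (Fin (n + 1) → Y.Pt D) := by
  classical
  apply lindelof_of_cover
  intro 𝒰 h𝒰 hcov
  have hn := Y.HLs_pow D hW hD n le_rfl
  obtain ⟨δ, 𝒱, h4, h5, h6⟩ := Y.reflect D hW (k := n + 1) le_rfl 𝒰 h𝒰
  -- the closed sets attached to the traces
  let K : (Fin (n + 1) → W × (W → ℕ) × Bool × Fin (n + 1)) → Set (Fin (n + 1) → ℕ → Bool) :=
    fun τ => {y | ∀ (σ : Σ m : ℕ, Fin (n + 1) → Fin m → Bool)
      (Q : Finset (W × (Fin (n + 1) → Bool))), (∀ x ∈ Q, x.1 < δ) →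
      (∃ V ∈ 𝒱, Y.Bs D σ Q ⊆ V) → ¬ ((∀ j, ∀ t : Fin σ.1, y j t = σ.2 j t) ∧
        ∀ x ∈ Q, ∀ j, Y.ftr (τ j) x.1 (y j) = x.2 j)}
  have hKc : ∀ τ, IsClosed (K τ) := by
    intro τ
    have : K τ = ⋂ (σ : Σ m : ℕ, Fin (n + 1) → Fin m → Bool),
      ⋂ (Q : Finset (W × (Fin (n + 1) → Bool))), ⋂ (_ : ∀ x ∈ Q, x.1 < δ),
      ⋂ (_ : ∃ V ∈ 𝒱, Y.Bs D σ Q ⊆ V),
      ((⋂ (j : Fin (n + 1)), ⋂ (t : Fin σ.1), {y : Fin (n + 1) → ℕ → Bool | y j t = σ.2 j t}) ∩
        ⋂ x ∈ Q, ⋂ (j : Fin (n + 1)), {y | Y.ftr (τ j) x.1 (y j) = x.2 j})ᶜ := by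
      ext y
      simp only [K, mem_iInter, mem_compl_iff, mem_inter_iff]
      rfl
    rw [this]
    refine isClosed_iInter fun σ => isClosed_iInter fun Q => isClosed_iInter fun _ =>
      isClosed_iInter fun _ => IsOpen.isClosed_compl ?_
    refine IsOpen.inter ?_ ?_
    · refine isOpen_iInter_of_finite fun j => isOpen_iInter_of_finite fun t => ?_
      have hc : Continuous (fun y : Fin (n + 1) → ℕ → Bool => y j t) :=
        (continuous_apply (t : ℕ)).comp (continuous_apply j)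
      exact (isOpen_discrete {σ.2 j t}).preimage hc
    · refine isOpen_biInter_finset fun x _ => isOpen_iInter_of_finite fun j => ?_
      have hc : Continuous (fun y : Fin (n + 1) → ℕ → Bool => Y.ftr (τ j) x.1 (y j)) :=
        (Y.continuous_ftr (τ j) x.1).comp (continuous_apply j)
      exact (isOpen_discrete {x.2 j}).preimage hc
  -- each is thin
  have hthin : ∀ r : Fin (n + 1) → ℕ → Bool, ThinB (K (fun j => Y.tr δ (r j))) := by
    intro r
    by_contra hcon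
    obtain ⟨y, hyK, hyinj, hy⟩ := hB _ (hKc _) hcon (fun j => min (Y.ht (r j)) δ)
      (fun j => Y.be (r j)) (fun j => (Y.tr δ (r j)).2.2.1) (fun j => Y.ix (r j))
      (fun j => (min_le_left _ _).trans (Y.ht_le _))
    have hcase : ∀ α, δ ≤ α → ∀ j, Y.f α (y j) = false := by
      intro α hα j
      obtain ⟨h7, _, h8, _⟩ := hy j
      rcases lt_or_eq_of_le (show Y.ht (y j) ≤ α by
        rw [h7]; exact (min_le_right _ _).trans hα) with h | h
      · exact Y.f_gt h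
      · rw [← h, Y.f_eq, h8]
        show (if Y.ht (r j) < δ then Y.kd (r j) else false) = false
        have h9 : ¬ Y.ht (r j) < δ := by
          intro h10
          rw [h7, min_eq_left h10.le] at h
          exact absurd (h ▸ h10) (not_lt.2 hα)
        rw [if_neg h9]
    have hyU : ∃ U ∈ 𝒰, (fun j => Y.pt D (y j)) ∈ U := by
      have : (fun j => Y.pt D (y j)) ∈ ⋃₀ 𝒰 := by rw [hcov]; trivial
      exact this
    obtain ⟨σ, Q, h7, h8, V, hV, h9⟩ := h6 y hyinj (Or.inr hcase) hyU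
    refine hyK σ Q h7 ⟨V, hV, h9⟩ ⟨fun j t => h8.1 j t, fun x hx j => ?_⟩
    obtain ⟨h10, h11, h12, h13⟩ := hy j
    rw [Y.ftr_tr' (r j) (y j) h10 h11 h12 h13]
    exact h8.2 x hx j
  -- countably many traces
  let T₁ : Set (W × (W → ℕ) × Bool × Fin (n + 1)) :=
    ⋃ h ∈ Iic δ, (fun p => (h, p)) '' ((Y.S.otr h '' Ici h) ×ˢ (univ : Set (Bool × Fin (n + 1))))
  have hT₁ : T₁.Countable := by
    refine (countable_Iic hW δ).biUnion fun h _ => ?_
    exact ((Y.S.otr_countable hW h).prod countable_univ).image _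
  have hTT : {τ : Fin (n + 1) → W × (W → ℕ) × Bool × Fin (n + 1) | ∀ j, τ j ∈ T₁}.Countable :=
    countable_pi fun _ => hT₁
  have htr : ∀ r : ℕ → Bool, Y.tr δ r ∈ T₁ := by
    intro r
    refine mem_biUnion (x := min (Y.ht r) δ) (min_le_right _ _) ?_
    exact ⟨_, ⟨⟨Y.be r, (min_le_left _ _).trans (Y.ht_le r), rfl⟩, trivial⟩, rfl⟩
  have hQ : ∀ τ, ∃ Q : Set (ℕ → Bool), Q.Countable ∧
      (ThinB (K τ) → ∀ y ∈ K τ, Function.Injective y → ∃ j, y j ∈ Q) := by
    intro τ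
    by_cases h : ThinB (K τ)
    · obtain ⟨Q, h1, h2⟩ := h
      exact ⟨Q, h1, fun _ => h2⟩
    · exact ⟨∅, countable_empty, fun h' => absurd h' h⟩
  choose Q hQc hQ using hQ
  have hHL : HLs (Y.Deg D (n + 1) ∪
      ⋃ τ ∈ {τ : Fin (n + 1) → W × (W → ℕ) × Bool × Fin (n + 1) | ∀ j, τ j ∈ T₁},
        ⋃ j : Fin (n + 1), ⋃ q ∈ Q τ, {x : Fin (n + 1) → Y.Pt D | x j = Y.pt D q}) := by
    refine HLs.union (Y.HLs_deg D hD hn) (HLs.biUnion hTT fun τ _ => HLs.iUnion fun j =>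
      HLs.biUnion (hQc τ) fun q _ => HLs_hyper hn j _)
  obtain ⟨𝒱', h7, h8, h9⟩ := hHL 𝒰 h𝒰
  refine ⟨𝒱 ∪ 𝒱', union_subset h4 h7, h5.union h8, ?_⟩
  apply univ_subset_iff.1
  intro x _
  by_cases hx : x ∈ ⋃₀ 𝒱
  · obtain ⟨V, hV, hxV⟩ := hx
    exact ⟨V, Or.inl hV, hxV⟩
  · have hx𝒰 : x ∈ ⋃₀ 𝒰 := by rw [hcov]; trivial
    have hmem : x ∈ Y.Deg D (n + 1) ∪
      ⋃ τ ∈ {τ : Fin (n + 1) → W × (W → ℕ) × Bool × Fin (n + 1) | ∀ j, τ j ∈ T₁},
        ⋃ j : Fin (n + 1), ⋃ q ∈ Q τ, {x : Fin (n + 1) → Y.Pt D | x j = Y.pt D q} := by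
      by_cases hxd : x ∈ Y.Deg D (n + 1)
      · exact Or.inl hxd
      · right
        obtain ⟨r, hr, rfl⟩ := Y.exists_real D hxd
        have hrK : r ∈ K (fun j => Y.tr δ (r j)) := by
          rintro σ R h10 ⟨V, hV, h11⟩ ⟨h12, h13⟩
          apply hx
          refine ⟨V, hV, h11 ⟨h12, fun x hx j => ?_⟩⟩
          have := h13 x hx j
          rw [Y.ftr_tr (r j) (h10 x hx)] at this
          exact this
        obtain ⟨j, hj⟩ := hQ _ (hthin r) r hrK hr
        refine mem_biUnion (x := fun j => Y.tr δ (r j)) (fun j => htr (r j)) ?_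
        exact mem_iUnion.2 ⟨j, mem_biUnion hj rfl⟩
    obtain ⟨V, hV, hxV⟩ := h9 ⟨hmem, hx𝒰⟩
    exact ⟨V, Or.inr hV, hxV⟩

/-- The `(n + 1)`-st power is not perfect. -/
theorem exists_not_isGδ [Uncountable W] (hW : ∀ b : W, (Iio b).Countable)
    (hD : D.Countable) (hB : Y.Bernstein) :
    ∃ C : Set (Fin (n + 1) → Y.Pt D), IsClosed C ∧ ¬ IsGδ C := by
  classical
  have hL := Y.lindelof_pow D hW hD hB
  -- the discrete family
  have huniv : ¬ ThinB (univ : Set (Fin (n + 1) → ℕ → Bool)) := by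
    rintro ⟨Q, hQ, h⟩
    have h1 : (Qᶜ : Set (ℕ → Bool)).Infinite := by
      intro hfin
      have h2 : (univ : Set (ℕ → Bool)).Countable := by
        rw [← union_compl_self Q]
        exact hQ.union hfin.countable
      have h5 : Cardinal.mk (ℕ → Bool) = Cardinal.continuum := by simp
      have h3 : Countable (ℕ → Bool) := countable_univ_iff.1 h2
      have h4 : Cardinal.mk (ℕ → Bool) ≤ Cardinal.aleph0 := Cardinal.mk_le_aleph0
      rw [h5] at h4
      exact absurd h4 (not_le.2 Cardinal.aleph0_lt_continuum)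
    let e := h1.natEmbedding
    obtain ⟨j, hj⟩ := h (fun j => (e j : ℕ → Bool)) trivial (by
      intro j j' hjj'
      exact Fin.ext (e.injective (Subtype.ext hjj')))
    exact (e j).2 hj
  have hy : ∀ β : W, ∃ y : Fin (n + 1) → ℕ → Bool, ∀ j, Y.ht (y j) = β ∧ Y.be (y j) = β ∧
      Y.kd (y j) = true ∧ Y.ix (y j) = j := by
    intro β
    obtain ⟨y, _, _, h⟩ := hB univ isClosed_univ huniv (fun _ => β) (fun _ => β)
      (fun _ => true) id (fun _ => le_rfl)
    exact ⟨y, h⟩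
  choose y hy using hy
  let t : W → Fin (n + 1) → Y.Pt D := fun β j => Y.pt D (y β j)
  let V : W → Set (Fin (n + 1) → Y.Pt D) := fun β => {x | ∀ j, (x j).1.2 β = true}
  have hVo : ∀ β, IsOpen (V β) := by
    intro β
    have : V β = ⋂ j, {x : Fin (n + 1) → Y.Pt D | (x j).1.2 β = true} := by
      ext x; simp [V]
    rw [this]
    refine isOpen_iInter_of_finite fun j => ?_
    have hc : Continuous (fun x : Fin (n + 1) → Y.Pt D => (x j).1.2 β) :=
      (continuous_apply β).comp (continuous_snd.comp (continuous_subtype_val.comp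
        (continuous_apply j)))
    exact (isOpen_discrete {true}).preimage hc
  have htV : ∀ β, t β ∈ V β := by
    intro β j
    show Y.f β (y β j) = true
    obtain ⟨h1, _, h3, _⟩ := hy β j
    have := Y.f_eq (x := y β j)
    rw [h1, h3] at this
    exact this
  have htV' : ∀ β β', t β' ∈ V β → β = β' := by
    intro β β' h
    rcases lt_trichotomy β β' with hlt | heq | hgt
    · obtain ⟨i₀, hi₀⟩ := (Y.val_isCode β (Y.S.osc β β')).2
      have h1 : Y.f β (y β' i₀) = true := h i₀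
      obtain ⟨h2, h3, h4, h5⟩ := hy β' i₀
      rw [Y.f_lt (by rw [h2]; exact hlt), h3, h5, hi₀] at h1
      exact absurd h1 Bool.false_ne_true
    · exact heq
    · have h1 : Y.f β (y β' 0) = true := h 0
      obtain ⟨h2, _, _, _⟩ := hy β' 0
      rw [Y.f_gt (by rw [h2]; exact hgt)] at h1
      exact absurd h1 Bool.false_ne_true
  refine ⟨(⋃ β, V β)ᶜ, (isOpen_iUnion hVo).isClosed_compl, fun hG => ?_⟩
  obtain ⟨g, hg1, hg2⟩ := isGδ_iff_eq_iInter_nat.1 hG
  have hun : (⋃ β, V β) = ⋃ k, (g k)ᶜ := by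
    rw [← compl_iInter, ← hg2, compl_compl]
  have hcount : ∀ k, {β | t β ∈ (g k)ᶜ}.Countable := by
    intro k
    have hcl : IsClosed ((g k)ᶜ) := (hg1 k).isClosed_compl
    have hLk : IsLindelof ((g k)ᶜ) := hcl.isLindelof
    obtain ⟨A, hA, hsub⟩ := hLk.elim_countable_subcover V hVo (by
      rw [hun]; exact subset_iUnion (fun k => (g k)ᶜ) k)
    refine hA.mono ?_
    intro β hβ
    obtain ⟨β', hβ', hmem⟩ := mem_iUnion₂.1 (hsub hβ)
    rw [← htV' β' β hmem]
    exact hβ'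
  have hall : (univ : Set W) ⊆ ⋃ k, {β | t β ∈ (g k)ᶜ} := by
    intro β _
    have : t β ∈ ⋃ β, V β := mem_iUnion.2 ⟨β, htV β⟩
    rw [hun] at this
    obtain ⟨k, hk⟩ := mem_iUnion.1 this
    exact mem_iUnion.2 ⟨k, hk⟩
  have : (univ : Set W).Countable := (countable_iUnion hcount).mono hall
  exact not_countable (α := W) (countable_univ_iff.1 this)

end Sys

end Run7.h584
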