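import Pool.Agent.Run7.h584.LSp2

set_option linter.unusedSectionVars false

/-!
Separability, weight, and existence of the data.
-/

namespace Run7.h584

open Set TopologicalSpace

theorem exists_dense_cube (W : Type) (hW : Cardinal.mk W ≤ Cardinal.continuum) :
    ∃ D : Set ((ℕ → Bool) × (W → Bool)), D.Countable ∧ Dense D := by
  classical
  have h1 : Cardinal.mk (ℕ → Bool) = Cardinal.continuum := by simp
  rw [← h1] at hW
  obtain ⟨w⟩ := hW
  obtain ⟨D₁, hD₁c, hD₁⟩ := exists_countable_dense (ℕ → Bool)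
  let φ : (Σ m : ℕ, (Fin m → Bool) → Bool) → W → Bool := fun p α => p.2 (fun t => w α t)
  have hD₂ : Dense (range φ) := by
    rw [dense_iff_inter_open]
    rintro V hV ⟨v, hv⟩
    obtain ⟨I, u, hu, hs⟩ := isOpen_pi_iff.1 hV v hv
    obtain ⟨m, _, hm⟩ := exists_level (ι := {p : I × I // p.1 ≠ p.2})
      (fun p => w p.1.1) (fun p => w p.1.2) (fun p h => p.2 (Subtype.ext (w.injective h))) 0
    refine ⟨φ ⟨m, fun z => decide (∃ α ∈ I, (∀ t : Fin m, w α t = z t) ∧ v α = true)⟩, ?_, ⟨_, rfl⟩⟩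
    apply hs
    intro α hα
    have h2 : φ ⟨m, fun z => decide (∃ α ∈ I, (∀ t : Fin m, w α t = z t) ∧ v α = true)⟩ α = v α := by
      show decide _ = v α
      by_cases hvα : v α = true
      · rw [hvα]
        apply decide_eq_true
        exact ⟨α, hα, fun _ => rfl, hvα⟩
      · rw [Bool.not_eq_true] at hvα
        rw [hvα]
        apply decide_eq_false
        rintro ⟨β, hβ, h3, h4⟩
        by_cases hαβ : β = α
        · rw [hαβ, hvα] at h4
          exact Bool.false_ne_true h4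
        · obtain ⟨t, ht, hne⟩ := hm ⟨(⟨β, hβ⟩, ⟨α, hα⟩), fun h => hαβ (congrArg Subtype.val h)⟩
          exact hne (h3 ⟨t, ht⟩)
    rw [h2]
    exact (hu α hα).2
  exact ⟨D₁ ×ˢ range φ, hD₁c.prod (countable_range φ), hD₁.prod hD₂⟩

namespace Sys

variable {W : Type} [LinearOrder W] [WellFoundedLT W] {n : ℕ}
variable (Y : Sys W n) (D : Set ((ℕ → Bool) × (W → Bool)))

theorem separable (hD : D.Countable) (hDd : Dense D) : SeparableSpace (Y.Pt D) := by
  refine ⟨{x : Y.Pt D | x.1 ∈ D}, hD.preimage Subtype.val_injective, ?_⟩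
  rw [dense_iff_inter_open]
  rintro U hU ⟨x, hx⟩
  obtain ⟨V, hV, rfl⟩ := isOpen_induced_iff.1 hU
  obtain ⟨e, he1, he2⟩ := dense_iff_inter_open.1 hDd V hV ⟨x.1, hx⟩
  exact ⟨⟨e, Or.inr he2⟩, he1, he2⟩

theorem exists_base_Pt (hW : Cardinal.mk W = Cardinal.aleph 1) :
    ∃ b : Set (Set (Y.Pt D)), IsTopologicalBasis b ∧ (∀ u ∈ b, IsClopen u) ∧
      Cardinal.mk b ≤ Cardinal.aleph 1 := by
  classical
  let B : (Σ m : ℕ, Fin m → Bool) × Finset (W × Bool) → Set (Y.Pt D) := fun p =>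
    {x | (∀ t : Fin p.1.1, x.1.1 t = p.1.2 t) ∧ ∀ q ∈ p.2, x.1.2 q.1 = q.2}
  have hBeq : ∀ p, B p = (⋂ t : Fin p.1.1, {x : Y.Pt D | x.1.1 t = p.1.2 t}) ∩
      ⋂ q ∈ p.2, {x : Y.Pt D | x.1.2 q.1 = q.2} := by
    intro p
    ext x
    simp only [mem_inter_iff, mem_iInter]
    rfl
  have hc1 : ∀ t : ℕ, Continuous (fun x : Y.Pt D => x.1.1 t) := fun t =>
    (continuous_apply t).comp (continuous_fst.comp continuous_subtype_val)
  have hc2 : ∀ α : W, Continuous (fun x : Y.Pt D => x.1.2 α) := fun α =>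
    (continuous_apply α).comp (continuous_snd.comp continuous_subtype_val)
  have hBc : ∀ p, IsClopen (B p) := by
    intro p
    rw [hBeq p]
    refine IsClopen.inter ?_ ?_
    · exact isClopen_iInter_of_finite fun t => (isClopen_discrete {p.1.2 t}).preimage (hc1 t)
    · exact isClopen_biInter_finset fun q _ => (isClopen_discrete {q.2}).preimage (hc2 q.1)
  refine ⟨range B, ?_, ?_, ?_⟩
  · apply isTopologicalBasis_of_isOpen_of_nhds
    · rintro _ ⟨p, rfl⟩
      exact (hBc p).isOpen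
    · intro x U hx hU
      obtain ⟨V, hV, rfl⟩ := isOpen_induced_iff.1 hU
      obtain ⟨m, A, hmA⟩ := nbE hV hx
      refine ⟨_, ⟨(⟨m, fun t => x.1.1 t⟩, A.image (fun α => (α, x.1.2 α))), rfl⟩, ?_, ?_⟩
      · refine ⟨fun _ => rfl, ?_⟩
        intro q hq
        obtain ⟨α, _, rfl⟩ := Finset.mem_image.1 hq
        rfl
      · rintro z ⟨hz1, hz2⟩
        apply hmA
        · intro t ht
          exact hz1 ⟨t, ht⟩
        · intro α hα
          exact hz2 (α, x.1.2 α) (Finset.mem_image.2 ⟨α, hα, rfl⟩)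
  · rintro _ ⟨p, rfl⟩
    exact hBc p
  · have hinf : Cardinal.aleph0 ≤ Cardinal.aleph 1 := Cardinal.aleph0_le_aleph 1
    have hWinf : Infinite W := by
      rw [Cardinal.infinite_iff, hW]
      exact hinf
    refine Cardinal.mk_range_le.trans ?_
    rw [Cardinal.mk_prod, Cardinal.lift_id, Cardinal.lift_id]
    refine Cardinal.mul_le_of_le hinf (Cardinal.mk_le_aleph0.trans hinf) ?_
    rw [Cardinal.mk_finset_of_infinite, Cardinal.mk_prod, Cardinal.lift_id, Cardinal.lift_id, hW]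
    exact Cardinal.mul_le_of_le hinf le_rfl (Cardinal.mk_le_aleph0.trans hinf)

theorem exists_sys (n : ℕ) (hW : ∀ b : W, (Iio b).Countable) [Nonempty W]
    (hWc : Cardinal.mk W ≤ Cardinal.continuum) : ∃ Y : Sys W n, Y.Bernstein := by
  classical
  obtain ⟨S⟩ := exists_cseq hW
  obtain ⟨Φ⟩ := exists_phases W hWc (n + 1)
  obtain ⟨code, h1, h2⟩ := exists_codes n
  let Λ : Type := {p : W × W // p.1 ≤ p.2} × Bool × Fin (n + 1)
  have : Nonempty Λ := ⟨(⟨(Classical.arbitrary W, Classical.arbitrary W), le_rfl⟩, false, 0)⟩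
  have hc : Cardinal.aleph0 ≤ Cardinal.continuum := Cardinal.aleph0_le_continuum
  have hΛ : Cardinal.mk Λ ≤ Cardinal.continuum := by
    rw [Cardinal.mk_prod, Cardinal.lift_id, Cardinal.lift_id]
    refine Cardinal.mul_le_of_le hc ?_ (Cardinal.mk_le_aleph0.trans hc)
    refine (Cardinal.mk_subtype_le _).trans ?_
    rw [Cardinal.mk_prod, Cardinal.lift_id]
    exact Cardinal.mul_le_of_le hc hWc hWc
  obtain ⟨lab, hlab⟩ := exists_labels hΛ (n + 1)
  refine ⟨⟨S, Φ, code, h1, h2, fun x => (lab x).1.1.1, fun x => (lab x).1.1.2,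
    fun x => (lab x).1.2, fun x => (lab x).2.1, fun x => (lab x).2.2⟩, ?_⟩
  intro F hF hthin h β κ i hle
  obtain ⟨y, hyF, hyinj, hy⟩ := hlab F hF hthin (fun j => (⟨(h j, β j), hle j⟩, κ j, i j))
  refine ⟨y, hyF, hyinj, fun j => ⟨?_, ?_, ?_, ?_⟩⟩
  · show (lab (y j)).1.1.1 = _
    rw [hy]
  · show (lab (y j)).1.1.2 = _
    rw [hy]
  · show (lab (y j)).2.1 = _
    rw [hy]
  · show (lab (y j)).2.2 = _
    rw [hy]

end Sys

/-- A power which is not perfect gives a countable power which is not perfectly normal. -/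
theorem not_perfectlyNormal_omega {X : Type} [TopologicalSpace X] {n : ℕ}
    {C : Set (Fin (n + 1) → X)} (hC : IsClosed C) (hnot : ¬ IsGδ C) :
    ¬ PerfectlyNormalSpace (ℕ → X) := by
  intro hP
  apply hnot
  let π : (ℕ → X) → (Fin (n + 1) → X) := fun f l => f l.val
  let σ : (Fin (n + 1) → X) → (ℕ → X) := fun f m => f (Fin.ofNat (n + 1) m)
  have hπ : Continuous π := continuous_pi (fun l => continuous_apply _)
  have hσ : Continuous σ := continuous_pi (fun m => continuous_apply _)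
  have hπσ : ∀ f, π (σ f) = f := by
    intro f
    funext l
    show f (Fin.ofNat (n + 1) l.val) = f l
    rw [Fin.ofNat_val_eq_self]
  have h1 : IsGδ (π ⁻¹' C) := hP.closed_gdelta (hC.preimage hπ)
  have h2 : C = σ ⁻¹' (π ⁻¹' C) := by
    ext f
    show f ∈ C ↔ π (σ f) ∈ C
    rw [hπσ]
  rw [h2]
  exact h1.preimage hσ

end Run7.h584
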