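import Pool.Agent.Run7.h584.LSp
import Pool.Agent.Run7.h584.LSp2
import Pool.Agent.Run7.h584.Tower

set_option linter.unusedSectionVars false

/-!
The space with isolated points added, and the reflection lemma.
-/

namespace Run7.h584

open Set TopologicalSpace

theorem nbE3 {W : Type} {V : Set ((ℕ → Bool) × (W → Bool) × (ℕ → Bool))} (hV : IsOpen V)
    {e : (ℕ → Bool) × (W → Bool) × (ℕ → Bool)} (he : e ∈ V) :
    ∃ (m : ℕ) (A : Finset W), ∀ e' : (ℕ → Bool) × (W → Bool) × (ℕ → Bool),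
      (∀ t < m, e'.1 t = e.1 t) → (∀ t < m, e'.2.2 t = e.2.2 t) →
      (∀ α ∈ A, e'.2.1 α = e.2.1 α) → e' ∈ V := by
  classical
  obtain ⟨V₁, V₂, h1, h2, h3, h4, h5⟩ := isOpen_prod_iff.1 hV e.1 e.2 he
  obtain ⟨V₃, V₄, h6, h7, h8, h9, h10⟩ := isOpen_prod_iff.1 h2 e.2.1 e.2.2 h4
  obtain ⟨I₁, u₁, hu₁, hs₁⟩ := isOpen_pi_iff.1 h1 e.1 h3
  obtain ⟨I₂, u₂, hu₂, hs₂⟩ := isOpen_pi_iff.1 h6 e.2.1 h8
  obtain ⟨I₃, u₃, hu₃, hs₃⟩ := isOpen_pi_iff.1 h7 e.2.2 h9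
  refine ⟨max (I₁.sup id) (I₃.sup id) + 1, I₂, fun e' he1 he3 he2 => ?_⟩
  apply h5
  refine ⟨hs₁ ?_, h10 ⟨hs₂ ?_, hs₃ ?_⟩⟩
  · intro i hi
    have h11 : i ≤ I₁.sup id := Finset.le_sup (f := id) hi
    rw [he1 i (by omega)]
    exact (hu₁ i hi).2
  · intro i hi
    rw [he2 i hi]
    exact (hu₂ i hi).2
  · intro i hi
    have h11 : i ≤ I₃.sup id := Finset.le_sup (f := id) hi
    rw [he3 i (by omega)]
    exact (hu₃ i hi).2

namespace Sys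

variable {W : Type} [LinearOrder W] [WellFoundedLT W] {n : ℕ}

/-- The underlying set of the space. -/
def carr (Y : Sys W n) (D : Set ((ℕ → Bool) × (W → Bool) × (ℕ → Bool))) :
    Set ((ℕ → Bool) × (W → Bool) × (ℕ → Bool)) :=
  range (fun r : ℕ → Bool => (r, fun α => Y.f α r, fun _ => false)) ∪ D

/-- The space. -/
abbrev Sp3 (Y : Sys W n) (D : Set ((ℕ → Bool) × (W → Bool) × (ℕ → Bool))) : Type := ↥(Y.carr D)

variable (Y : Sys W n) (D : Set ((ℕ → Bool) × (W → Bool) × (ℕ → Bool)))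

/-- The point given by a real. -/
noncomputable def pr (r : ℕ → Bool) : Y.Sp3 D :=
  ⟨(r, fun α => Y.f α r, fun _ => false), Or.inl ⟨r, rfl⟩⟩

theorem nbX3 {k : ℕ} {U : Set (Fin k → Y.Sp3 D)} (hU : IsOpen U) {x : Fin k → Y.Sp3 D}
    (hx : x ∈ U) : ∃ (m : ℕ) (A : Finset W), ∀ y : Fin k → Y.Sp3 D,
      (∀ j, (∀ t < m, (y j).1.1 t = (x j).1.1 t) ∧ (∀ t < m, (y j).1.2.2 t = (x j).1.2.2 t) ∧
        ∀ α ∈ A, (y j).1.2.1 α = (x j).1.2.1 α) → y ∈ U := by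
  classical
  obtain ⟨u, hu, hs⟩ := isOpen_pi_iff'.1 hU x hx
  have h1 : ∀ j, ∃ (m : ℕ) (A : Finset W), ∀ z : Y.Sp3 D, (∀ t < m, z.1.1 t = (x j).1.1 t) →
      (∀ t < m, z.1.2.2 t = (x j).1.2.2 t) →
      (∀ α ∈ A, z.1.2.1 α = (x j).1.2.1 α) → z ∈ u j := by
    intro j
    obtain ⟨V, hV, hVu⟩ := isOpen_induced_iff.1 (hu j).1
    have hxV : (x j).1 ∈ V := by
      have := (hu j).2
      rw [← hVu] at this
      exact this
    obtain ⟨m, A, h⟩ := nbE3 hV hxV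
    refine ⟨m, A, fun z h2 h3 h4 => ?_⟩
    rw [← hVu]
    exact h z.1 h2 h3 h4
  choose m A h using h1
  refine ⟨Finset.univ.sup m, Finset.univ.biUnion A, fun y hy => hs ?_⟩
  intro j _
  refine h j (y j) ?_ ?_ ?_
  · intro t ht
    exact (hy j).1 t (ht.trans_le (Finset.le_sup (Finset.mem_univ j)))
  · intro t ht
    exact (hy j).2.1 t (ht.trans_le (Finset.le_sup (Finset.mem_univ j)))
  · intro α hα
    exact (hy j).2.2 α (Finset.mem_biUnion.2 ⟨j, Finset.mem_univ j, hα⟩)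

/-- Basic sets. -/
def Bx {k : ℕ} (σ : Σ m : ℕ, Fin k → Fin m → Bool) (Q : Finset (W × (Fin k → Bool))) :
    Set (Fin k → Y.Sp3 D) :=
  {y | (∀ j, ∀ t : Fin σ.1, (y j).1.1 t = σ.2 j t ∧ (y j).1.2.2 t = false) ∧
    ∀ x ∈ Q, ∀ j, (y j).1.2.1 x.1 = x.2 j}

/-- The reflection lemma. -/
theorem reflect3 [Uncountable W] (hW : ∀ b : W, (Iio b).Countable) {k : ℕ} (hk : k ≤ n + 1)
    (𝒰 : Set (Set (Fin k → Y.Sp3 D))) (h𝒰 : ∀ U ∈ 𝒰, IsOpen U) :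
    ∃ (δ : W) (𝒱 : Set (Set (Fin k → Y.Sp3 D))), 𝒱 ⊆ 𝒰 ∧ 𝒱.Countable ∧
      ∀ r : Fin k → ℕ → Bool, Function.Injective r →
        (k ≤ n ∨ ∀ α, δ ≤ α → ∀ j, Y.f α (r j) = false) →
        (∃ U ∈ 𝒰, (fun j => Y.pr D (r j)) ∈ U) →
        ∃ σ Q, (∀ x ∈ Q, x.1 < δ) ∧ (fun j => Y.pr D (r j)) ∈ Y.Bx D σ Q ∧
          ∃ V ∈ 𝒱, Y.Bx D σ Q ⊆ V := by
  classical
  let Prm : Type := (Σ m : ℕ, Fin k → Fin m → Bool) × Finset (W × (Fin k → Bool)) ×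
    (Σ q : ℕ, Fin q → Fin k → Bool) × Finset (Fin k) × (Fin k → Fin (n + 1))
  let PP : W → Set Prm := fun γ => {p | ∀ x ∈ p.2.1, x.1 < γ}
  have hPPm : ∀ {γ γ' : W}, γ ≤ γ' → ∀ p ∈ PP γ, p ∈ PP γ' :=
    fun h p hp x hx => (hp x hx).trans_le h
  have hPP : ∀ γ, (PP γ).Countable := by
    intro γ
    have h1 : {Q : Finset (W × (Fin k → Bool)) | ∀ x ∈ Q, x ∈ {x | x.1 < γ}}.Countable := by
      apply finset_sub_countable
      have : {x : W × (Fin k → Bool) | x.1 < γ} = (Iio γ) ×ˢ univ := by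
        ext x; simp
      rw [this]
      exact (hW γ).prod countable_univ
    have h2 : PP γ = (univ : Set (Σ m : ℕ, Fin k → Fin m → Bool)) ×ˢ
        ({Q : Finset (W × (Fin k → Bool)) | ∀ x ∈ Q, x ∈ {x | x.1 < γ}} ×ˢ
          (univ : Set ((Σ q : ℕ, Fin q → Fin k → Bool) × Finset (Fin k) ×
            (Fin k → Fin (n + 1))))) := by
      ext ⟨p1, p2, p3⟩
      exact ⟨fun h => ⟨trivial, h, trivial⟩, fun h => h.2.1⟩
    rw [h2]
    exact countable_univ.prod (h1.prod countable_univ)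
  let Wit : (p : Prm) → W → (Fin p.2.2.1.1 → W) → Prop := fun p ξ a =>
    (∀ i, ξ ≤ a i) ∧ Function.Injective a ∧ ∃ U ∈ 𝒰, Y.Bx D p.1 (p.2.1 ∪ gr a p.2.2.1.2) ⊆ U
  have haa : ∀ (p : Prm) (ξ : W), ∃ a : Fin p.2.2.1.1 → W, (∃ a, Wit p ξ a) → Wit p ξ a := by
    intro p ξ
    by_cases h : ∃ a, Wit p ξ a
    · obtain ⟨a, ha⟩ := h
      exact ⟨a, fun _ => ha⟩
    · exact ⟨fun _ => ξ, fun h' => absurd h' h⟩
  choose aa haa using haa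
  have hUU : ∀ (p : Prm) (ξ : W), ∃ U : Set (Fin k → Y.Sp3 D), (∃ a, Wit p ξ a) →
      U ∈ 𝒰 ∧ Y.Bx D p.1 (p.2.1 ∪ gr (aa p ξ) p.2.2.1.2) ⊆ U := by
    intro p ξ
    by_cases h : ∃ a, Wit p ξ a
    · obtain ⟨_, _, U, hU, hsub⟩ := haa p ξ h
      exact ⟨U, fun _ => ⟨hU, hsub⟩⟩
    · exact ⟨∅, fun h' => absurd h' h⟩
  choose UU hUU using hUU
  obtain ⟨s, hs⟩ := exists_succ_fun hW
  obtain ⟨f₁, hf₁⟩ := exists_closing hW PP hPP (fun γ p x => ¬ ∃ a, Wit p x a)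
  obtain ⟨f₂, hf₂⟩ := exists_closing hW PP hPP (fun γ p x =>
    ¬ ∃ r : Fin k → ℕ → Bool, (∀ j ∈ p.2.2.2.1, x ≤ Y.ht (r j)) ∧
      (∀ j ∈ p.2.2.2.1, ∀ t : Fin p.1.1, r j t = p.1.2 j t) ∧
      (∀ j ∈ p.2.2.2.1, Y.ix (r j) = p.2.2.2.2 j) ∧
      ∀ ξ, γ < ξ → ξ < x → ¬ ∀ i, ∀ j ∈ p.2.2.2.1, Y.f (aa p ξ i) (r j) = p.2.2.1.2 i j)
  obtain ⟨f₃, hf₃⟩ := exists_closing hW PP hPP (fun γ p x => ∀ i, aa p γ i < x)
  obtain ⟨δ, hbδ, hδ⟩ := exists_closed hW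
    (fun η => max (s η) (max (f₁ η) (max (f₂ η) (f₃ η)))) (Classical.arbitrary W)
  have h0 : ∃ η, η < δ := ⟨_, hbδ⟩
  have hlim : ∀ η < δ, ∃ η', η < η' ∧ η' < δ := fun η hη =>
    ⟨s η, hs η, (le_max_left _ _).trans_lt (hδ η hη)⟩
  have hf₁δ : ∀ η < δ, f₁ η < δ := fun η hη =>
    ((le_max_left _ _).trans (le_max_right _ _)).trans_lt (hδ η hη)
  have hf₂δ : ∀ η < δ, f₂ η < δ := fun η hη =>
    (((le_max_left _ _).trans (le_max_right _ _)).trans (le_max_right _ _)).trans_lt (hδ η hη)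
  have hf₃δ : ∀ η < δ, f₃ η < δ := fun η hη =>
    (((le_max_right _ _).trans (le_max_right _ _)).trans (le_max_right _ _)).trans_lt (hδ η hη)
  refine ⟨δ, {V | ∃ ξ < δ, ∃ p ∈ PP ξ, (∃ a, Wit p ξ a) ∧ V = UU p ξ}, ?_, ?_, ?_⟩
  · rintro V ⟨ξ, _, p, _, hw, rfl⟩
    exact (hUU p ξ hw).1
  · have h1 : {V | ∃ ξ < δ, ∃ p ∈ PP ξ, (∃ a, Wit p ξ a) ∧ V = UU p ξ} ⊆
        ⋃ ξ ∈ Iio δ, (fun p => UU p ξ) '' (PP ξ) := by
      rintro V ⟨ξ, hξ, p, hp, _, rfl⟩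
      exact mem_biUnion (x := ξ) hξ ⟨p, hp, rfl⟩
    exact ((hW δ).biUnion (fun ξ _ => (hPP ξ).image _)).mono h1
  intro r hr hcase hrU
  obtain ⟨U, hU𝒰, hrU⟩ := hrU
  obtain ⟨m₀, A, hmA⟩ := Y.nbX3 D (h𝒰 U hU𝒰) hrU
  obtain ⟨m, hm₀, hm⟩ := exists_level (ι := {p : Fin k × Fin k // p.1 ≠ p.2})
    (fun p => r p.1.1) (fun p => r p.1.2) (fun p h => p.2 (hr h)) m₀
  let σ : Σ m : ℕ, Fin k → Fin m → Bool := ⟨m, fun j t => r j t⟩
  let A₁ : Finset W := A.filter (fun α => δ ≤ α)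
  let q : ℕ := A₁.card
  let a : Fin q → W := fun i => (A₁.equivFin.symm i : W)
  have hainj : Function.Injective a := Subtype.val_injective.comp A₁.equivFin.symm.injective
  have haδ : ∀ i, δ ≤ a i := fun i => (Finset.mem_filter.1 (A₁.equivFin.symm i).2).2
  have hasurj : ∀ α ∈ A, δ ≤ α → ∃ i, a i = α := by
    intro α hα hδα
    refine ⟨A₁.equivFin ⟨α, Finset.mem_filter.2 ⟨hα, hδα⟩⟩, ?_⟩
    show ((A₁.equivFin.symm (A₁.equivFin ⟨α, _⟩) : A₁) : W) = α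
    rw [Equiv.symm_apply_apply]
  let P : Fin q → Fin k → Bool := fun i j => Y.f (a i) (r j)
  let Q₀ : Finset (W × (Fin k → Bool)) :=
    (A.filter (fun α => α < δ)).image (fun α => (α, fun j => Y.f α (r j)))
  let J : Finset (Fin k) := Finset.univ.filter (fun j => δ ≤ Y.ht (r j))
  have hJ : ∀ j, j ∈ J ↔ δ ≤ Y.ht (r j) := fun j => by simp [J]
  obtain ⟨γ, hγδ, hγ⟩ := exists_bound_lt h0 hlim
    (F := {α | α ∈ A.filter (fun α => α < δ)} ∪ ((fun j => Y.ht (r j)) '' {j | j ∉ J}))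
    ((Finset.finite_toSet _).union ((toFinite _).image _)) (by
      rintro x (hx | ⟨j, hj, rfl⟩)
      · exact (Finset.mem_filter.1 hx).2
      · have : ¬ δ ≤ Y.ht (r j) := fun h => hj ((hJ j).2 h)
        exact not_le.1 this)
  have hγJ : ∀ j, j ∉ J → Y.ht (r j) < γ := fun j hj => hγ _ (Or.inr ⟨j, hj, rfl⟩)
  let p : Prm := (σ, Q₀, ⟨q, P⟩, J, fun j => Y.ix (r j))
  have hp : p ∈ PP γ := by
    intro x hx
    obtain ⟨α, hα, rfl⟩ := Finset.mem_image.1 hx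
    exact hγ α (Or.inl hα)
  have hWit : Wit p δ a := by
    refine ⟨haδ, hainj, U, hU𝒰, ?_⟩
    rintro y ⟨hy1, hy2⟩
    apply hmA
    intro j
    refine ⟨fun t ht => (hy1 j ⟨t, ht.trans hm₀⟩).1, fun t ht => (hy1 j ⟨t, ht.trans hm₀⟩).2,
      fun α hα => ?_⟩
    rcases lt_or_ge α δ with h | h
    · exact hy2 (α, fun j => Y.f α (r j)) (Finset.mem_union_left _
        (Finset.mem_image.2 ⟨α, Finset.mem_filter.2 ⟨hα, h⟩, rfl⟩)) j
    · obtain ⟨i, hi⟩ := hasurj α hα h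
      have h1 : (a i, P i) ∈ Q₀ ∪ gr a P := Finset.mem_union_right _ (mem_gr.2 ⟨i, rfl⟩)
      have h2 := hy2 _ h1 j
      have h3 : (y j).1.2.1 (a i) = Y.f (a i) (r j) := h2
      rw [hi] at h3
      exact h3
  have hall : ∀ ξ, ∃ a, Wit p ξ a := by
    by_contra hcon
    push Not at hcon
    obtain ⟨x, hx, hx2⟩ := hf₁ γ p hp (by
      obtain ⟨x, hx⟩ := hcon
      exact ⟨x, by push Not; exact hx⟩)
    have hxδ : x < δ := hx.trans_lt (hf₁δ γ hγδ)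
    exact hx2 ⟨a, fun i => hxδ.le.trans (haδ i), hWit.2⟩
  have haaW : ∀ ξ, Wit p ξ (aa p ξ) := fun ξ => haa p ξ (hall ξ)
  have hpat : ∃ x, ¬ ∃ r : Fin k → ℕ → Bool, (∀ j ∈ p.2.2.2.1, x ≤ Y.ht (r j)) ∧
      (∀ j ∈ p.2.2.2.1, ∀ t : Fin p.1.1, r j t = p.1.2 j t) ∧
      (∀ j ∈ p.2.2.2.1, Y.ix (r j) = p.2.2.2.2 j) ∧
      ∀ ξ, γ < ξ → ξ < x → ¬ ∀ i, ∀ j ∈ p.2.2.2.1, Y.f (aa p ξ i) (r j) = p.2.2.1.2 i j := by
    by_contra hcon
    push Not at hcon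
    choose r' h1 h2 h3 h4 using hcon
    let e : Fin J.card → Fin k := fun j => J.orderEmbOfFin rfl j
    have heJ : ∀ j, e j ∈ J := fun j => Finset.orderEmbOfFin_mem J rfl j
    have heinj : Function.Injective e := (J.orderEmbOfFin rfl).injective
    have hesurj : ∀ j ∈ J, ∃ j', e j' = j := by
      intro j hj
      have : j ∈ Set.range (J.orderEmbOfFin rfl) := by
        rw [Finset.range_orderEmbOfFin]; exact hj
      exact this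
    have hJk : J.card ≤ k := by
      have := Finset.card_le_univ J
      simpa using this
    obtain ⟨ξ, η, h5, h6, h7⟩ := Y.pattern hW (q := q) (l := J.card) (hJk.trans hk)
      (fun ξ => aa p ξ) (fun ξ i => (haaW ξ).1 i) (fun ξ => (haaW ξ).2.1)
      (fun η j => r' η (e j)) (fun η j => h1 η (e j) (heJ j)) m (fun j => r (e j))
      (by
        intro j j' hjj'
        by_contra hne
        obtain ⟨t, ht, hne'⟩ := hm ⟨(e j, e j'), fun h => hne (heinj h)⟩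
        exact hne' (hjj' t ht))
      (fun η j t ht => h2 η (e j) (heJ j) ⟨t, ht⟩)
      (fun j => Y.ix (r (e j))) (fun η j => h3 η (e j) (heJ j))
      (fun i j => P i (e j))
      (by
        rcases hcase with h | h
        · exact Or.inl (hJk.trans h)
        · exact Or.inr (fun i j => h (a i) (haδ i) (e j)))
      γ
    obtain ⟨i, j, hj, hne⟩ := h4 η ξ h5 h6
    obtain ⟨j', rfl⟩ := hesurj j hj
    exact hne (h7 i j')
  obtain ⟨x, hx, hx2⟩ := hf₂ γ p hp hpat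
  have hxδ : x < δ := hx.trans_lt (hf₂δ γ hγδ)
  have hex : ∃ ξ, γ < ξ ∧ ξ < x ∧ ∀ i, ∀ j ∈ J, Y.f (aa p ξ i) (r j) = P i j := by
    by_contra hcon
    push Not at hcon
    apply hx2
    refine ⟨r, fun j hj => hxδ.le.trans ((hJ j).1 hj), fun j _ t => rfl, fun j _ => rfl, ?_⟩
    intro ξ h1 h2 h3
    obtain ⟨i, j, hj, hne⟩ := hcon ξ h1 h2
    exact hne (h3 i j hj)
  obtain ⟨ξ, hγξ, hξx, hξ⟩ := hex
  have hξδ : ξ < δ := hξx.trans hxδ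
  have hpξ : p ∈ PP ξ := hPPm hγξ.le p hp
  have hmem : (fun j => Y.pr D (r j)) ∈ Y.Bx D σ (Q₀ ∪ gr (aa p ξ) P) := by
    refine ⟨fun j t => ⟨rfl, rfl⟩, fun x hx j => ?_⟩
    rcases Finset.mem_union.1 hx with hx | hx
    · obtain ⟨α, hα, rfl⟩ := Finset.mem_image.1 hx
      rfl
    · obtain ⟨i, rfl⟩ := mem_gr.1 hx
      show Y.f (aa p ξ i) (r j) = P i j
      by_cases hj : j ∈ J
      · exact hξ i j hj
      · have h1 := hγJ j hj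
        have h2 : Y.f (aa p ξ i) (r j) = false :=
          Y.f_gt ((h1.trans hγξ).trans_le ((haaW ξ).1 i))
        have h3 : Y.f (a i) (r j) = false := Y.f_gt ((h1.trans hγδ).trans_le (haδ i))
        rw [h2]
        exact h3.symm
  refine ⟨σ, Q₀ ∪ gr (aa p ξ) P, ?_, hmem, UU p ξ, ⟨ξ, hξδ, p, hpξ, hall ξ, rfl⟩,
    (hUU p ξ (hall ξ)).2⟩
  intro x hx
  rcases Finset.mem_union.1 hx with hx | hx
  · exact (hp x hx).trans hγδ
  · obtain ⟨i, rfl⟩ := mem_gr.1 hx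
    obtain ⟨z, hz, hz2⟩ := hf₃ ξ p hpξ (by
      obtain ⟨b, hb⟩ := exists_gt_countable hW (countable_range (aa p ξ))
      exact ⟨b, fun i => hb _ ⟨i, rfl⟩⟩)
    exact (hz2 i).trans (hz.trans_lt (hf₃δ ξ hξδ))

end Sys

end Run7.h584
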