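import Pool.Agent.Run7.h584.LTp2
import Pool.Agent.Run7.h584.LSp3

set_option linter.unusedSectionVars false

/-!
The isolated points, convergent sequences, weight and tightness.
-/

namespace Run7.h584

open Set TopologicalSpace Filter Topology

/-- Indices of the isolated points. -/
abbrev IdxD : Type := List Bool × ℕ × Finset ℕ

/-- A binary sequence extending a finite one by zeros. -/
def padL (s : List Bool) : ℕ → Bool := fun t => s.getD t false

namespace Sys

variable {W : Type} [LinearOrder W] [WellFoundedLT W] {n : ℕ}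
variable (Y : Sys W n)

open Classical in
/-- The isolated points. -/
noncomputable def dpt (g : W → ℕ → ℕ) (τ : W → Set ℕ) (i : IdxD) :
    (ℕ → Bool) × (W → Bool) × (ℕ → Bool) :=
  (padL i.1, fun ζ => decide (i.2.1 ∈ τ ζ ∧ g ζ i.2.1 ∈ i.2.2),
    fun t => decide (t = Encodable.encode i))

/-- The set of isolated points. -/
def DD (g : W → ℕ → ℕ) (τ : W → Set ℕ) : Set ((ℕ → Bool) × (W → Bool) × (ℕ → Bool)) :=
  range (dpt g τ)

theorem DD_countable (g : W → ℕ → ℕ) (τ : W → Set ℕ) : (DD g τ).Countable := countable_range _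

theorem dpt_marker {g : W → ℕ → ℕ} {τ : W → Set ℕ} {i i' : IdxD}
    (h : (dpt g τ i').2.2 (Encodable.encode i) = true) : i' = i := by
  have h1 : Encodable.encode i = Encodable.encode i' := of_decide_eq_true h
  exact (Encodable.encode_injective h1).symm

/-- The points of the countable set are isolated. -/
theorem isOpen_singleton_of_mem {g : W → ℕ → ℕ} {τ : W → Set ℕ} (x : Y.Sp3 (DD g τ)) (hx : x.1 ∈ DD g τ) :
    IsOpen ({x} : Set (Y.Sp3 (DD g τ))) := by
  obtain ⟨i, hi⟩ := hx
  have h1 : ({x} : Set (Y.Sp3 (DD g τ))) = {y | y.1.2.2 (Encodable.encode i) = true} := by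
    ext y
    constructor
    · rintro rfl
      show y.1.2.2 (Encodable.encode i) = true
      rw [← hi]
      exact decide_eq_true rfl
    · intro hy
      rcases y.2 with ⟨r, hr⟩ | ⟨i', hi'⟩
      · have hy' : y.1.2.2 (Encodable.encode i) = true := hy
        rw [← hr] at hy'
        exact absurd hy' Bool.false_ne_true
      · have hy' : y.1.2.2 (Encodable.encode i) = true := hy
        rw [← hi'] at hy'
        have h2 := dpt_marker hy'
        refine Subtype.ext ?_
        rw [← hi', h2, hi]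
  rw [h1]
  have hc : Continuous (fun y : Y.Sp3 (DD g τ) => y.1.2.2 (Encodable.encode i)) :=
    (continuous_apply _).comp ((continuous_snd.comp continuous_snd).comp continuous_subtype_val)
  exact (isOpen_discrete {true}).preimage hc

theorem mem_or_real {g : W → ℕ → ℕ} {τ : W → Set ℕ} (x : Y.Sp3 (DD g τ)) :
    (∃ r, x = Y.pr (DD g τ) r) ∨ x.1 ∈ DD g τ := by
  rcases x.2 with ⟨r, hr⟩ | h
  · exact Or.inl ⟨r, Subtype.ext hr.symm⟩
  · exact Or.inr h

/-- Every point is the limit of a sequence of isolated points. -/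
theorem exists_seq [Uncountable W] (hW : ∀ b : W, (Iio b).Countable) {g : W → ℕ → ℕ}
    {τ : W → Set ℕ} (hg : ∀ ζ ξ : W, ζ < ξ → ∃ N, ∀ n ≥ N, g ζ n < g ξ n)
    (hτ1 : ∀ ζ, (τ ζ).Infinite) (hτ2 : ∀ ζ ξ, ζ < ξ → (τ ξ \ τ ζ).Finite)
    (x : Y.Sp3 (DD g τ)) :
    ∃ u : ℕ → Y.Sp3 (DD g τ), (∀ k, (u k).1 ∈ DD g τ) ∧ Tendsto u atTop (𝓝 x) := by
  classical
  rcases Y.mem_or_real x with ⟨r, rfl⟩ | h
  · obtain ⟨ξ, hξ⟩ := exists_gt_countable hW (countable_singleton (Y.ht r))
    have hξ' : Y.ht r < ξ := hξ _ rfl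
    obtain ⟨S, hS1, hS2⟩ := exists_separator hW g hg ξ {ζ | Y.f ζ r = true} (by
      intro ζ hζ
      by_contra hcon
      have h1 : Y.ht r < ζ := hξ'.trans_le (not_lt.1 hcon)
      have h2 : Y.f ζ r = true := hζ
      rw [Y.f_gt h1] at h2
      exact Bool.false_ne_true h2)
    let φ : ℕ → ℕ := fun k => ((hτ1 ξ).natEmbedding (τ ξ) k : ℕ)
    have hφi : Function.Injective φ :=
      Subtype.val_injective.comp ((hτ1 ξ).natEmbedding (τ ξ)).injective
    have hφm : ∀ k, φ k ∈ τ ξ := fun k => ((hτ1 ξ).natEmbedding (τ ξ) k).2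
    have hφt : Tendsto φ atTop atTop := hφi.nat_tendsto_atTop
    have hφc : Tendsto φ atTop cofinite := by
      rw [Nat.cofinite_eq_atTop]
      exact hφt
    let F : ℕ → Finset ℕ := fun k => (Finset.range (g ξ k)).filter (fun a => (k, a) ∈ S)
    have hF : ∀ ζ, ∀ᶠ k in atTop, decide (φ k ∈ τ ζ ∧ g ζ (φ k) ∈ F (φ k)) = Y.f ζ r := by
      intro ζ
      by_cases hζ : Y.f ζ r = true
      · obtain ⟨N₁, hN₁⟩ := hS1 ζ hζ
        have hζξ : ζ < ξ := by
          by_contra hcon
          have h1 : Y.ht r < ζ := hξ'.trans_le (not_lt.1 hcon)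
          rw [Y.f_gt h1] at hζ
          exact Bool.false_ne_true hζ
        obtain ⟨N₂, hN₂⟩ := hg ζ ξ hζξ
        have h2 : ∀ᶠ k in atTop, φ k ∉ τ ξ \ τ ζ :=
          hφc.eventually (hτ2 ζ ξ hζξ).eventually_cofinite_notMem
        filter_upwards [hφt.eventually_ge_atTop N₁, hφt.eventually_ge_atTop N₂, h2] with k h3 h4 h5
        rw [hζ]
        apply decide_eq_true
        refine ⟨?_, Finset.mem_filter.2 ⟨Finset.mem_range.2 (hN₂ _ h4), hN₁ _ h3⟩⟩
        by_contra hcon
        exact h5 ⟨hφm k, hcon⟩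
      · obtain ⟨N, hN⟩ := hS2 ζ hζ
        filter_upwards [hφt.eventually_ge_atTop N] with k hk
        rw [Bool.not_eq_true] at hζ
        rw [hζ]
        apply decide_eq_false
        rintro ⟨_, hmem⟩
        exact hN _ hk (Finset.mem_filter.1 hmem).2
    let idx : ℕ → IdxD := fun k => ((List.range k).map r, φ k, F (φ k))
    have hidx : Function.Injective idx := by
      intro k k' h
      have h1 : (idx k).2.1 = (idx k').2.1 := by rw [h]
      exact hφi h1
    refine ⟨fun k => ⟨dpt g τ (idx k), Or.inr ⟨_, rfl⟩⟩, fun k => ⟨_, rfl⟩, ?_⟩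
    rw [tendsto_subtype_rng]
    refine Tendsto.prodMk_nhds ?_ (Tendsto.prodMk_nhds ?_ ?_)
    · rw [tendsto_pi_nhds]
      intro t
      refine tendsto_const_nhds.congr' ?_
      filter_upwards [eventually_gt_atTop t] with k hk
      show r t = padL ((List.range k).map r) t
      unfold padL
      rw [List.getD_eq_getElem _ _ (by simpa using hk)]
      simp
    · rw [tendsto_pi_nhds]
      intro ζ
      refine tendsto_const_nhds.congr' ?_
      filter_upwards [hF ζ] with k hk
      exact hk.symm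
    · rw [tendsto_pi_nhds]
      intro t
      have h1 : Tendsto (fun k => Encodable.encode (idx k)) atTop atTop :=
        (Encodable.encode_injective.comp hidx).nat_tendsto_atTop
      refine tendsto_const_nhds.congr' ?_
      filter_upwards [h1.eventually_gt_atTop t] with k hk
      show false = decide (t = Encodable.encode (idx k))
      symm
      exact decide_eq_false (ne_of_lt hk)
  · exact ⟨fun _ => x, fun _ => h, tendsto_const_nhds⟩

theorem exists_base_Sp3 (D : Set ((ℕ → Bool) × (W → Bool) × (ℕ → Bool)))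
    (hW : Cardinal.mk W = Cardinal.aleph 1) :
    ∃ b : Set (Set (Y.Sp3 D)), IsTopologicalBasis b ∧ (∀ u ∈ b, IsClopen u) ∧
      Cardinal.mk b ≤ Cardinal.aleph 1 := by
  classical
  let B : (Σ m : ℕ, Fin m → Bool × Bool) × Finset (W × Bool) → Set (Y.Sp3 D) := fun p =>
    {x | (∀ t : Fin p.1.1, x.1.1 t = (p.1.2 t).1 ∧ x.1.2.2 t = (p.1.2 t).2) ∧
      ∀ q ∈ p.2, x.1.2.1 q.1 = q.2}
  have hBeq : ∀ p, B p = (⋂ t : Fin p.1.1, ({x : Y.Sp3 D | x.1.1 t = (p.1.2 t).1} ∩
        {x : Y.Sp3 D | x.1.2.2 t = (p.1.2 t).2})) ∩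
      ⋂ q ∈ p.2, {x : Y.Sp3 D | x.1.2.1 q.1 = q.2} := by
    intro p
    ext x
    simp only [mem_inter_iff, mem_iInter]
    rfl
  have hc1 : ∀ t : ℕ, Continuous (fun x : Y.Sp3 D => x.1.1 t) := fun t =>
    (continuous_apply t).comp (continuous_fst.comp continuous_subtype_val)
  have hc3 : ∀ t : ℕ, Continuous (fun x : Y.Sp3 D => x.1.2.2 t) := fun t =>
    (continuous_apply t).comp ((continuous_snd.comp continuous_snd).comp continuous_subtype_val)
  have hc2 : ∀ α : W, Continuous (fun x : Y.Sp3 D => x.1.2.1 α) := fun α =>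
    (continuous_apply α).comp ((continuous_fst.comp continuous_snd).comp continuous_subtype_val)
  have hBc : ∀ p, IsClopen (B p) := by
    intro p
    rw [hBeq p]
    refine IsClopen.inter ?_ ?_
    · exact isClopen_iInter_of_finite fun t =>
        ((isClopen_discrete {(p.1.2 t).1}).preimage (hc1 t)).inter
          ((isClopen_discrete {(p.1.2 t).2}).preimage (hc3 t))
    · exact isClopen_biInter_finset fun q _ => (isClopen_discrete {q.2}).preimage (hc2 q.1)
  refine ⟨range B, ?_, ?_, ?_⟩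
  · apply isTopologicalBasis_of_isOpen_of_nhds
    · rintro _ ⟨p, rfl⟩
      exact (hBc p).isOpen
    · intro x U hx hU
      obtain ⟨V, hV, rfl⟩ := isOpen_induced_iff.1 hU
      obtain ⟨m, A, hmA⟩ := nbE3 hV hx
      refine ⟨_, ⟨(⟨m, fun t => (x.1.1 t, x.1.2.2 t)⟩, A.image (fun α => (α, x.1.2.1 α))), rfl⟩,
        ?_, ?_⟩
      · refine ⟨fun _ => ⟨rfl, rfl⟩, ?_⟩
        intro q hq
        obtain ⟨α, _, rfl⟩ := Finset.mem_image.1 hq
        rfl
      · rintro z ⟨hz1, hz2⟩
        apply hmA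
        · intro t ht
          exact (hz1 ⟨t, ht⟩).1
        · intro t ht
          exact (hz1 ⟨t, ht⟩).2
        · intro α hα
          exact hz2 (α, x.1.2.1 α) (Finset.mem_image.2 ⟨α, hα, rfl⟩)
  · rintro _ ⟨p, rfl⟩
    exact hBc p
  · have hinf : Cardinal.aleph0 ≤ Cardinal.aleph 1 := Cardinal.aleph0_le_aleph 1
    have hWinf : Infinite W := by
      rw [Cardinal.infinite_iff, hW]
      exact hinf
    refine Cardinal.mk_range_le.trans ?_
    rw [Cardinal.mk_prod, Cardinal.lift_id, Cardinal.lift_id]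
    refine Cardinal.mul_le_of_le hinf (Cardinal.mk_le_aleph0.trans hinf) ?_
    rw [Cardinal.mk_finset_of_infinite, Cardinal.mk_prod, Cardinal.lift_id, Cardinal.lift_id, hW]
    exact Cardinal.mul_le_of_le hinf le_rfl (Cardinal.mk_le_aleph0.trans hinf)

end Sys

end Run7.h584
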