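import Pool.Agent.Run7.h584.LTp3

set_option linter.unusedSectionVars false

/-!
All finite powers are countably tight.
-/

namespace Run7.h584

open Set TopologicalSpace Filter Topology

namespace Sys

variable {W : Type} [LinearOrder W] [WellFoundedLT W] {n : ℕ}
variable (Y : Sys W n)

theorem pr_injective (D : Set ((ℕ → Bool) × (W → Bool) × (ℕ → Bool))) :
    Function.Injective (Y.pr D) := by
  intro r r' h
  exact congrArg (fun z : Y.Sp3 D => z.1.1) h

theorem pr_notMem {g : W → ℕ → ℕ} {τ : W → Set ℕ} (r : ℕ → Bool) : (Y.pr (DD g τ) r).1 ∉ DD g τ := by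
  rintro ⟨i, hi⟩
  have h1 : (dpt g τ i).2.2 (Encodable.encode i) = true := decide_eq_true rfl
  rw [hi] at h1
  exact Bool.false_ne_true h1

theorem exists_height [Uncountable W] (hW : ∀ b : W, (Iio b).Countable) {g : W → ℕ → ℕ} {τ : W → Set ℕ} {k : ℕ}
    (y : Fin k → Y.Sp3 (DD g τ)) : ∃ b : W, ∀ j r, y j = Y.pr (DD g τ) r → Y.ht r < b := by
  classical
  let h : Fin k → W := fun j => if hj : ∃ r, y j = Y.pr (DD g τ) r then Y.ht hj.choose
    else Classical.arbitrary W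
  obtain ⟨b, hb⟩ := exists_gt_countable hW (countable_range h)
  refine ⟨b, fun j r hj => ?_⟩
  have hex : ∃ r, y j = Y.pr (DD g τ) r := ⟨r, hj⟩
  have h1 : h j = Y.ht hex.choose := dif_pos hex
  have h2 : hex.choose = r := by
    apply Y.pr_injective (DD g τ)
    rw [← hex.choose_spec, hj]
  have h3 := hb _ ⟨j, rfl⟩
  rw [h1, h2] at h3
  exact h3

/-- Every finite power is countably tight. -/
theorem tight_pow [Uncountable W] (hW : ∀ b : W, (Iio b).Countable) {g : W → ℕ → ℕ} {τ : W → Set ℕ} {k : ℕ}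
    (A : Set (Fin k → Y.Sp3 (DD g τ))) (x : Fin k → Y.Sp3 (DD g τ)) (hx : x ∈ closure A) :
    ∃ B ⊆ A, B.Countable ∧ x ∈ closure B := by
  classical
  choose β hβ using fun y : Fin k → Y.Sp3 (DD g τ) => Y.exists_height hW y
  let Prm : Type := (Fin k → Option IdxD) × (Σ m : ℕ, Fin k → Fin m → Bool) ×
    Finset (W × (Fin k → Bool))
  let M : Prm → (Fin k → Y.Sp3 (DD g τ)) → Prop := fun p y =>
    ∀ j, (∀ i, p.1 j = some i → (y j).1 = dpt g τ i) ∧
      (p.1 j = none → (∃ r, y j = Y.pr (DD g τ) r) ∧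
        (∀ t : Fin p.2.1.1, (y j).1.1 t = p.2.1.2 j t) ∧ ∀ q ∈ p.2.2, (y j).1.2.1 q.1 = q.2 j)
  let PP : W → Set Prm := fun γ => {p | ∀ q ∈ p.2.2, q.1 ≤ γ}
  have hPP : ∀ γ, (PP γ).Countable := by
    intro γ
    have h1 : {Q : Finset (W × (Fin k → Bool)) | ∀ q ∈ Q, q ∈ {x | x.1 ≤ γ}}.Countable := by
      apply finset_sub_countable
      have : {x : W × (Fin k → Bool) | x.1 ≤ γ} = (Iic γ) ×ˢ univ := by
        ext x; simp
      rw [this]
      exact (countable_Iic hW γ).prod countable_univ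
    have h2 : PP γ = (univ : Set (Fin k → Option IdxD)) ×ˢ
        ((univ : Set (Σ m : ℕ, Fin k → Fin m → Bool)) ×ˢ
          {Q : Finset (W × (Fin k → Bool)) | ∀ q ∈ Q, q ∈ {x | x.1 ≤ γ}}) := by
      ext ⟨p1, p2, p3⟩
      exact ⟨fun h => ⟨trivial, trivial, h⟩, fun h => h.2.2⟩
    rw [h2]
    exact countable_univ.prod (countable_univ.prod h1)
  have ha : ∀ p : Prm, ∃ a : Fin k → Y.Sp3 (DD g τ), (∃ y ∈ A, M p y) → a ∈ A ∧ M p a := by
    intro p
    by_cases h : ∃ y ∈ A, M p y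
    · obtain ⟨y, hy1, hy2⟩ := h
      exact ⟨y, fun _ => ⟨hy1, hy2⟩⟩
    · exact ⟨x, fun h' => absurd h' h⟩
  choose a ha using ha
  have hH : ∀ γ, ∃ c, ∀ p ∈ PP γ, β (a p) < c := by
    intro γ
    obtain ⟨c, hc⟩ := exists_gt_countable hW ((hPP γ).image (fun p => β (a p)))
    exact ⟨c, fun p hp => hc _ ⟨p, hp, rfl⟩⟩
  choose H hH using hH
  obtain ⟨δ, hxδ, hδ⟩ := exists_closed hW H (β x)
  refine ⟨{y | ∃ p ∈ PP δ, (∃ y ∈ A, M p y) ∧ y = a p}, ?_, ?_, ?_⟩
  · rintro y ⟨p, _, hp, rfl⟩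
    exact (ha p hp).1
  · refine ((hPP δ).image a).mono ?_
    rintro y ⟨p, hp, _, rfl⟩
    exact ⟨p, hp, rfl⟩
  rw [mem_closure_iff]
  intro U hU hxU
  obtain ⟨m, A₀, hmA⟩ := Y.nbX3 (DD g τ) hU hxU
  -- a bound for the markers of `x`
  have hmk : ∀ j, ∃ c : ℕ, (x j).1 ∈ DD g τ → ∃ t < c, (x j).1.2.2 t = true := by
    intro j
    by_cases h : (x j).1 ∈ DD g τ
    · obtain ⟨i, hi⟩ := h
      refine ⟨Encodable.encode i + 1, fun _ => ⟨Encodable.encode i, Nat.lt_succ_self _, ?_⟩⟩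
      rw [← hi]
      exact decide_eq_true rfl
    · exact ⟨0, fun h' => absurd h' h⟩
  choose c hc using hmk
  let m' : ℕ := max m (Finset.univ.sup c)
  have hcm : ∀ j, c j ≤ m' := fun j => (Finset.le_sup (Finset.mem_univ j)).trans (le_max_right _ _)
  have hc1 : ∀ j t, Continuous (fun y : Fin k → Y.Sp3 (DD g τ) => (y j).1.1 t) := fun j t =>
    (continuous_apply t).comp (continuous_fst.comp (continuous_subtype_val.comp (continuous_apply j)))
  have hc3 : ∀ j t, Continuous (fun y : Fin k → Y.Sp3 (DD g τ) => (y j).1.2.2 t) := fun j t =>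
    (continuous_apply t).comp ((continuous_snd.comp continuous_snd).comp
      (continuous_subtype_val.comp (continuous_apply j)))
  have hc2 : ∀ j α, Continuous (fun y : Fin k → Y.Sp3 (DD g τ) => (y j).1.2.1 α) := fun j α =>
    (continuous_apply α).comp ((continuous_fst.comp continuous_snd).comp
      (continuous_subtype_val.comp (continuous_apply j)))
  have hev : ∀ f : (Fin k → Y.Sp3 (DD g τ)) → Bool, Continuous f → ∀ᶠ y in 𝓝 x, f y = f x := by
    intro f hf
    exact hf.continuousAt ((isOpen_discrete {f x}).mem_nhds rfl)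
  have hnb : ∀ᶠ y in 𝓝 x, ∀ j, (∀ t ∈ Finset.range m', (y j).1.1 t = (x j).1.1 t) ∧
      (∀ t ∈ Finset.range m', (y j).1.2.2 t = (x j).1.2.2 t) ∧
      ∀ α ∈ A₀, (y j).1.2.1 α = (x j).1.2.1 α := by
    rw [eventually_all]
    intro j
    refine Eventually.and ?_ (Eventually.and ?_ ?_)
    · rw [Filter.eventually_all_finset]
      intro t _
      exact hev _ (hc1 j t)
    · rw [Filter.eventually_all_finset]
      intro t _
      exact hev _ (hc3 j t)
    · rw [Filter.eventually_all_finset]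
      intro α _
      exact hev _ (hc2 j α)
  obtain ⟨y, hyA, hy⟩ := ((mem_closure_iff_frequently.1 hx).and_eventually hnb).exists
  -- the code of `y`
  have hη : ∀ j, ∃ o : Option IdxD, (∀ i, o = some i → (y j).1 = dpt g τ i) ∧
      (o = none → ∃ r, y j = Y.pr (DD g τ) r) := by
    intro j
    rcases Y.mem_or_real (y j) with h | ⟨i, hi⟩
    · exact ⟨none, fun i hi => absurd hi (by simp), fun _ => h⟩
    · refine ⟨some i, fun i' hi' => ?_, fun h => absurd h (by simp)⟩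
      rw [Option.some_inj] at hi'
      rw [← hi', hi]
  choose η hη1 hη2 using hη
  let Q : Finset (W × (Fin k → Bool)) :=
    (A₀.filter (fun α => α < δ)).image (fun α => (α, fun j => (x j).1.2.1 α))
  let p : Prm := (η, ⟨m', fun j t => (x j).1.1 t⟩, Q)
  have hMp : M p y := by
    intro j
    refine ⟨fun i hi => hη1 j i hi, fun hn => ⟨hη2 j hn, fun t => ?_, fun q hq => ?_⟩⟩
    · exact (hy j).1 t (Finset.mem_range.2 t.2)
    · obtain ⟨α, hα, rfl⟩ := Finset.mem_image.1 hq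
      exact (hy j).2.2 α (Finset.mem_filter.1 hα).1
  have hex : ∃ y ∈ A, M p y := ⟨y, hyA, hMp⟩
  obtain ⟨haA, haM⟩ := ha p hex
  have hQδ : ∀ q ∈ Q, q.1 < δ := by
    intro q hq
    obtain ⟨α, hα, rfl⟩ := Finset.mem_image.1 hq
    exact (Finset.mem_filter.1 hα).2
  have hβδ : β (a p) < δ := by
    -- a bound below `δ` for the finite set
    have h1 : ∃ γ < δ, ∀ q ∈ Q, q.1 ≤ γ := by
      rcases Q.eq_empty_or_nonempty with h | h
      · exact ⟨β x, hxδ, by simp [h]⟩
      · obtain ⟨q, hq, hmax⟩ := Q.exists_max_image (fun q => q.1) h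
        exact ⟨q.1, hQδ q hq, fun q' hq' => hmax q' hq'⟩
    obtain ⟨γ, hγ, hγQ⟩ := h1
    exact (hH γ p hγQ).trans (hδ γ hγ)
  refine ⟨a p, ?_, p, fun q hq => (hQδ q hq).le, hex, rfl⟩
  apply hmA
  intro j
  rcases hoj : η j with _ | i
  · obtain ⟨⟨r, hr⟩, h1, h2⟩ := (haM j).2 hoj
    have hxr : ∃ r, x j = Y.pr (DD g τ) r := by
      rcases Y.mem_or_real (x j) with h | h
      · exact h
      · obtain ⟨t, ht, htrue⟩ := hc j h
        have h3 := (hy j).2.1 t (Finset.mem_range.2 (ht.trans_le (hcm j)))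
        obtain ⟨r', hr'⟩ := hη2 j hoj
        rw [htrue, hr'] at h3
        exact absurd h3 Bool.false_ne_true
    obtain ⟨rx, hrx⟩ := hxr
    refine ⟨fun t ht => ?_, fun t _ => ?_, fun α hα => ?_⟩
    · exact h1 ⟨t, ht.trans_le (le_max_left _ _)⟩
    · rw [hr, hrx]
      rfl
    · rcases lt_or_ge α δ with h | h
      · exact h2 (α, fun j => (x j).1.2.1 α) (Finset.mem_image.2
          ⟨α, Finset.mem_filter.2 ⟨hα, h⟩, rfl⟩)
      · rw [hr, hrx]
        show Y.f α r = Y.f α rx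
        rw [Y.f_gt (((hβ (a p) j r hr).trans hβδ).trans_le h),
          Y.f_gt (((hβ x j rx hrx).trans hxδ).trans_le h)]
  · have h1 := (haM j).1 i hoj
    have h2 := hη1 j i hoj
    have h3 : (a p j).1 = (y j).1 := by rw [h1, h2]
    rw [h3]
    refine ⟨fun t ht => (hy j).1 t (Finset.mem_range.2 (ht.trans_le (le_max_left _ _))),
      fun t ht => (hy j).2.1 t (Finset.mem_range.2 (ht.trans_le (le_max_left _ _))),
      fun α hα => (hy j).2.2 α hα⟩

end Sys

end Run7.h584
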