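import Pool.Agent.Run7.h584.LTp4

set_option linter.unusedSectionVars false

/-!
Basic neighbourhoods in the powers, levels, and convergent sequences.
-/

namespace Run7.h584

open Set TopologicalSpace Filter Topology

theorem mem_closure_inter_nhds {Z : Type*} [TopologicalSpace Z] {A N : Set Z} {x : Z}
    (hx : x ∈ closure A) (hN : N ∈ 𝓝 x) : x ∈ closure (A ∩ N) := by
  rw [mem_closure_iff_frequently] at hx ⊢
  exact hx.and_eventually hN

namespace Sys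

variable {W : Type} [LinearOrder W] [WellFoundedLT W] {n : ℕ}
variable (Y : Sys W n)

/-- Basic neighbourhoods. -/
def Nk {D : Set ((ℕ → Bool) × (W → Bool) × (ℕ → Bool))} {k : ℕ} (x : Fin k → Y.Sp3 D) (m : ℕ)
    (E : Finset W) : Set (Fin k → Y.Sp3 D) :=
  {y | ∀ j, (∀ t < m, (y j).1.1 t = (x j).1.1 t) ∧ (∀ t < m, (y j).1.2.2 t = (x j).1.2.2 t) ∧
    ∀ α ∈ E, (y j).1.2.1 α = (x j).1.2.1 α}

theorem Nk_mem_nhds {D : Set ((ℕ → Bool) × (W → Bool) × (ℕ → Bool))} {k : ℕ}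
    (x : Fin k → Y.Sp3 D) (m : ℕ) (E : Finset W) : Y.Nk x m E ∈ 𝓝 x := by
  classical
  have hc1 : ∀ j t, Continuous (fun y : Fin k → Y.Sp3 D => (y j).1.1 t) := fun j t =>
    (continuous_apply t).comp (continuous_fst.comp (continuous_subtype_val.comp (continuous_apply j)))
  have hc3 : ∀ j t, Continuous (fun y : Fin k → Y.Sp3 D => (y j).1.2.2 t) := fun j t =>
    (continuous_apply t).comp ((continuous_snd.comp continuous_snd).comp
      (continuous_subtype_val.comp (continuous_apply j)))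
  have hc2 : ∀ j α, Continuous (fun y : Fin k → Y.Sp3 D => (y j).1.2.1 α) := fun j α =>
    (continuous_apply α).comp ((continuous_fst.comp continuous_snd).comp
      (continuous_subtype_val.comp (continuous_apply j)))
  have hev : ∀ f : (Fin k → Y.Sp3 D) → Bool, Continuous f → ∀ᶠ y in 𝓝 x, f y = f x := by
    intro f hf
    exact hf.continuousAt ((isOpen_discrete {f x}).mem_nhds rfl)
  have hnb : ∀ᶠ y in 𝓝 x, ∀ j, (∀ t ∈ Finset.range m, (y j).1.1 t = (x j).1.1 t) ∧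
      (∀ t ∈ Finset.range m, (y j).1.2.2 t = (x j).1.2.2 t) ∧
      ∀ α ∈ E, (y j).1.2.1 α = (x j).1.2.1 α := by
    rw [eventually_all]
    intro j
    refine Eventually.and ?_ (Eventually.and ?_ ?_)
    · rw [Filter.eventually_all_finset]
      intro t _
      exact hev _ (hc1 j t)
    · rw [Filter.eventually_all_finset]
      intro t _
      exact hev _ (hc3 j t)
    · rw [Filter.eventually_all_finset]
      intro α _
      exact hev _ (hc2 j α)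
  refine mem_of_superset hnb ?_
  intro y hy j
  exact ⟨fun t ht => (hy j).1 t (Finset.mem_range.2 ht),
    fun t ht => (hy j).2.1 t (Finset.mem_range.2 ht), (hy j).2.2⟩

theorem exists_Nk_subset {D : Set ((ℕ → Bool) × (W → Bool) × (ℕ → Bool))} {k : ℕ}
    {x : Fin k → Y.Sp3 D} {U : Set (Fin k → Y.Sp3 D)} (hU : U ∈ 𝓝 x) :
    ∃ m E, Y.Nk x m E ⊆ U := by
  obtain ⟨V, hVU, hV, hxV⟩ := mem_nhds_iff.1 hU
  obtain ⟨m, E, h⟩ := Y.nbX3 D hV hxV
  exact ⟨m, E, fun y hy => hVU (h y hy)⟩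

theorem Nk_mono {D : Set ((ℕ → Bool) × (W → Bool) × (ℕ → Bool))} {k : ℕ}
    {x : Fin k → Y.Sp3 D} {m m' : ℕ} {E E' : Finset W} (hm : m ≤ m') (hE : E ⊆ E') :
    Y.Nk x m' E' ⊆ Y.Nk x m E := fun _ hy j =>
  ⟨fun t ht => (hy j).1 t (ht.trans_le hm), fun t ht => (hy j).2.1 t (ht.trans_le hm),
    fun α hα => (hy j).2.2 α (hE hα)⟩

theorem exists_mem_Nk {D : Set ((ℕ → Bool) × (W → Bool) × (ℕ → Bool))} {k : ℕ}
    {x : Fin k → Y.Sp3 D} {A : Set (Fin k → Y.Sp3 D)} (hx : x ∈ closure A) (m : ℕ)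
    (E : Finset W) : ∃ y ∈ A, y ∈ Y.Nk x m E := by
  obtain ⟨y, hy1, hy2⟩ := mem_closure_iff_nhds.1 hx _ (Y.Nk_mem_nhds x m E)
  exact ⟨y, hy2, hy1⟩

theorem notMem_closure_Nk {D : Set ((ℕ → Bool) × (W → Bool) × (ℕ → Bool))} {k : ℕ}
    {x : Fin k → Y.Sp3 D} {A : Set (Fin k → Y.Sp3 D)} (hx : x ∉ closure A) :
    ∃ m E, ∀ y ∈ A, y ∉ Y.Nk x m E := by
  have h1 : (closure A)ᶜ ∈ 𝓝 x := isClosed_closure.isOpen_compl.mem_nhds hx
  obtain ⟨m, E, h⟩ := Y.exists_Nk_subset h1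
  exact ⟨m, E, fun y hy hy' => h hy' (subset_closure hy)⟩

/-- A sequence when there are only countably many traces. -/
theorem seq_of_traces [Nonempty W] {D : Set ((ℕ → Bool) × (W → Bool) × (ℕ → Bool))} {k : ℕ}
    {x : Fin k → Y.Sp3 D} {A : Set (Fin k → Y.Sp3 D)} (hx : x ∈ closure A)
    (h : (range (fun ξ : W => {a | a ∈ A ∧ ∀ j, (a j).1.2.1 ξ = (x j).1.2.1 ξ})).Countable) :
    ∃ u : ℕ → Fin k → Y.Sp3 D, (∀ i, u i ∈ A) ∧ Tendsto u atTop (𝓝 x) := by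
  classical
  obtain ⟨T, hT⟩ := h.exists_eq_range (range_nonempty _)
  have h1 : ∀ i, ∃ ξ : W, {a | a ∈ A ∧ ∀ j, (a j).1.2.1 ξ = (x j).1.2.1 ξ} = T i := by
    intro i
    have : T i ∈ range T := ⟨i, rfl⟩
    rw [← hT] at this
    exact this
  choose ξ hξ using h1
  have h2 : ∀ i : ℕ, ∃ y ∈ A, y ∈ Y.Nk x i ((Finset.range i).image ξ) :=
    fun i => Y.exists_mem_Nk hx _ _
  choose u hu1 hu2 using h2
  refine ⟨u, hu1, ?_⟩
  rw [tendsto_def]
  intro U hU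
  obtain ⟨m, E, hE⟩ := Y.exists_Nk_subset hU
  have h3 : ∀ α : W, ∃ i, {a | a ∈ A ∧ ∀ j, (a j).1.2.1 α = (x j).1.2.1 α} = T i := by
    intro α
    have : {a | a ∈ A ∧ ∀ j, (a j).1.2.1 α = (x j).1.2.1 α} ∈ range T := by
      rw [← hT]
      exact ⟨α, rfl⟩
    obtain ⟨i, hi⟩ := this
    exact ⟨i, hi.symm⟩
  choose ρ hρ using h3
  refine mem_of_superset (Ici_mem_atTop (max m (E.sup ρ + 1))) ?_
  intro i hi
  have hi' : max m (E.sup ρ + 1) ≤ i := hi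
  have hmi : m ≤ i := (le_max_left _ _).trans hi'
  apply hE
  intro j
  refine ⟨fun t ht => (hu2 i j).1 t (ht.trans_le hmi), fun t ht => (hu2 i j).2.1 t (ht.trans_le hmi),
    fun α hα => ?_⟩
  have h4 : ρ α < i := by
    have h5 : ρ α ≤ E.sup ρ := Finset.le_sup hα
    have h6 : E.sup ρ + 1 ≤ i := (le_max_right _ _).trans hi'
    omega
  have h7 : u i ∈ T (ρ α) := by
    rw [← hξ]
    refine ⟨hu1 i, fun j => ?_⟩
    exact (hu2 i j).2.2 _ (Finset.mem_image.2 ⟨ρ α, Finset.mem_range.2 h4, rfl⟩)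
  rw [← hρ] at h7
  exact h7.2 j

/-- A free level. -/
def FL {g : W → ℕ → ℕ} {τ : W → Set ℕ} {k : ℕ} (x a : Fin k → Y.Sp3 (DD g τ)) (j : Fin k)
    (κ : ℕ) : Prop :=
  (x j).1 ∉ DD g τ ∧ ∃ i : IdxD, (a j).1 = dpt g τ i ∧ i.2.1 = κ

theorem dpt_injective (g : W → ℕ → ℕ) (τ : W → Set ℕ) : Function.Injective (dpt g τ) := by
  intro i i' h
  apply Eq.symm
  apply dpt_marker (g := g) (τ := τ)
  rw [← h]
  exact decide_eq_true rfl

theorem FL_unique {g : W → ℕ → ℕ} {τ : W → Set ℕ} {k : ℕ} {x a : Fin k → Y.Sp3 (DD g τ)}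
    {j : Fin k} {κ κ' : ℕ} (h : Y.FL x a j κ) (h' : Y.FL x a j κ') : κ = κ' := by
  obtain ⟨_, i, hi, rfl⟩ := h
  obtain ⟨_, i', hi', rfl⟩ := h'
  rw [hi] at hi'
  rw [dpt_injective g τ hi']

/-- The values at large coordinates. -/
theorem val_iff {g : W → ℕ → ℕ} {τ : W → Set ℕ} {k : ℕ} {x a : Fin k → Y.Sp3 (DD g τ)} {γ ξ : W}
    (hγξ : γ ≤ ξ) (h1 : ∀ j, (x j).1 ∈ DD g τ → a j = x j)
    (h2 : ∀ j r, a j = Y.pr (DD g τ) r → Y.ht r < γ)
    (h3 : ∀ j r, x j = Y.pr (DD g τ) r → Y.ht r < γ) (j : Fin k) :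
    (a j).1.2.1 ξ = (x j).1.2.1 ξ ↔ ((x j).1 ∉ DD g τ → ∀ i : IdxD, (a j).1 = dpt g τ i →
      ¬ (i.2.1 ∈ τ ξ ∧ g ξ i.2.1 ∈ i.2.2)) := by
  classical
  by_cases hj : (x j).1 ∈ DD g τ
  · rw [h1 j hj]
    exact ⟨fun _ h => absurd hj h, fun _ => rfl⟩
  · rcases Y.mem_or_real (x j) with ⟨rx, hrx⟩ | h
    · have h4 : (x j).1.2.1 ξ = false := by
        rw [hrx]
        exact Y.f_gt ((h3 j rx hrx).trans_le hγξ)
      rw [h4]
      rcases Y.mem_or_real (a j) with ⟨r, hr⟩ | ⟨i, hi⟩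
      · have h5 : (a j).1.2.1 ξ = false := by
          rw [hr]
          exact Y.f_gt ((h2 j r hr).trans_le hγξ)
        refine ⟨fun _ _ i hi => ?_, fun _ => h5⟩
        exfalso
        apply Y.pr_notMem (g := g) (τ := τ) r
        rw [← hr, hi]
        exact ⟨i, rfl⟩
      · have h5 : (a j).1.2.1 ξ = decide (i.2.1 ∈ τ ξ ∧ g ξ i.2.1 ∈ i.2.2) := by
          rw [← hi]
          rfl
        rw [h5]
        constructor
        · intro h6 _ i' hi'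
          have h7 : i' = i := dpt_injective g τ (by rw [← hi', hi])
          rw [h7]
          exact of_decide_eq_false h6
        · intro h6
          exact decide_eq_false (h6 hj i hi.symm)
    · exact absurd h hj

/-- Sequences when the free levels avoid a member of the tower, up to a finite set. -/
theorem seq_of_levels [Nonempty W] (hW : ∀ b : W, (Iio b).Countable) {g : W → ℕ → ℕ}
    {τ : W → Set ℕ} (hτ2 : ∀ ζ ξ, ζ < ξ → (τ ξ \ τ ζ).Finite) {k : ℕ}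
    {x : Fin k → Y.Sp3 (DD g τ)} {A : Set (Fin k → Y.Sp3 (DD g τ))} (hx : x ∈ closure A) {γ : W}
    (h1 : ∀ a ∈ A, ∀ j, (x j).1 ∈ DD g τ → a j = x j)
    (h2 : ∀ a ∈ A, ∀ j r, a j = Y.pr (DD g τ) r → Y.ht r < γ)
    (h3 : ∀ j r, x j = Y.pr (DD g τ) r → Y.ht r < γ) (ζ : W) (L : Finset ℕ)
    (hL : ∀ a ∈ A, ∀ j κ, Y.FL x a j κ → κ ∉ τ ζ ∨ κ ∈ L) :
    ∃ u : ℕ → Fin k → Y.Sp3 (DD g τ), (∀ i, u i ∈ A) ∧ Tendsto u atTop (𝓝 x) := by
  classical
  apply Y.seq_of_traces hx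
  let tr : W → Set (Fin k → Y.Sp3 (DD g τ)) :=
    fun ξ => {a | a ∈ A ∧ ∀ j, (a j).1.2.1 ξ = (x j).1.2.1 ξ}
  let Ψ : Finset (ℕ × ℕ) → Set (Fin k → Y.Sp3 (DD g τ)) := fun P =>
    {a | a ∈ A ∧ ∀ j, (x j).1 ∉ DD g τ → ∀ i : IdxD, (a j).1 = dpt g τ i →
      ∀ b ∈ i.2.2, (i.2.1, b) ∉ P}
  have hsub : range tr ⊆ (tr '' Iio (max γ ζ)) ∪ range Ψ := by
    rintro _ ⟨ξ, rfl⟩
    by_cases hξ : ξ < max γ ζ
    · exact Or.inl ⟨ξ, hξ, rfl⟩
    · right
      have hξ' : max γ ζ ≤ ξ := not_lt.1 hξ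
      have hγξ : γ ≤ ξ := (le_max_left _ _).trans hξ'
      have hζξ : ζ ≤ ξ := (le_max_right _ _).trans hξ'
      have hfin : (τ ξ \ τ ζ).Finite := by
        rcases lt_or_eq_of_le hζξ with h | h
        · exact hτ2 ζ ξ h
        · rw [h]; simp
      refine ⟨((L ∪ hfin.toFinset).filter (fun κ => κ ∈ τ ξ)).image (fun κ => (κ, g ξ κ)), ?_⟩
      ext a
      constructor
      · rintro ⟨haA, ha⟩
        refine ⟨haA, fun j => ?_⟩
        rw [Y.val_iff hγξ (h1 a haA) (h2 a haA) h3 j]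
        intro hj i hi hcon
        refine ha j hj i hi _ hcon.2 ?_
        refine Finset.mem_image.2 ⟨i.2.1, Finset.mem_filter.2 ⟨?_, hcon.1⟩, rfl⟩
        rcases hL a haA j i.2.1 ⟨hj, i, hi, rfl⟩ with h | h
        · exact Finset.mem_union_right _ (hfin.mem_toFinset.2 ⟨hcon.1, h⟩)
        · exact Finset.mem_union_left _ h
      · rintro ⟨haA, ha⟩
        refine ⟨haA, fun j hj i hi b hb hmem => ?_⟩
        obtain ⟨κ, hκ, hκe⟩ := Finset.mem_image.1 hmem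
        have e1 : κ = i.2.1 := congrArg Prod.fst hκe
        have e2 : g ξ κ = b := congrArg Prod.snd hκe
        refine (Y.val_iff hγξ (h1 a haA) (h2 a haA) h3 j).1 (ha j) hj i hi ⟨?_, ?_⟩
        · rw [← e1]
          exact (Finset.mem_filter.1 hκ).2
        · rw [← e1, e2]
          exact hb
  exact (((hW _).image tr).union (countable_range Ψ)).mono hsub

end Sys

end Run7.h584
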