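import Pool.Agent.Run7.h584.LTp5

set_option linter.unusedSectionVars false

/-!
Restricting the levels when the tower is maximal.
-/

namespace Run7.h584

open Set TopologicalSpace Filter Topology

theorem exists_avoid_tower {W : Type} [LinearOrder W] [Nonempty W] {τ : W → Set ℕ}
    (hτ : ∀ ζ ξ, ζ ≤ ξ → (τ ξ \ τ ζ).Finite)
    (hmax : ∀ I : Set ℕ, I.Infinite → ∃ ζ, (I \ τ ζ).Infinite) {k : ℕ}
    (R : ℕ → Fin k → ℕ → Prop) (hu : ∀ i j κ κ', R i j κ → R i j κ' → κ = κ')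
    (S : Finset (Fin k)) : (∀ i, ∀ j ∈ S, ∀ κ, R i j κ → i ≤ κ) →
    ∀ I : Set ℕ, I.Infinite → ∃ I' ⊆ I, I'.Infinite ∧ ∃ ζ, ∀ i ∈ I', ∀ j ∈ S, ∀ κ,
      R i j κ → κ ∉ τ ζ := by
  classical
  induction S using Finset.induction_on with
  | empty =>
      intro _ I hI
      exact ⟨I, Subset.rfl, hI, Classical.arbitrary W, fun _ _ j hj => absurd hj (Finset.notMem_empty j)⟩
  | insert j₀ S _ ih =>
      intro hge I hI
      obtain ⟨I', hI'I, hI', ζ, hζ⟩ := ih (fun i j hj => hge i j (Finset.mem_insert_of_mem hj)) I hI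
      by_cases hinf : {i | i ∈ I' ∧ ∀ κ, ¬ R i j₀ κ}.Infinite
      · refine ⟨_, fun i hi => hI'I hi.1, hinf, ζ, ?_⟩
        intro i hi j hj κ hR
        rcases Finset.mem_insert.1 hj with rfl | hj
        · exact absurd hR (hi.2 κ)
        · exact hζ i hi.1 j hj κ hR
      · -- the indices with a level at `j₀`
        have hI2 : {i | i ∈ I' ∧ ∃ κ, R i j₀ κ}.Infinite := by
          intro hfin
          apply hI'
          refine ((not_infinite.1 hinf).union hfin).subset ?_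
          intro i hi
          by_cases h : ∃ κ, R i j₀ κ
          · exact Or.inr ⟨hi, h⟩
          · push Not at h
            exact Or.inl ⟨hi, h⟩
        have hK : {κ | ∃ i ∈ I', R i j₀ κ}.Infinite := by
          intro hfin
          apply hI2
          obtain ⟨b, hb⟩ := hfin.bddAbove
          refine (finite_Iic b).subset ?_
          rintro i ⟨hi, κ, hκ⟩
          exact (hge i j₀ (Finset.mem_insert_self _ _) κ hκ).trans (hb ⟨i, hi, hκ⟩)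
        obtain ⟨ζ', hζ'⟩ := hmax _ hK
        have hK2 : ({κ | ∃ i ∈ I', R i j₀ κ} \ τ (max ζ ζ')).Infinite := by
          intro hfin
          apply hζ'
          refine (hfin.union (hτ ζ' (max ζ ζ') (le_max_right _ _))).subset ?_
          rintro κ ⟨h1, h2⟩
          by_cases h : κ ∈ τ (max ζ ζ')
          · exact Or.inr ⟨h, h2⟩
          · exact Or.inl ⟨h1, h⟩
        obtain ⟨b, hb⟩ := (hτ ζ (max ζ ζ') (le_max_left _ _)).bddAbove
        refine ⟨{i | i ∈ I' ∧ b < i ∧ ∃ κ, R i j₀ κ ∧ κ ∉ τ (max ζ ζ')}, fun i hi => hI'I hi.1,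
          ?_, max ζ ζ', ?_⟩
        · intro hfin
          apply hK2
          have h1 : ({i | i ∈ I' ∧ b < i ∧ ∃ κ, R i j₀ κ ∧ κ ∉ τ (max ζ ζ')} ∪ Iic b).Finite :=
            hfin.union (finite_Iic b)
          have h2 : ∀ i, ∃ c, ∀ κ, R i j₀ κ → κ = c := by
            intro i
            by_cases h : ∃ κ, R i j₀ κ
            · obtain ⟨c, hc⟩ := h
              exact ⟨c, fun κ hκ => hu i j₀ κ c hκ hc⟩
            · push Not at h
              exact ⟨0, fun κ hκ => absurd hκ (h κ)⟩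
          choose c hc using h2
          refine (h1.image c).subset ?_
          rintro κ ⟨⟨i, hi, hR⟩, hκ⟩
          refine ⟨i, ?_, (hc i κ hR).symm⟩
          by_cases h : b < i
          · exact Or.inl ⟨hi, h, κ, hR, hκ⟩
          · exact Or.inr (not_lt.1 h)
        · rintro i ⟨hi, hbi, κ₀, hR₀, hκ₀⟩ j hj κ hR
          rcases Finset.mem_insert.1 hj with rfl | hj'
          · rw [hu i _ κ κ₀ hR hR₀]
            exact hκ₀
          · intro hmem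
            have h1 : κ ∈ τ (max ζ ζ') \ τ ζ := ⟨hmem, hζ i hi j hj' κ hR⟩
            have h2 := hb h1
            have h3 := hge i j hj κ hR
            omega

namespace Sys

variable {W : Type} [LinearOrder W] [WellFoundedLT W] {n : ℕ}
variable (Y : Sys W n)

theorem restrict_exists [Uncountable W] (hW : ∀ b : W, (Iio b).Countable) {g : W → ℕ → ℕ}
    {τ : W → Set ℕ} (hτ2 : ∀ ζ ξ, ζ < ξ → (τ ξ \ τ ζ).Finite)
    (hmax : ∀ I : Set ℕ, I.Infinite → ∃ ζ, (I \ τ ζ).Infinite) {k : ℕ}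
    {x : Fin k → Y.Sp3 (DD g τ)} {γ : W}
    (h3 : ∀ j r, x j = Y.pr (DD g τ) r → Y.ht r < γ) :
    ∀ (c : ℕ) (S : Finset (Fin k)), S.card = c → ∀ (A : Set (Fin k → Y.Sp3 (DD g τ))),
      x ∈ closure A → (∀ a ∈ A, ∀ j, (x j).1 ∈ DD g τ → a j = x j) →
      (∀ a ∈ A, ∀ j r, a j = Y.pr (DD g τ) r → Y.ht r < γ) →
      ∀ L : Finset ℕ, (∀ a ∈ A, ∀ j, j ∉ S → ∀ κ, Y.FL x a j κ → κ ∈ L) →
      ∃ A₁ ⊆ A, x ∈ closure A₁ ∧ ∃ ζ, ∃ L₁ : Finset ℕ, ∀ a ∈ A₁, ∀ j κ,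
        Y.FL x a j κ → κ ∉ τ ζ ∨ κ ∈ L₁ := by
  classical
  have hτ : ∀ ζ ξ, ζ ≤ ξ → (τ ξ \ τ ζ).Finite := by
    intro ζ ξ h
    rcases lt_or_eq_of_le h with h | h
    · exact hτ2 ζ ξ h
    · rw [h]; simp
  intro c
  induction c using Nat.strong_induction_on with
  | _ c ih =>
  intro S hSc A hx h1 h2 L hL
  by_cases hcase : ∃ ζ, x ∈ closure {a | a ∈ A ∧ ∀ j ∈ S, ∀ κ, Y.FL x a j κ → κ ∉ τ ζ}
  · obtain ⟨ζ, hζ⟩ := hcase
    refine ⟨_, fun a ha => ha.1, hζ, ζ, L, ?_⟩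
    rintro a ⟨ha, ha2⟩ j κ hFL
    by_cases hj : j ∈ S
    · exact Or.inl (ha2 j hj κ hFL)
    · exact Or.inr (hL a ha j hj κ hFL)
  push Not at hcase
  have h4 := fun ζ => Y.notMem_closure_Nk (hcase ζ)
  choose m E hmE using h4
  -- the codes
  let P : W → Finset (ℕ × ℕ) := fun ξ => (L.filter (fun κ => κ ∈ τ ξ)).image (fun κ => (κ, g ξ κ))
  let code : W → ℕ × Finset W × Finset (Finset (ℕ × ℕ)) := fun ζ =>
    (m ζ, (E ζ).filter (fun ξ => ξ < ζ), ((E ζ).filter (fun ξ => ζ ≤ ξ)).image P)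
  let PP : W → Set (ℕ × Finset W × Finset (Finset (ℕ × ℕ))) := fun η => {p | ∀ w ∈ p.2.1, w ≤ η}
  have hPP : ∀ η, (PP η).Countable := by
    intro η
    have e1 : {Q : Finset W | ∀ q ∈ Q, q ∈ Iic η}.Countable :=
      finset_sub_countable (countable_Iic hW η)
    have e2 : PP η = (univ : Set ℕ) ×ˢ ({Q : Finset W | ∀ q ∈ Q, q ∈ Iic η} ×ˢ
        (univ : Set (Finset (Finset (ℕ × ℕ))))) := by
      ext ⟨p1, p2, p3⟩
      exact ⟨fun h => ⟨trivial, h, trivial⟩, fun h => h.2.1⟩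
    rw [e2]
    exact countable_univ.prod (e1.prod countable_univ)
  obtain ⟨f, hf⟩ := exists_closing hW PP hPP (fun _ p x => ∀ ζ, code ζ = p → ζ < x)
  obtain ⟨δ, hbδ, hδ⟩ := exists_closed hW f (Classical.arbitrary W)
  have hunb : ∀ b, ∃ ζ, code ζ = code δ ∧ b ≤ ζ := by
    intro b
    by_contra hcon
    push Not at hcon
    have hη : ∃ η < δ, code δ ∈ PP η := by
      rcases ((E δ).filter (fun ξ => ξ < δ)).eq_empty_or_nonempty with h | h
      · refine ⟨_, hbδ, fun w hw => ?_⟩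
        have hw' : w ∈ (E δ).filter (fun ξ => ξ < δ) := hw
        rw [h] at hw'
        exact absurd hw' (Finset.notMem_empty w)
      · obtain ⟨q, hq, hqm⟩ := Finset.exists_max_image _ id h
        exact ⟨q, (Finset.mem_filter.1 hq).2, fun w hw => hqm w hw⟩
    obtain ⟨η, hηδ, hη⟩ := hη
    obtain ⟨z, hz, hz2⟩ := hf η _ hη ⟨b, hcon⟩
    have := hz2 δ rfl
    exact absurd (this.trans_le (hz.trans (hδ η hηδ).le)) (lt_irrefl _)
  -- the refined set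
  let A₂ : Set (Fin k → Y.Sp3 (DD g τ)) :=
    {a | a ∈ A ∧ a ∈ Y.Nk x (m δ) ((E δ).filter (fun ξ => ξ < δ)) ∧
      ∀ j, j ∉ S → (x j).1 ∉ DD g τ → ∀ i : IdxD, (a j).1 = dpt g τ i →
        ∀ Q ∈ ((E δ).filter (fun ξ => δ ≤ ξ)).image P, ∀ b ∈ i.2.2, (i.2.1, b) ∉ Q}
  have hA₂A : A₂ ⊆ A := fun a ha => ha.1
  have hcode : ∀ ζ, code ζ = code δ → m ζ = m δ ∧
      (E ζ).filter (fun ξ => ξ < ζ) = (E δ).filter (fun ξ => ξ < δ) ∧
      ((E ζ).filter (fun ξ => ζ ≤ ξ)).image P = ((E δ).filter (fun ξ => δ ≤ ξ)).image P := by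
    intro ζ h
    exact ⟨congrArg Prod.fst h, congrArg (fun z => z.2.1) h, congrArg (fun z => z.2.2) h⟩
  have hxA₂ : x ∈ closure A₂ := by
    obtain ⟨ζ, hζc, hζγ⟩ := hunb γ
    obtain ⟨c1, c2, c3⟩ := hcode ζ hζc
    refine closure_mono ?_ (mem_closure_inter_nhds hx (Y.Nk_mem_nhds x (m ζ) (E ζ)))
    rintro a ⟨haA, haN⟩
    refine ⟨haA, ?_, ?_⟩
    · rw [← c1, ← c2]
      exact Y.Nk_mono le_rfl (Finset.filter_subset _ _) haN
    · intro j hjS hj i hi Q hQ b hb hmem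
      rw [← c3] at hQ
      obtain ⟨ξ, hξ, rfl⟩ := Finset.mem_image.1 hQ
      obtain ⟨hξE, hζξ⟩ := Finset.mem_filter.1 hξ
      obtain ⟨κ, hκ, hκe⟩ := Finset.mem_image.1 hmem
      have e1 : κ = i.2.1 := congrArg Prod.fst hκe
      have e2 : g ξ κ = b := congrArg Prod.snd hκe
      have e3 := (Y.val_iff (hζγ.trans hζξ) (h1 a haA) (h2 a haA) h3 j).1
        ((haN j).2.2 ξ hξE) hj i hi
      apply e3
      rw [← e1]
      exact ⟨(Finset.mem_filter.1 hκ).2, by rw [e2]; exact hb⟩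
  -- all points of the refined set have a small free level
  have hstar : ∀ ζ, ∃ e : Set ℕ, e.Finite ∧ ∀ a ∈ A₂, ∃ j ∈ S, ∃ κ, Y.FL x a j κ ∧
      (κ ∈ τ ζ ∨ κ ∈ e) := by
    intro ζ₀
    obtain ⟨ζ, hζc, hζγ⟩ := hunb (max γ ζ₀)
    obtain ⟨c1, c2, c3⟩ := hcode ζ hζc
    have hγζ : γ ≤ ζ := (le_max_left _ _).trans hζγ
    have hζ₀ζ : ζ₀ ≤ ζ := (le_max_right _ _).trans hζγ
    refine ⟨(τ ζ \ τ ζ₀) ∪ ⋃ ξ ∈ {ξ | ξ ∈ E ζ ∧ ζ₀ ≤ ξ}, (τ ξ \ τ ζ₀), ?_, ?_⟩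
    · refine (hτ ζ₀ ζ hζ₀ζ).union (Set.Finite.biUnion ?_ fun ξ hξ => hτ ζ₀ ξ hξ.2)
      exact (E ζ).finite_toSet.subset fun ξ hξ => hξ.1
    · intro a ha
      by_contra hcon
      push Not at hcon
      refine hmE ζ a ⟨ha.1, fun j hj κ hFL hmem => ?_⟩ ?_
      · obtain ⟨e1, e2⟩ := hcon j hj κ hFL
        exact e2 (Or.inl ⟨hmem, e1⟩)
      · intro j
        have haN := ha.2.1
        rw [← c1, ← c2] at haN
        refine ⟨(haN j).1, (haN j).2.1, fun ξ hξ => ?_⟩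
        rcases lt_or_ge ξ ζ with h | h
        · exact (haN j).2.2 ξ (Finset.mem_filter.2 ⟨hξ, h⟩)
        · rw [Y.val_iff (hγζ.trans h) (h1 a ha.1) (h2 a ha.1) h3 j]
          intro hj i hi hi2
          by_cases hjS : j ∈ S
          · obtain ⟨e1, e2⟩ := hcon j hjS i.2.1 ⟨hj, i, hi, rfl⟩
            apply e2
            right
            exact mem_biUnion (x := ξ) ⟨hξ, hζ₀ζ.trans h⟩ ⟨hi2.1, e1⟩
          · have hκL := hL a ha.1 j hjS i.2.1 ⟨hj, i, hi, rfl⟩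
            refine ha.2.2 j hjS hj i hi (P ξ) ?_ (g ξ i.2.1) hi2.2 ?_
            · rw [← c3]
              exact Finset.mem_image.2 ⟨ξ, Finset.mem_filter.2 ⟨hξ, h⟩, rfl⟩
            · exact Finset.mem_image.2 ⟨i.2.1, Finset.mem_filter.2 ⟨hκL, hi2.1⟩, rfl⟩
  have hK : ∃ K : ℕ, ∀ a ∈ A₂, ∃ j ∈ S, ∃ κ, Y.FL x a j κ ∧ κ < K := by
    by_contra hcon
    push Not at hcon
    choose a haA₂ ha using hcon
    obtain ⟨I', _, hI', ζ, hζ⟩ := exists_avoid_tower hτ hmax (fun i j κ => Y.FL x (a i) j κ)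
      (fun i j κ κ' h h' => Y.FL_unique h h') S (fun i j hj κ hFL => ha i j hj κ hFL)
      univ infinite_univ
    obtain ⟨e, he, he2⟩ := hstar ζ
    obtain ⟨b, hb⟩ := he.bddAbove
    obtain ⟨i, hi, hbi⟩ := hI'.exists_gt b
    obtain ⟨j, hj, κ, hFL, hκ⟩ := he2 (a i) (haA₂ i)
    rcases hκ with h | h
    · exact hζ i hi j hj κ hFL h
    · have e1 := hb h
      have e2 := ha i j hj κ hFL
      omega
  obtain ⟨K, hK⟩ := hK
  have hcov : A₂ ⊆ ⋃ p ∈ {p : Fin k × ℕ | p.1 ∈ S ∧ p.2 < K}, {a | a ∈ A₂ ∧ Y.FL x a p.1 p.2} := by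
    intro a ha
    obtain ⟨j, hj, κ, hFL, hκ⟩ := hK a ha
    exact mem_biUnion (x := (j, κ)) ⟨hj, hκ⟩ ⟨ha, hFL⟩
  have hfin : {p : Fin k × ℕ | p.1 ∈ S ∧ p.2 < K}.Finite := by
    refine (S.finite_toSet.prod (finite_Iio K)).subset ?_
    rintro ⟨j, κ⟩ ⟨e1, e2⟩
    exact ⟨e1, e2⟩
  have hx2 := closure_mono hcov hxA₂
  rw [hfin.closure_biUnion] at hx2
  obtain ⟨⟨j, κ⟩, ⟨hjS, _⟩, hx3⟩ := mem_iUnion₂.1 hx2
  have hcard : (S.erase j).card < c := by
    rw [← hSc]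
    exact Finset.card_erase_lt_of_mem hjS
  obtain ⟨A₁, g1, g2, g3⟩ := ih _ hcard (S.erase j) rfl {a | a ∈ A₂ ∧ Y.FL x a j κ} hx3
    (fun a ha => h1 a ha.1.1) (fun a ha => h2 a ha.1.1) (insert κ L) (by
      intro a ha j' hj' κ' hFL
      by_cases hjj : j' = j
      · subst hjj
        rw [Y.FL_unique hFL ha.2]
        exact Finset.mem_insert_self _ _
      · refine Finset.mem_insert_of_mem (hL a ha.1.1 j' ?_ κ' hFL)
        intro hmem
        exact hj' (Finset.mem_erase.2 ⟨hjj, hmem⟩))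
  exact ⟨A₁, fun a ha => hA₂A (g1 ha).1, g2, g3⟩

/-- If the tower is maximal, then all finite powers are Fréchet-Urysohn. -/
theorem frechet_of_maximal [Uncountable W] (hW : ∀ b : W, (Iio b).Countable) {g : W → ℕ → ℕ}
    {τ : W → Set ℕ} (hτ2 : ∀ ζ ξ, ζ < ξ → (τ ξ \ τ ζ).Finite)
    (hmax : ∀ I : Set ℕ, I.Infinite → ∃ ζ, (I \ τ ζ).Infinite) (k : ℕ) :
    FrechetUrysohnSpace (Fin k → Y.Sp3 (DD g τ)) := by
  classical
  constructor
  intro A x hx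
  obtain ⟨B, hBA, hBc, hxB⟩ := Y.tight_pow hW A x hx
  -- a bound for the heights
  choose β hβ using fun y : Fin k → Y.Sp3 (DD g τ) => Y.exists_height hW y
  obtain ⟨γ, hγ⟩ := exists_gt_countable hW ((hBc.image β).union (countable_singleton (β x)))
  -- coordinates at isolated points are eventually constant
  have hN : {y : Fin k → Y.Sp3 (DD g τ) | ∀ j, (x j).1 ∈ DD g τ → y j = x j} ∈ 𝓝 x := by
    have : ∀ᶠ y in 𝓝 x, ∀ j, (x j).1 ∈ DD g τ → y j = x j := by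
      rw [eventually_all]
      intro j
      by_cases hj : (x j).1 ∈ DD g τ
      · have h1 : ∀ᶠ y in 𝓝 x, y j ∈ ({x j} : Set (Y.Sp3 (DD g τ))) :=
          (continuous_apply j).continuousAt ((Y.isOpen_singleton_of_mem (x j) hj).mem_nhds rfl)
        filter_upwards [h1] with y hy _
        exact hy
      · exact Eventually.of_forall fun y h => absurd h hj
    exact this
  have hx2 := mem_closure_inter_nhds hxB hN
  have h1 : ∀ a ∈ B ∩ {y : Fin k → Y.Sp3 (DD g τ) | ∀ j, (x j).1 ∈ DD g τ → y j = x j},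
      ∀ j, (x j).1 ∈ DD g τ → a j = x j := fun a ha => ha.2
  have h2 : ∀ a ∈ B ∩ {y : Fin k → Y.Sp3 (DD g τ) | ∀ j, (x j).1 ∈ DD g τ → y j = x j},
      ∀ j r, a j = Y.pr (DD g τ) r → Y.ht r < γ := fun a ha j r hr =>
    (hβ a j r hr).trans (hγ _ (Or.inl ⟨a, ha.1, rfl⟩))
  have h3 : ∀ j r, x j = Y.pr (DD g τ) r → Y.ht r < γ := fun j r hr =>
    (hβ x j r hr).trans (hγ _ (Or.inr rfl))
  obtain ⟨A₁, hA₁, hxA₁, ζ, L, hL⟩ := Y.restrict_exists hW hτ2 hmax h3 _ Finset.univ rfl _ hx2 h1 h2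
    ∅ (fun a _ j hj => absurd (Finset.mem_univ j) hj)
  obtain ⟨u, hu1, hu2⟩ := Y.seq_of_levels hW hτ2 hxA₁ (fun a ha => h1 a (hA₁ ha))
    (fun a ha => h2 a (hA₁ ha)) h3 ζ L hL
  exact ⟨u, fun i => hBA (hA₁ (hu1 i)).1, hu2⟩

end Sys

end Run7.h584
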