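import Pool.Agent.Run7.h584.Trace

set_option linter.unusedSectionVars false

/-!
Moore's oscillation theorem.
-/

namespace Run7.h584

open Set

variable {W : Type*} [LinearOrder W] [WellFoundedLT W]

theorem finset_below_countable (hW : ∀ b : W, (Iio b).Countable) (γ : W) :
    {s : Finset W | ∀ x ∈ s, x < γ}.Countable := by
  classical
  have : Countable (Iio γ) := (hW γ).to_subtype
  refine (countable_range (fun s : Finset (Iio γ) => s.image Subtype.val)).mono ?_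
  intro s hs
  refine ⟨s.attach.image (fun y => ⟨y.1, hs y.1 y.2⟩), ?_⟩
  ext x
  simp only [Finset.mem_image, Finset.mem_attach, true_and, Subtype.exists]
  constructor
  · rintro ⟨a, ha, ⟨b, hb, hab⟩, rfl⟩
    have : b = a := congrArg Subtype.val hab
    exact this ▸ hb
  · intro hx
    exact ⟨x, hs x hx, ⟨x, hx, rfl⟩, rfl⟩

/-- Witnesses for countably many conditions below each point can be bounded. -/
theorem exists_closing [Uncountable W] (hW : ∀ b : W, (Iio b).Countable) {α : Type*}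
    (P : W → Set α) (hP : ∀ γ, (P γ).Countable) (Φ : W → α → W → Prop) :
    ∃ f : W → W, ∀ γ, ∀ p ∈ P γ, (∃ x, Φ γ p x) → ∃ x, x ≤ f γ ∧ Φ γ p x := by
  classical
  have h : ∀ γ p, ∃ x, (∃ x, Φ γ p x) → Φ γ p x := by
    intro γ p
    by_cases h : ∃ x, Φ γ p x
    · obtain ⟨x, hx⟩ := h
      exact ⟨x, fun _ => hx⟩
    · exact ⟨γ, fun h' => absurd h' h⟩
  choose w hw using h
  have h2 : ∀ γ, ∃ c, ∀ p ∈ P γ, w γ p < c := by
    intro γ
    obtain ⟨c, hc⟩ := exists_gt_countable hW ((hP γ).image (w γ))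
    exact ⟨c, fun p hp => hc _ ⟨p, hp, rfl⟩⟩
  choose f hf using h2
  exact ⟨f, fun γ p hp hex => ⟨w γ p, (hf γ p hp).le, hw γ p hex⟩⟩

/-- A function with larger values. -/
theorem exists_succ_fun [Uncountable W] (hW : ∀ b : W, (Iio b).Countable) :
    ∃ f : W → W, ∀ γ, γ < f γ := by
  have : ∀ γ : W, ∃ c, γ < c := by
    intro γ
    obtain ⟨c, hc⟩ := exists_gt_countable hW (countable_singleton γ)
    exact ⟨c, hc γ rfl⟩
  choose f hf using this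
  exact ⟨f, hf⟩

namespace CSeq

variable (S : CSeq W)

theorem exists_gamma {δ : W} (h0 : ∃ η, η < δ) (hlim : ∀ η < δ, ∃ η', η < η' ∧ η' < δ)
    {F : Set W} (hF : F.Finite) (hFδ : ∀ x ∈ F, x < δ) :
    ∃ c, c ∈ S.C δ ∧ ∀ x ∈ F, x < c := by
  have h1 : ∃ η, η < δ ∧ ∀ x ∈ F, x ≤ η := by
    rcases F.eq_empty_or_nonempty with h | h
    · obtain ⟨η, hη⟩ := h0
      exact ⟨η, hη, by simp [h]⟩
    · obtain ⟨m, hm, hmax⟩ := hF.exists_maximalFor id _ h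
      refine ⟨m, hFδ m hm, fun x hx => ?_⟩
      rcases le_total x m with h3 | h3
      · exact h3
      · exact hmax hx h3
  obtain ⟨η, hη, hηF⟩ := h1
  obtain ⟨η', hη', hη'δ⟩ := hlim η hη
  obtain ⟨c, hc, hle⟩ := S.cof' δ η' hη'δ
  exact ⟨c, hc, fun x hx => (hηF x hx).trans_lt (hη'.trans_le hle)⟩

/-- The parameters of the reflection arguments. -/
def Par (S : CSeq W) (k l : ℕ) (γ : W) :
    Set (W × (Fin k → W → ℕ) × (Fin l → W → ℕ) × (Fin l → Finset W)) :=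
  {p | p.1 ≤ γ ∧ (∀ i, p.2.1 i ∈ range (S.res p.1)) ∧ (∀ j, p.2.2.1 j ∈ range (S.res p.1)) ∧
    ∀ j, ∀ x ∈ p.2.2.2 j, x < γ}

theorem Par_countable [Uncountable W] (hW : ∀ b : W, (Iio b).Countable) (k l : ℕ) (γ : W) :
    (S.Par k l γ).Countable := by
  classical
  have h1 : S.Par k l γ ⊆ ⋃ γ₀ ∈ Iic γ, (fun q => (γ₀, q)) ''
      ({g : Fin k → W → ℕ | ∀ i, g i ∈ range (S.res γ₀)} ×ˢ
        ({h : Fin l → W → ℕ | ∀ j, h j ∈ range (S.res γ₀)} ×ˢ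
          {Λ : Fin l → Finset W | ∀ j, Λ j ∈ {s : Finset W | ∀ x ∈ s, x < γ}})) := by
    rintro ⟨γ₀, g, h, Λ⟩ ⟨h1, h2, h3, h4⟩
    refine mem_biUnion (x := γ₀) h1 ?_
    exact ⟨(g, h, Λ), ⟨h2, h3, h4⟩, rfl⟩
  refine Countable.mono h1 ((countable_Iic hW γ).biUnion ?_)
  intro γ₀ _
  apply Countable.image
  refine (countable_pi (fun _ => S.res_countable hW γ₀)).prod
    ((countable_pi (fun _ => S.res_countable hW γ₀)).prod
      (countable_pi (fun _ => finset_below_countable hW γ)))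

theorem res_eq_iff {γ α β : W} (h : S.res γ α = S.res γ β) {ξ : W} (hξ : ξ < γ) :
    S.rho ξ α = S.rho ξ β := by
  rw [← S.res_apply hξ, h, S.res_apply hξ]

/-- The common conclusion of the two key lemmas. -/
def Ext (S : CSeq W) {k l : ℕ} (A : Set (Fin k → W)) (B : Set (Fin l → W))
    (R : ℕ → ℕ → Prop) (δ : W) (a : Fin k → W) (b : Fin l → W) : Prop :=
  ∃ a' ∈ A, (∀ i, δ ≤ a' i) ∧ ∃ b' ∈ B, (∀ j, δ ≤ b' j) ∧ ∃ (γ : W) (E : Finset W),
    γ < δ ∧ (∀ j, ∀ x ∈ S.L δ (b j), x < γ) ∧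
    (∀ ξ, ξ < γ → (∀ i, S.rho ξ (a' i) = S.rho ξ (a i)) ∧ ∀ j, S.rho ξ (b' j) = S.rho ξ (b j)) ∧
    E.Nonempty ∧ (∀ x ∈ E, γ ≤ x ∧ x < δ) ∧ (∀ j, S.L δ (b' j) = S.L δ (b j) ∪ E) ∧
    ∀ x ∈ E, ∀ i j, R (S.rho x (a' i)) (S.rho x (b' j))

theorem L_eq_union {α β γ : W} (hαβ : α ≤ β) (hβγ : β ≤ γ) (h1 : ∀ m ∈ S.L β γ, m < α)
    (h2 : ∀ m ∈ S.L β γ, ∀ x ∈ S.L α β, m < x) : S.L α γ = S.L β γ ∪ S.L α β := by
  ext x
  rw [Finset.mem_union, S.L_union γ β α hαβ hβγ h1 h2, or_comm]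

theorem keyEq [Uncountable W] (hW : ∀ b : W, (Iio b).Countable) {k l : ℕ}
    (A : Set (Fin k → W)) (B : Set (Fin l → W)) :
    ∃ f : W → W, ∀ δ, (∃ η, η < δ) → (∀ η < δ, f η < δ) → ∀ a ∈ A, (∀ i, δ ≤ a i) →
      ∀ b ∈ B, (∀ j, δ ≤ b j) → S.Ext A B (fun x y => x = y) δ a b := by
  classical
  obtain ⟨s, hs⟩ := exists_succ_fun hW
  let E : (W × (Fin k → W → ℕ) × (Fin l → W → ℕ) × (Fin l → Finset W)) → W → Prop := fun p ε =>
    ∃ a ∈ A, ∃ b ∈ B, (∀ i, ε ≤ a i) ∧ (∀ j, ε ≤ b j) ∧ (∀ i, S.res p.1 (a i) = p.2.1 i) ∧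
      (∀ j, S.res p.1 (b j) = p.2.2.1 j) ∧ (∀ j, S.L ε (b j) = p.2.2.2 j) ∧
      ∀ ξ, p.1 ≤ ξ → ξ < ε → ∀ i j, S.rho ξ (a i) = S.rho ξ (b j)
  let G : (W × (Fin k → W → ℕ) × (Fin l → W → ℕ) × (Fin l → Finset W)) → W → Prop := fun p δ' =>
    ∃ ε, δ' < ε ∧ E p ε ∧ (S.L δ' ε).Nonempty ∧ ∀ x ∈ S.L δ' ε, p.1 ≤ x
  obtain ⟨f₁, hf₁⟩ := exists_closing hW (S.Par k l) (S.Par_countable hW k l)
    (fun γ p x => γ < x ∧ E p x ∧ ¬ G p x)
  refine ⟨fun η => max (s η) (f₁ η), fun δ h0 hδ a haA ha b hbB hb => ?_⟩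
  have hlim : ∀ η < δ, ∃ η', η < η' ∧ η' < δ := fun η hη =>
    ⟨s η, hs η, (le_max_left _ _).trans_lt (hδ η hη)⟩
  have hf₁δ : ∀ η < δ, f₁ η < δ := fun η hη => (le_max_right _ _).trans_lt (hδ η hη)
  -- choose γ
  have hF : ((⋃ i, {ξ | ξ < δ ∧ S.rho ξ δ ≠ S.rho ξ (a i)}) ∪
      ((⋃ j, {ξ | ξ < δ ∧ S.rho ξ δ ≠ S.rho ξ (b j)}) ∪ ⋃ j, {x | x ∈ S.L δ (b j)})).Finite := by
    refine (finite_iUnion (fun i => S.rho_coh _ _ (ha i))).union
      ((finite_iUnion (fun j => S.rho_coh _ _ (hb j))).union (finite_iUnion (fun j => ?_)))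
    exact (S.L δ (b j)).finite_toSet
  obtain ⟨γ, hγC, hγ⟩ := S.exists_gamma h0 hlim hF (by
    rintro x (hx | hx | hx)
    · obtain ⟨i, hi⟩ := mem_iUnion.1 hx; exact hi.1
    · obtain ⟨j, hj⟩ := mem_iUnion.1 hx; exact hj.1
    · obtain ⟨j, hj⟩ := mem_iUnion.1 hx
      exact S.L_lt _ _ (hb j) x hj)
  have hγδ : γ < δ := S.lt' _ _ hγC
  have hγa : ∀ ξ, γ ≤ ξ → ξ < δ → ∀ i, S.rho ξ δ = S.rho ξ (a i) := by
    intro ξ h1 h2 i
    by_contra hcon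
    exact absurd (hγ ξ (Or.inl (mem_iUnion.2 ⟨i, h2, hcon⟩))) (not_lt.2 h1)
  have hγb : ∀ ξ, γ ≤ ξ → ξ < δ → ∀ j, S.rho ξ δ = S.rho ξ (b j) := by
    intro ξ h1 h2 j
    by_contra hcon
    exact absurd (hγ ξ (Or.inr (Or.inl (mem_iUnion.2 ⟨j, h2, hcon⟩)))) (not_lt.2 h1)
  have hγL : ∀ j, ∀ x ∈ S.L δ (b j), x < γ := by
    intro j x hx
    exact hγ x (Or.inr (Or.inr (mem_iUnion.2 ⟨j, hx⟩)))
  let p : W × (Fin k → W → ℕ) × (Fin l → W → ℕ) × (Fin l → Finset W) :=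
    (γ, fun i => S.res γ (a i), fun j => S.res γ (b j), fun j => S.L δ (b j))
  have hp : p ∈ S.Par k l γ := ⟨le_rfl, fun i => ⟨_, rfl⟩, fun j => ⟨_, rfl⟩, hγL⟩
  have hE : E p δ := ⟨a, haA, b, hbB, ha, hb, fun _ => rfl, fun _ => rfl, fun _ => rfl,
    fun ξ h1 h2 i j => (hγa ξ h1 h2 i).symm.trans (hγb ξ h1 h2 j)⟩
  have hG : G p δ := by
    by_contra hcon
    obtain ⟨δ', h1, h2, h3, h4⟩ := hf₁ γ p hp ⟨δ, hγδ, hE, hcon⟩
    have hδ' : δ' < δ := h1.trans_lt (hf₁δ γ hγδ)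
    exact h4 ⟨δ, hδ', hE, S.L_nonempty hδ' hγC h2, S.L_ge hδ' hγC h2⟩
  obtain ⟨ε, hε, ⟨a', ha'A, b', hb'B, h1, h2, h3, h4, h5, h6⟩, h7, h8⟩ := hG
  refine ⟨a', ha'A, fun i => hε.le.trans (h1 i), b', hb'B, fun j => hε.le.trans (h2 j), γ,
    S.L δ ε, hγδ, hγL, ?_, h7, ?_, ?_, ?_⟩
  · intro ξ hξ
    exact ⟨fun i => S.res_eq_iff (h3 i) hξ, fun j => S.res_eq_iff (h4 j) hξ⟩
  · intro x hx
    exact ⟨h8 x hx, S.L_lt _ _ hε.le x hx⟩
  · intro j
    have h9 : S.L ε (b' j) = S.L δ (b j) := h5 j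
    rw [S.L_eq_union hε.le (h2 j), h9]
    · intro m hm
      rw [h9] at hm
      exact (hγL j m hm).trans hγδ
    · intro m hm x hx
      rw [h9] at hm
      exact (hγL j m hm).trans_le (h8 x hx)
  · intro x hx i j
    exact h6 x (h8 x hx) ((S.L_lt _ _ hε.le x hx).trans hε) i j

theorem keyGt [Uncountable W] (hW : ∀ b : W, (Iio b).Countable) {k l : ℕ}
    (A : Set (Fin k → W)) (B : Set (Fin l → W)) :
    ∃ f : W → W, ∀ δ, (∃ η, η < δ) → (∀ η < δ, f η < δ) → ∀ a ∈ A, (∀ i, δ ≤ a i) →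
      ∀ b ∈ B, (∀ j, δ ≤ b j) → S.Ext A B (fun x y => y < x) δ a b := by
  classical
  obtain ⟨s, hs⟩ := exists_succ_fun hW
  let E : (W × (Fin k → W → ℕ) × (Fin l → W → ℕ) × (Fin l → Finset W)) → W →
      (Fin l → W) → Prop := fun p ε b =>
    b ∈ B ∧ (∀ j, ε ≤ b j) ∧ (∀ j, S.res p.1 (b j) = p.2.2.1 j) ∧
      (∀ j, S.L ε (b j) = p.2.2.2 j)
  let G : (W × (Fin k → W → ℕ) × (Fin l → W → ℕ) × (Fin l → Finset W)) → W → Prop := fun p δ' =>
    ∃ ε, δ' < ε ∧ ∃ b, E p ε b ∧ (S.L δ' ε).Nonempty ∧ (∀ x ∈ S.L δ' ε, p.1 ≤ x) ∧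
      ∃ a ∈ A, (∀ i, δ' ≤ a i) ∧ (∀ i, S.res p.1 (a i) = p.2.1 i) ∧
        ∀ x ∈ S.L δ' ε, ∀ i j, S.rho x (b j) < S.rho x (a i)
  let Q : (W × (Fin k → W → ℕ) × (Fin l → W → ℕ) × (Fin l → Finset W)) → W → Prop := fun p ε =>
    (∃ b, E p ε b) ∧ ¬ G p ε
  let H : (W × (Fin k → W → ℕ) × (Fin l → W → ℕ) × (Fin l → Finset W)) → W → Prop := fun p γ =>
    ∃ δ' ε, δ' < ε ∧ Q p δ' ∧ Q p ε ∧ (S.L δ' ε).Nonempty ∧ ∀ x ∈ S.L δ' ε, γ < x
  obtain ⟨f₁, hf₁⟩ := exists_closing hW (S.Par k l) (S.Par_countable hW k l)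
    (fun γ p x => γ < x ∧ Q p x)
  obtain ⟨f₂, hf₂⟩ := exists_closing hW (S.Par k l) (S.Par_countable hW k l)
    (fun γ p x => ¬ H p x)
  obtain ⟨f₃, hf₃⟩ := exists_closing hW (S.Par k l) (S.Par_countable hW k l)
    (fun γ p x => ¬ ∃ a ∈ A, (∀ i, x ≤ a i) ∧ ∀ i, S.res p.1 (a i) = p.2.1 i)
  refine ⟨fun η => max (s η) (max (f₁ η) (max (f₂ η) (f₃ η))),
    fun δ h0 hδ a haA ha b hbB hb => ?_⟩
  have hlim : ∀ η < δ, ∃ η', η < η' ∧ η' < δ := fun η hη =>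
    ⟨s η, hs η, (le_max_left _ _).trans_lt (hδ η hη)⟩
  have hf₁δ : ∀ η < δ, f₁ η < δ := fun η hη =>
    ((le_max_left _ _).trans (le_max_right _ _)).trans_lt (hδ η hη)
  have hf₂δ : ∀ η < δ, f₂ η < δ := fun η hη =>
    (((le_max_left _ _).trans (le_max_right _ _)).trans (le_max_right _ _)).trans_lt (hδ η hη)
  have hf₃δ : ∀ η < δ, f₃ η < δ := fun η hη =>
    (((le_max_right _ _).trans (le_max_right _ _)).trans (le_max_right _ _)).trans_lt (hδ η hη)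
  -- choose γ
  have hF : (⋃ j, {x | x ∈ S.L δ (b j)}).Finite := by
    refine (finite_iUnion (fun j => ?_))
    exact (S.L δ (b j)).finite_toSet
  obtain ⟨γ, hγC, hγ⟩ := S.exists_gamma h0 hlim hF (by
    intro x hx
    obtain ⟨j, hj⟩ := mem_iUnion.1 hx
    exact S.L_lt _ _ (hb j) x hj)
  have hγδ : γ < δ := S.lt' _ _ hγC
  have hγL : ∀ j, ∀ x ∈ S.L δ (b j), x < γ := by
    intro j x hx
    exact hγ x (mem_iUnion.2 ⟨j, hx⟩)
  let p : W × (Fin k → W → ℕ) × (Fin l → W → ℕ) × (Fin l → Finset W) :=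
    (γ, fun i => S.res γ (a i), fun j => S.res γ (b j), fun j => S.L δ (b j))
  have hp : ∀ c, γ ≤ c → p ∈ S.Par k l c := fun c hc =>
    ⟨hc, fun i => ⟨_, rfl⟩, fun j => ⟨_, rfl⟩, fun j x hx => (hγL j x hx).trans_le hc⟩
  have hE : E p δ b := ⟨hbB, hb, fun _ => rfl, fun _ => rfl⟩
  have hG : G p δ := by
    by_contra hcon
    have hQ : Q p δ := ⟨⟨b, hE⟩, hcon⟩
    have hH : ∀ x, H p x := by
      by_contra hc
      push Not at hc
      obtain ⟨x, h1, h2⟩ := hf₂ γ p (hp γ le_rfl) hc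
      have hxδ : x < δ := h1.trans_lt (hf₂δ γ hγδ)
      obtain ⟨c, hc, hcx⟩ := S.exists_gamma h0 hlim (F := {x, γ}) (toFinite _) (by
        rintro y (rfl | rfl)
        · exact hxδ
        · exact hγδ)
      have hcδ := S.lt' _ _ hc
      obtain ⟨δ', h3, h4, h5⟩ := hf₁ c p (hp c (hcx γ (Or.inr rfl)).le) ⟨δ, hcδ, hQ⟩
      have hδ' : δ' < δ := h3.trans_lt (hf₁δ c hcδ)
      exact h2 ⟨δ', δ, hδ', h5, hQ, S.L_nonempty hδ' hc h4, fun y hy =>
        (hcx x (Or.inl rfl)).trans_le (S.L_ge hδ' hc h4 y hy)⟩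
    have hA : ∀ x, ∃ a ∈ A, (∀ i, x ≤ a i) ∧ ∀ i, S.res p.1 (a i) = p.2.1 i := by
      by_contra hc
      push Not at hc
      obtain ⟨x, h1, h2⟩ := hf₃ γ p (hp γ le_rfl) (by
        obtain ⟨x, hx⟩ := hc
        refine ⟨x, ?_⟩
        rintro ⟨a, h1, h2, h3⟩
        obtain ⟨i, hi⟩ := hx a h1 h2
        exact hi (h3 i))
      have hxδ : x < δ := h1.trans_lt (hf₃δ γ hγδ)
      exact h2 ⟨a, haA, fun i => hxδ.le.trans (ha i), fun _ => rfl⟩
    choose d e hde hQd hQe hLne hLgt using hH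
    have hex : ∀ x, ∃ b', E p (e x) b' := fun x => (hQe x).1
    choose b' hb' using hex
    have hbd : ∀ x, ∃ n : ℕ, ∀ y ∈ S.L (d x) (e x), ∀ j, S.rho y (b' x j) ≤ n := by
      intro x
      refine ⟨(S.L (d x) (e x)).sup (fun y => Finset.univ.sup (fun j => S.rho y (b' x j))), ?_⟩
      intro y hy j
      refine le_trans ?_ (Finset.le_sup (f := fun y => Finset.univ.sup (fun j => S.rho y (b' x j))) hy)
      exact Finset.le_sup (f := fun j => S.rho y (b' x j)) (Finset.mem_univ j)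
    choose n hn using hbd
    have hnc : ∃ N, ¬ {x | n x = N}.Countable := by
      by_contra hc
      push Not at hc
      have h1 : (univ : Set W) = ⋃ N, {x | n x = N} := by ext x; simp
      have h2 : (univ : Set W).Countable := by
        rw [h1]; exact countable_iUnion hc
      exact not_countable (α := W) (countable_univ_iff.1 h2)
    obtain ⟨N, hN⟩ := hnc
    have hnx : ∀ η, ∃ x, η < x ∧ n x = N := by
      intro η
      by_contra hc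
      push Not at hc
      apply hN
      refine (countable_Iic hW η).mono (fun x hx => ?_)
      by_contra hlt
      exact hc x (not_le.1 hlt) hx
    choose nx hnx1 hnx2 using hnx
    let u : ℕ → W := fun t => Nat.rec (nx γ) (fun _ x => nx (e x)) t
    have hu0 : u 0 = nx γ := rfl
    have hus : ∀ t, u (t + 1) = nx (e (u t)) := fun t => rfl
    have huN : ∀ t, n (u t) = N := by
      intro t
      cases t with
      | zero => rw [hu0]; exact hnx2 _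
      | succ t => rw [hus]; exact hnx2 _
    have heu : ∀ t, e (u t) < u (t + 1) := fun t => by rw [hus]; exact hnx1 _
    have hLde : ∀ t, ∀ x ∈ S.L (d (u t)) (e (u t)), u t < x ∧ x < e (u t) := fun t x hx =>
      ⟨hLgt _ x hx, (S.L_lt _ _ (hde _).le x hx).trans (hde _)⟩
    have hue : ∀ t, u t < e (u t) := by
      intro t
      obtain ⟨x, hx⟩ := hLne (u t)
      exact (hLde t x hx).1.trans (hLde t x hx).2
    have hγu : ∀ t, γ < u t := by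
      intro t
      induction t with
      | zero => rw [hu0]; exact hnx1 _
      | succ t ih => exact (ih.trans (hue t)).trans (heu t)
    obtain ⟨η, hη⟩ := exists_gt_countable hW (countable_range (fun t => e (u t)))
    obtain ⟨a₁, ha₁A, ha₁, ha₁r⟩ := hA η
    have hbad : ∀ t, ∃ x ∈ S.L (d (u t)) (e (u t)), ∃ i, S.rho x (a₁ i) ≤ N := by
      intro t
      by_contra hc
      push Not at hc
      apply (hQd (u t)).2
      refine ⟨e (u t), hde _, b' (u t), hb' _, hLne _, ?_, a₁, ha₁A, ?_, ha₁r, ?_⟩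
      · intro x hx
        exact (hγu t).le.trans (hLgt _ x hx).le
      · intro i
        exact ((hde _).trans (hη _ ⟨t, rfl⟩)).le.trans (ha₁ i)
      · intro x hx i j
        have h1 := hn (u t) x hx j
        rw [huN t] at h1
        exact h1.trans_lt (hc x hx i)
    choose x hx i hi using hbad
    have hxmono : StrictMono x := by
      apply strictMono_nat_of_lt_succ
      intro t
      exact ((hLde t _ (hx t)).2.trans (heu t)).trans (hLde (t + 1) _ (hx (t + 1))).1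
    have hfin : (⋃ i, {ξ | ξ < a₁ i ∧ S.rho ξ (a₁ i) ≤ N}).Finite :=
      finite_iUnion (fun i => S.rho_fin _ _)
    refine infinite_of_injective_forall_mem hxmono.injective (fun t => ?_) hfin
    refine mem_iUnion.2 ⟨i t, ?_, hi t⟩
    exact ((hLde t _ (hx t)).2.trans (hη _ ⟨t, rfl⟩)).trans_le (ha₁ (i t))
  obtain ⟨ε, hε, b', ⟨hb'B, h2, h4, h5⟩, h7, h8, a', ha'A, h1, h3, h6⟩ := hG
  refine ⟨a', ha'A, h1, b', hb'B, fun j => hε.le.trans (h2 j), γ,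
    S.L δ ε, hγδ, hγL, ?_, h7, ?_, ?_, ?_⟩
  · intro ξ hξ
    exact ⟨fun i => S.res_eq_iff (h3 i) hξ, fun j => S.res_eq_iff (h4 j) hξ⟩
  · intro x hx
    exact ⟨h8 x hx, S.L_lt _ _ hε.le x hx⟩
  · intro j
    have h9 : S.L ε (b' j) = S.L δ (b j) := h5 j
    rw [S.L_eq_union hε.le (h2 j), h9]
    · intro m hm
      rw [h9] at hm
      exact (hγL j m hm).trans hγδ
    · intro m hm x hx
      rw [h9] at hm
      exact (hγL j m hm).trans_le (h8 x hx)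
  · intro x hx i j
    exact h6 x hx i j

end CSeq

end Run7.h584
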