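import Pool.Agent.Run7.h584.Moore

set_option linter.unusedSectionVars false

/-!
Moore's oscillation theorem: the iteration and the final statement.
-/

namespace Run7.h584

open Set

namespace CSeq

variable {W : Type*} [LinearOrder W] [WellFoundedLT W] (S : CSeq W)

/-- The status function. -/
def st (S : CSeq W) (α β : W) : W → Prop := fun ξ => S.rho ξ β < S.rho ξ α

theorem osc_eq (α β : W) : S.osc α β = Osc (S.st α β) (S.L α β) := rfl

/-- The state of the iteration after `m` steps. -/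
def Stage (S : CSeq W) {k l : ℕ} (A : Set (Fin k → W)) (B : Set (Fin l → W)) (δ : W)
    (D : Fin k → Fin l → ℕ) (m : ℕ) (a : Fin k → W) (b : ℕ → Fin l → W) : Prop :=
  a ∈ A ∧ (∀ i, δ ≤ a i) ∧ (∀ t ≤ m, b t ∈ B ∧ (∀ j, δ ≤ b t j) ∧
    (∀ i j, Osc (S.st (a i) (b t j)) (S.L δ (b t j)) = D i j + t) ∧
    (∀ i j, ∃ x ∈ S.L δ (b t j), (∀ y ∈ S.L δ (b t j), y ≤ x) ∧ ¬ S.st (a i) (b t j) x)) ∧
    ∀ t ≤ m, ∀ j, S.L δ (b t j) ⊆ S.L δ (b m j)

theorem stage_zero {k l : ℕ} {A : Set (Fin k → W)} {B : Set (Fin l → W)} {δ : W}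
    {a : Fin k → W} {b : Fin l → W}
    (hE : S.Ext A B (fun x y => x = y) δ a b) :
    ∃ a' b', S.Stage A B δ (fun i j => Osc (S.st (a i) (b j)) (S.L δ (b j))) 0 a' b' := by
  classical
  obtain ⟨a', ha'A, ha', b', hb'B, hb', γ, E, hγδ, hγL, hagree, hEne, hEγ, hLE, hEeq⟩ := hE
  refine ⟨a', fun _ => b', ha'A, ha', ?_, fun t ht j => Finset.Subset.refl _⟩
  intro t ht
  have ht0 : t = 0 := Nat.le_zero.1 ht
  subst ht0
  refine ⟨hb'B, hb', ?_, ?_⟩
  · intro i j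
    show Osc (S.st (a' i) (b' j)) (S.L δ (b' j)) = Osc (S.st (a i) (b j)) (S.L δ (b j)) + 0
    rw [hLE j, Osc_union_false, Nat.add_zero]
    · refine Osc_congr rfl ?_
      intro x hx
      have h1 := hagree x (hγL j x hx)
      unfold st
      rw [h1.1 i, h1.2 j]
    · intro x hx y hy
      exact (hγL j x hx).trans_le (hEγ y hy).1
    · intro x hx
      unfold st
      rw [hEeq x hx i j]
      exact lt_irrefl _
  · intro i j
    obtain ⟨m, hm, hmax⟩ := E.exists_max_image id hEne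
    refine ⟨m, ?_, ?_, ?_⟩
    · show m ∈ S.L δ (b' j)
      rw [hLE j]
      exact Finset.mem_union_right _ hm
    · intro y hy
      have hy' : y ∈ S.L δ (b' j) := hy
      rw [hLE j, Finset.mem_union] at hy'
      rcases hy' with hy' | hy'
      · exact ((hγL j y hy').trans_le (hEγ m hm).1).le
      · exact hmax y hy'
    · show ¬ S.st (a' i) (b' j) m
      unfold st
      rw [hEeq m hm i j]
      exact lt_irrefl _

theorem stage_succ {k l : ℕ} {A : Set (Fin k → W)} {B : Set (Fin l → W)} {δ : W}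
    (hGt : ∀ a ∈ A, (∀ i, δ ≤ a i) → ∀ b ∈ B, (∀ j, δ ≤ b j) →
      S.Ext A B (fun x y => y < x) δ a b)
    (hEq : ∀ a ∈ A, (∀ i, δ ≤ a i) → ∀ b ∈ B, (∀ j, δ ≤ b j) →
      S.Ext A B (fun x y => x = y) δ a b)
    {D : Fin k → Fin l → ℕ} {m : ℕ} {a : Fin k → W} {b : ℕ → Fin l → W}
    (hS : S.Stage A B δ D m a b) : ∃ a' b', S.Stage A B δ D (m + 1) a' b' := by
  classical
  obtain ⟨haA, ha, hb, hsub⟩ := hS
  obtain ⟨hbB, hbδ, hbO, hbm⟩ := hb m le_rfl
  obtain ⟨a₁, ha₁A, ha₁, b₁, hb₁B, hb₁, γ₁, G, hγ₁δ, hγ₁L, hag₁, hGne, hGγ, hLG, hGgt⟩ :=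
    hGt a haA ha (b m) hbB hbδ
  obtain ⟨a₂, ha₂A, ha₂, b₂, hb₂B, hb₂, γ₂, E, hγ₂δ, hγ₂L, hag₂, hEne, hEγ, hLE, hEeq⟩ :=
    hEq a₁ ha₁A ha₁ b₁ hb₁B hb₁
  let b' : ℕ → Fin l → W := fun t => if t ≤ m then b t else b₂
  have hb'1 : ∀ t, t ≤ m → b' t = b t := fun t ht => if_pos ht
  have hb'2 : b' (m + 1) = b₂ := if_neg (by omega)
  have hLm : ∀ j, S.L δ (b m j) ⊆ S.L δ (b₁ j) := fun j => by
    rw [hLG j]; exact Finset.subset_union_left
  have hL12 : ∀ j, S.L δ (b₁ j) ⊆ S.L δ (b₂ j) := fun j => by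
    rw [hLE j]; exact Finset.subset_union_left
  refine ⟨a₂, b', ha₂A, ha₂, ?_, ?_⟩
  · intro t ht
    rcases Nat.lt_or_ge m t with hmt | hmt
    · have : t = m + 1 := by omega
      subst this
      rw [hb'2]
      refine ⟨hb₂B, hb₂, ?_, ?_⟩
      · intro i j
        rw [hLE j, Osc_union_false, hLG j]
        · obtain ⟨x, hx, hxmax, hxst⟩ := hbm i j
          have hxγ₂ : ∀ y ∈ S.L δ (b m j), y < γ₂ := fun y hy => hγ₂L j y (hLm j hy)
          have hst : ∀ y ∈ S.L δ (b m j), (S.st (a₂ i) (b₂ j) y ↔ S.st (a i) (b m j) y) := by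
            intro y hy
            have h1 := hag₂ y (hxγ₂ y hy)
            have h2 := hag₁ y (hγ₁L j y hy)
            unfold st
            rw [h1.1 i, h1.2 j, h2.1 i, h2.2 j]
          rw [Osc_union (m := x)]
          · rw [Osc_congr rfl hst, hbO i j, Osc0_true hGne]
            · omega
            · intro y hy
              have hyL : y ∈ S.L δ (b₁ j) := by rw [hLG j]; exact Finset.mem_union_right _ hy
              have h1 := hag₂ y (hγ₂L j y hyL)
              unfold st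
              rw [h1.1 i, h1.2 j]
              exact hGgt y hy i j
          · intro y hy z hz
            exact (hγ₁L j y hy).trans_le (hGγ z hz).1
          · exact hx
          · exact hxmax
          · rw [hst x hx]; exact hxst
        · intro y hy z hz
          exact (hγ₂L j y hy).trans_le (hEγ z hz).1
        · intro y hy
          unfold st
          rw [hEeq y hy i j]
          exact lt_irrefl _
      · intro i j
        obtain ⟨x, hx, hmax⟩ := E.exists_max_image id hEne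
        refine ⟨x, ?_, ?_, ?_⟩
        · rw [hLE j]
          exact Finset.mem_union_right _ hx
        · intro y hy
          rw [hLE j, Finset.mem_union] at hy
          rcases hy with hy' | hy'
          · exact ((hγ₂L j y hy').trans_le (hEγ x hx).1).le
          · exact hmax y hy'
        · unfold st
          rw [hEeq x hx i j]
          exact lt_irrefl _
    · rw [hb'1 t hmt]
      obtain ⟨h1, h2, h3, h4⟩ := hb t hmt
      have hst : ∀ i j, ∀ y ∈ S.L δ (b t j), (S.st (a₂ i) (b t j) y ↔ S.st (a i) (b t j) y) := by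
        intro i j y hy
        have hy2 := hsub t hmt j hy
        have h5 := hag₂ y (hγ₂L j y (hLm j hy2))
        have h6 := hag₁ y (hγ₁L j y hy2)
        unfold st
        rw [h5.1 i, h6.1 i]
      refine ⟨h1, h2, ?_, ?_⟩
      · intro i j
        rw [Osc_congr rfl (hst i j), h3 i j]
      · intro i j
        obtain ⟨x, hx, hxmax, hxst⟩ := h4 i j
        exact ⟨x, hx, hxmax, by rw [hst i j x hx]; exact hxst⟩
  · intro t ht j
    rw [hb'2]
    rcases Nat.lt_or_ge m t with hmt | hmt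
    · have : t = m + 1 := by omega
      subst this
      rw [hb'2]
    · rw [hb'1 t hmt]
      exact ((hsub t hmt j).trans (hLm j)).trans (hL12 j)

theorem stage_all {k l : ℕ} {A : Set (Fin k → W)} {B : Set (Fin l → W)} {δ : W}
    (hGt : ∀ a ∈ A, (∀ i, δ ≤ a i) → ∀ b ∈ B, (∀ j, δ ≤ b j) →
      S.Ext A B (fun x y => y < x) δ a b)
    (hEq : ∀ a ∈ A, (∀ i, δ ≤ a i) → ∀ b ∈ B, (∀ j, δ ≤ b j) →
      S.Ext A B (fun x y => x = y) δ a b)
    {a : Fin k → W} {b : Fin l → W} (haA : a ∈ A) (ha : ∀ i, δ ≤ a i) (hbB : b ∈ B)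
    (hb : ∀ j, δ ≤ b j) (m : ℕ) :
    ∃ a' b', S.Stage A B δ (fun i j => Osc (S.st (a i) (b j)) (S.L δ (b j))) m a' b' := by
  induction m with
  | zero => exact S.stage_zero (hEq a haA ha b hbB hb)
  | succ m ih =>
      obtain ⟨a', b', h⟩ := ih
      exact S.stage_succ hGt hEq h

/-- Moore's theorem, first form. -/
theorem moore_aux [Uncountable W] (hW : ∀ b : W, (Iio b).Countable) {k l : ℕ}
    (a : W → Fin k → W) (ha : ∀ ξ i, ξ ≤ a ξ i) (b : W → Fin l → W) (hb : ∀ η j, η ≤ b η j)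
    (N : (Fin k → Fin l → ℕ) → W → ℕ) (η₀ : W) :
    ∃ (D : Fin k → Fin l → ℕ) (ξ : W) (κ : Fin k → ℕ) (δ : W) (e : ℕ → W), η₀ < ξ ∧
      (∀ i, a ξ i < δ) ∧ ∀ t < N D ξ, (∀ j, δ ≤ b (e t) j) ∧
        ∀ i j, S.osc (a ξ i) (b (e t) j) = κ i + D i j + t := by
  classical
  obtain ⟨s, hs⟩ := exists_succ_fun hW
  let A : (Fin k → Fin l → ℕ) × ℕ → Set (Fin k → W) := fun q =>
    {x | ∃ ξ, η₀ < ξ ∧ N q.1 ξ = q.2 ∧ x = a ξ}
  let B : Set (Fin l → W) := range b
  choose fG hfG using fun q => S.keyGt hW (A q) B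
  choose fE hfE using fun q => S.keyEq hW (A q) B
  let P : W → Set (Fin k → W → ℕ) := fun γ => {g | ∀ i, g i ∈ range (S.res γ)}
  have hP : ∀ γ, (P γ).Countable := fun γ => countable_pi (fun _ => S.res_countable hW γ)
  choose fR hfR using fun q => exists_closing hW P hP
    (fun γ g x => ∃ c ∈ A q, (∀ i, γ < c i) ∧ (∀ i, S.res γ (c i) = g i) ∧ ∀ i, c i ≤ x)
  obtain ⟨en, hen⟩ := exists_surjective_nat ((Fin k → Fin l → ℕ) × ℕ)
  obtain ⟨H, hH⟩ := exists_dominating hW (fun n => fun η =>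
    max (s η) (max (fG (en n) η) (max (fE (en n) η) (fR (en n) η))))
  obtain ⟨δ, hη₀δ, hδ⟩ := exists_closed hW H η₀
  have h0 : ∃ η, η < δ := ⟨η₀, hη₀δ⟩
  have hcl : ∀ q, ∀ η < δ, max (s η) (max (fG q η) (max (fE q η) (fR q η))) < δ := by
    intro q η hη
    obtain ⟨n, rfl⟩ := hen q
    exact (hH n η η le_rfl).trans_lt (hδ η hη)
  have hlim : ∀ η < δ, ∃ η', η < η' ∧ η' < δ := fun η hη =>
    ⟨s η, hs η, (le_max_left _ _).trans_lt (hcl (fun _ _ => 0, 0) η hη)⟩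
  -- the starting pair
  let D : Fin k → Fin l → ℕ := fun i j => Osc (S.st (a δ i) (b δ j)) (S.L δ (b δ j))
  let M : ℕ := N D δ
  let q : (Fin k → Fin l → ℕ) × ℕ := (D, M)
  have hq1 : ∀ η < δ, fG q η < δ := fun η hη =>
    ((le_max_left _ _).trans (le_max_right _ _)).trans_lt (hcl q η hη)
  have hq2 : ∀ η < δ, fE q η < δ := fun η hη =>
    (((le_max_left _ _).trans (le_max_right _ _)).trans (le_max_right _ _)).trans_lt (hcl q η hη)
  have hq3 : ∀ η < δ, fR q η < δ := fun η hη =>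
    (((le_max_right _ _).trans (le_max_right _ _)).trans (le_max_right _ _)).trans_lt (hcl q η hη)
  have haA : a δ ∈ A q := ⟨δ, hη₀δ, rfl, rfl⟩
  have hbB : b δ ∈ B := ⟨δ, rfl⟩
  obtain ⟨a', b', hst⟩ := S.stage_all (hfG q δ h0 hq1) (hfE q δ h0 hq2) haA (ha δ) hbB (hb δ) M
  obtain ⟨ha'A, ha', hb', hsub⟩ := hst
  -- choose γ
  have hF : ((⋃ t ∈ Iic M, ⋃ j, {ξ | ξ < δ ∧ S.rho ξ δ ≠ S.rho ξ (b' t j)}) ∪
      ⋃ j, {x | x ∈ S.L δ (b' M j)}).Finite := by
    refine ((finite_Iic M).biUnion (fun t ht => finite_iUnion (fun j =>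
      S.rho_coh _ _ ((hb' t ht).2.1 j)))).union (finite_iUnion (fun j => ?_))
    exact (S.L δ (b' M j)).finite_toSet
  obtain ⟨γ, hγC, hγ⟩ := S.exists_gamma h0 hlim hF (by
    rintro x (hx | hx)
    · simp only [mem_iUnion] at hx
      obtain ⟨t, _, j, hj⟩ := hx
      exact hj.1
    · obtain ⟨j, hj⟩ := mem_iUnion.1 hx
      exact S.L_lt _ _ ((hb' M le_rfl).2.1 j) x hj)
  have hγδ : γ < δ := S.lt' _ _ hγC
  have hγb : ∀ ξ, γ ≤ ξ → ξ < δ → ∀ t ≤ M, ∀ j, S.rho ξ δ = S.rho ξ (b' t j) := by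
    intro ξ h1 h2 t ht j
    by_contra hcon
    refine absurd (hγ ξ (Or.inl ?_)) (not_lt.2 h1)
    simp only [mem_iUnion]
    exact ⟨t, ht, j, h2, hcon⟩
  have hγL : ∀ t ≤ M, ∀ j, ∀ x ∈ S.L δ (b' t j), x < γ := by
    intro t ht j x hx
    exact hγ x (Or.inr (mem_iUnion.2 ⟨j, hsub t ht j hx⟩))
  -- reflect a'
  have hmax : ∃ x, ∀ i, a' i ≤ x := by
    rcases Nat.eq_zero_or_pos k with hk | hk
    · subst hk
      exact ⟨δ, fun i => i.elim0⟩
    · have : Nonempty (Fin k) := ⟨⟨0, hk⟩⟩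
      exact ⟨Finset.univ.sup' Finset.univ_nonempty a', fun i => Finset.le_sup' a' (Finset.mem_univ i)⟩
  obtain ⟨x₀, hx₀⟩ := hmax
  obtain ⟨x₁, hx₁, c, ⟨ξ, hη₀ξ, hNξ, rfl⟩, hcγ, hcres, hcx⟩ := hfR q γ (fun i => S.res γ (a' i))
    (fun i => ⟨_, rfl⟩) ⟨x₀, a', ha'A, fun i => hγδ.trans_le (ha' i), fun _ => rfl, hx₀⟩
  have hcδ : ∀ i, a ξ i < δ := fun i => (hcx i).trans_lt (hx₁.trans_lt (hq3 γ hγδ))
  have hBe : ∀ t, ∃ η, t ≤ M → b η = b' t := by
    intro t
    by_cases ht : t ≤ M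
    · obtain ⟨η, hη⟩ := (hb' t ht).1
      exact ⟨η, fun _ => hη⟩
    · exact ⟨δ, fun h => absurd h ht⟩
  choose e he using hBe
  refine ⟨D, ξ, fun i => Osc0 (fun x => S.rho x δ < S.rho x (a ξ i)) (S.L (a ξ i) δ), δ, e,
    hη₀ξ, hcδ, ?_⟩
  intro t ht
  have htM : t ≤ M := by
    have h1 : N D ξ = M := hNξ
    rw [h1] at ht
    exact ht.le
  obtain ⟨h1, h2, h3, h4⟩ := hb' t htM
  rw [he t htM]
  refine ⟨h2, fun i j => ?_⟩
  have hge : ∀ x ∈ S.L (a ξ i) δ, γ ≤ x := S.L_ge (hcδ i) hγC (hcγ i)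
  have hL : S.L (a ξ i) (b' t j) = S.L δ (b' t j) ∪ S.L (a ξ i) δ := by
    apply S.L_eq_union (hcδ i).le (h2 j)
    · intro m hm
      exact (hγL t htM j m hm).trans (hcγ i)
    · intro m hm x hx
      exact (hγL t htM j m hm).trans_le (hge x hx)
  have hst : ∀ y ∈ S.L δ (b' t j), (S.st (a ξ i) (b' t j) y ↔ S.st (a' i) (b' t j) y) := by
    intro y hy
    have h5 := S.res_eq_iff (hcres i) (hγL t htM j y hy)
    unfold st
    rw [h5]
  obtain ⟨x, hx, hxmax, hxst⟩ := h4 i j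
  rw [S.osc_eq, hL, Osc_union (m := x) _ hx hxmax (by rw [hst x hx]; exact hxst),
    Osc_congr rfl hst, h3 i j]
  · have h6 : Osc0 (S.st (a ξ i) (b' t j)) (S.L (a ξ i) δ) =
        Osc0 (fun x => S.rho x δ < S.rho x (a ξ i)) (S.L (a ξ i) δ) := by
      refine Osc0_congr rfl ?_
      intro y hy
      unfold st
      rw [hγb y (hge y hy) ((S.L_lt _ _ (hcδ i).le y hy).trans (hcδ i)) t htM j]
    rw [h6]
    show D i j + t + Osc0 (fun x => S.rho x δ < S.rho x (a ξ i)) (S.L (a ξ i) δ) =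
      Osc0 (fun x => S.rho x δ < S.rho x (a ξ i)) (S.L (a ξ i) δ) + D i j + t
    omega
  · intro m hm y hy
    exact (hγL t htM j m hm).trans_le (hge y hy)

/-- Moore's theorem. -/
theorem moore [Uncountable W] (hW : ∀ b : W, (Iio b).Countable) {k l : ℕ}
    (a : W → Fin k → W) (ha : ∀ ξ i, ξ ≤ a ξ i) (b : W → Fin l → W) (hb : ∀ η j, η ≤ b η j)
    (N : (Fin k → Fin l → ℕ) → W → ℕ) (η₀ : W) :
    ∃ (D : Fin k → Fin l → ℕ) (ξ : W) (κ : Fin k → ℕ) (δ : W) (e : ℕ → W), η₀ < ξ ∧ ξ < δ ∧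
      (∀ i, a ξ i < δ) ∧ ∀ t < N D ξ, δ ≤ e t ∧
        ∀ i j, S.osc (a ξ i) (b (e t) j) = κ i + D i j + t := by
  obtain ⟨D, ξ, κ, δ, e, h1, h2, h3⟩ := S.moore_aux hW (k := k + 1) (l := l + 1)
    (fun ξ => Fin.snoc (a ξ) ξ)
    (by
      intro η j
      refine Fin.lastCases ?_ (fun j => ?_) j
      · rw [Fin.snoc_last]
      · rw [Fin.snoc_castSucc]; exact ha η j)
    (fun η => Fin.snoc (b η) η)
    (by
      intro η j
      refine Fin.lastCases ?_ (fun j => ?_) j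
      · rw [Fin.snoc_last]
      · rw [Fin.snoc_castSucc]; exact hb η j)
    (fun D ξ => N (fun i j => D i.castSucc j.castSucc) ξ) η₀
  refine ⟨fun i j => D i.castSucc j.castSucc, ξ, fun i => κ i.castSucc, δ, e, h1, ?_, ?_,
    fun t ht => ?_⟩
  · have := h2 (Fin.last k)
    rwa [Fin.snoc_last] at this
  · intro i
    have := h2 i.castSucc
    rwa [Fin.snoc_castSucc] at this
  · obtain ⟨h4, h5⟩ := h3 t ht
    refine ⟨?_, fun i j => ?_⟩
    · have := h4 (Fin.last l)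
      rwa [Fin.snoc_last] at this
    · have := h5 i.castSucc j.castSucc
      rwa [Fin.snoc_castSucc, Fin.snoc_castSucc] at this

end CSeq

end Run7.h584
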