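import Pool.Agent.Run7.h584.Space

set_option linter.unusedSectionVars false

/-!
Every open cover of a finite power has a locally constant selection.
-/

namespace Run7.h584

open Set Topology

universe u

section
variable {W K : Type} {E : Set (ℕ → W)} {F : W → W → K} {k : ℕ} {ι : Type u}

theorem cyl_eq_of_rel {p : ℕ} {f g : Fin k → Sp E F} (h : rel p f g) : cyl p f = cyl p g := by
  ext w
  exact ⟨fun hw => (rel_equiv p).trans ((rel_equiv p).symm h) hw,
    fun hw => (rel_equiv p).trans h hw⟩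

/-- A canonical representative of a cylinder. -/
noncomputable def rep (p : ℕ) (f : Fin k → Sp E F) : Fin k → Sp E F :=
  (Quotient.mk (⟨rel p, rel_equiv p⟩ : Setoid (Fin k → Sp E F)) f).out

theorem rep_rel (p : ℕ) (f : Fin k → Sp E F) : rel p (rep p f) f := by
  have := Quotient.mk_out (s := (⟨rel p, rel_equiv p⟩ : Setoid (Fin k → Sp E F))) f
  exact this

theorem rep_eq {p : ℕ} {f g : Fin k → Sp E F} (h : rel p f g) : rep p f = rep p g := by
  unfold rep
  congr 1
  exact Quotient.sound (s := (⟨rel p, rel_equiv p⟩ : Setoid (Fin k → Sp E F))) h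

/-- The induction predicate for covers. -/
def Good (O : ι → Set (Fin k → Sp E F)) (R : Set (Fin k → Sp E F)) : Prop :=
  ∃ (a : ℕ → (Fin k → Sp E F) → ι) (C : ℕ → Set (Fin k → Sp E F)),
    (∀ j, IsLocallyConstant (a j)) ∧ (∀ j, IsClopen (C j)) ∧
    (∀ j, ∀ f ∈ C j, f ∈ O (a j f)) ∧ R ⊆ ⋃ j, C j

theorem isLocallyConstant_of_rel {p : ℕ} {a : (Fin k → Sp E F) → ι}
    (h : ∀ f g, rel p f g → a f = a g) : IsLocallyConstant a := by
  rw [IsLocallyConstant.iff_exists_open]
  intro f
  exact ⟨cyl p f, isOpen_cyl p f, (rel_equiv p).refl f, fun g hg => (h f g hg).symm⟩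

theorem isClopen_of_rel {p : ℕ} {C : Set (Fin k → Sp E F)}
    (h : ∀ f g, rel p f g → (f ∈ C → g ∈ C)) : IsClopen C := by
  constructor
  · rw [← isOpen_compl_iff, isOpen_iff_forall_mem_open]
    intro f hf
    exact ⟨cyl p f, fun g hg hgC => hf (h g f ((rel_equiv p).symm hg) hgC), isOpen_cyl p f,
      (rel_equiv p).refl f⟩
  · rw [isOpen_iff_forall_mem_open]
    intro f hf
    exact ⟨cyl p f, fun g hg => h f g hg hf, isOpen_cyl p f, (rel_equiv p).refl f⟩

theorem Good.mono {O : ι → Set (Fin k → Sp E F)} {R R' : Set (Fin k → Sp E F)}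
    (h : Good O R') (hR : R ⊆ R') : Good O R := by
  obtain ⟨a, C, h1, h2, h3, h4⟩ := h
  exact ⟨a, C, h1, h2, h3, hR.trans h4⟩

theorem Good.iUnion {O : ι → Set (Fin k → Sp E F)} {R : ℕ → Set (Fin k → Sp E F)}
    (h : ∀ n, Good O (R n)) : Good O (⋃ n, R n) := by
  choose a C h1 h2 h3 h4 using h
  refine ⟨fun j => a (Nat.unpair j).1 (Nat.unpair j).2, fun j => C (Nat.unpair j).1 (Nat.unpair j).2,
    fun j => h1 _ _, fun j => h2 _ _, fun j => h3 _ _, ?_⟩
  intro f hf
  obtain ⟨n, hn⟩ := mem_iUnion.1 hf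
  obtain ⟨j, hj⟩ := mem_iUnion.1 (h4 n hn)
  refine mem_iUnion.2 ⟨Nat.pair n j, ?_⟩
  simpa using hj

theorem Good.glue {O : ι → Set (Fin k → Sp E F)} {R : Set (Fin k → Sp E F)} (p : ℕ)
    (h : ∀ y, Good O (R ∩ {z | rel p y z})) : Good O R := by
  choose a C h1 h2 h3 h4 using h
  refine ⟨fun j f => a (rep p f) j f, fun j => {f | f ∈ C (rep p f) j}, ?_, ?_, ?_, ?_⟩
  · intro j
    rw [IsLocallyConstant.iff_exists_open]
    intro f
    obtain ⟨V, hV, hfV, hVa⟩ := (IsLocallyConstant.iff_exists_open _).1 (h1 (rep p f) j) f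
    refine ⟨V ∩ cyl p f, hV.inter (isOpen_cyl p f), ⟨hfV, (rel_equiv p).refl f⟩, ?_⟩
    rintro g ⟨hg1, hg2⟩
    show a (rep p g) j g = a (rep p f) j f
    rw [← rep_eq hg2]
    exact hVa g hg1
  · intro j
    have hkey : ∀ f, {f | f ∈ C (rep p f) j} ∩ cyl p f = C (rep p f) j ∩ cyl p f := by
      intro f
      ext g
      simp only [mem_inter_iff, mem_ofPred_eq]
      constructor
      · rintro ⟨hg1, hg2⟩
        rw [← rep_eq hg2] at hg1
        exact ⟨hg1, hg2⟩
      · rintro ⟨hg1, hg2⟩
        rw [rep_eq hg2] at hg1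
        exact ⟨hg1, hg2⟩
    constructor
    · apply isClosed_of_cyl p
      intro f
      rw [hkey]
      exact (h2 _ j).1.inter (isClopen_cyl p f).1
    · apply isOpen_of_cyl p
      intro f
      rw [hkey]
      exact (h2 _ j).2.inter (isClopen_cyl p f).2
  · intro j f hf
    exact h3 _ j f hf
  · intro f hf
    have := h4 (rep p f) ⟨hf, rep_rel p f⟩
    obtain ⟨j, hj⟩ := mem_iUnion.1 this
    exact mem_iUnion.2 ⟨j, hj⟩

theorem Good.of_thin [Nonempty ι] {O : ι → Set (Fin k → Sp E F)}
    (hsl : ∀ s ∈ slices E F k, Good O s) {R : Set (Fin k → Sp E F)}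
    (hR : Thin rel (slices E F k) R) : Good O R := by
  induction hR with
  | empty =>
      exact ⟨fun _ _ => Classical.arbitrary ι, fun _ => ∅, fun _ => IsLocallyConstant.const _,
        fun _ => isClopen_empty, fun _ f hf => absurd hf (notMem_empty f), empty_subset _⟩
  | basic s hs => exact hsl s hs
  | mono s t _ hst ih => exact ih.mono hst
  | iUnion s _ ih => exact Good.iUnion ih
  | glue p s _ ih => exact Good.glue p ih

theorem Good.metric_part [Nonempty ι] (O : ι → Set (Fin k → Sp E F)) :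
    Good O {f | ∃ p i, cyl p f ⊆ O i} := by
  classical
  let A : Set (Fin k → Sp E F) → ι := fun s =>
    if h : ∃ i, s ⊆ O i then h.choose else Classical.arbitrary ι
  refine ⟨fun p f => A (cyl p f), fun p => {f | ∃ i, cyl p f ⊆ O i}, ?_, ?_, ?_, ?_⟩
  · intro p
    refine isLocallyConstant_of_rel (p := p) (fun f g h => ?_)
    show A (cyl p f) = A (cyl p g)
    rw [cyl_eq_of_rel h]
  · intro p
    refine isClopen_of_rel (p := p) (fun f g h hf => ?_)
    obtain ⟨i, hi⟩ := hf
    exact ⟨i, by rw [← cyl_eq_of_rel h]; exact hi⟩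
  · intro p f hf
    have h1 : A (cyl p f) = hf.choose := dif_pos hf
    show f ∈ O (A (cyl p f))
    rw [h1]
    exact hf.choose_spec ((rel_equiv p).refl f)
  · rintro f ⟨p, i, h⟩
    exact mem_iUnion.2 ⟨p, i, h⟩

theorem Nb_eq_cyl {p : ℕ} {f : Fin k → Sp E F} (hf : ∀ l, (f l).2 ∉ E) : Nb p f = cyl p f := by
  ext g
  constructor
  · intro hg l
    exact nb_subset_cy _ _ (hg l)
  · intro hg l
    rw [nb_eq_cy (hf l)]
    exact hg l

theorem thin_compl_metric_part
    (hEc : ∀ A : Set W, A.Countable → {y | y ∈ E ∧ ∀ i, y i ∈ A}.Countable)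
    (O : ι → Set (Fin k → Sp E F)) (hO : ∀ i, IsOpen (O i)) (hc : ⋃ i, O i = univ) :
    Thin rel (slices E F k) {f | ∃ p i, cyl p f ⊆ O i}ᶜ := by
  apply thin_of_closed hEc
  · intro f hf
    simp only [mem_compl_iff, mem_ofPred_eq, not_not] at hf
    obtain ⟨p, i, h⟩ := hf
    refine ⟨p, fun g hg hg' => hg' ⟨p, i, ?_⟩⟩
    rw [← cyl_eq_of_rel hg]
    exact h
  · intro f hf
    by_contra hcon
    push Not at hcon
    apply hf
    have : f ∈ ⋃ i, O i := by rw [hc]; trivial
    obtain ⟨i, hi⟩ := mem_iUnion.1 this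
    obtain ⟨p, hp⟩ := isOpen_pow_iff.1 (hO i) f hi
    rw [Nb_eq_cyl hcon] at hp
    exact ⟨p, i, hp⟩

theorem selection_of_good {O : ι → Set (Fin k → Sp E F)} (h : Good O univ) :
    ∃ a : (Fin k → Sp E F) → ι, IsLocallyConstant a ∧ ∀ f, f ∈ O (a f) := by
  classical
  obtain ⟨a, C, h1, h2, h3, h4⟩ := h
  have hex : ∀ f : Fin k → Sp E F, ∃ j, f ∈ C j := fun f => mem_iUnion.1 (h4 (mem_univ f))
  refine ⟨fun f => a (Nat.find (hex f)) f, ?_, ?_⟩
  · rw [IsLocallyConstant.iff_exists_open]
    intro f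
    obtain ⟨V, hV, hfV, hVa⟩ :=
      (IsLocallyConstant.iff_exists_open _).1 (h1 (Nat.find (hex f))) f
    refine ⟨V ∩ (C (Nat.find (hex f)) ∩ ⋂ i ∈ Finset.range (Nat.find (hex f)), (C i)ᶜ), ?_, ?_, ?_⟩
    · refine hV.inter ((h2 _).2.inter ?_)
      exact isOpen_biInter_finset (fun i _ => (h2 i).1.isOpen_compl)
    · refine ⟨hfV, Nat.find_spec (hex f), ?_⟩
      simp only [mem_iInter]
      intro i hi
      exact Nat.find_min (hex f) (Finset.mem_range.1 hi)
    · rintro g ⟨hg1, hg2, hg3⟩
      have h5 : Nat.find (hex g) = Nat.find (hex f) := by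
        rw [Nat.find_eq_iff]
        refine ⟨hg2, fun i hi => ?_⟩
        simp only [mem_iInter] at hg3
        exact hg3 i (Finset.mem_range.2 hi)
      show a (Nat.find (hex g)) g = a (Nat.find (hex f)) f
      rw [h5]
      exact hVa g hg1
  · intro f
    exact h3 _ f (Nat.find_spec (hex f))

/-- Every open cover of a finite power admits a locally constant selection. -/
theorem exists_selection [Nonempty K] [Nonempty W]
    (hEc : ∀ A : Set W, A.Countable → {y | y ∈ E ∧ ∀ i, y i ∈ A}.Countable) :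
    ∀ (k : ℕ) {ι : Type u} (O : ι → Set (Fin k → Sp E F)), (∀ i, IsOpen (O i)) →
      ⋃ i, O i = univ → ∃ a : (Fin k → Sp E F) → ι, IsLocallyConstant a ∧ ∀ f, f ∈ O (a f) := by
  intro k
  induction k with
  | zero =>
      intro ι O hO hc
      have hne : Nonempty ι := by
        have : (fun l => l.elim0 : Fin 0 → Sp E F) ∈ ⋃ i, O i := by rw [hc]; trivial
        obtain ⟨i, _⟩ := mem_iUnion.1 this
        exact ⟨i⟩
      apply selection_of_good
      have h1 := Good.metric_part O
      have h2 : Good O {f | ∃ p i, cyl p f ⊆ O i}ᶜ := by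
        refine Good.of_thin ?_ (thin_compl_metric_part hEc O hO hc)
        rintro s ⟨l, _⟩
        exact l.elim0
      have h3 : Good O (⋃ n : ℕ, if n = 0 then {f | ∃ p i, cyl p f ⊆ O i}
          else {f | ∃ p i, cyl p f ⊆ O i}ᶜ) := by
        apply Good.iUnion
        intro n
        by_cases hn : n = 0
        · simpa [hn] using h1
        · simpa [hn] using h2
      refine h3.mono ?_
      intro f _
      by_cases hf : f ∈ {f | ∃ p i, cyl p f ⊆ O i}
      · exact mem_iUnion.2 ⟨0, by simpa using hf⟩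
      · exact mem_iUnion.2 ⟨1, by simpa using hf⟩
  | succ k ih =>
      intro ι O hO hc
      have hne : Nonempty ι := by
        have : (fun _ => (Classical.arbitrary K, fun _ => Classical.arbitrary W) :
          Fin (k + 1) → Sp E F) ∈ ⋃ i, O i := by rw [hc]; trivial
        obtain ⟨i, _⟩ := mem_iUnion.1 this
        exact ⟨i⟩
      apply selection_of_good
      have h1 := Good.metric_part O
      have h2 : Good O {f | ∃ p i, cyl p f ⊆ O i}ᶜ := by
        refine Good.of_thin ?_ (thin_compl_metric_part hEc O hO hc)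
        rintro s ⟨l, c, rfl⟩
        -- the cover of the slice
        let O' : ι × ℕ → Set (Fin k → Sp E F) := fun i =>
          {g | ∃ V, IsOpen V ∧ g ∈ V ∧ ∀ g' ∈ V, ∀ x ∈ nb i.2 c,
            (l.insertNth x g' : Fin (k + 1) → Sp E F) ∈ O i.1}
        have hO' : ∀ i, IsOpen (O' i) := by
          intro i
          rw [isOpen_iff_forall_mem_open]
          rintro g ⟨V, hV, hgV, hVO⟩
          exact ⟨V, fun g' hg' => ⟨V, hV, hg', hVO⟩, hV, hgV⟩
        have hc' : ⋃ i, O' i = univ := by
          rw [eq_univ_iff_forall]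
          intro g
          have : (l.insertNth c g : Fin (k + 1) → Sp E F) ∈ ⋃ i, O i := by rw [hc]; trivial
          obtain ⟨i, hi⟩ := mem_iUnion.1 this
          obtain ⟨p, hp⟩ := isOpen_pow_iff.1 (hO i) _ hi
          refine mem_iUnion.2 ⟨(i, p), Nb p g, isOpen_Nb p g, Nb_self p g, ?_⟩
          intro g' hg' x hx
          apply hp
          intro l'
          revert l'
          rw [Fin.forall_iff_succAbove l]
          simp only [Fin.insertNth_apply_same, Fin.insertNth_apply_succAbove]
          exact ⟨hx, fun i => hg' i⟩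
        obtain ⟨a', ha', hsel⟩ := ih O' hO' hc'
        have hrem : Continuous (fun f : Fin (k + 1) → Sp E F => (l.removeNth f : Fin k → Sp E F)) := by
          apply continuous_pi
          intro i
          exact continuous_apply _
        refine ⟨fun _ f => (a' (l.removeNth f)).1,
          fun q => {f | f l ∈ nb q c} ∩ {f | (a' (l.removeNth f)).2 = q}, ?_, ?_, ?_, ?_⟩
        · intro _
          exact (ha'.comp_continuous hrem).comp Prod.fst
        · intro q
          refine IsClopen.inter ?_ ?_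
          · exact (isClopen_nb q c).preimage (continuous_apply l)
          · exact ((ha'.comp_continuous hrem).comp Prod.snd).isClopen_fiber q
        · rintro q f ⟨hf1, hf2⟩
          obtain ⟨V, hV, hgV, hVO⟩ := hsel (l.removeNth f)
          have h5 := hVO _ hgV (f l) (by
            have h6 : (a' (l.removeNth f)).2 = q := hf2
            rw [h6]; exact hf1)
          rwa [Fin.insertNth_self_removeNth] at h5
        · intro f hf
          have hf' : f l = c := hf
          refine mem_iUnion.2 ⟨(a' (l.removeNth f)).2, ?_, rfl⟩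
          show f l ∈ nb _ c
          rw [hf']
          exact nb_self _ c
      have h3 : Good O (⋃ n : ℕ, if n = 0 then {f | ∃ p i, cyl p f ⊆ O i}
          else {f | ∃ p i, cyl p f ⊆ O i}ᶜ) := by
        apply Good.iUnion
        intro n
        by_cases hn : n = 0
        · simpa [hn] using h1
        · simpa [hn] using h2
      refine h3.mono ?_
      intro f _
      by_cases hf : f ∈ {f | ∃ p i, cyl p f ⊆ O i}
      · exact mem_iUnion.2 ⟨0, by simpa using hf⟩
      · exact mem_iUnion.2 ⟨1, by simpa using hf⟩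

theorem paracompact_pow [Nonempty K] [Nonempty W]
    (hEc : ∀ A : Set W, A.Countable → {y | y ∈ E ∧ ∀ i, y i ∈ A}.Countable) (k : ℕ) :
    ParacompactSpace (Fin k → Sp E F) := by
  constructor
  intro α s hs hc
  obtain ⟨a, ha, hsel⟩ := exists_selection (E := E) (F := F) hEc k s hs hc
  refine ⟨α, fun i => {f | a f = i}, fun i => (ha.isClopen_fiber i).2, ?_, ?_, ?_⟩
  · rw [eq_univ_iff_forall]
    intro f
    exact mem_iUnion.2 ⟨a f, rfl⟩
  · intro f
    refine ⟨{g | a g = a f}, (ha.isClopen_fiber (a f)).2.mem_nhds rfl, ?_⟩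
    refine (finite_singleton (a f)).subset ?_
    rintro i ⟨g, hg1, hg2⟩
    exact (show a g = i from hg1).symm.trans hg2
  · intro i
    refine ⟨i, fun f hf => ?_⟩
    have : a f = i := hf
    rw [← this]
    exact hsel f

end

end Run7.h584
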