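import Pool.Agent.Run7.h584.Bern

set_option linter.unusedSectionVars false

/-!
The space and its finite powers.
-/

namespace Run7.h584

open Set Topology

/-- The underlying set of the space: finitely many copies of `ℕ → W`. -/
def Sp {W K : Type} (_E : Set (ℕ → W)) (_F : W → W → K) : Type := K × (ℕ → W)

section
variable {W K : Type} {E : Set (ℕ → W)} {F : W → W → K}

/-- Basic neighbourhoods. -/
def nb (p : ℕ) (q : Sp E F) : Set (Sp E F) :=
  {z | q.1 = z.1 ∧ agree p q.2 z.2 ∧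
    (q.2 ∈ E → ∀ d, agree d q.2 z.2 → q.2 d ≠ z.2 d → F (z.2 d) (q.2 d) ≠ q.1)}

/-- Cylinders. -/
def cy (p : ℕ) (q : Sp E F) : Set (Sp E F) := {z | q.1 = z.1 ∧ agree p q.2 z.2}

theorem agree_mono {p p' : ℕ} (h : p ≤ p') {x y : ℕ → W} (hxy : agree p' x y) : agree p x y :=
  fun i hi => hxy i (hi.trans_le h)

theorem nb_self (p : ℕ) (q : Sp E F) : q ∈ nb p q :=
  ⟨rfl, fun _ _ => rfl, fun _ _ _ h => absurd rfl h⟩

theorem nb_anti {p p' : ℕ} (h : p ≤ p') (q : Sp E F) : nb p' q ⊆ nb p q :=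
  fun _ hz => ⟨hz.1, agree_mono h hz.2.1, hz.2.2⟩

theorem nb_subset_cy (p : ℕ) (q : Sp E F) : nb p q ⊆ cy p q := fun _ hz => ⟨hz.1, hz.2.1⟩

theorem nb_eq_cy {p : ℕ} {q : Sp E F} (hq : q.2 ∉ E) : nb p q = cy p q := by
  ext z
  exact ⟨fun h => nb_subset_cy p q h, fun h => ⟨h.1, h.2, fun h' => absurd h' hq⟩⟩

theorem exists_first_diff {x y : ℕ → W} (h : x ≠ y) : ∃ d, agree d x y ∧ x d ≠ y d := by
  classical
  have h2 : ∃ d, x d ≠ y d := by
    by_contra hcon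
    push Not at hcon
    exact h (funext hcon)
  refine ⟨Nat.find h2, fun i hi => ?_, Nat.find_spec h2⟩
  have := Nat.find_min h2 hi
  push Not at this
  exact this

theorem first_diff_unique {x y : ℕ → W} {d d' : ℕ} (h1 : agree d x y) (h2 : x d ≠ y d)
    (h3 : agree d' x y) (h4 : x d' ≠ y d') : d = d' := by
  rcases lt_trichotomy d d' with h | h | h
  · exact absurd (h3 d h) h2
  · exact h
  · exact absurd (h1 d' h) h4

theorem cy_subset_nb {p : ℕ} {q z : Sp E F} (hz : z ∈ nb p q) (hne : z ≠ q) :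
    ∃ p', cy p' z ⊆ nb p q := by
  have h1 : q.2 ≠ z.2 := fun h => hne (Prod.ext hz.1.symm h.symm)
  obtain ⟨d, hd1, hd2⟩ := exists_first_diff h1
  refine ⟨max p (d + 1), ?_⟩
  rintro w ⟨hw1, hw2⟩
  have hw3 : agree (d + 1) z.2 w.2 := agree_mono (le_max_right _ _) hw2
  refine ⟨hz.1.trans hw1, ?_, ?_⟩
  · exact (agree_equiv p).trans hz.2.1 (agree_mono (le_max_left _ _) hw2)
  · intro hE d' hd1' hd2'
    have h2 : agree d q.2 w.2 := (agree_equiv d).trans hd1 (agree_mono (Nat.le_succ d) hw3)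
    have h3 : z.2 d = w.2 d := hw3 d (Nat.lt_succ_self d)
    have h4 : q.2 d ≠ w.2 d := by rw [← h3]; exact hd2
    have h5 := first_diff_unique h2 h4 hd1' hd2'
    subst h5
    rw [← h3]
    exact hz.2.2 hE d hd1 hd2

theorem nb_subset_nb {p : ℕ} {q z : Sp E F} (hz : z ∈ nb p q) : ∃ p', nb p' z ⊆ nb p q := by
  by_cases h : z = q
  · subst h; exact ⟨p, Subset.rfl⟩
  · obtain ⟨p', hp'⟩ := cy_subset_nb hz h
    exact ⟨p', (nb_subset_cy p' z).trans hp'⟩

theorem cy_disjoint_nb {p : ℕ} {q z : Sp E F} (hz : z ∉ nb p q) :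
    ∃ p', ∀ w ∈ cy p' z, w ∉ nb p q := by
  by_cases h1 : q.1 = z.1
  · by_cases h2 : agree p q.2 z.2
    · have h3 : ∃ d, q.2 ∈ E ∧ agree d q.2 z.2 ∧ q.2 d ≠ z.2 d ∧ F (z.2 d) (q.2 d) = q.1 := by
        by_contra hcon
        apply hz
        refine ⟨h1, h2, fun hE d hd1 hd2 hF => hcon ⟨d, hE, hd1, hd2, hF⟩⟩
      obtain ⟨d, hE, hd1, hd2, hF⟩ := h3
      refine ⟨d + 1, fun w hw hw' => ?_⟩
      have h4 : z.2 d = w.2 d := hw.2 d (Nat.lt_succ_self d)
      refine hw'.2.2 hE d ?_ ?_ ?_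
      · exact (agree_equiv d).trans hd1 (agree_mono (Nat.le_succ d) hw.2)
      · rw [← h4]; exact hd2
      · rw [← h4]; exact hF
    · refine ⟨p, fun w hw hw' => h2 ?_⟩
      exact (agree_equiv p).trans hw'.2.1 ((agree_equiv p).symm hw.2)
  · exact ⟨0, fun w hw hw' => h1 (hw'.1.trans hw.1.symm)⟩

instance : TopologicalSpace (Sp E F) where
  IsOpen U := ∀ q ∈ U, ∃ p, nb p q ⊆ U
  isOpen_univ := fun _ _ => ⟨0, subset_univ _⟩
  isOpen_inter := by
    intro U V hU hV q hq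
    obtain ⟨p, hp⟩ := hU q hq.1
    obtain ⟨p', hp'⟩ := hV q hq.2
    exact ⟨max p p', fun z hz => ⟨hp (nb_anti (le_max_left _ _) q hz),
      hp' (nb_anti (le_max_right _ _) q hz)⟩⟩
  isOpen_sUnion := by
    intro 𝒰 h𝒰 q hq
    obtain ⟨U, hU, hqU⟩ := hq
    obtain ⟨p, hp⟩ := h𝒰 U hU q hqU
    exact ⟨p, hp.trans (subset_sUnion_of_mem hU)⟩

theorem isOpen_iff_nb {U : Set (Sp E F)} : IsOpen U ↔ ∀ q ∈ U, ∃ p, nb p q ⊆ U := Iff.rfl

theorem isOpen_nb (p : ℕ) (q : Sp E F) : IsOpen (nb p q) := fun _ hz => nb_subset_nb hz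

theorem isClosed_nb (p : ℕ) (q : Sp E F) : IsClosed (nb p q) := by
  rw [← isOpen_compl_iff]
  intro z hz
  obtain ⟨p', hp'⟩ := cy_disjoint_nb hz
  exact ⟨p', fun w hw => hp' w (nb_subset_cy _ _ hw)⟩

theorem isClopen_nb (p : ℕ) (q : Sp E F) : IsClopen (nb p q) := ⟨isClosed_nb p q, isOpen_nb p q⟩

theorem isOpen_cy (p : ℕ) (q : Sp E F) : IsOpen (cy p q) := by
  intro z hz
  refine ⟨p, fun w hw => ⟨hz.1.trans hw.1, (agree_equiv p).trans hz.2 hw.2.1⟩⟩

theorem isClosed_cy (p : ℕ) (q : Sp E F) : IsClosed (cy p q) := by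
  rw [← isOpen_compl_iff]
  intro z hz
  refine ⟨p, fun w hw hw' => hz ?_⟩
  exact ⟨hw'.1.trans hw.1.symm, (agree_equiv p).trans hw'.2 ((agree_equiv p).symm hw.2.1)⟩

theorem isClopen_cy (p : ℕ) (q : Sp E F) : IsClopen (cy p q) := ⟨isClosed_cy p q, isOpen_cy p q⟩

theorem nhds_hasBasis (q : Sp E F) : (𝓝 q).HasBasis (fun _ : ℕ => True) (fun p => nb p q) := by
  constructor
  intro t
  rw [mem_nhds_iff]
  constructor
  · rintro ⟨U, hUt, hU, hq⟩
    obtain ⟨p, hp⟩ := hU q hq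
    exact ⟨p, trivial, hp.trans hUt⟩
  · rintro ⟨p, _, hp⟩
    exact ⟨nb p q, hp, isOpen_nb p q, nb_self p q⟩

instance : FirstCountableTopology (Sp E F) :=
  ⟨fun q => (nhds_hasBasis q).isCountablyGenerated⟩

instance : T2Space (Sp E F) := by
  constructor
  intro q q' hne
  by_cases h1 : q.1 = q'.1
  · have h2 : q.2 ≠ q'.2 := fun h => hne (Prod.ext h1 h)
    obtain ⟨d, hd1, hd2⟩ := exists_first_diff h2
    refine ⟨cy (d + 1) q, cy (d + 1) q', isOpen_cy _ _, isOpen_cy _ _,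
      ⟨rfl, fun _ _ => rfl⟩, ⟨rfl, fun _ _ => rfl⟩, ?_⟩
    rw [Set.disjoint_left]
    intro w hw hw'
    apply hd2
    exact (hw.2 d (Nat.lt_succ_self d)).trans (hw'.2 d (Nat.lt_succ_self d)).symm
  · refine ⟨cy 0 q, cy 0 q', isOpen_cy _ _, isOpen_cy _ _,
      ⟨rfl, fun _ _ => rfl⟩, ⟨rfl, fun _ _ => rfl⟩, ?_⟩
    rw [Set.disjoint_left]
    intro w hw hw'
    exact h1 (hw.1.trans hw'.1.symm)

/-! Finite powers -/

/-- Agreement in finite powers. -/
def rel {k : ℕ} (p : ℕ) (f g : Fin k → Sp E F) : Prop :=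
  ∀ l, (f l).1 = (g l).1 ∧ agree p (f l).2 (g l).2

theorem rel_equiv {k : ℕ} (p : ℕ) : Equivalence (rel (E := E) (F := F) (k := k) p) :=
  ⟨fun _ _ => ⟨rfl, (agree_equiv p).refl _⟩,
   fun h l => ⟨(h l).1.symm, (agree_equiv p).symm (h l).2⟩,
   fun h h' l => ⟨(h l).1.trans (h' l).1, (agree_equiv p).trans (h l).2 (h' l).2⟩⟩

theorem rel_mono {k : ℕ} {p p' : ℕ} (h : p ≤ p') {f g : Fin k → Sp E F} (hfg : rel p' f g) :
    rel p f g := fun l => ⟨(hfg l).1, agree_mono h (hfg l).2⟩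

/-- Cylinders in finite powers. -/
def cyl {k : ℕ} (p : ℕ) (f : Fin k → Sp E F) : Set (Fin k → Sp E F) := {g | rel p f g}

/-- Basic boxes in finite powers. -/
def Nb {k : ℕ} (p : ℕ) (f : Fin k → Sp E F) : Set (Fin k → Sp E F) := {g | ∀ l, g l ∈ nb p (f l)}

theorem Nb_eq_pi {k : ℕ} (p : ℕ) (f : Fin k → Sp E F) :
    Nb p f = univ.pi (fun l => nb p (f l)) := by
  ext g; simp [Nb]

theorem cyl_eq_pi {k : ℕ} (p : ℕ) (f : Fin k → Sp E F) :
    cyl p f = univ.pi (fun l => cy p (f l)) := by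
  ext g; simp [cyl, rel, cy]

theorem isOpen_Nb {k : ℕ} (p : ℕ) (f : Fin k → Sp E F) : IsOpen (Nb p f) := by
  rw [Nb_eq_pi]
  exact isOpen_set_pi finite_univ (fun l _ => isOpen_nb p (f l))

theorem Nb_self {k : ℕ} (p : ℕ) (f : Fin k → Sp E F) : f ∈ Nb p f := fun l => nb_self p (f l)

theorem isOpen_cyl {k : ℕ} (p : ℕ) (f : Fin k → Sp E F) : IsOpen (cyl p f) := by
  rw [cyl_eq_pi]
  exact isOpen_set_pi finite_univ (fun l _ => isOpen_cy p (f l))

theorem isOpen_pow_iff {k : ℕ} {U : Set (Fin k → Sp E F)} :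
    IsOpen U ↔ ∀ f ∈ U, ∃ p, Nb p f ⊆ U := by
  constructor
  · intro hU f hf
    obtain ⟨u, hu1, hu2⟩ := isOpen_pi_iff'.1 hU f hf
    have : ∀ l, ∃ p, nb p (f l) ⊆ u l := fun l => (hu1 l).1 (f l) (hu1 l).2
    choose p hp using this
    refine ⟨Finset.univ.sup p, fun g hg => hu2 ?_⟩
    intro l _
    exact hp l (nb_anti (Finset.le_sup (Finset.mem_univ l)) _ (hg l))
  · intro h
    rw [isOpen_iff_forall_mem_open]
    intro f hf
    obtain ⟨p, hp⟩ := h f hf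
    exact ⟨Nb p f, hp, isOpen_Nb p f, Nb_self p f⟩

theorem isOpen_of_cyl {k : ℕ} (p : ℕ) {S : Set (Fin k → Sp E F)}
    (h : ∀ f, IsOpen (S ∩ cyl p f)) : IsOpen S := by
  have : S = ⋃ f, (S ∩ cyl p f) := by
    ext g
    simp only [mem_iUnion, mem_inter_iff]
    exact ⟨fun hg => ⟨g, hg, (rel_equiv p).refl g⟩, fun ⟨_, hg, _⟩ => hg⟩
  rw [this]
  exact isOpen_iUnion h

theorem isClosed_of_cyl {k : ℕ} (p : ℕ) {S : Set (Fin k → Sp E F)}
    (h : ∀ f, IsClosed (S ∩ cyl p f)) : IsClosed S := by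
  rw [← isOpen_compl_iff]
  apply isOpen_of_cyl p
  intro f
  have : Sᶜ ∩ cyl p f = (S ∩ cyl p f)ᶜ ∩ cyl p f := by
    ext g
    simp only [mem_inter_iff, mem_compl_iff]
    tauto
  rw [this]
  exact (h f).isOpen_compl.inter (isOpen_cyl p f)

theorem isClopen_cyl {k : ℕ} (p : ℕ) (f : Fin k → Sp E F) : IsClopen (cyl p f) := by
  refine ⟨?_, isOpen_cyl p f⟩
  rw [cyl_eq_pi]
  exact isClosed_set_pi (fun l _ => isClosed_cy p (f l))

/-- The slices. -/
def slices (E : Set (ℕ → W)) (F : W → W → K) (k : ℕ) : Set (Set (Fin k → Sp E F)) :=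
  {s | ∃ (l : Fin k) (c : Sp E F), s = {f | f l = c}}

end

section
variable {W K : Type} {E : Set (ℕ → W)} {F : W → W → K}

/-- A closed set (in the metric sense) all of whose points have a coordinate in `E` is thin. -/
theorem thin_of_closed
    (hEc : ∀ A : Set W, A.Countable → {y | y ∈ E ∧ ∀ i, y i ∈ A}.Countable)
    {k : ℕ} (Q : Set (Fin k → Sp E F))
    (hQc : ∀ f, f ∉ Q → ∃ p, ∀ g, rel p f g → g ∉ Q)
    (hQE : ∀ f ∈ Q, ∃ l, (f l).2 ∈ E) : Thin rel (slices E F k) Q := by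
  classical
  by_contra hQ
  set Q' := ker rel (slices E F k) Q with hQ'
  have hQ'n : ¬ Thin rel (slices E F k) Q' := not_thin_ker (fun p => rel_equiv p) hQ
  have hQ'i : ∀ y ∈ Q', ∀ p, ¬ Thin rel (slices E F k) (Q' ∩ {z | rel p y z}) :=
    fun y hy p => not_thin_ker_inter (fun p => rel_equiv p) Q hy p
  have hQ'c : ∀ f, f ∉ Q' → ∃ p, ∀ g, rel p f g → g ∉ Q' := by
    intro f hf
    by_cases hfQ : f ∈ Q
    · have : ∃ p, Thin rel (slices E F k) (Q ∩ {z | rel p f z}) := by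
        by_contra hcon
        push Not at hcon
        exact hf ⟨hfQ, hcon⟩
      obtain ⟨p, hp⟩ := this
      refine ⟨p, fun g hg hgQ => hgQ.2 p ?_⟩
      refine Thin.mono _ _ hp ?_
      rintro z ⟨hz, hgz⟩
      exact ⟨hz, (rel_equiv p).trans hg hgz⟩
    · obtain ⟨p, hp⟩ := hQc f hfQ
      exact ⟨p, fun g hg hgQ => hp g hg (ker_subset _ hgQ)⟩
  -- moving a coordinate
  have hmove : ∀ y ∈ Q', ∀ p (l : Fin k), ∃ z ∈ Q', rel p y z ∧ (z l).2 ≠ (y l).2 := by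
    intro y hy p l
    by_contra hcon
    push Not at hcon
    apply hQ'i y hy p
    refine Thin.mono _ _ (Thin.basic _ ⟨l, y l, rfl⟩) ?_
    rintro z ⟨hz, hyz⟩
    exact Prod.ext (hyz l).1.symm (hcon z hz hyz)
  obtain ⟨y₀, hy₀⟩ := nonempty_of_not_thin hQ'n
  have hmove' : ∀ (y : Q') (a : ℕ × Fin k), ∃ z : Q', rel a.1 y.1 z.1 ∧ (z.1 a.2).2 ≠ (y.1 a.2).2 := by
    intro y a
    obtain ⟨z, hz, h1, h2⟩ := hmove y.1 y.2 a.1 a.2
    exact ⟨⟨z, hz⟩, h1, h2⟩
  choose φ hφ1 hφ2 using hmove'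
  let gen : List (ℕ × Fin k) → Q' := fun t => t.foldr (fun a y => φ y a) ⟨y₀, hy₀⟩
  have hgen : ∀ a t, gen (a :: t) = φ (gen t) a := fun _ _ => rfl
  -- the countable set of values
  let A : Set W := range (fun s : List (ℕ × Fin k) × Fin k × ℕ => (((gen s.1).1 s.2.1).2 s.2.2))
  have hA : A.Countable := countable_range _
  have hEA := hEc A hA
  -- there is an element of `E` with values in `A`
  have hne : {y | y ∈ E ∧ ∀ i, y i ∈ A}.Nonempty := by
    obtain ⟨l, hl⟩ := hQE y₀ (ker_subset _ hy₀)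
    exact ⟨_, hl, fun i => ⟨([], l, i), rfl⟩⟩
  obtain ⟨e, he⟩ := hEA.exists_eq_range hne
  obtain ⟨l₀, _⟩ := hQE y₀ (ker_subset _ hy₀)
  have : Nonempty (Fin k × ℕ) := ⟨(l₀, 0)⟩
  obtain ⟨req, hreq⟩ := exists_surjective_nat (Fin k × ℕ)
  -- one step of the fusion
  have hstep : ∀ (j : ℕ) (s : List (ℕ × Fin k) × ℕ), ∃ s' : List (ℕ × Fin k) × ℕ,
      rel s.2 (gen s.1).1 (gen s'.1).1 ∧ s.2 < s'.2 ∧
      ∃ i < s'.2, ((gen s'.1).1 (req j).1).2 i ≠ e (req j).2 i := by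
    rintro j ⟨t, p⟩
    by_cases h : ((gen t).1 (req j).1).2 = e (req j).2
    · have h1 : ((gen ((p, (req j).1) :: t)).1 (req j).1).2 ≠ e (req j).2 := by
        rw [← h]
        exact hφ2 (gen t) (p, (req j).1)
      obtain ⟨d, _, hd⟩ := exists_first_diff h1
      refine ⟨((p, (req j).1) :: t, max (p + 1) (d + 1)), ?_, ?_, d, ?_, hd⟩
      · exact hφ1 (gen t) (p, (req j).1)
      · exact lt_of_lt_of_le (Nat.lt_succ_self p) (le_max_left _ _)
      · exact lt_of_lt_of_le (Nat.lt_succ_self d) (le_max_right _ _)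
    · obtain ⟨d, _, hd⟩ := exists_first_diff h
      refine ⟨(t, max (p + 1) (d + 1)), (rel_equiv p).refl _, ?_, d, ?_, hd⟩
      · exact lt_of_lt_of_le (Nat.lt_succ_self p) (le_max_left _ _)
      · exact lt_of_lt_of_le (Nat.lt_succ_self d) (le_max_right _ _)
  choose nxt hn1 hn2 hn3 using hstep
  let st : ℕ → List (ℕ × Fin k) × ℕ := fun j => Nat.rec ([], 0) (fun j s => nxt j s) j
  have hst : ∀ j, st (j + 1) = nxt j (st j) := fun _ => rfl
  let y : ℕ → Fin k → Sp E F := fun j => (gen (st j).1).1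
  have hy : ∀ j, y j = (gen (st j).1).1 := fun _ => rfl
  have hp_mono : ∀ j, (st j).2 < (st (j + 1)).2 := fun j => by rw [hst]; exact hn2 j (st j)
  have hp_ge : ∀ j, j ≤ (st j).2 := by
    intro j
    induction j with
    | zero => exact Nat.zero_le _
    | succ j ih => exact Nat.succ_le_of_lt (lt_of_le_of_lt ih (hp_mono j))
  have hp_sm : StrictMono (fun j => (st j).2) := strictMono_nat_of_lt_succ hp_mono
  have hrel1 : ∀ j, rel (st j).2 (y j) (y (j + 1)) := by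
    intro j
    have := hn1 j (st j)
    rw [← hst] at this
    exact this
  have hrel : ∀ i j, rel (st i).2 (y i) (y (i + j)) := by
    intro i j
    induction j with
    | zero => exact (rel_equiv _).refl _
    | succ j ih =>
        refine (rel_equiv _).trans ih ?_
        exact rel_mono (hp_sm.monotone (Nat.le_add_right i j)) (hrel1 (i + j))
  -- the limit
  let f : Fin k → Sp E F := fun l => ((y₀ l).1, fun i => (y (i + 1) l).2 i)
  have hy0 : y 0 = y₀ := rfl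
  have hf : ∀ j, rel (st j).2 (y j) f := by
    intro j l
    constructor
    · have h1 := (hrel 0 j l).1
      rw [hy0, Nat.zero_add] at h1
      exact h1.symm
    · intro i hi
      show (y j l).2 i = (y (i + 1) l).2 i
      rcases le_total j (i + 1) with h | h
      · obtain ⟨c, hc⟩ := Nat.exists_eq_add_of_le h
        have := (hrel j c l).2 i hi
        rw [← hc] at this
        exact this
      · obtain ⟨c, rfl⟩ := Nat.exists_eq_add_of_le h
        have := (hrel (i + 1) c l).2 i (lt_of_lt_of_le (Nat.lt_succ_self i) (hp_ge (i + 1)))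
        exact this.symm
  have hfQ' : f ∈ Q' := by
    by_contra hcon
    obtain ⟨p, hp⟩ := hQ'c f hcon
    refine hp (y p) ?_ (gen (st p).1).2
    exact (rel_equiv p).symm (rel_mono (hp_ge p) (hf p))
  obtain ⟨l, hl⟩ := hQE f (ker_subset _ hfQ')
  have hfA : (f l).2 ∈ {y | y ∈ E ∧ ∀ i, y i ∈ A} := by
    refine ⟨hl, fun i => ⟨((st (i + 1)).1, l, i), rfl⟩⟩
  rw [he] at hfA
  obtain ⟨n, hn⟩ := hfA
  obtain ⟨j, hj⟩ := hreq (l, n)
  obtain ⟨i, hi1, hi2⟩ := hn3 j (st j)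
  rw [← hst] at hi1 hi2
  rw [hj] at hi2
  apply hi2
  show ((y (j + 1)) l).2 i = e n i
  rw [(hf (j + 1) l).2 i hi1, hn]

end

end Run7.h584
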