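import Mathlib

/-!
Abstract thin sets: the sigma-ideal generated by a family of basic sets, closed under
uniform gluing along a decreasing sequence of equivalence relations.
-/

namespace Run7.h584

open Set

/-- Thin sets. -/
inductive Thin {Y : Type*} (r : ℕ → Y → Y → Prop) (S : Set (Set Y)) : Set Y → Prop
  | empty : Thin r S ∅
  | basic (s : Set Y) : s ∈ S → Thin r S s
  | mono (s t : Set Y) : Thin r S t → s ⊆ t → Thin r S s
  | iUnion (s : ℕ → Set Y) : (∀ n, Thin r S (s n)) → Thin r S (⋃ n, s n)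
  | glue (p : ℕ) (s : Set Y) : (∀ y, Thin r S (s ∩ {z | r p y z})) → Thin r S s

variable {Y : Type*} {r : ℕ → Y → Y → Prop} {S : Set (Set Y)}

theorem Thin.union {s t : Set Y} (hs : Thin r S s) (ht : Thin r S t) : Thin r S (s ∪ t) := by
  have h : Thin r S (⋃ n : ℕ, (if n = 0 then s else t)) := by
    apply Thin.iUnion
    intro n
    by_cases hn : n = 0
    · simpa [hn] using hs
    · simpa [hn] using ht
  refine Thin.mono _ _ h ?_
  rintro x (hx | hx)
  · exact mem_iUnion.2 ⟨0, by simpa using hx⟩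
  · exact mem_iUnion.2 ⟨1, by simpa using hx⟩

theorem Thin.iUnion_countable {ι : Type*} [Countable ι] {s : ι → Set Y}
    (hs : ∀ i, Thin r S (s i)) : Thin r S (⋃ i, s i) := by
  rcases isEmpty_or_nonempty ι with h | h
  · rw [iUnion_of_empty]; exact Thin.empty
  · obtain ⟨e, he⟩ := exists_surjective_nat ι
    have h2 : Thin r S (⋃ n : ℕ, s (e n)) := Thin.iUnion _ (fun n => hs (e n))
    refine Thin.mono _ _ h2 ?_
    intro x hx
    obtain ⟨i, hi⟩ := mem_iUnion.1 hx
    obtain ⟨n, rfl⟩ := he i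
    exact mem_iUnion.2 ⟨n, hi⟩

theorem Thin.biUnion_countable {ι : Type*} {I : Set ι} (hI : I.Countable) {s : ι → Set Y}
    (hs : ∀ i ∈ I, Thin r S (s i)) : Thin r S (⋃ i ∈ I, s i) := by
  have : Countable I := hI.to_subtype
  rw [biUnion_eq_iUnion]
  exact Thin.iUnion_countable (fun i => hs i.1 i.2)

/-- The kernel of a set. -/
def ker (r : ℕ → Y → Y → Prop) (S : Set (Set Y)) (R : Set Y) : Set Y :=
  {y | y ∈ R ∧ ∀ p, ¬ Thin r S (R ∩ {z | r p y z})}

theorem ker_subset (R : Set Y) : ker r S R ⊆ R := fun _ hy => hy.1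

theorem thin_diff_ker (hr : ∀ p, Equivalence (r p)) (R : Set Y) :
    Thin r S (R \ ker r S R) := by
  have h : Thin r S (⋃ p : ℕ, {y | y ∈ R ∧ Thin r S (R ∩ {z | r p y z})}) := by
    apply Thin.iUnion
    intro p
    apply Thin.glue p
    intro y
    by_cases hne : ∃ w, w ∈ R ∧ Thin r S (R ∩ {z | r p w z}) ∧ r p y w
    · obtain ⟨w, hwR, hwT, hyw⟩ := hne
      refine Thin.mono _ _ hwT ?_
      rintro z ⟨⟨hzR, hzT⟩, hyz⟩
      exact ⟨hzR, (hr p).trans ((hr p).symm hyw) hyz⟩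
    · refine Thin.mono _ _ Thin.empty ?_
      rintro z ⟨⟨hzR, hzT⟩, hyz⟩
      exact hne ⟨z, hzR, hzT, hyz⟩
  refine Thin.mono _ _ h ?_
  rintro y ⟨hyR, hyK⟩
  have : ∃ p, Thin r S (R ∩ {z | r p y z}) := by
    by_contra hcon
    push Not at hcon
    exact hyK ⟨hyR, hcon⟩
  obtain ⟨p, hp⟩ := this
  exact mem_iUnion.2 ⟨p, hyR, hp⟩

theorem not_thin_ker_inter (hr : ∀ p, Equivalence (r p)) (R : Set Y) {y : Y}
    (hy : y ∈ ker r S R) (p : ℕ) : ¬ Thin r S (ker r S R ∩ {z | r p y z}) := by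
  intro h
  apply hy.2 p
  refine Thin.mono _ _ (h.union (thin_diff_ker hr R)) ?_
  rintro z ⟨hzR, hz⟩
  by_cases hzK : z ∈ ker r S R
  · exact Or.inl ⟨hzK, hz⟩
  · exact Or.inr ⟨hzR, hzK⟩

theorem not_thin_ker (hr : ∀ p, Equivalence (r p)) {R : Set Y} (hR : ¬ Thin r S R) :
    ¬ Thin r S (ker r S R) := by
  intro h
  apply hR
  refine Thin.mono _ _ (h.union (thin_diff_ker hr R)) ?_
  intro z hz
  by_cases hzK : z ∈ ker r S R
  · exact Or.inl hzK
  · exact Or.inr ⟨hz, hzK⟩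

theorem nonempty_of_not_thin {R : Set Y} (hR : ¬ Thin r S R) : R.Nonempty := by
  by_contra h
  rw [not_nonempty_iff_eq_empty] at h
  exact hR (h ▸ Thin.empty)

theorem Thin.preimage {Y' : Type*} {r' : ℕ → Y' → Y' → Prop} {S' : Set (Set Y')}
    (φ : Y → Y') (hφ : ∀ p y z, r p y z → r' p (φ y) (φ z))
    (hS : ∀ s ∈ S', Thin r S (φ ⁻¹' s)) {R : Set Y'} (hR : Thin r' S' R) :
    Thin r S (φ ⁻¹' R) := by
  induction hR with
  | empty => exact Thin.empty
  | basic s hs => exact hS s hs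
  | mono s t _ hst ih => exact Thin.mono _ _ ih (preimage_mono hst)
  | iUnion s _ ih =>
      rw [preimage_iUnion]
      exact Thin.iUnion _ ih
  | glue p s _ ih =>
      apply Thin.glue p
      intro y
      refine Thin.mono _ _ (ih (φ y)) ?_
      rintro z ⟨hz, hyz⟩
      exact ⟨hz, hφ p y z hyz⟩

end Run7.h584
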