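import Pool.Agent.Run7.h584.Walk

set_option linter.unusedSectionVars false

/-!
Oscillations along the lower trace, and countability of the traces.
-/

namespace Run7.h584

open Set

section
variable {W : Type*} [LinearOrder W]

open Classical in
/-- Number of oscillations. -/
noncomputable def Osc (st : W → Prop) (l : Finset W) : ℕ :=
  (l.filter (fun x => st x ∧ ∃ y ∈ l, y < x ∧ (∀ z ∈ l, z < x → z ≤ y) ∧ ¬ st y)).card

open Classical in
/-- Number of oscillations, when the previous status is known to be false. -/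
noncomputable def Osc0 (st : W → Prop) (l : Finset W) : ℕ :=
  (l.filter (fun x => st x ∧ ∀ y ∈ l, y < x → (∀ z ∈ l, z < x → z ≤ y) → ¬ st y)).card

theorem Osc_congr {st st' : W → Prop} {l l' : Finset W} (hl : l = l')
    (h : ∀ x ∈ l, (st x ↔ st' x)) : Osc st l = Osc st' l' := by
  classical
  subst hl
  unfold Osc
  congr 1
  apply Finset.filter_congr
  intro x hx
  rw [h x hx]
  constructor
  · rintro ⟨h1, y, hy, h2, h3, h4⟩
    exact ⟨h1, y, hy, h2, h3, fun h5 => h4 ((h y hy).2 h5)⟩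
  · rintro ⟨h1, y, hy, h2, h3, h4⟩
    exact ⟨h1, y, hy, h2, h3, fun h5 => h4 ((h y hy).1 h5)⟩

theorem Osc0_congr {st st' : W → Prop} {l l' : Finset W} (hl : l = l')
    (h : ∀ x ∈ l, (st x ↔ st' x)) : Osc0 st l = Osc0 st' l' := by
  classical
  subst hl
  unfold Osc0
  congr 1
  apply Finset.filter_congr
  intro x hx
  rw [h x hx]
  constructor
  · rintro ⟨h1, h2⟩
    exact ⟨h1, fun y hy h3 h4 h5 => h2 y hy h3 h4 ((h y hy).2 h5)⟩
  · rintro ⟨h1, h2⟩
    exact ⟨h1, fun y hy h3 h4 h5 => h2 y hy h3 h4 ((h y hy).1 h5)⟩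

/-- Every element of a finite set which is not minimal has a predecessor. -/
theorem exists_pred {l : Finset W} {x : W} (h : ∃ y ∈ l, y < x) :
    ∃ y ∈ l, y < x ∧ ∀ z ∈ l, z < x → z ≤ y := by
  classical
  obtain ⟨y, hy, hyx⟩ := h
  obtain ⟨m, hm, hmax⟩ := (l.filter (fun z => z < x)).exists_max_image id
    ⟨y, Finset.mem_filter.2 ⟨hy, hyx⟩⟩
  have hm' := Finset.mem_filter.1 hm
  exact ⟨m, hm'.1, hm'.2, fun z hz hzx => hmax z (Finset.mem_filter.2 ⟨hz, hzx⟩)⟩

theorem Osc_union {st : W → Prop} {l₁ l₂ : Finset W} (hl : ∀ x ∈ l₁, ∀ y ∈ l₂, x < y)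
    {m : W} (hm : m ∈ l₁) (hmax : ∀ x ∈ l₁, x ≤ m) (hst : ¬ st m) :
    Osc st (l₁ ∪ l₂) = Osc st l₁ + Osc0 st l₂ := by
  classical
  unfold Osc Osc0
  rw [← Finset.card_union_of_disjoint]
  · congr 1
    ext x
    simp only [Finset.mem_filter, Finset.mem_union]
    constructor
    · rintro ⟨hx, h1, y, hy, h2, h3, h4⟩
      rcases hx with hx | hx
      · left
        refine ⟨hx, h1, y, ?_, h2, fun z hz hzx => h3 z (Or.inl hz) hzx, h4⟩
        rcases hy with hy | hy
        · exact hy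
        · exact absurd (hl x hx y hy) (not_lt.2 h2.le)
      · right
        refine ⟨hx, h1, ?_⟩
        intro w hw hwx hw2 hstw
        have hyw : w ≤ y := h3 w (Or.inr hw) hwx
        have hy2 : y ∈ l₂ := by
          rcases hy with hy | hy
          · exact absurd (hl y hy w hw) (not_lt.2 hyw)
          · exact hy
        have := hw2 y hy2 h2
        rw [le_antisymm hyw this] at hstw
        exact h4 hstw
    · rintro (⟨hx, h1, y, hy, h2, h3, h4⟩ | ⟨hx, h1, h2⟩)
      · refine ⟨Or.inl hx, h1, y, Or.inl hy, h2, ?_, h4⟩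
        rintro z (hz | hz) hzx
        · exact h3 z hz hzx
        · exact absurd (hl x hx z hz) (not_lt.2 hzx.le)
      · refine ⟨Or.inr hx, h1, ?_⟩
        by_cases hc : ∃ y ∈ l₂, y < x
        · obtain ⟨y, hy, hyx, hy2⟩ := exists_pred hc
          refine ⟨y, Or.inr hy, hyx, ?_, h2 y hy hyx hy2⟩
          rintro z (hz | hz) hzx
          · exact (hl z hz y hy).le
          · exact hy2 z hz hzx
        · refine ⟨m, Or.inl hm, hl m hm x hx, ?_, hst⟩
          rintro z (hz | hz) hzx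
          · exact hmax z hz
          · exact absurd ⟨z, hz, hzx⟩ hc
  · rw [Finset.disjoint_left]
    intro x hx hx'
    exact lt_irrefl _ (hl x (Finset.mem_filter.1 hx).1 x (Finset.mem_filter.1 hx').1)

theorem Osc_union_false {st : W → Prop} {l₁ l₂ : Finset W} (hl : ∀ x ∈ l₁, ∀ y ∈ l₂, x < y)
    (hst : ∀ x ∈ l₂, ¬ st x) : Osc st (l₁ ∪ l₂) = Osc st l₁ := by
  classical
  unfold Osc
  congr 1
  ext x
  simp only [Finset.mem_filter, Finset.mem_union]
  constructor
  · rintro ⟨hx, h1, y, hy, h2, h3, h4⟩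
    rcases hx with hx | hx
    · refine ⟨hx, h1, y, ?_, h2, fun z hz hzx => h3 z (Or.inl hz) hzx, h4⟩
      rcases hy with hy | hy
      · exact hy
      · exact absurd (hl x hx y hy) (not_lt.2 h2.le)
    · exact absurd h1 (hst x hx)
  · rintro ⟨hx, h1, y, hy, h2, h3, h4⟩
    refine ⟨Or.inl hx, h1, y, Or.inl hy, h2, ?_, h4⟩
    rintro z (hz | hz) hzx
    · exact h3 z hz hzx
    · exact absurd (hl x hx z hz) (not_lt.2 hzx.le)

theorem Osc0_true {st : W → Prop} {l : Finset W} (hne : l.Nonempty) (hst : ∀ x ∈ l, st x) :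
    Osc0 st l = 1 := by
  classical
  unfold Osc0
  rw [Finset.card_eq_one]
  obtain ⟨m, hm, hmin⟩ := l.exists_min_image id hne
  refine ⟨m, ?_⟩
  ext x
  simp only [Finset.mem_filter, Finset.mem_singleton]
  constructor
  · rintro ⟨hx, _, h2⟩
    by_contra hne'
    have hlt : m < x := lt_of_le_of_ne (hmin x hx) (Ne.symm hne')
    obtain ⟨y, hy, hyx, hy2⟩ := exists_pred ⟨m, hm, hlt⟩
    exact h2 y hy hyx hy2 (hst y hy)
  · rintro rfl
    exact ⟨hm, hst _ hm, fun y hy hyx => absurd (hmin y hy) (not_le.2 hyx)⟩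

end

namespace CSeq

variable {W : Type*} [LinearOrder W] [WellFoundedLT W] (S : CSeq W)

/-- The oscillation of two ordinals. -/
noncomputable def osc (S : CSeq W) (α β : W) : ℕ :=
  Osc (fun ξ => S.rho ξ β < S.rho ξ α) (S.L α β)

open Classical in
/-- The restriction of the weight function. -/
noncomputable def res (S : CSeq W) (γ β : W) : W → ℕ := fun ξ => if ξ < γ then S.rho ξ β else 0

theorem res_apply {γ β ξ : W} (h : ξ < γ) : S.res γ β ξ = S.rho ξ β := if_pos h

theorem res_countable (hW : ∀ b : W, (Iio b).Countable) (γ : W) :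
    (range (S.res γ)).Countable := by
  classical
  have : Countable (Iio γ) := (hW γ).to_subtype
  let φ : (Iio γ →₀ ℤ) → W → ℕ := fun u ξ =>
    if h : ξ < γ then ((S.rho ξ γ : ℤ) + u ⟨ξ, h⟩).toNat else 0
  have hsub : range (S.res γ) ⊆ (S.res γ '' Iio γ) ∪ range φ := by
    rintro _ ⟨β, rfl⟩
    rcases lt_or_ge β γ with h | h
    · exact Or.inl ⟨β, h, rfl⟩
    · right
      have hfin : (Function.support (fun ξ : Iio γ =>
          ((S.rho ξ.1 β : ℤ) - (S.rho ξ.1 γ : ℤ)))).Finite := by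
        apply Finite.of_finite_image (f := Subtype.val) _ (Subtype.val_injective.injOn)
        refine (S.rho_coh β γ h).subset ?_
        rintro _ ⟨ξ, hξ, rfl⟩
        refine ⟨ξ.2, fun heq => hξ ?_⟩
        simp [heq]
      refine ⟨Finsupp.ofSupportFinite _ hfin, ?_⟩
      funext ξ
      by_cases hξ : ξ < γ
      · rw [S.res_apply hξ]
        show (if h : ξ < γ then _ else 0) = _
        rw [dif_pos hξ]
        show ((S.rho ξ γ : ℤ) + ((S.rho ξ β : ℤ) - (S.rho ξ γ : ℤ))).toNat = _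
        simp
      · show (if h : ξ < γ then _ else 0) = _
        rw [dif_neg hξ]
        unfold res
        rw [if_neg hξ]
  exact (((hW γ).image _).union (countable_range φ)).mono hsub

open Classical in
/-- The restriction of the lower trace. -/
noncomputable def Ltr (S : CSeq W) (δ β : W) : W → Finset W :=
  fun ζ => if ζ < δ then S.L ζ β else ∅

open Classical in
/-- One step of the computation of the lower trace. -/
noncomputable def stepFun (S : CSeq W) (δ : W) (s : Finset W) (lam : W → Finset W) :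
    W → Finset W :=
  fun ζ => if ζ < δ then
    ((s.filter (fun y => y < ζ)) ∪ (if h : {x | x ∈ s ∧ ζ ≤ x}.Nonempty then
      S.L ζ ((wellFounded_lt (α := W)).min {x | x ∈ s ∧ ζ ≤ x} h) else lam ζ)).filter
      (fun x => ∀ y ∈ s, y < ζ → y ≤ x) else ∅

theorem Ltr_step {δ β : W} (h : δ < β) :
    S.Ltr δ β = S.stepFun δ (S.lo δ β) (S.Ltr δ (S.step δ β)) := by
  classical
  funext ζ
  unfold Ltr stepFun
  by_cases hζ : ζ < δ
  · simp only [if_pos hζ]
    have hζβ : ζ < β := hζ.trans h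
    ext x
    rw [S.mem_L hζβ, Finset.mem_filter, Finset.mem_union, Finset.mem_filter]
    have hlo : ∀ y, y ∈ S.lo ζ β ↔ y ∈ S.lo δ β ∧ y < ζ := by
      intro y
      rw [S.mem_lo hζβ, S.mem_lo h]
      constructor
      · rintro ⟨h1, h2⟩
        exact ⟨⟨h1, h2.trans hζ⟩, h2⟩
      · rintro ⟨⟨h1, _⟩, h2⟩
        exact ⟨h1, h2⟩
    have hst : S.L ζ (S.step ζ β) = (if h : {x | x ∈ S.lo δ β ∧ ζ ≤ x}.Nonempty then
      S.L ζ ((wellFounded_lt (α := W)).min {x | x ∈ S.lo δ β ∧ ζ ≤ x} h)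
        else S.L ζ (S.step δ β)) := by
      by_cases hex : {x | x ∈ S.lo δ β ∧ ζ ≤ x}.Nonempty
      · rw [dif_pos hex]
        congr 1
        have hmem := (wellFounded_lt (α := W)).min_mem {x | x ∈ S.lo δ β ∧ ζ ≤ x} hex
        refine S.step_eq hζβ ((S.mem_lo h).1 hmem.1).1 hmem.2 ?_
        intro c hc hζc
        by_contra hcon
        have hlt := not_le.1 hcon
        have hcδ : c < δ := hlt.trans ((S.mem_lo h).1 hmem.1).2
        exact (wellFounded_lt (α := W)).not_lt_min {x | x ∈ S.lo δ β ∧ ζ ≤ x}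
          (x := c) ⟨(S.mem_lo h).2 ⟨hc, hcδ⟩, hζc⟩ hlt
      · rw [dif_neg hex]
        congr 1
        refine S.step_eq hζβ (S.step_mem h) (hζ.le.trans (S.le_step h)) ?_
        intro c hc hζc
        apply S.step_le h hc
        by_contra hcon
        exact hex ⟨c, (S.mem_lo h).2 ⟨hc, not_le.1 hcon⟩, hζc⟩
    rw [hst, hlo x]
    constructor
    · rintro ⟨h1, h2⟩
      exact ⟨h1, fun y hy hyζ => h2 y ((hlo y).2 ⟨hy, hyζ⟩)⟩
    · rintro ⟨h1, h2⟩
      exact ⟨h1, fun y hy => h2 y ((hlo y).1 hy).1 ((hlo y).1 hy).2⟩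
  · rw [if_neg hζ, if_neg hζ]

theorem Ltr_countable (hW : ∀ b : W, (Iio b).Countable) (δ : W) :
    (S.Ltr δ '' Ici δ).Countable := by
  classical
  have : Countable (Iio δ) := (hW δ).to_subtype
  let φ : List (Finset (Iio δ)) → W → Finset W := fun l =>
    l.foldr (fun s lam => S.stepFun δ (s.image Subtype.val) lam) (S.Ltr δ δ)
  have key : ∀ β, δ ≤ β → S.Ltr δ β ∈ range φ := by
    intro β
    induction β using WellFoundedLT.induction with
    | ind β ih =>
      intro hβ
      rcases hβ.lt_or_eq with h | h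
      · obtain ⟨l, hl⟩ := ih _ (S.step_lt h) (S.le_step h)
        refine ⟨(S.lo δ β).attach.image (fun y => ⟨y.1, ((S.mem_lo h).1 y.2).2⟩) :: l, ?_⟩
        rw [S.Ltr_step h]
        show S.stepFun δ _ (φ l) = _
        rw [hl]
        congr 1
        ext x
        simp only [Finset.mem_image, Finset.mem_attach, true_and, Subtype.exists]
        constructor
        · rintro ⟨a, ha, ⟨b, hb, hab⟩, rfl⟩
          have : b = a := congrArg Subtype.val hab
          exact this ▸ hb
        · intro hx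
          exact ⟨x, ((S.mem_lo h).1 hx).2, ⟨x, hx, rfl⟩, rfl⟩
      · subst h
        exact ⟨[], rfl⟩
  refine (countable_range φ).mono ?_
  rintro _ ⟨β, hβ, rfl⟩
  exact key β hβ

open Classical in
/-- The restriction of the oscillation. -/
noncomputable def otr (S : CSeq W) (δ β : W) : W → ℕ := fun ζ => if ζ < δ then S.osc ζ β else 0

theorem otr_apply {δ β ζ : W} (h : ζ < δ) : S.otr δ β ζ = S.osc ζ β := if_pos h

theorem otr_countable (hW : ∀ b : W, (Iio b).Countable) (δ : W) :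
    (S.otr δ '' Ici δ).Countable := by
  classical
  let ψ : (W → ℕ) × (W → Finset W) → W → ℕ := fun p ζ =>
    if ζ < δ then Osc (fun ξ => p.1 ξ < S.rho ξ ζ) (p.2 ζ) else 0
  have hc : (ψ '' (range (S.res δ) ×ˢ (S.Ltr δ '' Ici δ))).Countable :=
    ((S.res_countable hW δ).prod (S.Ltr_countable hW δ)).image ψ
  refine hc.mono ?_
  rintro _ ⟨β, hβ, rfl⟩
  refine ⟨(S.res δ β, S.Ltr δ β), ⟨⟨β, rfl⟩, ⟨β, hβ, rfl⟩⟩, ?_⟩
  funext ζ
  by_cases hζ : ζ < δ
  · rw [S.otr_apply hζ]
    show (if ζ < δ then _ else 0) = _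
    rw [if_pos hζ]
    have hl : S.Ltr δ β ζ = S.L ζ β := if_pos hζ
    refine Osc_congr hl ?_
    intro x hx
    have hx' : x ∈ S.Ltr δ β ζ := hx
    rw [hl] at hx'
    have hxζ := S.L_lt β ζ (hζ.le.trans hβ) x hx'
    show S.res δ β x < _ ↔ _
    rw [S.res_apply (hxζ.trans hζ)]
  · show (if ζ < δ then _ else 0) = _
    rw [if_neg hζ]
    unfold otr
    rw [if_neg hζ]

end CSeq

end Run7.h584
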