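import Pool.Agent.Run7.h584.Omega

set_option linter.unusedSectionVars false

/-!
Walks on countable ordinals: the maximal weight function and the lower trace.
-/

namespace Run7.h584

open Set

/-- A sequence of cofinal sets of order type at most `ω`. -/
structure CSeq (W : Type*) [LinearOrder W] where
  /-- the cofinal sets -/
  C : W → Set W
  lt' : ∀ β, ∀ c ∈ C β, c < β
  cof' : ∀ β α, α < β → ∃ c, c ∈ C β ∧ α ≤ c
  fin' : ∀ β α, α < β → (C β ∩ Iio α).Finite

section
variable {W : Type*} [LinearOrder W]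

theorem exists_cseq (hW : ∀ b : W, (Iio b).Countable) : Nonempty (CSeq W) := by
  classical
  have key : ∀ β : W, ∃ C : Set W, (∀ c ∈ C, c < β) ∧ (∀ α, α < β → ∃ c, c ∈ C ∧ α ≤ c) ∧
      (∀ α, α < β → (C ∩ Iio α).Finite) := by
    intro β
    rcases eq_empty_or_nonempty (Iio β) with h | h
    · refine ⟨∅, by simp, ?_, by simp⟩
      intro α hα
      have : α ∈ Iio β := hα
      rw [h] at this
      exact absurd this (notMem_empty _)
    · obtain ⟨u, hu⟩ := (hW β).exists_eq_range h
      have hult : ∀ i, u i < β := fun i => by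
        have : u i ∈ Iio β := by rw [hu]; exact ⟨i, rfl⟩
        exact this
      let c : ℕ → W := fun n => (Finset.range (n + 1)).sup' ⟨0, by simp⟩ u
      have hc1 : ∀ n i, i ≤ n → u i ≤ c n := fun n i hi =>
        Finset.le_sup' u (Finset.mem_range.2 (Nat.lt_succ_of_le hi))
      refine ⟨range c, ?_, ?_, ?_⟩
      · rintro _ ⟨n, rfl⟩
        refine (Finset.sup'_lt_iff _).2 (fun i _ => hult i)
      · intro α hα
        have : α ∈ range u := by rw [← hu]; exact hα
        obtain ⟨i, rfl⟩ := this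
        exact ⟨c i, ⟨i, rfl⟩, hc1 i i le_rfl⟩
      · intro α hα
        have : α ∈ range u := by rw [← hu]; exact hα
        obtain ⟨i, rfl⟩ := this
        refine ((finite_Iio i).image c).subset ?_
        rintro _ ⟨⟨n, rfl⟩, hn⟩
        refine ⟨n, ?_, rfl⟩
        show n < i
        by_contra hcon
        exact absurd (hc1 n i (not_lt.1 hcon)) (not_le.2 hn)
  choose C h1 h2 h3 using key
  exact ⟨⟨C, h1, h2, h3⟩⟩

variable [WellFoundedLT W]

namespace CSeq

/-- One step of the walk from `β` to `α`. -/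
noncomputable def step (S : CSeq W) (α β : W) : W := by
  classical exact
  if h : α < β then (wellFounded_lt (α := W)).min {c | c ∈ S.C β ∧ α ≤ c} (S.cof' β α h) else α

variable (S : CSeq W)

theorem step_spec {α β : W} (h : α < β) : S.step α β ∈ S.C β ∧ α ≤ S.step α β := by
  unfold step
  rw [dif_pos h]
  exact (wellFounded_lt (α := W)).min_mem {c | c ∈ S.C β ∧ α ≤ c} (S.cof' β α h)

theorem le_step {α β : W} (h : α < β) : α ≤ S.step α β := (S.step_spec h).2

theorem step_mem {α β : W} (h : α < β) : S.step α β ∈ S.C β := (S.step_spec h).1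

theorem step_lt {α β : W} (h : α < β) : S.step α β < β := S.lt' _ _ (S.step_mem h)

theorem step_le {α β : W} (h : α < β) {c : W} (hc : c ∈ S.C β) (hαc : α ≤ c) :
    S.step α β ≤ c := by
  unfold step
  rw [dif_pos h]
  exact not_lt.1 ((wellFounded_lt (α := W)).not_lt_min {c | c ∈ S.C β ∧ α ≤ c}
    (x := c) ⟨hc, hαc⟩)

theorem step_eq {α β : W} (h : α < β) {c : W} (hc : c ∈ S.C β) (hαc : α ≤ c)
    (hm : ∀ c' ∈ S.C β, α ≤ c' → c ≤ c') : S.step α β = c :=
  le_antisymm (S.step_le h hc hαc) (hm _ (S.step_mem h) (S.le_step h))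

/-- The elements of `C β` below `α`. -/
noncomputable def lo (S : CSeq W) (α β : W) : Finset W := by
  classical exact
  if h : α < β then (S.fin' β α h).toFinset else ∅

theorem mem_lo {α β : W} (h : α < β) {x : W} : x ∈ S.lo α β ↔ x ∈ S.C β ∧ x < α := by
  unfold lo
  rw [dif_pos h]
  simp

open Classical in
/-- The maximal weight. -/
noncomputable def rho (S : CSeq W) (α β : W) : ℕ :=
  (wellFounded_lt (α := W)).fix (C := fun _ => ℕ)
    (fun β ih => if h : α < β then max (S.lo α β).card (ih (S.step α β) (S.step_lt h)) else 0) β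

open Classical in
theorem rho_unfold (α β : W) : S.rho α β =
    if α < β then max (S.lo α β).card (S.rho α (S.step α β)) else 0 := by
  conv_lhs => rw [rho]
  rw [WellFounded.fix_eq]
  by_cases h : α < β
  · rw [dif_pos h, if_pos h]
    rfl
  · rw [dif_neg h, if_neg h]

theorem rho_of_lt {α β : W} (h : α < β) :
    S.rho α β = max (S.lo α β).card (S.rho α (S.step α β)) := by
  rw [rho_unfold, if_pos h]

theorem rho_self (α : W) : S.rho α α = 0 := by
  rw [rho_unfold, if_neg (lt_irrefl α)]

open Classical in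
/-- The lower trace. -/
noncomputable def L (S : CSeq W) (α β : W) : Finset W :=
  (wellFounded_lt (α := W)).fix (C := fun _ => Finset W)
    (fun β ih => if h : α < β then
      ((S.lo α β) ∪ ih (S.step α β) (S.step_lt h)).filter (fun x => ∀ y ∈ S.lo α β, y ≤ x)
      else ∅) β

open Classical in
theorem L_unfold (α β : W) : S.L α β =
    if α < β then
      ((S.lo α β) ∪ S.L α (S.step α β)).filter (fun x => ∀ y ∈ S.lo α β, y ≤ x) else ∅ := by
  conv_lhs => rw [L]
  rw [WellFounded.fix_eq]
  by_cases h : α < β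
  · rw [dif_pos h, if_pos h]
    rfl
  · rw [dif_neg h, if_neg h]

theorem L_self (α : W) : S.L α α = ∅ := by
  rw [L_unfold, if_neg (lt_irrefl α)]

theorem mem_L {α β : W} (h : α < β) {x : W} :
    x ∈ S.L α β ↔ (x ∈ S.lo α β ∨ x ∈ S.L α (S.step α β)) ∧ ∀ y ∈ S.lo α β, y ≤ x := by
  classical
  rw [L_unfold, if_pos h, Finset.mem_filter, Finset.mem_union]

theorem L_lt : ∀ β α : W, α ≤ β → ∀ x ∈ S.L α β, x < α := by
  intro β
  induction β using WellFoundedLT.induction with
  | ind β ih =>
    intro α hα x hx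
    rcases hα.lt_or_eq with h | h
    · rw [S.mem_L h] at hx
      rcases hx.1 with h1 | h1
      · exact ((S.mem_lo h).1 h1).2
      · exact ih _ (S.step_lt h) α (S.le_step h) x h1
    · subst h
      rw [S.L_self] at hx
      exact absurd hx (Finset.notMem_empty _)

theorem L_ge {α β c : W} (h : α < β) (hc : c ∈ S.C β) (hcα : c < α) :
    ∀ x ∈ S.L α β, c ≤ x := fun _ hx => ((S.mem_L h).1 hx).2 c ((S.mem_lo h).2 ⟨hc, hcα⟩)

theorem max_lo_mem {α β m : W} (h : α < β) (hm : m ∈ S.lo α β) (hmax : ∀ y ∈ S.lo α β, y ≤ m) :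
    m ∈ S.L α β := (S.mem_L h).2 ⟨Or.inl hm, hmax⟩

theorem L_nonempty {α β c : W} (h : α < β) (hc : c ∈ S.C β) (hcα : c < α) :
    (S.L α β).Nonempty := by
  have hne : (S.lo α β).Nonempty := ⟨c, (S.mem_lo h).2 ⟨hc, hcα⟩⟩
  obtain ⟨m, hm, hmax⟩ := (S.lo α β).exists_max_image id hne
  exact ⟨m, S.max_lo_mem h hm hmax⟩

theorem L_union : ∀ γ β α : W, α ≤ β → β ≤ γ → (∀ m ∈ S.L β γ, m < α) →
    (∀ m ∈ S.L β γ, ∀ x ∈ S.L α β, m < x) → ∀ x, x ∈ S.L α γ ↔ x ∈ S.L α β ∨ x ∈ S.L β γ := by
  intro γ
  induction γ using WellFoundedLT.induction with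
  | ind γ ih =>
    intro β α hαβ hβγ h1 h2 x
    rcases hβγ.lt_or_eq with hβ | hβ
    · have hα : α < γ := hαβ.trans_lt hβ
      have hlolt : ∀ y ∈ S.lo β γ, ∃ m ∈ S.L β γ, y ≤ m := by
        intro y hy
        obtain ⟨m, hm, hmax⟩ := (S.lo β γ).exists_max_image id ⟨y, hy⟩
        exact ⟨m, S.max_lo_mem hβ hm hmax, hmax y hy⟩
      have hlo : ∀ y, y ∈ S.lo α γ ↔ y ∈ S.lo β γ := by
        intro y
        rw [S.mem_lo hα, S.mem_lo hβ]
        constructor
        · rintro ⟨h3, h4⟩
          exact ⟨h3, h4.trans_le hαβ⟩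
        · rintro ⟨h3, h4⟩
          obtain ⟨m, hm, hym⟩ := hlolt y ((S.mem_lo hβ).2 ⟨h3, h4⟩)
          exact ⟨h3, hym.trans_lt (h1 m hm)⟩
      have hstep : S.step α γ = S.step β γ := by
        refine S.step_eq hα (S.step_mem hβ) (hαβ.trans (S.le_step hβ)) ?_
        intro c hc hαc
        apply S.step_le hβ hc
        by_contra hcon
        have hcβ : c < β := not_le.1 hcon
        obtain ⟨m, hm, hym⟩ := hlolt c ((S.mem_lo hβ).2 ⟨hc, hcβ⟩)
        exact absurd (hαc.trans hym) (not_le.2 (h1 m hm))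
      have h5 : ∀ m ∈ S.L β (S.step β γ), ∃ m' ∈ S.L β γ, m ≤ m' := by
        intro m hm
        by_cases hcase : ∀ y ∈ S.lo β γ, y ≤ m
        · exact ⟨m, (S.mem_L hβ).2 ⟨Or.inr hm, hcase⟩, le_rfl⟩
        · push Not at hcase
          obtain ⟨y, hy, hmy⟩ := hcase
          obtain ⟨m', hm', hym'⟩ := hlolt y hy
          exact ⟨m', hm', hmy.le.trans hym'⟩
      have hIH := ih (S.step β γ) (S.step_lt hβ) β α hαβ (S.le_step hβ)
        (fun m hm => by
          obtain ⟨m', hm', hle⟩ := h5 m hm
          exact hle.trans_lt (h1 m' hm'))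
        (fun m hm y hy => by
          obtain ⟨m', hm', hle⟩ := h5 m hm
          exact hle.trans_lt (h2 m' hm' y hy))
      rw [S.mem_L hα, S.mem_L hβ, hstep, hIH x]
      constructor
      · rintro ⟨h6, h7⟩
        rcases h6 with h6 | h6 | h6
        · right
          exact ⟨Or.inl ((hlo x).1 h6), fun y hy => h7 y ((hlo y).2 hy)⟩
        · exact Or.inl h6
        · right
          exact ⟨Or.inr h6, fun y hy => h7 y ((hlo y).2 hy)⟩
      · rintro (h6 | ⟨h6, h7⟩)
        · refine ⟨Or.inr (Or.inl h6), fun y hy => ?_⟩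
          obtain ⟨m, hm, hym⟩ := hlolt y ((hlo y).1 hy)
          exact hym.trans (h2 m hm x h6).le
        · refine ⟨?_, fun y hy => h7 y ((hlo y).1 hy)⟩
          rcases h6 with h6 | h6
          · exact Or.inl ((hlo x).2 h6)
          · exact Or.inr (Or.inr h6)
    · subst hβ
      rw [S.L_self]
      simp

/-- The maximal weight is finite-to-one. -/
theorem rho_fin : ∀ (β : W) (n : ℕ), {ξ | ξ < β ∧ S.rho ξ β ≤ n}.Finite := by
  classical
  intro β
  induction β using WellFoundedLT.induction with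
  | ind β ih =>
    intro n
    let T : Set W := {c | c ∈ S.C β ∧ ∀ F : Finset W, (∀ y ∈ F, y ∈ S.C β ∧ y < c) → F.card ≤ n}
    have hT : T.Finite := by
      by_contra hcon
      have hinf : T.Infinite := hcon
      obtain ⟨F, hF, hcard⟩ := hinf.exists_subset_card_eq (n + 2)
      have hne : F.Nonempty := by
        rw [← Finset.card_pos, hcard]; omega
      obtain ⟨m, hm, hmax⟩ := F.exists_max_image id hne
      have h1 : m ∈ T := hF hm
      have h2 := h1.2 (F.erase m) (by
        intro y hy
        have hy' := Finset.mem_erase.1 hy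
        refine ⟨(hF hy'.2).1, lt_of_le_of_ne (hmax y hy'.2) hy'.1⟩)
      rw [Finset.card_erase_of_mem hm, hcard] at h2
      omega
    have hsub : {ξ | ξ < β ∧ S.rho ξ β ≤ n} ⊆ ⋃ c ∈ T, ({ξ | ξ < c ∧ S.rho ξ c ≤ n} ∪ {c}) := by
      rintro ξ ⟨hξ, hr⟩
      rw [S.rho_of_lt hξ] at hr
      have hr1 := (le_max_left _ _).trans hr
      have hr2 := (le_max_right _ _).trans hr
      refine mem_biUnion (x := S.step ξ β) ?_ ?_
      · refine ⟨S.step_mem hξ, fun F hF => ?_⟩
        refine (Finset.card_le_card ?_).trans hr1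
        intro y hy
        rw [S.mem_lo hξ]
        refine ⟨(hF y hy).1, ?_⟩
        by_contra hcon
        exact absurd (S.step_le hξ (hF y hy).1 (not_lt.1 hcon)) (not_le.2 (hF y hy).2)
      · rcases (S.le_step hξ).lt_or_eq with h | h
        · exact Or.inl ⟨h, hr2⟩
        · exact Or.inr h
    refine Finite.subset (hT.biUnion ?_) hsub
    intro c hc
    exact (ih c (S.lt' _ _ hc.1) n).union (finite_singleton c)

/-- The maximal weight is coherent. -/
theorem rho_coh : ∀ (β α : W), α ≤ β → {ξ | ξ < α ∧ S.rho ξ α ≠ S.rho ξ β}.Finite := by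
  classical
  intro β
  induction β using WellFoundedLT.induction with
  | ind β ih =>
    intro α hα
    rcases hα.lt_or_eq with hαβ | hαβ
    · let R : Set W := {c | c ∈ S.C β ∧ c < α} ∪ {S.step α β}
      have hR : R.Finite := (S.fin' β α hαβ).union (finite_singleton _)
      have hRC : ∀ c ∈ R, c ∈ S.C β := by
        rintro c (hc | hc)
        · exact hc.1
        · rw [mem_singleton_iff.1 hc]; exact S.step_mem hαβ
      have hsub : {ξ | ξ < α ∧ S.rho ξ α ≠ S.rho ξ β} ⊆
          ⋃ c ∈ R, ({ξ | ξ < c ∧ S.rho ξ c ≤ (S.lo c β).card} ∪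
            ({ξ | ξ < c ∧ ξ < α ∧ S.rho ξ c ≠ S.rho ξ α} ∪ {c})) := by
        rintro ξ ⟨hξ, hne⟩
        have hξβ : ξ < β := hξ.trans hαβ
        refine mem_biUnion (x := S.step ξ β) ?_ ?_
        · by_cases hc : S.step ξ β < α
          · exact Or.inl ⟨S.step_mem hξβ, hc⟩
          · right
            show S.step ξ β = S.step α β
            apply le_antisymm
            · exact S.step_le hξβ (S.step_mem hαβ) (hξ.le.trans (S.le_step hαβ))
            · exact S.step_le hαβ (S.step_mem hξβ) (not_lt.1 hc)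
        · rcases (S.le_step hξβ).lt_or_eq with h | h
          · by_cases h2 : S.rho ξ (S.step ξ β) ≤ (S.lo (S.step ξ β) β).card
            · exact Or.inl ⟨h, h2⟩
            · right; left
              refine ⟨h, hξ, fun heq => hne ?_⟩
              rw [S.rho_of_lt hξβ, ← heq]
              have h3 : (S.lo ξ β).card ≤ (S.lo (S.step ξ β) β).card := by
                apply Finset.card_le_card
                intro y hy
                rw [S.mem_lo hξβ] at hy
                rw [S.mem_lo (S.step_lt hξβ)]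
                exact ⟨hy.1, hy.2.trans h⟩
              rw [max_eq_right]
              exact h3.trans (not_le.1 h2).le
          · exact Or.inr (Or.inr h)
      refine Finite.subset (hR.biUnion ?_) hsub
      intro c hc
      have hcβ : c < β := S.lt' _ _ (hRC c hc)
      refine (S.rho_fin c _).union (Finite.union ?_ (finite_singleton c))
      rcases le_total c α with h | h
      · exact (ih α hαβ c h).subset (fun ξ hξ => ⟨hξ.1, hξ.2.2⟩)
      · exact (ih c hcβ α h).subset (fun ξ hξ => ⟨hξ.2.1, fun h' => hξ.2.2 h'.symm⟩)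
    · subst hαβ
      simp

end CSeq

end

end Run7.h584
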